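import Pool.Agent.Lib.MP_7ac2ff_gt.HomDefs

/-! Concrete rational singular chains and the elementwise description of `QI`. -/

namespace Pool.Agent.Lib.MP_7ac2ff_gt.Hm

open CategoryTheory Limits Set Function AlgebraicTopology

abbrev Sp (n : ℕ) := stdSimplex ℝ (Fin (n + 1))
abbrev Sx (n : ℕ) (X : Type) [TopologicalSpace X] := C(Sp n, X)
abbrev Ch (n : ℕ) (X : Type) [TopologicalSpace X] := Sx n X →₀ ℚ

variable {X Y Z : Type} [TopologicalSpace X] [TopologicalSpace Y] [TopologicalSpace Z]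

noncomputable def face {n : ℕ} (i : Fin (n + 2)) : C(Sp n, Sp (n + 1)) :=
  ⟨stdSimplex.map i.succAbove, stdSimplex.continuous_map _⟩

noncomputable def bd (n : ℕ) : Ch (n + 1) X →ₗ[ℚ] Ch n X :=
  ∑ i : Fin (n + 2), ((-1 : ℚ) ^ i.val) • Finsupp.lmapDomain ℚ ℚ (fun s => s.comp (face i))

noncomputable def push (n : ℕ) (f : C(X, Y)) : Ch n X →ₗ[ℚ] Ch n Y :=
  Finsupp.lmapDomain ℚ ℚ (fun s => f.comp s)

lemma bd_single {n : ℕ} (s : Sx (n + 1) X) (a : ℚ) :
    bd n (Finsupp.single s a) =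
      ∑ i : Fin (n + 2), ((-1 : ℚ) ^ i.val) • Finsupp.single (s.comp (face i)) a := by
  simp [bd, LinearMap.sum_apply]

@[simp] lemma push_single {n : ℕ} (f : C(X, Y)) (s : Sx n X) (a : ℚ) :
    push n f (Finsupp.single s a) = Finsupp.single (f.comp s) a := by
  simp [push]

lemma ch_ext {n : ℕ} {M : Type} [AddCommGroup M] [Module ℚ M] {f g : Ch n X →ₗ[ℚ] M}
    (h : ∀ s, f (Finsupp.single s 1) = g (Finsupp.single s 1)) (c : Ch n X) : f c = g c := by
  have : f = g := by
    apply Finsupp.lhom_ext'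
    intro s
    apply LinearMap.ext_ring
    simpa using h s
  rw [this]

lemma bd_push {n : ℕ} (f : C(X, Y)) (c : Ch (n + 1) X) :
    bd n (push (n + 1) f c) = push n f (bd n c) :=
  ch_ext (f := bd n ∘ₗ push (n + 1) f) (g := push n f ∘ₗ bd n) (fun s => by
    simp [bd_single, map_sum, ContinuousMap.comp_assoc]) c

lemma push_push {n : ℕ} (f : C(X, Y)) (g : C(Y, Z)) (c : Ch n X) :
    push n g (push n f c) = push n (g.comp f) c :=
  ch_ext (f := push n g ∘ₗ push n f) (fun s => by simp [ContinuousMap.comp_assoc]) c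

lemma push_id {n : ℕ} (c : Ch n X) : push n (ContinuousMap.id X) c = c :=
  ch_ext (g := LinearMap.id) (fun s => by simp) c

/-- the boundary in every degree -/
noncomputable def D : (n : ℕ) → Ch n X →ₗ[ℚ] Ch (n - 1) X
  | 0 => 0
  | n + 1 => bd n

lemma D_push {n : ℕ} (f : C(X, Y)) (c : Ch n X) : D n (push n f c) = push (n - 1) f (D n c) := by
  cases n with
  | zero => simp [D]
  | succ n => exact bd_push f c

/-! comparison with Mathlib -/

open scoped Simplicial

noncomputable abbrev QQ : ModuleCat.{0} ℚ := ModuleCat.of ℚ ℚ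

noncomputable abbrev SS (X : Type) [TopologicalSpace X] : SSet.{0} :=
  TopCat.toSSet.obj (TopCat.of X)

noncomputable abbrev K (X : Type) [TopologicalSpace X] : ChainComplex (ModuleCat.{0} ℚ) ℕ :=
  (SS X).chainComplex QQ

noncomputable abbrev Kmap (f : C(X, Y)) : K X ⟶ K Y :=
  SSet.chainComplexMap (TopCat.toSSet.map (TopCat.ofHom f)) QQ

noncomputable def sx (n : ℕ) : Sx n X ≃ (SS X) _⦋n⦌ :=
  ((TopCat.of X).toSSetObjEquiv (Opposite.op ⦋n⦌)).symm

noncomputable def toK (n : ℕ) : Ch n X →ₗ[ℚ] (K X).X n :=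
  Finsupp.linearCombination ℚ fun s => ((SS X).ιChainComplex (R := QQ) (sx n s)).hom 1

noncomputable def ofK (n : ℕ) : (K X).X n ⟶ ModuleCat.of ℚ (Ch n X) :=
  Cofan.IsColimit.desc ((SS X).isColimitChainComplexXCofan QQ n) fun x =>
    ModuleCat.ofHom (Finsupp.lsingle ((sx n).symm x))

lemma iota_ofK (n : ℕ) (x : (SS X) _⦋n⦌) :
    (SS X).ιChainComplex (R := QQ) x ≫ ofK n =
      ModuleCat.ofHom (Finsupp.lsingle ((sx n).symm x)) :=
  Cofan.IsColimit.fac ((SS X).isColimitChainComplexXCofan QQ n) _ x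

lemma toK_single (n : ℕ) (s : Sx n X) :
    toK n (Finsupp.single s 1) = ((SS X).ιChainComplex (R := QQ) (sx n s)).hom 1 := by
  simp [toK]

lemma toK_bij (n : ℕ) : Bijective (toK (X := X) n) := by
  constructor
  · apply LeftInverse.injective (g := (ofK n).hom)
    intro c
    refine ch_ext (f := (ofK n).hom ∘ₗ toK n) (g := LinearMap.id) (fun s => ?_) c
    have := congrArg (fun φ => φ.hom (1 : ℚ)) (iota_ofK n (sx n s))
    simpa [toK_single] using this
  · apply RightInverse.surjective (g := (ofK n).hom)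
    intro c
    have : ofK n ≫ ModuleCat.ofHom (toK n) = 𝟙 ((K X).X n) := by
      apply SSet.chainComplex_hom_ext
      intro x
      rw [← Category.assoc, iota_ofK]
      apply ModuleCat.hom_ext
      apply LinearMap.ext_ring
      simp [toK_single]
    exact congrArg (fun φ => φ.hom c) this

lemma d_toK (n : ℕ) (c : Ch (n + 1) X) :
    ((K X).d (n + 1) n).hom (toK (n + 1) c) = toK n (bd n c) := by
  refine ch_ext (f := ((K X).d (n + 1) n).hom ∘ₗ toK (n + 1)) (g := toK n ∘ₗ bd n)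
    (fun s => ?_) c
  have := congrArg (fun φ => φ.hom (1 : ℚ)) ((SS X).ιChainComplex_d QQ (sx (n + 1) s))
  simp only [LinearMap.comp_apply, toK_single, bd_single, map_sum, map_smul]
  simp only [ModuleCat.hom_comp, LinearMap.comp_apply, ModuleCat.hom_sum, LinearMap.sum_apply,
    ModuleCat.hom_zsmul, LinearMap.smul_apply] at this
  rw [this]
  refine Finset.sum_congr rfl fun i _ => ?_
  rw [← Int.cast_smul_eq_zsmul ℚ]
  push_cast
  rfl

lemma f_toK (n : ℕ) (f : C(X, Y)) (c : Ch n X) :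
    ((Kmap f).f n).hom (toK n c) = toK n (push n f c) := by
  refine ch_ext (f := ((Kmap f).f n).hom ∘ₗ toK n) (g := toK n ∘ₗ push n f)
    (fun s => ?_) c
  have := congrArg (fun φ => φ.hom (1 : ℚ))
    (SSet.ι_chainComplexMap_f _ _ (TopCat.toSSet.map (TopCat.ofHom f)) QQ (sx n s))
  simp only [LinearMap.comp_apply, toK_single, push_single]
  exact this

lemma D_toK (n : ℕ) (c : Ch n X) :
    ((K X).d n (n - 1)).hom (toK n c) = toK (n - 1) (D n c) := by
  cases n with
  | zero => simp [D]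
  | succ n => exact d_toK n c

lemma D_bd (n : ℕ) (c : Ch (n + 1) X) : D n (bd n c) = 0 := by
  apply (toK_bij _).1
  rw [← D_toK, ← d_toK, map_zero]
  exact congrArg (fun φ => φ.hom (toK (n + 1) c)) ((K X).d_comp_d (n + 1) n (n - 1))

lemma bd_bd (n : ℕ) (c : Ch (n + 2) X) : bd n (bd (n + 1) c) = 0 := D_bd (n + 1) c

/-! homology classes -/

/-- the chain c is a cycle with class h -/
def Rep (n : ℕ) (c : Ch n X) (h : (K X).homology n) : Prop :=
  ∃ z : (K X).cycles n, ((K X).iCycles n).hom z = toK n c ∧ ((K X).homologyπ n).hom z = h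

lemma next_eq (n : ℕ) : (ComplexShape.down ℕ).next n = n - 1 := by
  cases n with
  | zero => simp
  | succ n => simp

lemma iC_inj (n : ℕ) : Injective ((K X).iCycles n).hom :=
  (ModuleCat.mono_iff_injective _).1 inferInstance

lemma Rep.cyc {n : ℕ} {c : Ch n X} {h : (K X).homology n} (r : Rep n c h) : D n c = 0 := by
  obtain ⟨z, hz, -⟩ := r
  apply (toK_bij _).1
  rw [← D_toK, ← hz, map_zero]
  exact congrArg (fun φ => φ.hom z) ((K X).iCycles_d n (n - 1))

lemma exists_rep {n : ℕ} {c : Ch n X} (hc : D n c = 0) : ∃ h, Rep n c h := by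
  have h0 : ModuleCat.ofHom (LinearMap.toSpanSingleton ℚ _ (toK n c)) ≫ (K X).d n (n - 1) = 0 := by
    apply ModuleCat.hom_ext
    apply LinearMap.ext_ring
    simp [D_toK, hc]
  refine ⟨_, ((K X).liftCycles _ (n - 1) (next_eq n) h0).hom 1, ?_, rfl⟩
  exact (congrArg (fun φ => φ.hom (1 : ℚ))
    ((K X).liftCycles_i _ (n - 1) (next_eq n) h0)).trans (one_smul ℚ (toK n c))

lemma exists_rep' {n : ℕ} (h : (K X).homology n) : ∃ c, Rep n c h := by
  obtain ⟨z, hz⟩ := (ModuleCat.epi_iff_surjective ((K X).homologyπ n)).1 inferInstance h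
  obtain ⟨c, hc⟩ := (toK_bij n).2 (((K X).iCycles n).hom z)
  exact ⟨c, z, hc.symm, hz⟩

lemma Rep.map {n : ℕ} {c : Ch n X} {h : (K X).homology n} (r : Rep n c h) (f : C(X, Y)) :
    Rep n (push n f c) ((HomologicalComplex.homologyMap (Kmap f) n).hom h) := by
  obtain ⟨z, hz, rfl⟩ := r
  refine ⟨(HomologicalComplex.cyclesMap (Kmap f) n).hom z, ?_, ?_⟩
  · rw [← f_toK, ← hz]
    exact congrArg (fun φ => φ.hom z) (HomologicalComplex.cyclesMap_i (Kmap f) n)
  · exact (congrArg (fun φ => φ.hom z) (HomologicalComplex.homologyπ_naturality (Kmap f) n)).symm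

lemma Rep.eq_iff {n : ℕ} {c c' : Ch n X} {h h' : (K X).homology n} (r : Rep n c h)
    (r' : Rep n c' h') : h = h' ↔ ∃ e, c - c' = bd n e := by
  obtain ⟨z, hz, rfl⟩ := r
  obtain ⟨z', hz', rfl⟩ := r'
  have hex : (ShortComplex.mk _ _ ((K X).toCycles_comp_homologyπ (n + 1) n)).Exact :=
    ShortComplex.exact_of_g_is_cokernel _ ((K X).homologyIsCokernel (n + 1) n (by simp))
  have key : ∀ e, ((K X).iCycles n).hom (((K X).toCycles (n + 1) n).hom (toK (n + 1) e)) =
      toK n (bd n e) := fun e => by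
    rw [← d_toK]
    exact congrArg (fun φ => φ.hom (toK (n + 1) e)) ((K X).toCycles_i (n + 1) n)
  rw [← sub_eq_zero, ← map_sub]
  constructor
  · intro h0
    obtain ⟨y, hy⟩ := (ShortComplex.moduleCat_exact_iff _).1 hex (z - z') h0
    obtain ⟨e, rfl⟩ := (toK_bij (n + 1)).2 y
    refine ⟨e, (toK_bij n).1 ?_⟩
    rw [map_sub, ← hz, ← hz', ← map_sub, ← key]
    exact congrArg _ hy.symm
  · rintro ⟨e, he⟩
    have : z - z' = ((K X).toCycles (n + 1) n).hom (toK (n + 1) e) := by
      apply iC_inj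
      rw [key, map_sub, hz, hz', ← map_sub, he]
    rw [this]
    exact congrArg (fun φ => φ.hom (toK (n + 1) e)) ((K X).toCycles_comp_homologyπ (n + 1) n)

lemma rep_zero (n : ℕ) : Rep n (0 : Ch n X) 0 := ⟨0, by simp, by simp⟩

lemma qi_iff (f : C(X, Y)) : QI f ↔ ∀ n,
    (∀ z : Ch n Y, D n z = 0 → ∃ x e, D n x = 0 ∧ z - push n f x = bd n e) ∧
    (∀ (x : Ch n X) e, D n x = 0 → push n f x = bd n e → ∃ e', x = bd n e') := by
  refine forall_congr' fun n => ?_
  change IsIso (HomologicalComplex.homologyMap (Kmap f) n) ↔ _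
  rw [ConcreteCategory.isIso_iff_bijective]
  change Bijective (HomologicalComplex.homologyMap (Kmap f) n).hom ↔ _
  constructor
  · rintro ⟨hi, hs⟩
    constructor
    · intro z hz
      obtain ⟨h, r⟩ := exists_rep hz
      obtain ⟨h, rfl⟩ := hs h
      obtain ⟨x, rx⟩ := exists_rep' h
      obtain ⟨e, he⟩ := (r.eq_iff (rx.map f)).1 rfl
      exact ⟨x, e, rx.cyc, he⟩
    · intro x e hx he
      obtain ⟨h, r⟩ := exists_rep hx
      have h0 := ((r.map f).eq_iff (rep_zero n)).2 ⟨e, by simpa using he⟩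
      have : h = 0 := hi (by rw [h0, map_zero])
      simpa using (r.eq_iff (rep_zero n)).1 this
  · rintro ⟨hs, hi⟩
    constructor
    · rw [injective_iff_map_eq_zero]
      intro h h0
      obtain ⟨x, r⟩ := exists_rep' h
      obtain ⟨e, he⟩ := ((r.map f).eq_iff (rep_zero n)).1 h0
      exact (r.eq_iff (rep_zero n)).2 (by simpa using hi x e r.cyc (by simpa using he))
    · intro h
      obtain ⟨z, r⟩ := exists_rep' h
      obtain ⟨x, e, hx, he⟩ := hs z r.cyc
      obtain ⟨h', r'⟩ := exists_rep hx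
      exact ⟨h', ((r.eq_iff (r'.map f)).2 ⟨e, he⟩).symm⟩

lemma hf_homotopic {f g : C(X, Y)} (h : f.Homotopic g) (n : ℕ) :
    (HF n).map (TopCat.ofHom f) = (HF n).map (TopCat.ofHom g) := by
  obtain ⟨H⟩ := h
  exact TopCat.Homotopy.congr_homologyMap_singularChainComplexFunctor
    (f := TopCat.ofHom f) (g := TopCat.ofHom g) H QQ n

lemma push_homotopic {f g : C(X, Y)} (h : f.Homotopic g) {n : ℕ} {c : Ch n X} (hc : D n c = 0) :
    ∃ e, push n f c - push n g c = bd n e := by
  obtain ⟨k, r⟩ := exists_rep hc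
  exact ((r.map f).eq_iff (r.map g)).1 (congrArg (fun φ => φ.hom k) (hf_homotopic h n))

end Pool.Agent.Lib.MP_7ac2ff_gt.Hm
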