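import Pool.Agent.Lib.MP_7ac2ff_gt.Defs

/-! An annulus as a double cover of a rectangle. -/

namespace Pool.Agent.Lib.MP_7ac2ff_gt

open Set Function Real

/-- upper (true) and lower (false) half of the rectangle [-2,2] x [-1,1] -/
def RH (u : Bool) : Set (ℝ × ℝ) := Icc (-2) 2 ×ˢ (if u then Icc 0 1 else Icc (-1) 0)

namespace An

/-- three sides of the rectangle of height s and width 2 + 2 s, by arc length -/
def hh (s u : ℝ) : ℝ × ℝ := (max (-(1 + s)) (min (1 + s) u), min s (1 + 2 * s - |u|))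

variable {s u s' u' : ℝ}

theorem hh_top (h : |u| ≤ 1 + s) : hh s u = (u, s) := by
  rw [hh, min_eq_right (abs_le.1 h).2, max_eq_right (abs_le.1 h).1, min_eq_left (by linarith)]

theorem hh_rgt (h0 : 0 ≤ s) (h : 1 + s ≤ u) : hh s u = (1 + s, 1 + 2 * s - u) := by
  rw [hh, min_eq_left h, max_eq_right (by linarith), abs_of_nonneg (by linarith),
    min_eq_right (by linarith)]

theorem hh_lft (h0 : 0 ≤ s) (h : u ≤ -(1 + s)) : hh s u = (-(1 + s), 1 + 2 * s + u) := by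
  rw [hh, min_eq_right (by linarith), max_eq_left h, abs_of_nonpos (by linarith),
    min_eq_right (by linarith), sub_neg_eq_add]

theorem hh_cases (h0 : 0 ≤ s) (u : ℝ) : (|u| ≤ 1 + s ∧ hh s u = (u, s)) ∨
    (1 + s ≤ u ∧ hh s u = (1 + s, 1 + 2 * s - u)) ∨
      (u ≤ -(1 + s) ∧ hh s u = (-(1 + s), 1 + 2 * s + u)) := by
  rcases le_total (1 + s) u with h | h
  · exact .inr (.inl ⟨h, hh_rgt h0 h⟩)
  · rcases le_total u (-(1 + s)) with h' | h'
    · exact .inr (.inr ⟨h', hh_lft h0 h'⟩)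
    · exact .inl ⟨abs_le.2 ⟨h', h⟩, hh_top (abs_le.2 ⟨h', h⟩)⟩

theorem hh_max (h0 : 0 ≤ s) (u : ℝ) : max (hh s u).2 (|(hh s u).1| - 1) = s := by
  rcases hh_cases h0 u with ⟨a, e⟩ | ⟨a, e⟩ | ⟨a, e⟩ <;> rw [e]
  · exact max_eq_left (by linarith)
  · rw [abs_of_nonneg (by linarith), add_sub_cancel_left]
    exact max_eq_right (by linarith)
  · rw [abs_neg, abs_of_nonneg (by linarith), add_sub_cancel_left]
    exact max_eq_right (by linarith)

theorem hh_inj (h0 : 0 ≤ s) (h0' : 0 ≤ s') (h : hh s u = hh s' u') : s = s' ∧ u = u' := by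
  obtain rfl : s = s' := by rw [← hh_max h0 u, h, hh_max h0']
  refine ⟨rfl, ?_⟩
  rcases hh_cases h0 u with ⟨a, e⟩ | ⟨a, e⟩ | ⟨a, e⟩ <;>
    rcases hh_cases h0 u' with ⟨a', e'⟩ | ⟨a', e'⟩ | ⟨a', e'⟩ <;>
      rw [e, e', Prod.mk.injEq] at h <;> linarith [h.1, h.2]

theorem hh_surj {y : ℝ × ℝ} (h : y ∈ RH true) :
    ∃ s ∈ Icc (0 : ℝ) 1, ∃ u, |u| ≤ 1 + 2 * s ∧ hh s u = y := by
  obtain ⟨⟨h1, h2⟩, h3, h4⟩ := h
  by_cases a : |y.1| ≤ 1 + y.2
  · exact ⟨_, ⟨h3, h4⟩, _, by linarith, hh_top a⟩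
  · rcases lt_abs.1 (not_le.1 a) with b | b
    · refine ⟨y.1 - 1, ⟨by linarith, by linarith⟩, 2 * y.1 - 1 - y.2,
        abs_le.2 ⟨by linarith, by linarith⟩, ?_⟩
      rw [hh_rgt (by linarith) (by linarith)]
      ext <;> simp only <;> ring
    · refine ⟨-y.1 - 1, ⟨by linarith, by linarith⟩, 2 * y.1 + 1 + y.2,
        abs_le.2 ⟨by linarith, by linarith⟩, ?_⟩
      rw [hh_lft (by linarith) (by linarith)]
      ext <;> simp only <;> ring

abbrev AA := Circle × II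

def sg (p : AA) : ℝ := 2 * p.2 - 1

def im (p : AA) : ℝ := (p.1 : ℂ).im

def uu (p : AA) : ℝ := (1 + 2 * |sg p|) * -(p.1 : ℂ).re

def GG (p : AA) : ℝ × ℝ := hh |sg p| (uu p)

def rf (u : Bool) (y : ℝ × ℝ) : ℝ × ℝ := (y.1, if u then y.2 else -y.2)

variable {p p' : AA}

theorem sq_add (p : AA) : (p.1 : ℂ).re ^ 2 + im p ^ 2 = 1 := by
  have := p.1.normSq_coe
  rwa [Complex.normSq_apply, ← sq, ← sq] at this

theorem sg_le (p : AA) : |sg p| ≤ 1 :=
  abs_le.2 ⟨by linarith [p.2.2.1, sg.eq_1 p], by linarith [p.2.2.2, sg.eq_1 p]⟩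

theorem uu_abs (p : AA) : |uu p| = (1 + 2 * |sg p|) * |(p.1 : ℂ).re| := by
  rw [uu, abs_mul, abs_neg, abs_of_pos (by positivity)]

theorem re_le (p : AA) : |(p.1 : ℂ).re| ≤ 1 := (Complex.abs_re_le_norm _).trans_eq p.1.norm_coe

theorem uu_le (p : AA) : |uu p| ≤ 1 + 2 * |sg p| :=
  (uu_abs p).trans_le (mul_le_of_le_one_right (by positivity) (re_le p))

theorem GG_max (p : AA) : max (GG p).2 (|(GG p).1| - 1) = |sg p| := hh_max (abs_nonneg _) _

theorem GG_nn (p : AA) : 0 ≤ (GG p).2 := le_min (abs_nonneg _) (sub_nonneg.2 (uu_le p))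

theorem GG_mem (p : AA) : |(GG p).1| ≤ 2 ∧ (GG p).2 ≤ 1 := by
  have := max_le_iff.1 ((GG_max p).trans_le (sg_le p))
  exact ⟨by linarith [this.2], this.1⟩

theorem rf_mem (u : Bool) (p : AA) : rf u (GG p) ∈ RH u := by
  refine ⟨abs_le.1 (GG_mem p).1, ?_⟩
  cases u
  · exact ⟨neg_le_neg (GG_mem p).2, neg_nonpos.2 (GG_nn p)⟩
  · exact ⟨GG_nn p, (GG_mem p).2⟩

theorem rf_abs (u : Bool) (p : AA) : |(rf u (GG p)).2| = (GG p).2 := by
  cases u <;> simp [rf, abs_of_nonneg (GG_nn p)]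

theorem sg_cont : Continuous sg := by unfold sg; fun_prop

theorem im_cont : Continuous im := by unfold im; fun_prop

theorem GG_cont : Continuous GG := by unfold GG hh uu sg; fun_prop

theorem rf_cont (u : Bool) : Continuous (rf u) := by
  cases u
  exacts [continuous_fst.prodMk continuous_snd.neg, continuous_fst.prodMk continuous_snd]

theorem at_mid (h : sg p = 0) : GG p = (-(p.1 : ℂ).re, 0) := by
  rw [GG, hh_top (by simpa [h] using uu_le p), uu, h]
  simp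

theorem at_out (h : im p = 0) : (GG p).2 = 0 ∧ 1 ≤ |(GG p).1| := by
  have a := sq_add p
  rw [h, zero_pow two_ne_zero, add_zero, sq_eq_one_iff, ← abs_eq zero_le_one] at a
  have b := uu_abs p
  rw [a, mul_one] at b
  have c := abs_nonneg (sg p)
  refine ⟨by simp [GG, hh, b], ?_⟩
  rcases hh_cases c (uu p) with ⟨d, e⟩ | ⟨d, e⟩ | ⟨d, e⟩ <;> rw [GG, e]
  · exact b.ge.trans' (by linarith)
  · exact le_abs.2 (.inl (by linarith))
  · exact le_abs.2 (.inr (by linarith))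

theorem of_zero (h : (GG p).2 = 0) (h' : 1 ≤ |(GG p).1|) : im p = 0 := by
  by_contra n
  have a : |(p.1 : ℂ).re| < 1 := by
    rw [← sq_lt_one_iff_abs_lt_one]
    linarith [sq_add p, pow_pos (sq_pos_of_ne_zero n) 1]
  have b : |uu p| < 1 + 2 * |sg p| :=
    (uu_abs p).trans_lt (mul_lt_of_lt_one_right (by positivity) a)
  rcases min_eq_iff.1 h with c | c
  · rw [at_mid (abs_eq_zero.1 c.1), abs_neg] at h'
    linarith
  · linarith [c.1]

theorem eq_of_abs {x y : ℝ} (h : |x| = |y|) (e : 0 ≤ x ↔ 0 ≤ y) : x = y := by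
  by_cases a : 0 ≤ x
  · rwa [abs_of_nonneg a, abs_of_nonneg (e.1 a)] at h
  · rwa [abs_of_neg (not_le.1 a), abs_of_neg (not_le.1 (mt e.2 a)), neg_inj] at h

theorem GG_inj (h : GG p = GG p') (e1 : 0 ≤ im p ↔ 0 ≤ im p')
    (e2 : (0 ≤ sg p ↔ 0 ≤ sg p') ∨ sg p = 0) : p = p' := by
  obtain ⟨a, b⟩ := hh_inj (abs_nonneg _) (abs_nonneg _) h
  rw [uu, uu, a, mul_right_inj' (by positivity), neg_inj] at b
  have c : sg p = sg p' := e2.elim (eq_of_abs a) fun z => by
    rw [z, abs_zero, eq_comm, abs_eq_zero] at a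
    rw [z, a]
  refine Prod.ext (Circle.ext (Complex.ext b (eq_of_abs ?_ e1))) (Subtype.ext ?_)
  · refine sq_eq_sq_iff_abs_eq_abs _ _ |>.1 ?_
    have := sq_add p
    rw [b] at this
    exact add_left_cancel (this.trans (sq_add p').symm)
  · linarith [sg.eq_1 p, sg.eq_1 p']

theorem ex_re {x e : ℝ} (h : |x| ≤ 1) (he : e = 1 ∨ e = -1) :
    (Circle.exp (e * arccos x) : ℂ).re = x := by
  rw [Circle.coe_exp, Complex.exp_ofReal_mul_I_re]
  rcases he with rfl | rfl <;> simp [cos_arccos (abs_le.1 h).1 (abs_le.1 h).2]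

theorem ex_im {x e : ℝ} (he : e = 1 ∨ e = -1) (t : II) :
    0 ≤ e * im (Circle.exp (e * arccos x), t) := by
  rw [im, Circle.coe_exp, Complex.exp_ofReal_mul_I_im]
  rcases he with rfl | rfl <;> simp [sin_arccos]

theorem GG_surj {y : ℝ × ℝ} (h : y ∈ RH true) {e f : ℝ} (he : e = 1 ∨ e = -1)
    (hf : f = 1 ∨ f = -1) : ∃ p, GG p = y ∧ 0 ≤ e * im p ∧ 0 ≤ f * sg p := by
  obtain ⟨s, ⟨s0, s1⟩, u, hu, rfl⟩ := hh_surj h
  have a : 0 < 1 + 2 * s := by positivity
  have b : |-(u / (1 + 2 * s))| ≤ 1 := by rwa [abs_neg, abs_div, abs_of_pos a, div_le_one a]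
  obtain ⟨p, p1, p2⟩ : ∃ p : AA, p.1 = Circle.exp (e * arccos (-(u / (1 + 2 * s)))) ∧
      sg p = f * s := ⟨(_, ⟨(1 + f * s) / 2, by
        rcases hf with rfl | rfl <;> constructor <;> linarith⟩), rfl, by simp only [sg]; ring⟩
  have c : |sg p| = s := by rcases hf with rfl | rfl <;> simp [p2, abs_of_nonneg s0]
  refine ⟨p, ?_, by rw [im, p1]; exact ex_im he 0, ?_⟩
  · rw [GG, uu, c, p1, ex_re b he, neg_neg, mul_div_cancel₀ _ a.ne']
  · rcases hf with rfl | rfl <;> simpa [p2]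

theorem GG_top {x e : ℝ} (h : x ∈ Icc (-2 : ℝ) 2) (he : e = 1 ∨ e = -1) :
    GG (Circle.exp (e * arccos (-x / 3)), 1) = (x, 1) := by
  have a : ∀ z, |sg (z, 1)| = 1 := fun z => by norm_num [sg]
  have b : uu (Circle.exp (e * arccos (-x / 3)), 1) = x := by
    rw [uu, a, ex_re (abs_le.2 ⟨by linarith [h.2], by linarith [h.1]⟩) he]
    ring
  rw [GG, a, b, hh_top (abs_le.2 ⟨by linarith [h.1], by linarith [h.2]⟩)]

theorem arc_img : (fun x : ℝ => arccos (-x / 3)) '' Icc (-2) 2 =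
    Icc (arccos (-(-2) / 3)) (arccos (-2 / 3)) :=
  ContinuousOn.image_Icc_of_monotoneOn (by norm_num) (by fun_prop)
    fun _ _ _ _ h => arccos_le_arccos (by linarith)

end An

open An in
/-- four half rectangles (sheet b, half u) form an annulus: the double cover of the rectangle
branched at (1,0) and (-1,0), sheets exchanged along the outer slits -/
theorem exists_annulus {W : Type} [TopologicalSpace W] (q : Bool → Bool → ℝ × ℝ → W)
    (hc : ∀ b u, ContinuousOn (q b u) (RH u))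
    (hmid : ∀ b x, |x| ≤ 1 → q b true (x, 0) = q b false (x, 0))
    (hout : ∀ b x, 1 ≤ |x| → |x| ≤ 2 → q b true (x, 0) = q (!b) false (x, 0))
    (hinj : ∀ b u b' u' y y', y ∈ RH u → y' ∈ RH u' → |y.1| < 2 → |y'.1| < 2 →
      q b u y = q b' u' y' → y = y' ∧ ((b = b' ∧ (u = u' ∨ (y.2 = 0 ∧ |y.1| ≤ 1))) ∨
        (b ≠ b' ∧ y.2 = 0 ∧ ((u ≠ u' ∧ 1 ≤ |y.1|) ∨ |y.1| = 1)))) :
    ∃ (φ : Circle × II → W) (Λ : Circle × II → ℝ × ℝ) (a b c d : ℝ), Continuous φ ∧
      range φ = ⋃ b, ⋃ u, q b u '' RH u ∧ (∀ z, ∃ b u, Λ z ∈ RH u ∧ φ z = q b u (Λ z)) ∧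
      (∀ z, (z.2 = 0 ∨ z.2 = 1) ↔ (|(Λ z).1| = 2 ∨ |(Λ z).2| = 1)) ∧
      InjOn φ {z | |(Λ z).1| < 2} ∧ a ≤ b ∧ c ≤ d ∧
      (fun θ => φ (Circle.exp θ, 1)) '' Icc a b = (fun x => q false true (x, 1)) '' Icc (-2) 2 ∧
      φ (Circle.exp a, 1) = q false true (-2, 1) ∧ φ (Circle.exp b, 1) = q false true (2, 1) ∧
      (fun θ => φ (Circle.exp θ, 1)) '' Icc c d = (fun x => q true false (x, -1)) '' Icc (-2) 2 ∧
      φ (Circle.exp c, 1) = q true false (2, -1) ∧ φ (Circle.exp d, 1) = q true false (-2, -1) := by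
  classical
  obtain ⟨Q, hQ⟩ : ∃ Q : Bool → Bool → AA → W, ∀ b u p, Q b u p = q b u (rf u (GG p)) :=
    ⟨_, fun _ _ _ => rfl⟩
  have Qc : ∀ b u, Continuous (Q b u) := fun b u => by
    rw [funext (hQ b u)]
    exact (hc b u).comp_continuous ((rf_cont u).comp GG_cont) (rf_mem u)
  have m : ∀ b p, 0 = sg p → Q b true p = Q b false p := fun b p h => by
    rw [hQ, hQ, at_mid h.symm]
    simpa [rf] using hmid b _ ((abs_neg _).trans_le (re_le p))
  have o : ∀ b p, 0 = im p → Q b true p = Q (!b) false p := fun b p h => by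
    rw [hQ, hQ]
    simpa [rf, (at_out h.symm).1] using hout b _ (at_out h.symm).2 (GG_mem p).1
  obtain ⟨A, hA⟩ : ∃ A : Bool → AA → W, ∀ b p, A b p = if 0 ≤ sg p then Q b (!b) p else Q b b p :=
    ⟨_, fun _ _ => rfl⟩
  have m' : ∀ b p, 0 = sg p → Q b (!b) p = Q b b p := fun b p h => by
    cases b
    exacts [m _ p h, (m _ p h).symm]
  have Ac : ∀ b, Continuous (A b) := fun b => by
    rw [funext (hA b)]
    exact (Qc _ _).if_le (Qc _ _) continuous_const sg_cont (m' b)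
  have o' : ∀ p, 0 = im p → A false p = A true p := fun p h => by
    rw [hA, hA]
    split_ifs
    exacts [o _ p h, (o true p h).symm]
  obtain ⟨φ, hφ⟩ : ∃ φ : AA → W, ∀ p, φ p = if 0 ≤ im p then A false p else A true p :=
    ⟨_, fun _ => rfl⟩
  have A1 : ∀ b p, 0 ≤ sg p → A b p = Q b (!b) p := fun b p h => by rw [hA, if_pos h]
  have A2 : ∀ b p, sg p ≤ 0 → A b p = Q b b p := fun b p h => by
    rw [hA]
    split_ifs with h'
    exacts [m' b p (h'.antisymm h), rfl]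
  have F1 : ∀ p, 0 ≤ im p → φ p = A false p := fun p h => by rw [hφ, if_pos h]
  have F2 : ∀ p, im p ≤ 0 → φ p = A true p := fun p h => by
    rw [hφ]
    split_ifs with h'
    exacts [o' p (h'.antisymm h), rfl]
  obtain ⟨U, hU⟩ : ∃ U : AA → Bool, ∀ p, U p = decide (0 ≤ im p ↔ 0 ≤ sg p) := ⟨_, fun _ => rfl⟩
  have key : ∀ p, φ p = q (decide (im p < 0)) (U p) (rf (U p) (GG p)) := fun p => by
    rw [hφ, hA, hA, hU, ← hQ]
    by_cases h1 : 0 ≤ im p <;> by_cases h2 : 0 ≤ sg p <;> simp [h1, h2, not_le.1, not_lt.2]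
  have s1 : ∀ z, 0 ≤ sg (z, 1) := fun z => by norm_num [sg]
  have T1 : ∀ x ∈ Icc (-2 : ℝ) 2, φ (Circle.exp (arccos (-x / 3)), 1) = q false true (x, 1) :=
    fun x hx => by
      rw [← one_mul (arccos _), F1 _ (by linarith [ex_im (x := -x / 3) (.inl rfl) 1]),
        A1 _ _ (s1 _), hQ, GG_top hx (.inl rfl)]
      rfl
  have T2 : ∀ x ∈ Icc (-2 : ℝ) 2, φ (Circle.exp (-arccos (-x / 3)), 1) = q true false (x, -1) :=
    fun x hx => by
      rw [← neg_one_mul (arccos _), F2 _ (by linarith [ex_im (x := -x / 3) (.inr rfl) 1]),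
        A1 _ _ (s1 _), hQ, GG_top hx (.inr rfl)]
      rfl
  have le : arccos (-(-2) / 3) ≤ arccos (-2 / 3) := arccos_le_arccos (by norm_num)
  refine ⟨φ, fun p => rf (U p) (GG p), arccos (-(-2) / 3), arccos (-2 / 3), -arccos (-2 / 3),
    -arccos (-(-2) / 3), ?_, ?_, fun p => ⟨_, _, rf_mem _ p, key p⟩, fun p => ?_,
    fun p hp p' hp' h => ?_, le, neg_le_neg le, ?_, T1 _ (by norm_num), T1 _ (by norm_num), ?_,
    T2 _ (by norm_num), T2 _ (by norm_num)⟩
  · rw [funext hφ]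
    exact (Ac _).if_le (Ac _) continuous_const im_cont o'
  · refine Subset.antisymm ?_ (iUnion₂_subset fun b u => ?_)
    · rintro _ ⟨p, rfl⟩
      exact mem_iUnion₂.2 ⟨_, _, _, rf_mem _ p, (key p).symm⟩
    · rintro _ ⟨y, hy, rfl⟩
      have a : rf u y ∈ RH true ∧ rf u (rf u y) = y := by
        cases u
        · exact ⟨⟨hy.1, neg_nonneg.2 hy.2.2, neg_le.2 hy.2.1⟩, by simp [rf]⟩
        · exact ⟨hy, rfl⟩
      obtain ⟨p, p1, p2, p3⟩ := GG_surj a.1 (e := if b then -1 else 1) (f := if b = u then -1 else 1)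
        (by split_ifs <;> simp) (by split_ifs <;> simp)
      refine ⟨p, ?_⟩
      rw [← a.2, ← p1, ← hQ]
      cases b <;> cases u <;> simp at p2 p3
      · rw [F1 p p2, A2 _ p p3]
      · rw [F1 p p2, A1 _ p p3]; rfl
      · rw [F2 p p2, A1 _ p p3]; rfl
      · rw [F2 p p2, A2 _ p p3]
  · have a : (p.2 = 0 ∨ p.2 = 1) ↔ |sg p| = 1 := by
      rw [abs_eq zero_le_one, or_comm, Subtype.ext_iff, Subtype.ext_iff, sg, Icc.coe_one,
        Icc.coe_zero]
      constructor <;> rintro (h | h) <;> first | (left; linarith) | (right; linarith)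
    rw [a, rf_abs, ← GG_max]
    show _ ↔ |(GG p).1| = 2 ∨ _
    obtain ⟨b1, b2⟩ := GG_mem p
    rcases le_total (GG p).2 (|(GG p).1| - 1) with c | c
    · rw [max_eq_right c]
      exact ⟨fun h => .inl (by linarith), fun h => h.elim (fun h => by linarith) fun h => by linarith⟩
    · rw [max_eq_left c]
      exact ⟨.inr, fun h => h.elim (fun h => by linarith) id⟩
  · obtain ⟨e, r⟩ := hinj _ _ _ _ _ _ (rf_mem _ p) (rf_mem _ p') hp hp'
      ((key p).symm.trans (h.trans (key p')))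
    have g : GG p = GG p' := Prod.ext (congrArg Prod.fst e :) (by rw [← rf_abs (U p), e, rf_abs])
    have z : (rf (U p) (GG p)).2 = 0 → (GG p).2 = 0 := fun h => by rw [← rf_abs (U p), h, abs_zero]
    rcases r with ⟨r1, r2⟩ | ⟨r1, r2, r3⟩
    · have i : 0 ≤ im p ↔ 0 ≤ im p' := by simpa [← not_le, not_iff_not] using r1
      refine GG_inj g i (r2.imp (fun r => ?_) fun r => ?_)
      · rw [hU, hU, decide_eq_decide] at r
        tauto
      · have := GG_max p
        rw [z r.1, max_eq_left (sub_nonpos.2 (show |(GG p).1| ≤ 1 from r.2))] at this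
        exact abs_eq_zero.1 this.symm
    · have b : 1 ≤ |(GG p).1| := r3.elim And.right fun r => r.ge
      rw [of_zero (z r2) b, of_zero (g ▸ z r2) (g ▸ b)] at r1
      exact (r1 rfl).elim
  · rw [← arc_img, image_image]
    exact image_congr T1
  · rw [← image_neg_Icc, ← arc_img, image_image, image_image]
    exact image_congr T2

end Pool.Agent.Lib.MP_7ac2ff_gt
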