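import Pool.Agent.Lib.MP_7ac2ff_gt.TubeDefs

/-! Normalising the tube and parametrising the two half-axes. -/

namespace Pool.Agent.Lib.MP_7ac2ff_gt

open Set Function Real
open scoped Manifold ContDiff Topology ComplexConjugate

namespace Ax

theorem re_mem (z : Circle) : -1 ≤ (z : ℂ).re ∧ (z : ℂ).re ≤ 1 :=
  abs_le.1 ((Complex.abs_re_le_norm _).trans_eq z.norm_coe)

theorem sq_add (z : Circle) : (z : ℂ).re ^ 2 + (z : ℂ).im ^ 2 = 1 := by
  have := z.normSq_coe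
  rwa [Complex.normSq_apply, ← sq, ← sq] at this

theorem up_re {t : ℝ} (h : t ∈ Icc (-1 : ℝ) 1) : (Circle.exp (arccos t) : ℂ).re = t := by
  rw [Circle.coe_exp, Complex.exp_ofReal_mul_I_re, cos_arccos h.1 h.2]

theorem up_im (t : ℝ) : 0 ≤ (Circle.exp (arccos t) : ℂ).im := by
  rw [Circle.coe_exp, Complex.exp_ofReal_mul_I_im, sin_arccos]
  exact sqrt_nonneg _

theorem upper {z : Circle} (h : 0 ≤ (z : ℂ).im) : Circle.exp (arccos (z : ℂ).re) = z := by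
  refine Circle.ext (Complex.ext (up_re (re_mem z)) ?_)
  rw [Circle.coe_exp, Complex.exp_ofReal_mul_I_im, sin_arccos, ← sq_add z, add_sub_cancel_left,
    sqrt_sq h]

theorem re_inj {z w : Circle} (h : 0 ≤ (z : ℂ).im) (h' : 0 ≤ (w : ℂ).im)
    (e : (z : ℂ).re = (w : ℂ).re) : z = w := by rw [← upper h, e, upper h']

theorem re_cont : Continuous fun z : Circle => (z : ℂ).re := by fun_prop

theorem im_cont : Continuous fun z : Circle => (z : ℂ).im := by fun_prop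

theorem im_zero {z : Circle} : (z : ℂ).im = 0 ↔ z = 1 ∨ z = -1 := by
  refine ⟨fun h => ?_, by rintro (rfl | rfl) <;> simp⟩
  have := sq_add z
  rw [h, zero_pow two_ne_zero, add_zero, sq_eq_one_iff] at this
  exact this.imp (fun e => Circle.ext (Complex.ext e h)) fun e =>
    Circle.ext (Complex.ext (by simpa using e) (by simpa using h))

/-- an arc through a real point of the circle crosses the real axis -/
theorem cross {f : ℝ → Circle} (hc : ContinuousOn f (Ioo (-2) 2)) (hi : InjOn f (Ioo (-2) 2))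
    (h0 : (f 0 : ℂ).im = 0) (h : ∀ r ∈ Ioo (-2 : ℝ) 2, 0 ≤ (f r : ℂ).im) : False := by
  have a := re_mem (f (-1))
  have b := re_mem (f 1)
  have c := sq_add (f 0)
  rw [h0] at c
  have m0 : (-1 : ℝ) ∈ Ioo (-2 : ℝ) 2 := by norm_num
  have m1 : (0 : ℝ) ∈ Ioo (-2 : ℝ) 2 := by norm_num
  have m2 : (1 : ℝ) ∈ Ioo (-2 : ℝ) 2 := by norm_num
  rcases (re_cont.comp_continuousOn hc).strictMonoOn_of_injOn_Ioo (by norm_num)
    fun x hx y hy e => hi hx hy (re_inj (h x hx) (h y hy) e) with s | s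
  · have h1 : (f (-1) : ℂ).re < (f 0 : ℂ).re := s m0 m1 (by norm_num)
    have h2 : (f 0 : ℂ).re < (f 1 : ℂ).re := s m1 m2 (by norm_num)
    nlinarith
  · have h1 : (f 0 : ℂ).re < (f (-1) : ℂ).re := s m0 m1 (by norm_num)
    have h2 : (f 1 : ℂ).re < (f 0 : ℂ).re := s m1 m2 (by norm_num)
    nlinarith

theorem sides {f : ℝ → Circle} (hc : ContinuousOn f (Ioo (-2) 2)) (hi : InjOn f (Ioo (-2) 2))
    (h0 : ∀ r ∈ Ioo (-2 : ℝ) 2, (f r : ℂ).im = 0 ↔ r = 0) : ∃ s : ℝ, (s = 1 ∨ s = -1) ∧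
      ∀ r ∈ Ioo (0 : ℝ) 2, 0 < (f (s * r) : ℂ).im ∧ (f (-(s * r)) : ℂ).im < 0 := by
  have z := (h0 0 (by norm_num)).2 rfl
  have s1 : Ioo (0 : ℝ) 2 ⊆ Ioo (-2) 2 := Ioo_subset_Ioo_left (by norm_num)
  have s2 : Ioo (-2 : ℝ) 0 ⊆ Ioo (-2) 2 := Ioo_subset_Ioo_right (by norm_num)
  have c := im_cont.comp_continuousOn hc
  have n : ∀ r ∈ Ioo (0 : ℝ) 2, -r ∈ Ioo (-2 : ℝ) 0 := fun r hr => ⟨by linarith [hr.2], by
    linarith [hr.1]⟩
  have p := isPreconnected_Ioo.mapsTo_Ioi_or_Iio (b := 0) (c.mono s1) fun r hr e =>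
    hr.1.ne' ((h0 r (s1 hr)).1 e)
  have q := isPreconnected_Ioo.mapsTo_Ioi_or_Iio (b := 0) (c.mono s2) fun r hr e =>
    hr.2.ne ((h0 r (s2 hr)).1 e)
  rcases p with p | p <;> rcases q with q | q
  · refine (cross hc hi z fun r hr => ?_).elim
    rcases lt_trichotomy r 0 with e | rfl | e
    exacts [le_of_lt (q ⟨hr.1, e⟩), z.ge, le_of_lt (p ⟨e, hr.2⟩)]
  · exact ⟨1, .inl rfl, fun r hr => by rw [one_mul]; exact ⟨p hr, q (n r hr)⟩⟩
  · exact ⟨-1, .inr rfl, fun r hr => by rw [neg_one_mul, neg_neg]; exact ⟨q (n r hr), p hr⟩⟩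
  · refine (cross (f := fun r => -f r) hc.neg (fun x hx y hy e => hi hx hy (neg_injective e))
      (by simpa using z) fun r hr => ?_).elim
    rw [Circle.coe_neg, Complex.neg_im, neg_nonneg]
    rcases lt_trichotomy r 0 with e | rfl | e
    exacts [le_of_lt (q ⟨hr.1, e⟩), z.le, le_of_lt (p ⟨e, hr.2⟩)]

/-- gluing two monotone pieces by an affine one -/
theorem glue {φ ψ : ℝ → ℝ} (c1 : ContinuousOn φ (Icc 0 1)) (c2 : ContinuousOn ψ (Icc (-1) 0))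
    (a1 : StrictAntiOn φ (Icc 0 1)) (a2 : StrictAntiOn ψ (Icc (-1) 0)) (h : ψ (-1) < φ 1) :
    ∃ τ : ℝ → ℝ, Continuous τ ∧ StrictAntiOn τ (Icc (-2) 2) ∧
      (∀ x ∈ Icc (-2 : ℝ) (-1), τ x = φ (x + 2)) ∧ ∀ x ∈ Icc (1 : ℝ) 2, τ x = ψ (x - 2) := by
  obtain ⟨τ, hτ⟩ : ∃ τ : ℝ → ℝ, τ = fun x => φ (max 0 (min 1 (x + 2))) +
    ψ (max (-1) (min 0 (x - 2))) - ψ (-1) + (ψ (-1) - φ 1) * max 0 (min 1 ((x + 1) / 2)) := ⟨_, rfl⟩
  have e1 : ∀ x ∈ Icc (-2 : ℝ) (-1), τ x = φ (x + 2) := fun x ⟨h1, h2⟩ => by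
    simp only [hτ]
    rw [min_eq_right (by linarith), max_eq_right (by linarith), min_eq_right (by linarith),
      max_eq_left (by linarith), min_eq_right (by linarith), max_eq_left (by linarith)]
    ring
  have e2 : ∀ x ∈ Icc (-1 : ℝ) 1, τ x = φ 1 + (ψ (-1) - φ 1) * ((x + 1) / 2) := fun x ⟨h1, h2⟩ => by
    simp only [hτ]
    rw [min_eq_left (by linarith), max_eq_right zero_le_one, min_eq_right (by linarith),
      max_eq_left (by linarith), min_eq_right (by linarith), max_eq_right (by linarith)]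
    ring
  have e3 : ∀ x ∈ Icc (1 : ℝ) 2, τ x = ψ (x - 2) := fun x ⟨h1, h2⟩ => by
    simp only [hτ]
    rw [min_eq_left (by linarith), max_eq_right zero_le_one, min_eq_right (by linarith),
      max_eq_right (by linarith), min_eq_left (by linarith), max_eq_right zero_le_one]
    ring
  refine ⟨τ, ?_, ?_, e1, e3⟩
  · rw [hτ]
    refine (((c1.comp_continuous (by fun_prop) fun x => ?_).add
      (c2.comp_continuous (by fun_prop) fun x => ?_)).sub continuous_const).add (by fun_prop)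
    · exact ⟨le_max_left _ _, max_le zero_le_one (min_le_left _ _)⟩
    · exact ⟨le_max_left _ _, max_le (by norm_num) (min_le_left _ _)⟩
  · have b1 : StrictAntiOn τ (Icc (-2) (-1)) := fun x hx y hy e => by
      rw [e1 x hx, e1 y hy]
      exact a1 ⟨by linarith [hx.1], by linarith [hx.2]⟩ ⟨by linarith [hy.1], by linarith [hy.2]⟩
        (by linarith)
    have b2 : StrictAntiOn τ (Icc (-1) 1) := fun x hx y hy e => by
      rw [e2 x hx, e2 y hy]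
      nlinarith
    have b3 : StrictAntiOn τ (Icc 1 2) := fun x hx y hy e => by
      rw [e3 x hx, e3 y hy]
      exact a2 ⟨by linarith [hx.1], by linarith [hx.2]⟩ ⟨by linarith [hy.1], by linarith [hy.2]⟩
        (by linarith)
    have b4 := b1.union b2 (isGreatest_Icc (by norm_num)) (isLeast_Icc (by norm_num))
    rw [Icc_union_Icc_eq_Icc (by norm_num) (by norm_num)] at b4
    have b5 := b4.union b3 (isGreatest_Icc (by norm_num)) (isLeast_Icc (by norm_num))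
    rwa [Icc_union_Icc_eq_Icc (by norm_num) (by norm_num)] at b5

variable {K : DSI} (T : Tube K) {e : ℂ} {r : ℝ} {a : Circle → S3}

theorem n1 (he : e = 1 ∨ e = -1) : ‖e‖ = 1 := by rcases he with rfl | rfl <;> simp

theorem n2 (hr : r ∈ Ioo (-2 : ℝ) 2) : ‖(r : ℂ)‖ < 2 := by
  rw [Complex.norm_real]; exact abs_lt.2 hr

theorem neg_pm (he : e = 1 ∨ e = -1) : -e = 1 ∨ -e = -1 := by
  rcases he with rfl | rfl <;> simp

theorem th_inj {y y' : ℂ × ℂ} (h1 : ‖y.1‖ = 1) (h2 : ‖y.2‖ < 2) (h3 : ‖y'.1‖ = 1) (h4 : ‖y'.2‖ < 2)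
    (h : T.Θ y = T.Θ y') : y = y' :=
  (T.right _ _ h1 h2).2.symm.trans ((congrArg T.P h).trans (T.right _ _ h3 h4).2)

theorem th_fix (he : e = 1 ∨ e = -1) (hr : r ∈ Ioo (-2 : ℝ) 2) :
    T.Θ (e, r) ∈ fixedPoints K.ρ := by
  rw [mem_fixedPoints_iff, T.eqv _ _ (n1 he) (n2 hr), Complex.conj_ofReal]
  rcases he with rfl | rfl <;> simp

theorem of_fix {x : S3} (hx : x ∈ T.U) (hf : x ∈ fixedPoints K.ρ) :
    ((T.P x).1 = 1 ∨ (T.P x).1 = -1) ∧ ∃ r : ℝ, (T.P x).2 = r := by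
  obtain ⟨h1, h2, h3⟩ := T.left x hx
  have h := T.eqv _ _ h1 h2
  rw [Prod.mk.eta, h3, mem_fixedPoints_iff.1 hf] at h
  have q := th_inj T (y' := (_, _)) h1 h2 (by simpa using h1) (by simpa using h2) (h3.trans h)
  refine ⟨?_, _, (Complex.conj_eq_iff_re.1 (congrArg Prod.snd q).symm).symm⟩
  have q1 := (Complex.conj_eq_iff_re.1 (congrArg Prod.fst q).symm).symm
  rw [q1, Complex.norm_real] at h1
  rcases eq_or_eq_neg_of_abs_eq h1 with h | h <;> rw [q1, h] <;> simp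

theorem th_cont (he : e = 1 ∨ e = -1) : ContinuousOn (fun r : ℝ => T.Θ (e, r)) (Ioo (-2) 2) :=
  T.sΘ.continuousOn.comp (by fun_prop) fun r hr =>
    ⟨norm_ne_zero_iff.1 ((n1 he).trans_ne one_ne_zero), n2 hr⟩

/-- the rays of the tube read on the axis -/
theorem ray (he : e = 1 ∨ e = -1) (hc : Continuous a) (hi : Injective a)
    (hf : range a = fixedPoints K.ρ) : ∃ f : ℝ → Circle, ContinuousOn f (Ioo (-2) 2) ∧
      InjOn f (Ioo (-2) 2) ∧ ∀ r ∈ Ioo (-2 : ℝ) 2, a (f r) = T.Θ (e, r) := by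
  have h : ∀ r ∈ Ioo (-2 : ℝ) 2, a (invFun a (T.Θ (e, r))) = T.Θ (e, r) := fun r hr =>
    invFun_eq (show _ ∈ range a from hf ▸ th_fix T he hr)
  refine ⟨_, ?_, fun x hx y hy q => ?_, h⟩
  · exact (hc.isClosedEmbedding hi).isInducing.continuousOn_iff.2 ((th_cont T he).congr h)
  · exact Complex.ofReal_injective (congrArg Prod.snd (th_inj T (n1 he) (n2 hx) (n1 he) (n2 hy)
      ((h x hx).symm.trans ((congrArg a q).trans (h y hy)))))

/-- the side of the axis on which a point lies -/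
def Sg (a : Circle → S3) (s : ℝ) (y : S3) : Prop := ∀ z, a z = y → 0 < s * (z : ℂ).im

theorem rays (he : e = 1 ∨ e = -1) : ∃ s : ℝ, (s = 1 ∨ s = -1) ∧ ∀ r ∈ Ioo (0 : ℝ) 2,
    Sg K.ax 1 (T.Θ (e, s * r)) ∧ Sg K.ax (-1) (T.Θ (e, -(s * r))) := by
  obtain ⟨f, c, i, h⟩ := ray T he K.cont K.inj K.fix
  obtain ⟨s, hs, q⟩ := sides c i fun r hr => by
    have := T.right _ _ (n1 he) (n2 hr)
    rw [im_zero, ← K.two, h r hr, T.knot, this.2, and_iff_right this.1, Complex.ofReal_eq_zero]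
  refine ⟨s, hs, fun r hr => ⟨fun z hz => ?_, fun z hz => ?_⟩⟩
  · rw [← Complex.ofReal_mul, ← h _ (by
      rcases hs with rfl | rfl <;> constructor <;> linarith [hr.1, hr.2])] at hz
    rw [K.inj hz, one_mul]
    exact (q r hr).1
  · rw [← Complex.ofReal_mul, ← Complex.ofReal_neg, ← h _ (by
      rcases hs with rfl | rfl <;> constructor <;> linarith [hr.1, hr.2])] at hz
    rw [K.inj hz]
    linarith [(q r hr).2]

theorem arc_of (he : e = 1 ∨ e = -1) (hc : Continuous a) (hi : Injective a)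
    (hf : range a = fixedPoints K.ρ) (h0 : T.Θ (e, 0) = a 1) (h1 : T.Θ (-e, 0) = a (-1))
    (h : ∀ r ∈ Ioo (0 : ℝ) 2, (Sg a 1 (T.Θ (e, r)) ∧ Sg a (-1) (T.Θ (e, -r))) ∧
      Sg a 1 (T.Θ (-e, -r)) ∧ Sg a (-1) (T.Θ (-e, r))) :
    ∃ γ, Arc T e (a '' {z | 0 ≤ (z : ℂ).im}) γ := by
  have he' := neg_pm he
  obtain ⟨f, fc, fi, hf1⟩ := ray T he hc hi hf
  obtain ⟨g, gc, gi, hg1⟩ := ray T he' hc hi hf
  have s1 : Icc (0 : ℝ) 1 ⊆ Ioo (-2) 2 := Icc_subset_Ioo (by norm_num) (by norm_num)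
  have s2 : Icc (-1 : ℝ) 0 ⊆ Ioo (-2) 2 := Icc_subset_Ioo (by norm_num) (by norm_num)
  have f0 : f 0 = 1 := hi ((hf1 0 (by norm_num)).trans h0)
  have g0 : g 0 = -1 := hi ((hg1 0 (by norm_num)).trans h1)
  have fu : ∀ r ∈ Icc (0 : ℝ) 1, 0 ≤ (f r : ℂ).im := fun r hr => by
    rcases hr.1.eq_or_lt with rfl | q
    · simp [f0]
    · linarith [(h r ⟨q, (s1 hr).2⟩).1.1 _ (hf1 r (s1 hr))]
  have gu : ∀ r ∈ Icc (-1 : ℝ) 0, 0 ≤ (g r : ℂ).im := fun r hr => by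
    rcases hr.2.eq_or_lt with rfl | q
    · simp [g0]
    · linarith [(h (-r) ⟨by linarith, by linarith [hr.1]⟩).2.1 _
        ((hg1 r (s2 hr)).trans (by simp))]
  have c1 := re_cont.comp_continuousOn (fc.mono s1)
  have c2 := re_cont.comp_continuousOn (gc.mono s2)
  have a1 := c1.strictAntiOn_of_injOn_Icc zero_le_one (by simpa [f0] using (re_mem (f 1)).2)
    fun x hx y hy q => fi (s1 hx) (s1 hy) (re_inj (fu x hx) (fu y hy) q)
  have a2 := c2.strictAntiOn_of_injOn_Icc (by norm_num) (by simpa [g0] using (re_mem (g (-1))).1)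
    fun x hx y hy q => gi (s2 hx) (s2 hy) (re_inj (gu x hx) (gu y hy) q)
  have lt : (g (-1) : ℂ).re < (f 1 : ℂ).re := by
    by_contra! q
    obtain ⟨r, hr, q'⟩ := intermediate_value_Icc' (by norm_num) c2
      (show (f 1 : ℂ).re ∈ _ from ⟨by simpa [g0] using (re_mem (f 1)).1, q⟩)
    have m := s1 (right_mem_Icc.2 zero_le_one)
    have := congrArg Prod.fst (th_inj T (n1 he') (n2 (s2 hr)) (n1 he) (n2 m) ((hg1 r (s2 hr)).symm.trans
      ((congrArg a (re_inj (gu r hr) (fu 1 (right_mem_Icc.2 zero_le_one)) q')).trans (hf1 1 m))))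
    rcases he with rfl | rfl <;> norm_num at this
  obtain ⟨τ, tc, ta, t1, t2⟩ := glue c1 c2 a1 a2 lt
  have u1 : τ (-2) = 1 := by simp [t1 (-2) (by norm_num), f0]
  have u2 : τ 2 = -1 := by simp [t2 2 (by norm_num), g0]
  have u3 : τ (-1) = (f 1 : ℂ).re := by rw [t1 (-1) (by norm_num)]; norm_num
  have u4 : τ 1 = (g (-1) : ℂ).re := by rw [t2 1 (by norm_num)]; norm_num
  have tm : ∀ x ∈ Icc (-2 : ℝ) 2, τ x ∈ Icc (-1 : ℝ) 1 := fun x hx =>
    ⟨u2 ▸ ta.antitoneOn hx (by norm_num) hx.2, u1 ▸ ta.antitoneOn (by norm_num) hx hx.1⟩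
  refine ⟨fun x => a (Circle.exp (arccos (τ x))), hc.comp (Circle.exp.continuous.comp
    (continuous_arccos.comp tc)), fun x hx y hy q => ta.injOn hx hy ?_, ?_, fun x hx => ?_,
    fun x hx => ?_, fun x hx ⟨hU, hP⟩ => ?_⟩
  · rw [← up_re (tm x hx), hi q, up_re (tm y hy)]
  · refine Subset.antisymm ?_ ?_
    · rintro _ ⟨x, -, rfl⟩
      exact ⟨_, up_im _, rfl⟩
    · rintro _ ⟨z, hz, rfl⟩
      obtain ⟨x, hx, q⟩ := intermediate_value_Icc' (by norm_num : (-2 : ℝ) ≤ 2) tc.continuousOn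
        (show (z : ℂ).re ∈ _ by rw [u1, u2]; exact re_mem z)
      exact ⟨x, hx, by simp only [q, upper hz]⟩
  · have m : x + 2 ∈ Icc (0 : ℝ) 1 := ⟨by linarith [hx.1], by linarith [hx.2]⟩
    rw [t1 x hx, comp_apply, upper (fu _ m), hf1 _ (s1 m)]
  · have m : x - 2 ∈ Icc (-1 : ℝ) 0 := ⟨by linarith [hx.1], by linarith [hx.2]⟩
    rw [t2 x hx, comp_apply, upper (gu _ m), hg1 _ (s2 m)]
  · have mx : x ∈ Icc (-2 : ℝ) 2 := ⟨by linarith [hx.1], by linarith [hx.2]⟩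
    have v1 : τ x < (f 1 : ℂ).re := u3 ▸ ta (by norm_num) mx hx.1
    have v2 : (g (-1) : ℂ).re < τ x := u4 ▸ ta mx (by norm_num) hx.2
    obtain ⟨p, r, hr⟩ := of_fix T hU (hf ▸ mem_range_self _)
    have l := (T.left _ hU).2.2
    have zi := up_im (τ x)
    rw [hr, Complex.norm_real, Real.norm_eq_abs, abs_le] at hP
    have p' : (T.P (a (Circle.exp (arccos (τ x))))).1 = e ∨
        (T.P (a (Circle.exp (arccos (τ x))))).1 = -e := by
      rcases he with rfl | rfl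
      exacts [p, by rwa [neg_neg, or_comm]]
    rcases p' with p' | p'
    · rw [← Prod.mk.eta (p := T.P _), p', hr] at l
      rcases lt_or_ge r 0 with q | q
      · linarith [(h (-r) ⟨by linarith, by linarith⟩).1.2 _ (l.symm.trans (by simp))]
      · have := a1.antitoneOn ⟨q, hP.2⟩ (right_mem_Icc.2 zero_le_one) hP.2
        rw [comp_apply, comp_apply, hi ((hf1 r (s1 ⟨q, hP.2⟩)).trans l), up_re (tm x mx)] at this
        linarith
    · rw [← Prod.mk.eta (p := T.P _), p', hr] at l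
      rcases lt_or_ge 0 r with q | q
      · linarith [(h r ⟨q, by linarith⟩).2.2 _ l.symm]
      · have := a2.antitoneOn (left_mem_Icc.2 (by norm_num)) ⟨hP.1, q⟩ hP.1
        rw [comp_apply, comp_apply, hi ((hg1 r (s2 ⟨hP.1, q⟩)).trans l), up_re (tm x mx)] at this
        linarith

/-- change of the coordinates of the tube -/
theorem twist (he : e = 1 ∨ e = -1) {m : ℂ → ℂ} (hm : ContDiffOn ℝ ∞ m {a | a ≠ 0})
    (h1 : ∀ a ≠ 0, ‖m a‖ = 1) (h2 : ∀ a, m (conj a) = conj (m a)) :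
    ∃ T' : Tube K, ∀ a v, T'.Θ (a, v) = T.Θ (e * a, m a * v) := by
  have ne := n1 he
  have ee : e * e = 1 := by rcases he with rfl | rfl <;> simp
  have ce : conj e = e := by rcases he with rfl | rfl <;> simp
  have e0 : e ≠ 0 := left_ne_zero_of_mul_eq_one ee
  have z : ∀ {a : ℂ}, ‖a‖ = 1 → a ≠ 0 := fun h => norm_ne_zero_iff.1 (h.trans_ne one_ne_zero)
  have m0 : ∀ a ≠ 0, m a ≠ 0 := fun a ha => z (h1 a ha)
  have d1 : ContDiffOn ℝ ∞ (fun y : ℂ × ℂ => (e * y.1, (m (e * y.1))⁻¹ * y.2)) {y | y.1 ≠ 0} :=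
    (by fun_prop : ContDiffOn ℝ ∞ (fun y : ℂ × ℂ => e * y.1) _).prodMk
      (((hm.comp (by fun_prop) fun y hy => mul_ne_zero e0 hy).inv
        fun y hy => m0 _ (mul_ne_zero e0 hy)).mul contDiffOn_snd)
  have d2 : ContDiffOn ℝ ∞ (fun y : ℂ × ℂ => (e * y.1, m y.1 * y.2)) {y | y.1 ≠ 0 ∧ ‖y.2‖ < 2} :=
    (by fun_prop : ContDiffOn ℝ ∞ (fun y : ℂ × ℂ => e * y.1) _).prodMk
      ((hm.comp contDiffOn_fst fun y hy => hy.1).mul contDiffOn_snd)
  have b : ∀ {a v : ℂ}, ‖a‖ = 1 → ‖v‖ < 2 → ‖e * a‖ = 1 ∧ ‖m a * v‖ < 2 := fun ha hv =>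
    ⟨by rw [norm_mul, ne, ha, one_mul], by rwa [norm_mul, h1 _ (z ha), one_mul]⟩
  refine ⟨⟨T.U, fun x => (e * (T.P x).1, (m (e * (T.P x).1))⁻¹ * (T.P x).2),
    fun y => T.Θ (e * y.1, m y.1 * y.2), T.opn,
    d1.contMDiffOn.comp T.sP fun x hx => z (T.left x hx).1,
    T.sΘ.comp d2.contMDiffOn fun y hy => ⟨mul_ne_zero e0 hy.1, ?_⟩, fun x hx => ?_,
    fun a v ha hv => ?_, fun x => ?_, fun a v ha hv => ?_⟩, fun _ _ => rfl⟩
  · show ‖m y.1 * y.2‖ < 2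
    rw [norm_mul, h1 _ hy.1, one_mul]
    exact hy.2
  · obtain ⟨l1, l2, l3⟩ := T.left x hx
    have q := (b l1 l2).1
    refine ⟨q, by rwa [norm_mul, norm_inv, h1 _ (z q), inv_one, one_mul], ?_⟩
    simp only
    rw [← mul_assoc, ee, one_mul, mul_inv_cancel_left₀ (m0 _ (z q)), l3]
  · obtain ⟨l1, l2⟩ := T.right _ _ (b ha hv).1 (b ha hv).2
    refine ⟨l1, ?_⟩
    simp only [l2]
    rw [← mul_assoc, ee, one_mul, inv_mul_cancel_left₀ (m0 _ (z ha))]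
  · rw [T.knot]
    refine and_congr_right fun hx => ?_
    simp [m0 _ (mul_ne_zero e0 (z (T.left x hx).1))]
  · simp only
    rw [T.eqv _ _ (b ha hv).1 (b ha hv).2, map_mul, map_mul, ce, h2]

theorem exists_m {s t : ℝ} (hs : s = 1 ∨ s = -1) (ht : t = 1 ∨ t = -1) : ∃ m : ℂ → ℂ,
    ContDiffOn ℝ ∞ m {a | a ≠ 0} ∧ (∀ a ≠ 0, ‖m a‖ = 1) ∧ (∀ a, m (conj a) = conj (m a)) ∧
      m 1 = s ∧ m (-1) = -t := by
  have n : ‖(s : ℂ)‖ = 1 := by rcases hs with rfl | rfl <;> simp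
  by_cases h : t = s
  · refine ⟨fun a => s * (‖a‖⁻¹ • a), contDiffOn_const.mul (ContDiffOn.smul (fun a (ha : a ≠ 0) =>
      ((contDiffAt_norm ℝ ha).inv (norm_ne_zero_iff.2 ha)).contDiffWithinAt) contDiffOn_id),
      fun a ha => ?_, fun a => by simp, by simp, by simp [h]⟩
    rw [norm_mul, n, one_mul, norm_smul, norm_inv, norm_norm,
      inv_mul_cancel₀ (norm_ne_zero_iff.2 ha)]
  · refine ⟨fun _ => s, contDiffOn_const, fun _ _ => n, fun _ => by simp, rfl, ?_⟩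
    rcases hs with rfl | rfl <;> rcases ht with rfl | rfl <;> simp at h ⊢

theorem ends : ∃ e : ℂ, (e = 1 ∨ e = -1) ∧ T.Θ (e, 0) = K.ax 1 ∧ T.Θ (-e, 0) = K.ax (-1) := by
  have a : ∀ {e : ℂ}, e = 1 ∨ e = -1 → T.Θ (e, 0) = K.ax 1 ∨ T.Θ (e, 0) = K.ax (-1) := fun he => by
    obtain ⟨z, hz⟩ : T.Θ (_, (0 : ℝ)) ∈ range K.ax := K.fix ▸ th_fix T he (by norm_num)
    have := T.right _ 0 (n1 he) (by simp)
    rw [Complex.ofReal_zero] at hz
    rcases (K.two z).1 (hz ▸ (T.knot _).2 ⟨this.1, by rw [this.2]⟩) with rfl | rfl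
    exacts [.inl hz.symm, .inr hz.symm]
  have n : T.Θ (1, 0) ≠ T.Θ (-1, 0) := fun h => by
    have := congrArg Prod.fst (th_inj T (by simp) (by simp) (by simp) (by simp) h)
    norm_num at this
  rcases a (.inl rfl) with p | p <;> rcases a (.inr rfl) with q | q
  · exact (n (p.trans q.symm)).elim
  · exact ⟨1, .inl rfl, p, q⟩
  · exact ⟨-1, .inr rfl, q, by rwa [neg_neg]⟩
  · exact (n (p.trans q.symm)).elim

theorem Sg.anti {s : ℝ} {y : S3} (h : Sg K.ax s y) : Sg K.anti.ax (-s) y := fun z hz => by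
  simpa using h _ hz

end Ax

open Ax in
theorem exists_arcs {K : DSI} (T₀ : Tube K) : ∃ (T : Tube K) (γ γ' : ℝ → S3),
    T.Θ (1, 0) = K.ax 1 ∧ T.Θ (-1, 0) = K.ax (-1) ∧ Arc T 1 K.half γ ∧
      Arc T (-1) K.anti.half γ' := by
  obtain ⟨e, he, e1, e2⟩ := ends T₀
  obtain ⟨s, hs, s1⟩ := rays T₀ he
  obtain ⟨t, ht, t1⟩ := rays T₀ (neg_pm he)
  obtain ⟨m, m1, m2, m3, m4, m5⟩ := exists_m hs ht
  obtain ⟨T, hT⟩ := twist T₀ he m1 m2 m3
  have p : ∀ v, T.Θ (1, v) = T₀.Θ (e, s * v) := fun v => by rw [hT, mul_one, m4]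
  have q : ∀ v, T.Θ (-1, v) = T₀.Θ (-e, -(t * v)) := fun v => by rw [hT, mul_neg_one, m5, neg_mul]
  have a1 : T.Θ (1, 0) = K.ax 1 := by rw [p, mul_zero, e1]
  have a2 : T.Θ (-1, 0) = K.ax (-1) := by rw [q, mul_zero, neg_zero, e2]
  have h : ∀ r ∈ Ioo (0 : ℝ) 2, (Sg K.ax 1 (T.Θ (1, r)) ∧ Sg K.ax (-1) (T.Θ (1, -r))) ∧
      Sg K.ax 1 (T.Θ (-1, -r)) ∧ Sg K.ax (-1) (T.Θ (-1, r)) := fun r hr => by
    rw [p, p, q, q, mul_neg, mul_neg, neg_neg]
    exact ⟨s1 r hr, t1 r hr⟩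
  obtain ⟨γ, hγ⟩ := arc_of T (.inl rfl) K.cont K.inj K.fix a1 a2 h
  obtain ⟨γ', hγ'⟩ := arc_of T (.inr rfl) K.anti.cont K.anti.inj K.anti.fix a2
    (by rw [neg_neg, a1]; exact congrArg K.ax (neg_neg _).symm) fun r hr => by
      obtain ⟨⟨b1, b2⟩, b3, b4⟩ := h r hr
      rw [neg_neg]
      exact ⟨⟨by simpa only [neg_neg] using b4.anti, b3.anti⟩,
        by simpa only [neg_neg] using b2.anti, b1.anti⟩
  exact ⟨T, γ, γ', a1, a2, hγ, hγ'⟩

end Pool.Agent.Lib.MP_7ac2ff_gt
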