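import Pool.Agent.Lib.MP_7ac2ff_gt.Fold
import Pool.Agent.Lib.MP_7ac2ff_gt.Ann

/-! The fixed surface. -/

namespace Pool.Agent.Lib.MP_7ac2ff_gt

open Set Function Filter Complex
open scoped Manifold ContDiff Topology ComplexConjugate

set_option linter.style.haveILetI false

lemma half_union (K : DSI) : K.half ∪ K.anti.half = fixedPoints K.ρ := by
  rw [← K.fix]
  ext x
  constructor
  · rintro (⟨z, -, rfl⟩ | ⟨z, -, rfl⟩)
    exacts [⟨z, rfl⟩, ⟨-z, rfl⟩]
  · rintro ⟨z, rfl⟩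
    rcases le_total 0 (z : ℂ).im with h | h
    · exact .inl ⟨z, h, rfl⟩
    · exact .inr ⟨-z, by simpa using h, congrArg K.ax (neg_neg z)⟩

lemma half_inter (K : DSI) {x : S3} (h : x ∈ K.half) (h' : x ∈ K.anti.half) : x ∈ range K.k := by
  obtain ⟨z, a, rfl⟩ := h
  obtain ⟨w, b, e⟩ := h'
  obtain rfl : -w = z := K.inj e
  have h1 : (w : ℂ).im = 0 := le_antisymm (by simpa using a) b
  have h2 := w.normSq_coe
  rw [normSq_apply, h1, mul_zero, add_zero, mul_self_eq_one_iff] at h2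
  refine (K.two _).2 ?_
  rcases h2 with h2 | h2
  · exact .inr (Subtype.ext (Complex.ext (by simp [h2]) (by simp [h1])))
  · exact .inl (Subtype.ext (Complex.ext (by simp [h2]) (by simp [h1])))

namespace Arc

open Tube

variable {K : DSI} {T : Tube K} {e : ℂ} {H : Set S3} {γ : ℝ → S3} (h : Arc T e H γ) (he : ‖e‖ = 1)
  {x : ℝ} (hx : x ∈ Icc (-2 : ℝ) 2) (t : II)

include h he hx

lemma spec (h1 : 1 ≤ |x|) : (γ x, t).1 ∈ T.U ∧ T.av (γ x, t) = (if x < 0 then e else -e) ∧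
    T.vv (γ x, t) = ((if x < 0 then x + 2 else x - 2 : ℝ) : ℂ) ∧ ‖T.vv (γ x, t)‖ = 2 - |x| := by
  split_ifs with a
  · rw [abs_of_neg a] at h1 ⊢
    have n : ‖((x + 2 : ℝ) : ℂ)‖ = 2 - -x := by
      rw [norm_real, Real.norm_of_nonneg (by linarith [hx.1])]; ring
    rw [h.lft x ⟨hx.1, by linarith⟩]
    obtain ⟨c1, c2, c3⟩ := T.mk_spec he (n.trans_lt (by linarith)) t
    exact ⟨c1, c2, c3, c3.symm ▸ n⟩
  · rw [abs_of_nonneg (not_lt.1 a)] at h1 ⊢
    have n : ‖((x - 2 : ℝ) : ℂ)‖ = 2 - x := by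
      rw [norm_real, Real.norm_of_nonpos (by linarith [hx.2])]; ring
    rw [h.rgt x ⟨h1, hx.2⟩]
    obtain ⟨c1, c2, c3⟩ := T.mk_spec (a := -e) (by simpa using he) (n.trans_lt (by linarith)) t
    exact ⟨c1, c2, c3, c3.symm ▸ n⟩

omit he hx in
lemma one_le (h1 : (γ x, t).1 ∈ T.U) (h2 : ‖T.vv (γ x, t)‖ ≤ 1) : 1 ≤ |x| :=
  le_of_not_gt fun a => h.mid x (abs_lt.1 a) ⟨h1, h2⟩

lemma le_one : |x| ≤ 1 ↔ ((γ x, t).1 ∈ T.U → 1 ≤ ‖T.vv (γ x, t)‖) := by
  constructor
  · intro a b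
    refine le_of_not_gt fun c => ?_
    have := (h.spec he hx t (h.one_le t b c.le)).2.2.2
    linarith
  · intro a
    refine le_of_not_gt fun c => ?_
    obtain ⟨c1, -, -, c4⟩ := h.spec he hx t c.le
    linarith [a c1]

lemma knot : γ x ∈ range K.k ↔ |x| = 2 := by
  rw [knot_iff (T := T) (m := (γ x, 0))]
  constructor
  · rintro ⟨a, b⟩
    have := (h.spec he hx 0 (h.one_le 0 a (by simp [b]))).2.2.2
    rw [b, norm_zero] at this
    linarith
  · intro a
    obtain ⟨c1, -, -, c4⟩ := h.spec he hx 0 (by linarith)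
    exact ⟨c1, norm_eq_zero.1 (by linarith)⟩

end Arc

noncomputable def tt (s : ℝ) : II := projIcc 0 1 zero_le_one ((s + 1) / 2)

lemma tt_val {s : ℝ} (h : |s| ≤ 1) : (tt s : ℝ) = (s + 1) / 2 := by
  have := abs_le.1 h
  rw [tt, projIcc_of_mem _ ⟨by linarith, by linarith⟩]

lemma RH_spec {u : Bool} {y : ℝ × ℝ} (h : y ∈ RH u) (x : S3) :
    |y.2| ≤ 1 ∧ ((x, tt y.2) : MM) ∈ Hf (if u then 1 else -1) := by
  have h2 := h.2
  have : |y.2| ≤ 1 := by
    cases u <;> exact abs_le.2 ⟨by linarith [h2.1], by linarith [h2.2]⟩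
  refine ⟨this, ?_⟩
  change 0 ≤ _ * (2 * (tt y.2 : ℝ) - 1)
  rw [tt_val this]
  cases u
  · simp only [Bool.false_eq_true, if_false]; linarith [h2.2]
  · simp only [if_true]; linarith [h2.1]

lemma sq_if (u : Bool) : (if u then 1 else -1 : ℝ) ^ 2 = 1 := by split_ifs <;> norm_num

namespace LT

open Tube

variable {K : DSI} {T : Tube K} {W : Type} [TopologicalSpace W] (G : LT T W)

theorem surf {γ γ' : ℝ → S3} (e1 : T.Θ (1, 0) = K.ax 1) (e2 : T.Θ (-1, 0) = K.ax (-1))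
    (h : Arc T 1 K.half γ) (h' : Arc T (-1) K.anti.half γ') : letI := G.cs (HB 3)
    ∃ (φ : Circle × II → W) (P : Set W) (a b c d : ℝ), Continuous φ ∧ P.Finite ∧
      fixedPoints G.rr = range φ ∪ P ∧ InjOn φ (φ ⁻¹' (range G.AA)ᶜ) ∧
      φ ⁻¹' (range G.AA ∪ (IB 3).boundary W) = (IB 1).boundary (Circle × II) ∧ a ≤ b ∧ c ≤ d ∧
      (fun θ => φ (Circle.exp θ, 1)) '' Icc a b = G.jj 1 '' K.anti.half ∧
      φ (Circle.exp a, 1) = G.jj 1 (K.anti.ax 1) ∧ φ (Circle.exp b, 1) = G.jj 1 (K.anti.ax (-1)) ∧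
      (fun θ => φ (Circle.exp θ, 1)) '' Icc c d = G.jj 0 '' K.half ∧
      φ (Circle.exp c, 1) = G.jj 0 (K.ax (-1)) ∧ φ (Circle.exp d, 1) = G.jj 0 (K.ax 1) := by
  letI := G.cs (HB 3)
  let Γ : Bool → ℝ → S3 := fun b => if b then γ else γ'
  let ee : Bool → ℂ := fun b => if b then 1 else -1
  have hA : ∀ b, Arc T (ee b) (if b then K.half else K.anti.half) (Γ b) := by
    rintro (_ | _)
    exacts [h', h]
  have ne : ∀ b, ‖ee b‖ = 1 := by rintro (_ | _) <;> simp [ee]
  let q : Bool → Bool → ℝ × ℝ → W := fun b u y => G.JJ (if u then 1 else -1) (Γ b y.1, tt y.2)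
  have t0 : (tt 0 : ℝ) = 1 / 2 := by rw [tt_val (by simp)]; norm_num
  obtain ⟨φ, Λ, a, b, c, d, p1, p2, p3, p4, p5, p6, p7, p8, p9, p10, p11, p12, p13⟩ :=
    exists_annulus q (fun b u => (G.c_JJ (sq_if u)).comp
      (((hA b).cont.comp continuous_fst).prodMk (continuous_projIcc.comp
        (by fun_prop))).continuousOn fun y hy => (RH_spec hy _).2)
      (fun b x hx => G.JJ_mid _ _ t0 (((hA b).le_one (ne b)
        (abs_le.1 (hx.trans one_le_two)) _).1 hx))
      (fun b x h1 h2 => by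
        obtain ⟨a1, a2, a3, a4⟩ := (hA b).spec (ne b) (abs_le.1 h2) (tt 0) h1
        obtain ⟨b1, b2, b3, -⟩ := (hA (!b)).spec (ne _) (abs_le.1 h2) (tt 0) h1
        refine G.JJ_out (ε := 1) (by norm_num) t0 rfl a1 b1 (b3.trans a3.symm) ?_ (by linarith)
        rw [a2, b2]
        cases b <;> split_ifs <;> simp [ee])
      (fun b u b' u' y y' hy hy' l l' e => by
        obtain ⟨s, m⟩ := RH_spec hy (Γ b y.1)
        obtain ⟨s', m'⟩ := RH_spec hy' (Γ b' y'.1)
        obtain ⟨e2, e3⟩ := G.JJ_inj (sq_if u) (sq_if u') m m' e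
        have e4 : y.2 = y'.2 := by
          have := congrArg Subtype.val e2
          simp only [tt_val s, tt_val s'] at this
          linarith
        have hz : (tt y.2 : ℝ) = 1 / 2 → y.2 = 0 := fun a => by rw [tt_val s] at a; linarith
        have hu : (if u' then 1 else -1 : ℝ) = (if u then 1 else -1) ↔ u = u' := by
          cases u <;> cases u' <;> norm_num
        rcases e3 with ⟨e5, e6⟩ | ⟨a1, b1, t, e5, e6, e7, e8⟩
        · have e7 : Γ b' y'.1 = Γ b y.1 := congrArg Prod.fst e5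
          obtain rfl : b = b' := by
            by_contra hb
            have k1 := (hA b).img.le ⟨_, hy.1, rfl⟩
            have k2 := (hA b').img.le ⟨_, hy'.1, e7⟩
            refine l.ne (((hA b).knot (ne b) hy.1).1 ?_)
            cases b <;> cases b'
            exacts [(hb rfl).elim, half_inter K k2 k1, half_inter K k1 k2, (hb rfl).elim]
          exact ⟨Prod.ext ((hA b).inj hy.1 hy'.1 e7.symm) e4, .inl ⟨rfl, e6.imp hu.1 fun k =>
            ⟨hz k.1, ((hA b).le_one (ne b) hy.1 _).2 k.2⟩⟩⟩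
        · have o := (hA b).one_le _ a1 e7
          obtain ⟨-, a2, a3, a4⟩ := (hA b).spec (ne b) hy.1 (tt y.2) o
          obtain ⟨-, b2, b3, b4⟩ := (hA b').spec (ne b') hy'.1 (tt y'.2)
            ((hA b').one_le _ b1 (e5 ▸ e7))
          rw [a3, b3, ofReal_inj] at e5
          rw [a2, b2] at e6
          have l1 := abs_lt.1 l
          have l2 := abs_lt.1 l'
          have e9 : y.1 = y'.1 := by split_ifs at e5 <;> linarith
          refine ⟨Prod.ext e9 e4, .inr ⟨?_, hz t, e8.imp (fun k => ⟨mt hu.2 k, o⟩) fun k => by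
            linarith⟩⟩
          rintro rfl
          have := ne b
          rw [e9, self_eq_neg] at e6
          split_ifs at e6 <;> simp [show ee b = 0 by simpa using e6] at this)
  have k1 : ∀ x, q false true (x, 1) = G.jj 1 (γ' x) := fun x => by
    rw [← G.JJ_end (ε := 1) (by norm_num) (by norm_num)]
    exact congrArg (fun t => G.JJ 1 (γ' x, t)) (Subtype.ext (by rw [tt_val] <;> norm_num))
  have k0 : ∀ x, q true false (x, -1) = G.jj 0 (γ x) := fun x => by
    rw [← G.JJ_end (ε := -1) (by norm_num) (by norm_num)]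
    exact congrArg (fun t => G.JJ (-1) (γ x, t)) (Subtype.ext (by rw [tt_val] <;> norm_num))
  have kA : ∀ z, φ z ∈ range G.AA ↔ |(Λ z).1| = 2 := fun z => by
    obtain ⟨b, u, m, e⟩ := p3 z
    rw [e, G.JJ_AA (sq_if u) (RH_spec m _).2, (hA b).knot (ne b) m.1]
  refine ⟨φ, (fun p : ℂ => G.c3.symm (T.Dm (-1, p, 0))) '' {1, -1}, a, b, c, d, p1,
    (toFinite _).image _, ?_, p5.mono fun z hz => ?_, ?_, p6, p7, ?_, ?_, ?_, ?_, ?_, ?_⟩
  · rw [p2]
    ext w
    simp only [mem_union, mem_iUnion]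
    constructor
    · intro hw
      refine (G.fixed hw).imp_left ?_
      rintro ⟨u, m, hm, e, rfl⟩
      obtain ⟨b, x, hx, e'⟩ : ∃ b, m.1 ∈ Γ b '' Icc (-2) 2 := by
        rcases (half_union K).ge e with k | k
        exacts [⟨true, h.img.ge k⟩, ⟨false, h'.img.ge k⟩]
      have t : tt (2 * m.2 - 1) = m.2 :=
        Subtype.ext (by rw [tt_val (T.ww_im m ▸ abs_ww_im m)]; ring)
      refine ⟨b, u, (x, 2 * m.2 - 1), ⟨hx, ?_⟩, by simp only [q, e', t]⟩
      have := m.2.2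
      cases u <;> simp only [Hf, mem_ofPred_eq, Bool.false_eq_true, if_false, if_true] at hm ⊢ <;>
        exact ⟨by linarith [this.1], by linarith [this.2]⟩
    · rintro (⟨b, u, y, hy, rfl⟩ | k)
      · refine (G.rr_JJ (sq_if u) (RH_spec hy _).2).trans (congrArg _ (Prod.ext ?_ rfl))
        have := (hA b).img.le ⟨_, hy.1, rfl⟩
        refine (half_union K).le ?_
        cases b
        exacts [.inr this, .inl this]
      · exact G.fixed' k
  · obtain ⟨b, u, m, -⟩ := p3 z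
    exact lt_of_le_of_ne (abs_le.2 m.1) (mt (kA z).2 hz)
  · ext z
    rw [bd_cyl, p4, mem_preimage, mem_union, kA]
    obtain ⟨b, u, m, e⟩ := p3 z
    obtain ⟨s, m'⟩ := RH_spec m (Γ b (Λ z).1)
    rw [e, G.JJ_bd (sq_if u) m', Subtype.ext_iff, Subtype.ext_iff, tt_val s,
      abs_eq zero_le_one]
    refine or_congr_right ⟨?_, ?_⟩ <;> rintro (k | k)
    · exact .inr (by simp at k; linarith)
    · exact .inl (by simp at k; linarith)
    · exact .inr (by simp [k])
    · exact .inl (by simp [k])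
  · rw [p8, ← h'.img, image_image]
    exact image_congr fun x _ => k1 x
  · rw [p9, k1, h'.lft _ ⟨le_rfl, by norm_num⟩]
    exact congrArg _ (by simpa [DSI.anti] using e2)
  · rw [p10, k1, h'.rgt _ ⟨by norm_num, le_rfl⟩]
    exact congrArg _ (by simpa [DSI.anti] using e1)
  · rw [p11, ← h.img, image_image]
    exact image_congr fun x _ => k0 x
  · rw [p12, k0, h.rgt _ ⟨by norm_num, le_rfl⟩]
    exact congrArg _ (by simpa using e2)
  · rw [p13, k0, h.lft _ ⟨le_rfl, by norm_num⟩]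
    exact congrArg _ (by simpa using e1)

end LT

end Pool.Agent.Lib.MP_7ac2ff_gt
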