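import Pool.Agent.Lib.MP_7ac2ff_gt.KitA
import Pool.Agent.Lib.MP_7ac2ff_gt.Surf

/-! Calculus of pieces, equivalences and standard charts. -/

namespace Pool.Agent.Lib.MP_7ac2ff_gt

open Set Function Filter
open scoped Manifold ContDiff Topology

set_option backward.isDefEq.respectTransparency false

variable {o : S3 → ℝ} {X Y Z K : DSI}

namespace Kt

theorem pos3 {a b c p q : ℝ} (h : 0 < a * b * p) (h' : 0 < b * c * q) : 0 < a * c * (q * p) := by
  have hb : b ≠ 0 := fun e => by simp [e] at h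
  refine pos_of_mul_pos_left (b := b ^ 2) ?_ (sq_nonneg b)
  exact (mul_pos h h').trans_eq (by ring)

theorem ne3 {a b p : ℝ} (h : 0 < a * b * p) : p ≠ 0 := fun e => by simp [e] at h

theorem mem_anti (K : DSI) {x : S3} :
    x ∈ K.anti.half ↔ K.ρ x = x ∧ (x ∈ K.half → x ∈ range K.k) := by
  refine ⟨fun h => ⟨(half_union K).subset (.inr h), fun h' => half_inter K h' h⟩, fun ⟨a, b⟩ => ?_⟩
  rcases (half_union K).superset a with h | h
  · obtain ⟨z, hz, rfl⟩ := h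
    refine ⟨-z, ?_, congrArg K.ax (neg_neg z)⟩
    rcases (K.two z).1 (b ⟨z, hz, rfl⟩) with rfl | rfl <;> simp
  · exact h

theorem s_neg : ContMDiff (𝓡 3) (𝓡 3) ∞ (fun v : E 3 => -v) := contDiff_neg.contMDiff

theorem dif_neg (v : E 3) : dif (𝓡 3) (𝓡 3) (fun v : E 3 => -v) v = -ContinuousLinearMap.id ℝ _ :=
  (hasFDerivAt_id v).neg.hasMFDerivAt.mfderiv

theorem det_neg : (-ContinuousLinearMap.id ℝ (E 3)).det = -1 := by
  have : (-ContinuousLinearMap.id ℝ (E 3)).det =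
      LinearMap.det ((-1 : ℝ) • (LinearMap.id : E 3 →ₗ[ℝ] E 3)) := by
    unfold ContinuousLinearMap.det
    congr 1
    ext
    simp
  rw [this, LinearMap.det_smul]
  norm_num

theorem closed_half (K : DSI) : IsClosed K.half :=
  ((isClosed_le continuous_const (by fun_prop)).isCompact.image K.cont).isClosed

theorem maps_half {Φ : S3 → S3} (hs : Continuous Φ)
    (he : ∀ x, K.ρ (Φ x) = Φ (K.ρ x)) (hk : ∀ x, Φ x ∈ range K.k ↔ x ∈ range K.k) {q : S3}
    (hq : q = K.ax 1 ∨ q = K.ax (-1)) (hid : Φ =ᶠ[𝓝 q] id) : MapsTo Φ K.half K.half := by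
  have c : Continuous fun t => K.ax (Circle.exp t) := K.cont.comp Circle.exp.continuous
  have im : ∀ t ∈ Ioo 0 Real.pi, 0 < (Circle.exp t : ℂ).im := fun t ht => by
    rw [Circle.coe_exp, Complex.exp_ofReal_mul_I_im]
    exact Real.sin_pos_of_mem_Ioo ht
  have nk : ∀ t ∈ Ioo 0 Real.pi, K.ax (Circle.exp t) ∉ range K.k := fun t ht h => by
    have := im t ht
    rcases (K.two _).1 h with e | e <;> simp [e] at this
  have cl : ∀ t ∈ Icc 0 Real.pi, t ∈ closure (Ioo 0 Real.pi) := fun t ht => by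
    rwa [closure_Ioo Real.pi_pos.ne]
  have := isPreconnected_iff_subset_of_disjoint_closed.1
    ((isPreconnected_Ioo (a := 0) (b := Real.pi)).image _ (hs.comp c).continuousOn) _ _
    (closed_half K) (closed_half K.anti) (by
      rw [half_union]
      rintro _ ⟨t, -, rfl⟩
      exact (he _).trans (congrArg Φ (K.fix.subset ⟨_, rfl⟩))) (by
      refine eq_empty_of_forall_notMem ?_
      rintro _ ⟨⟨t, ht, rfl⟩, a, b⟩
      exact nk t ht ((hk _).1 (half_inter K a b)))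
  have h : ∀ t ∈ Ioo 0 Real.pi, Φ (K.ax (Circle.exp t)) ∈ K.half := by
    refine fun t ht => this.resolve_right (fun h => ?_) ⟨t, ht, rfl⟩
    obtain ⟨s, s1, rfl⟩ : ∃ s ∈ Icc 0 Real.pi, K.ax (Circle.exp s) = q := by
      rcases hq with rfl | rfl
      · exact ⟨0, left_mem_Icc.2 Real.pi_pos.le, by simp⟩
      · exact ⟨_, right_mem_Icc.2 Real.pi_pos.le, congrArg K.ax (Circle.ext (by simp))⟩
    obtain ⟨u, u1, u2⟩ := mem_closure_iff_nhds.1 (cl s s1) _ (c.continuousAt.eventually hid)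
    have a : Φ (K.ax (Circle.exp u)) ∈ K.anti.half := h ⟨u, u2, rfl⟩
    rw [show Φ (K.ax (Circle.exp u)) = K.ax (Circle.exp u) from u1] at a
    exact nk u u2 (half_inter K ⟨_, (im u u2).le, rfl⟩ a)
  rintro _ ⟨z, hz, rfl⟩
  rw [← Circle.exp_arg z]
  exact closure_minimal (t := {t | Φ (K.ax (Circle.exp t)) ∈ K.half}) h
    ((closed_half K).preimage (hs.comp c))
    (cl _ ⟨Complex.arg_nonneg_iff.2 hz, Complex.arg_le_pi _⟩)

theorem inv_inv' (v : E 3) : (‖(‖v‖ ^ 2)⁻¹ • v‖ ^ 2)⁻¹ • (‖v‖ ^ 2)⁻¹ • v = v := by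
  rcases eq_or_ne v 0 with rfl | h
  · simp
  · have := norm_ne_zero_iff.2 h
    rw [smul_smul, norm_smul, Real.norm_of_nonneg (by positivity)]
    refine (congrArg (· • v) ?_).trans (one_smul ℝ v)
    field_simp

theorem out_neg (e : E 3 → S3) : Out (fun v => e (-v)) = Out e := by
  refine congrArg compl (subset_antisymm ?_ ?_)
  · rintro _ ⟨v, hv, rfl⟩
    exact ⟨-v, by simpa using hv, rfl⟩
  · rintro _ ⟨v, hv, rfl⟩
    exact ⟨-v, by simpa using hv, by simp⟩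

end Kt

open Kt

theorem Piece.comp {D D' : Set S3} {f g : S3 → S3} (hf : Piece o X Y D f) (hg : Piece o Y Z D' g)
    (hD : IsOpen D) (hD' : IsOpen D') (h : MapsTo f D D') : Piece o X Z D (g ∘ f) := by
  have sf := fun x hx => hf.smooth.contMDiffAt (hD.mem_nhds (x := x) hx)
  have sg := fun x hx => hg.smooth.contMDiffAt (hD'.mem_nhds (x := x) hx)
  refine ⟨hg.smooth.comp hf.smooth h, hg.inj.comp hf.inj h, fun x hx => ?_,
    fun x hx => (hg.eqv _ (h hx)).trans (congrArg g (hf.eqv x hx)),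
    fun x hx => (hg.knot _ (h hx)).trans (hf.knot x hx), fun z w hz e => ?_,
    fun x hx => (hg.half _ (h hx)).trans (hf.half x hx)⟩
  · rw [dif_comp (sf x hx) (sg _ (h hx)), det_comp']
    exact pos3 (hf.ori x hx) (hg.ori _ (h hx))
  · obtain ⟨u, hu⟩ := (hf.knot _ hz).2 ⟨z, rfl⟩
    have m : Y.k u ∈ D' := hu ▸ h hz
    obtain ⟨c, c0, c1⟩ := hf.dir z u hz hu.symm
    obtain ⟨d, d0, d1⟩ := hg.dir u w m (hu ▸ e)
    refine ⟨c * d, mul_pos c0 d0, ?_⟩
    rw [comp_assoc, vel_comp ((sf _ hz).comp z (X.emb.1 z)) (sg _ (h hz)), c1, map_smul,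
      comp_apply, ← hu, ← vel_comp (Y.emb.1 u) (sg _ m), d1, smul_smul]

/-- the inverse of a piece -/
theorem Piece.symm {D : Set S3} {f : S3 → S3} (hf : Piece o X Y D f) (hD : IsOpen D)
    (hρ : MapsTo X.ρ D D) : IsOpen (f '' D) ∧
      ∃ g, Piece o Y X (f '' D) g ∧ ∀ x ∈ D, g (f x) = x := by
  have : Nonempty S3 := ⟨X.k 1⟩
  obtain ⟨F, rfl, rfl, hs⟩ := exists_inv hD hf.smooth hf.inj fun x hx => ne3 (hf.ori x hx)
  have sf := fun x hx => hf.smooth.contMDiffAt (hD.mem_nhds (x := x) hx)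
  have sg := fun x hx => hs.contMDiffAt (F.open_target.mem_nhds (F.map_source (x := x) hx))
  have li := fun x hx => dif_left_inv (sf x hx) (sg x hx) (F.eventually_left_inverse hx)
  have e := F.image_source_eq_target
  refine ⟨e ▸ F.open_target, F.symm, ⟨e ▸ hs, e ▸ F.symm.injOn, ?_, ?_, ?_, ?_, ?_⟩,
    fun x hx => F.left_inv hx⟩
  · rintro _ ⟨x, hx, rfl⟩
    have a := congrArg ContinuousLinearMap.det (li x hx)
    rw [det_comp', det_id'] at a
    have b := hf.ori x hx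
    rw [F.left_inv hx]
    refine pos_of_mul_pos_left (b := (dif (𝓡 3) (𝓡 3) F x).det ^ 2) (b.trans_eq ?_) (sq_nonneg _)
    linear_combination -(o x * o (F x) * (dif (𝓡 3) (𝓡 3) F x).det) * a
  · rintro _ ⟨x, hx, rfl⟩
    rw [hf.eqv x hx, F.left_inv hx, F.left_inv (hρ hx)]
  · rintro _ ⟨x, hx, rfl⟩
    rw [F.left_inv hx, hf.knot x hx]
  · rintro z w ⟨x, hx, e1⟩ e2
    rw [← e1, F.left_inv hx] at e2
    subst e2
    obtain ⟨c, c0, c1⟩ := hf.dir w z hx e1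
    refine ⟨c⁻¹, inv_pos.2 c0, ?_⟩
    rw [vel_comp (X.emb.1 w) (sf _ hx)] at c1
    rw [vel_comp (Y.emb.1 z) (e1 ▸ sg _ hx), ← e1, ← (inv_smul_eq_iff₀ c0.ne').2 c1, map_smul]
    exact congrArg (fun A : E 3 →L[ℝ] E 3 => c⁻¹ • A (vel (𝓡 3) X.k w)) (li _ hx)
  · rintro _ ⟨x, hx, rfl⟩
    rw [F.left_inv hx, hf.half x hx]

theorem Piece.anti {D : Set S3} {f : S3 → S3} (hf : Piece o X Y D f) (hρ : MapsTo X.ρ D D) :
    Piece o X.anti Y.anti D f := by
  refine ⟨hf.smooth, hf.inj, hf.ori, hf.eqv, hf.knot, hf.dir, fun x hx => ?_⟩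
  rw [mem_anti, mem_anti, hf.eqv x hx, hf.half x hx, hf.knot x hx, hf.inj.eq_iff (hρ hx) hx]

theorem Iso.symm {ψ : S3 → S3} (h : Iso o X Y ψ) :
    ∃ ψ', Iso o Y X ψ' ∧ LeftInverse ψ' ψ ∧ RightInverse ψ' ψ := by
  obtain ⟨-, g, a, b⟩ := h.pc.symm isOpen_univ (mapsTo_univ _ _)
  rw [image_univ_of_surjective h.surj] at a
  have l : LeftInverse g ψ := fun x => b x trivial
  exact ⟨g, ⟨a, l.surjective, by rw [h.tail, l], by rw [h.head, l]⟩, l,
    l.rightInverse_of_surjective h.surj⟩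

theorem Std.comp {ε : ℝ} {p : S3} {e : E 3 → S3} {ψ : S3 → S3} (h : Std o ε X p e)
    (hψ : Iso o X Y ψ) : Std o ε Y (ψ p) (ψ ∘ e) := by
  have s := contMDiffOn_univ.1 hψ.pc.smooth
  have d := fun v => dif_comp (h.emb.1 v) (s (e v))
  refine ⟨⟨s.comp h.emb.1, (s.continuous.isClosedEmbedding
    (injOn_univ.1 hψ.pc.inj)).isEmbedding.comp h.emb.2.1, fun v => ?_⟩, congrArg ψ h.zero,
    fun v => (hψ.pc.eqv _ trivial).trans (congrArg ψ (h.eqv v)),
    fun v => (hψ.pc.knot _ trivial).trans (h.knot v),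
    fun r => (hψ.pc.half _ trivial).trans (h.ray r), fun v => ?_, fun v z hz => ?_⟩
  · change Injective (dif (𝓡 3) (𝓡 3) (ψ ∘ e) v)
    rw [d]
    exact (inj_of_det (ne3 (hψ.pc.ori _ trivial))).comp (h.emb.2.2 v)
  · rw [d, det_comp']
    exact pos3 (h.ori v) (hψ.pc.ori _ trivial)
  · obtain ⟨w, hw⟩ := (hψ.pc.knot (e v) trivial).1 ⟨z, hz.symm⟩
    obtain ⟨c, c0, c1⟩ := h.dir v w hw.symm
    obtain ⟨b, b0, b1⟩ := hψ.pc.dir w z trivial (hw ▸ hz)
    refine ⟨b⁻¹ * c, (mul_pos (inv_pos.2 b0) c0).trans_eq (by ring), ?_⟩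
    rw [vel_comp (X.emb.1 w) (s _), c1, map_smul, hw] at b1
    rw [← (inv_smul_eq_iff₀ b0.ne').2 b1, smul_smul, d]
    rfl

theorem Std.anti {ε : ℝ} {p : S3} {e : E 3 → S3} (h : Std o ε X p e) :
    Std o (-ε) X.anti p (fun v => e (-v)) := by
  have d : ∀ v, dif (𝓡 3) (𝓡 3) (fun v => e (-v)) v =
      dif (𝓡 3) (𝓡 3) e (-v) ∘L (-ContinuousLinearMap.id ℝ _) := fun v =>
    dif_neg v ▸ dif_comp (g := e) (s_neg v) (h.emb.1 _)
  refine ⟨⟨h.emb.1.comp s_neg, h.emb.2.1.comp (Homeomorph.neg _).isEmbedding, fun v => ?_⟩,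
    (congrArg e neg_zero).trans h.zero, fun v => (h.eqv _).trans (congrArg e ?_),
    fun v => (h.knot _).trans (by simp), fun r => ?_, fun v => ?_, fun v z hz => ?_⟩
  · change Injective (dif (𝓡 3) (𝓡 3) (fun v => e (-v)) v)
    rw [d]
    exact (h.emb.2.2 _).comp neg_injective
  · ext i
    fin_cases i <;> simp
  · have a : -!₂[0, r, 0] = (!₂[0, -r, 0] : E 3) := by
      ext i
      fin_cases i <;> simp
    rw [a, mem_anti, h.eqv, h.ray, h.knot]
    simp only [Matrix.cons_val, neg_zero, neg_eq_zero, and_true, true_and, Left.nonneg_neg_iff]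
    exact ⟨fun k => le_of_not_gt fun l => l.ne (k l.le), fun k l => le_antisymm l k⟩
  · rw [d, det_comp', det_neg]
    exact (h.ori _).trans_eq (by ring)
  · obtain ⟨c, c0, c1⟩ := h.dir _ z hz
    refine ⟨-c, c0.trans_eq (by ring), c1.trans ?_⟩
    rw [d]
    simp

theorem Std.isOpen_out {ε : ℝ} {p : S3} {e : E 3 → S3} (h : Std o ε X p e) :
    IsOpen (Out e) ∧ MapsTo X.ρ (Out e) (Out e) := by
  refine ⟨((isCompact_closedBall _ _).image h.emb.1.continuous).isClosed.isOpen_compl,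
    fun x hx ⟨v, hv, a⟩ => hx ⟨!₂[-v 0, v 1, -v 2], ?_, by rw [← h.eqv, a, X.invol]⟩⟩
  rw [mem_closedBall_zero_iff] at hv ⊢
  refine le_of_eq_of_le ?_ hv
  simp [EuclideanSpace.norm_eq, Fin.sum_univ_three]

theorem iso_of_auto (ho : IsOr (𝓡 3) o) {Φ : S3 → S3} (hs : ContMDiff (𝓡 3) (𝓡 3) ∞ Φ)
    (hb : Bijective Φ) (hd : ∀ x, (dif (𝓡 3) (𝓡 3) Φ x).det ≠ 0)
    (he : ∀ x, K.ρ (Φ x) = Φ (K.ρ x)) (hk : ∀ x, Φ x ∈ range K.k ↔ x ∈ range K.k) {q : S3}
    (hq : q = K.ax 1 ∨ q = K.ax (-1)) (hid : Φ =ᶠ[𝓝 q] id) : Iso o K K Φ := by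
  have m1 := maps_half hs.continuous he hk hq hid
  have m2 := maps_half (K := K.anti) hs.continuous he hk
    (hq.symm.imp id fun a => a.trans (congrArg K.ax (neg_neg 1).symm)) hid
  have fq : Φ q = q := hid.self_of_nhds
  have en : ∀ z, z = 1 ∨ z = -1 → Φ (K.ax z) = K.ax 1 ∨ Φ (K.ax z) = K.ax (-1) := fun z hz => by
    obtain ⟨w, hw⟩ := K.fix.superset ((he (K.ax z)).trans (congrArg Φ (K.fix.subset ⟨z, rfl⟩)))
    rcases (K.two w).1 (hw ▸ (hk _).2 ((K.two z).2 hz)) with rfl | rfl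
    exacts [.inl hw.symm, .inr hw.symm]
  have ne : K.ax 1 ≠ K.ax (-1) := fun a => by
    have := congrArg (fun z : Circle => (z : ℂ).re) (K.inj a)
    norm_num at this
  have v := fun z => vel_comp (K.emb.1 z) (hs (K.k z))
  obtain ⟨ε, -, hε⟩ := dir_sign K (hs.comp K.emb.1)
    (fun z a => vel_ne K.emb z (inj_of_det (hd _) ((v z).symm.trans (a.trans (map_zero _).symm))))
    (range_subset_iff.2 fun z => (hk _).2 ⟨z, rfl⟩)
  have e0 : 0 < ε := by
    obtain ⟨z, rfl⟩ : q ∈ range K.k := by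
      rcases hq with rfl | rfl
      exacts [(K.two _).2 (.inl rfl), (K.two _).2 (.inr rfl)]
    obtain ⟨c, c0, c1⟩ := hε z z fq
    rw [v, dif_congr hid, dif_id] at c1
    rw [smul_left_injective ℝ (vel_ne K.emb z) (c1.symm.trans (one_smul ℝ _).symm)] at c0
    simpa using c0
  refine ⟨⟨hs.contMDiffOn, hb.1.injOn, fun x _ => ori_pos ho hs hd hid x, fun x _ => he x,
    fun x _ => hk x, fun z w _ a => (hε z w a).imp fun c b => ⟨pos_of_mul_pos_left
      (b.1.trans_eq (mul_comm _ _)) e0.le, b.2⟩, fun x _ => ⟨fun a => ?_, fun a => m1 a⟩⟩, hb.2, ?_, ?_⟩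
  · have f1 : K.ρ x = x := hb.1 ((he x).symm.trans ((half_union K).subset (.inl a)))
    refine ((half_union K).superset f1).elim id fun b => ?_
    obtain ⟨z, rfl⟩ := K.fix.superset f1
    refine ⟨z, ?_, rfl⟩
    rcases (K.two z).1 ((hk _).1 (half_inter K a (m2 b))) with rfl | rfl <;> simp
  · rcases hq with rfl | rfl
    · exact fq.symm
    · exact ((en 1 (.inl rfl)).resolve_right fun a => ne (hb.1 (a.trans fq.symm))).symm
  · rcases hq with rfl | rfl
    · exact ((en _ (.inr rfl)).resolve_left fun a => ne (hb.1 (a.trans fq.symm)).symm).symm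
    · exact fq.symm

theorem IsSum.anti {J S : DSI} (h : IsSum o J K S) : IsSum o K.anti J.anti S.anti := by
  obtain ⟨e, e', f, f', h⟩ := h
  have n1 : ∀ L : DSI, L.anti.ax (-1) = L.ax 1 := fun L => congrArg L.ax (neg_neg 1)
  refine ⟨fun v => e' (-v), fun v => e (-v), f', f, ?_, h.std.anti, ?_, ?_, ?_, ?_, h.head, ?_⟩
  · simpa only [neg_neg, n1] using h.std'.anti
  · rw [out_neg]
    exact h.pc'.anti h.std'.isOpen_out.2
  · rw [out_neg]
    exact h.pc.anti h.std.isOpen_out.2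
  · rw [out_neg, out_neg, union_comm, h.cov]
  · rw [out_neg, out_neg]
    refine fun x hx y hy => eq_comm.trans ((h.gl y hy x hx).trans ⟨?_, ?_⟩)
    · rintro ⟨u, rfl, rfl⟩
      exact ⟨-((‖u‖ ^ 2)⁻¹ • u), by rw [neg_neg], by rw [norm_neg, smul_neg, neg_neg, inv_inv']⟩
    · rintro ⟨u, rfl, rfl⟩
      exact ⟨_, rfl, by rw [norm_neg, smul_neg, inv_inv']⟩
  · rw [n1, n1, h.tail]

end Pool.Agent.Lib.MP_7ac2ff_gt
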