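import Pool.Agent.Lib.MP_7ac2ff_gt.Good
import Pool.Agent.Lib.MP_7ac2ff_gt.Kit

/-! Equivariant disc theorem and uniqueness of the equivariant connected sum. -/

namespace Pool.Agent.Lib.MP_7ac2ff_gt

open Set Function Filter
open scoped Manifold ContDiff Topology

set_option backward.isDefEq.respectTransparency false

variable {o : S3 → ℝ} {X Y Z J K S S' : DSI} {ε : ℝ} {p : S3} {e e' e₁ : E 3 → S3}
  {f f' : S3 → S3}

namespace Uq

lemma eqv' (h : Std o ε K p e) (v : E 3) : K.ρ (e v) = e (rot v) := h.eqv v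

lemma det_ne (h : Std o ε K p e) (v : E 3) : (dif (𝓡 3) (𝓡 3) e v).det ≠ 0 := fun h0 => by
  simpa [h0] using h.ori v

lemma chart (h : Std o ε K p e) : IsOpen (range e) ∧ ∃ g : S3 → E 3, LeftInverse g e ∧
    ContMDiffOn (𝓡 3) (𝓡 3) ∞ g (range e) := by
  obtain ⟨F, h1, h2, h3⟩ := exists_inv (f := e) isOpen_univ h.emb.1.contMDiffOn
    h.emb.2.1.injective.injOn fun x _ => det_ne h x
  have h4 : F.target = range e := by rw [← F.image_source_eq_target, h1, h2, image_univ]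
  refine ⟨h4 ▸ F.open_target, F.symm, fun v => ?_, h4 ▸ h3⟩
  rw [← h1]
  exact F.left_inv (h2 ▸ mem_univ v)

lemma rot_fix {v : E 3} (h : rot v = v) : v 0 = 0 ∧ v 2 = 0 := by
  have h0 := congrArg (fun w : E 3 => w 0) h
  have h2 := congrArg (fun w : E 3 => w 2) h
  simp [rot] at h0 h2
  constructor <;> linarith

lemma ax_fix (K : DSI) (z : Circle) : K.ρ (K.ax z) = K.ax z := K.fix.le ⟨z, rfl⟩

/-- the only fixed point of the knot in a standard chart is its centre -/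
lemma centre (h : Std o ε K p e) {z : Circle} (hz : z = 1 ∨ z = -1) (hm : K.ax z ∈ range e) :
    K.ax z = p := by
  obtain ⟨v, hv⟩ := hm
  have h1 := (h.knot v).1 (hv ▸ (K.two z).2 hz)
  have h2 := rot_fix (h.emb.2.1.injective ((eqv' h v).symm.trans (by rw [hv, ax_fix])))
  rw [← hv, ← h.zero]
  congr 1
  ext i
  fin_cases i
  exacts [h2.1, h1.1, h1.2]

lemma one_ne : (1 : Circle) ≠ -1 := fun h => by
  have := congrArg (fun z : Circle => (z : ℂ).re) h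
  norm_num at this

lemma not_mem_tail (h : Std o ε K (K.ax (-1)) e) : K.ax 1 ∉ range e := fun hm =>
  one_ne (K.inj (centre h (.inl rfl) hm))

lemma not_mem_head (h : Std o ε K (K.ax 1) e) : K.ax (-1) ∉ range e := fun hm =>
  one_ne (K.inj (centre h (.inr rfl) hm)).symm

lemma dif_model (F : E 3 → E 3) (v : E 3) : dif (𝓡 3) (𝓡 3) F v = fderiv ℝ F v :=
  mfderiv_eq_fderiv

/-- a compactly supported model map transplanted to the sphere -/
lemma plant (ho : IsOr (𝓡 3) o) (h : Std o ε K p e) (hp : p = K.ax 1 ∨ p = K.ax (-1))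
    {F : E 3 → E 3} (hF : Good F) : ∃ Φ, Iso o K K Φ ∧ ∀ v, Φ (e v) = e (F v) := by
  classical
  obtain ⟨hO, g, hg, hs⟩ := chart h
  obtain ⟨R, hR⟩ := hF.supp
  have hi := h.emb.2.1.injective
  let Φ : S3 → S3 := fun x => if x ∈ range e then e (F (g x)) else x
  have h1 : ∀ v, Φ (e v) = e (F v) := fun v => by simp only [Φ, mem_range_self, if_true, hg v]
  have h2 : ∀ x, x ∉ range e → Φ x = x := fun x hx => if_neg hx
  have h3 : ∀ x, x ∉ range e → Φ =ᶠ[𝓝 x] id := fun x hx => by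
    have hc : IsClosed (e '' Metric.closedBall 0 R) :=
      ((isCompact_closedBall 0 R).image h.emb.1.continuous).isClosed
    filter_upwards [hc.isOpen_compl.mem_nhds fun hm => hx (image_subset_range _ _ hm)] with y hy
    by_cases hy' : y ∈ range e
    · obtain ⟨v, rfl⟩ := hy'
      rw [h1, hR v]
      · rfl
      · by_contra hn
        exact hy ⟨v, mem_closedBall_zero_iff.2 (not_le.1 hn).le, rfl⟩
    · exact h2 y hy'
  have hFm : ContMDiff (𝓡 3) (𝓡 3) ∞ F := hF.smooth.contMDiff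
  have h4 : ContMDiff (𝓡 3) (𝓡 3) ∞ Φ := fun x => by
    by_cases hx : x ∈ range e
    · refine ((h.emb.1.comp hFm).contMDiffAt.comp x
        (hs.contMDiffAt (hO.mem_nhds hx))).congr_of_eventuallyEq ?_
      filter_upwards [hO.mem_nhds hx] with y hy
      exact if_pos hy
    · exact contMDiffAt_id.congr_of_eventuallyEq (h3 x hx)
  obtain ⟨q, hq, hq'⟩ : ∃ q, (q = K.ax 1 ∨ q = K.ax (-1)) ∧ q ∉ range e := by
    rcases hp with rfl | rfl
    exacts [⟨_, .inr rfl, not_mem_head h⟩, ⟨_, .inl rfl, not_mem_tail h⟩]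
  refine ⟨Φ, iso_of_auto ho h4 ⟨fun x y hxy => ?_, fun y => ?_⟩ (fun x => ?_) (fun x => ?_)
    (fun x => ?_) hq (h3 q hq'), h1⟩
  · by_cases hx : x ∈ range e <;> by_cases hy : y ∈ range e
    · obtain ⟨v, rfl⟩ := hx
      obtain ⟨w, rfl⟩ := hy
      rw [h1, h1] at hxy
      rw [hF.bij.1 (hi hxy)]
    · obtain ⟨v, rfl⟩ := hx
      rw [h1, h2 y hy] at hxy
      exact (hy ⟨_, hxy⟩).elim
    · obtain ⟨v, rfl⟩ := hy
      rw [h1, h2 x hx] at hxy
      exact (hx ⟨_, hxy.symm⟩).elim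
    · rwa [h2 x hx, h2 y hy] at hxy
  · by_cases hy : y ∈ range e
    · obtain ⟨v, rfl⟩ := hy
      obtain ⟨w, rfl⟩ := hF.bij.2 v
      exact ⟨e w, h1 w⟩
    · exact ⟨y, h2 y hy⟩
  · by_cases hx : x ∈ range e
    · obtain ⟨v, rfl⟩ := hx
      have a1 := dif_comp (h.emb.1 v) (h4 (e v))
      have a2 := dif_comp (hFm v) (h.emb.1 (F v))
      have a3 : Φ ∘ e = e ∘ F := funext h1
      rw [a3, a2] at a1
      have a4 := congrArg ContinuousLinearMap.det a1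
      rw [det_comp', det_comp', dif_model] at a4
      intro h0
      rw [h0, zero_mul] at a4
      exact mul_ne_zero (det_ne h _) (hF.det v) a4
    · rw [dif_congr (h3 x hx), dif_id, det_id']
      exact one_ne_zero
  · by_cases hx : x ∈ range e
    · obtain ⟨v, rfl⟩ := hx
      rw [h1, eqv' h, eqv' h, h1, hF.eqv]
    · rw [h2 x hx, h2]
      rintro ⟨v, hv⟩
      exact hx ⟨rot v, by rw [← eqv' h, hv, K.invol]⟩
  · by_cases hx : x ∈ range e
    · obtain ⟨v, rfl⟩ := hx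
      rw [h1, h.knot, h.knot, hF.axis]
    · rw [h2 x hx]

lemma iso_comp {ψ ψ' : S3 → S3} (h : Iso o X Y ψ) (h' : Iso o Y Z ψ') : Iso o X Z (ψ' ∘ ψ) :=
  ⟨h.pc.comp h'.pc isOpen_univ isOpen_univ (mapsTo_univ _ _), h'.surj.comp h.surj,
    by rw [h'.tail, h.tail]; rfl, by rw [h'.head, h.head]; rfl⟩

/-- the change of charts is the germ of a good map -/
lemma germ (h : Std o ε K p e) (h₁ : Std o ε K p e₁) :
    ∃ F, Good F ∧ ∀ᶠ v in 𝓝 0, e (F v) = e₁ v := by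
  obtain ⟨hO, g, hg, hs⟩ := chart h
  have hi := h.emb.2.1.injective
  have h0 : e₁ 0 = e 0 := h₁.zero.trans h.zero.symm
  have hm : ∀ᶠ v in 𝓝 0, e₁ v ∈ range e :=
    h₁.emb.1.continuous.continuousAt.eventually (hO.mem_nhds ⟨0, h0.symm⟩)
  have hk : ∀ v, e₁ v ∈ range e → e ((g ∘ e₁) v) = e₁ v := by
    rintro v ⟨w, hw⟩
    rw [comp_apply, ← hw, hg]
  have hsm : ∀ v, e₁ v ∈ range e → ContMDiffAt (𝓡 3) (𝓡 3) ∞ (g ∘ e₁) v := fun v hv =>
    (hs.contMDiffAt (hO.mem_nhds hv)).comp v (h₁.emb.1 v)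
  set φ := g ∘ e₁
  have z0 : φ 0 = 0 := hi ((hk 0 hm.self_of_nhds).trans h0)
  have he : ∀ v, e₁ v ∈ range e → φ (rot v) = rot (φ v) := fun v hv => by
    have : e₁ (rot v) = e (rot (φ v)) := by rw [← eqv' h, hk v hv, eqv' h₁]
    rw [← hg (rot (φ v)), ← this]
    rfl
  have hD : dif (𝓡 3) (𝓡 3) e₁ 0 = dif (𝓡 3) (𝓡 3) e 0 ∘L fderiv ℝ φ 0 := by
    have a1 := dif_comp (hsm 0 hm.self_of_nhds) (h.emb.1 (φ 0))
    rw [z0, dif_model] at a1
    rw [← a1]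
    exact dif_congr (hm.mono fun v hv => (hk v hv).symm)
  have h3 : 0 < (fderiv ℝ φ 0).det := by
    have a1 := h₁.ori 0
    rw [hD, det_comp', h0, ← mul_assoc] at a1
    exact (pos_iff_pos_of_mul_pos a1).1 (h.ori 0)
  obtain ⟨F, hF, hF'⟩ := exists_good (φ := φ)
    (hm.mono fun v hv => contMDiffAt_iff_contDiffAt.1 (hsm v hv)) z0 (hm.mono he)
    (hm.mono fun v hv a b => (h.knot _).1 (by rw [hk v hv]; exact (h₁.knot v).2 ⟨a, b⟩))
    (by
      obtain ⟨z, hz⟩ := (h.knot 0).2 ⟨rfl, rfl⟩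
      obtain ⟨c, a1, a2⟩ := h.dir 0 z hz.symm
      obtain ⟨c', b1, b2⟩ := h₁.dir 0 z (h0.trans hz.symm)
      rw [a2, hD, ContinuousLinearMap.comp_apply, ← map_smul, ← map_smul] at b2
      have a3 := congrArg (fun w : E 3 => w 0) (h.emb.2.2 0 b2)
      simp only [PiLp.smul_apply, smul_eq_mul, Matrix.cons_val_zero, mul_one] at a3
      rw [a3, ← mul_assoc] at a1
      exact (pos_iff_pos_of_mul_pos a1).1 b1)
    (by
      set u : E 3 := !₂[0, 1, 0] with hu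
      have hl : ∀ r : ℝ, r • u = !₂[0, r, 0] := fun r => by
        ext i
        fin_cases i <;> simp [hu]
      have hr : ∀ r : ℝ, rot (r • u) = r • u := fun r => by
        rw [hl]
        ext i
        fin_cases i <;> simp [rot]
      have d0 : HasDerivAt (fun r : ℝ => r • u) u 0 := by simpa using (hasDerivAt_id (0 : ℝ)).smul_const u
      have d1 : HasFDerivAt φ (fderiv ℝ φ 0) ((0 : ℝ) • u) := by
        rw [zero_smul]
        exact ((contMDiffAt_iff_contDiffAt.1 (hsm 0 hm.self_of_nhds)).differentiableAt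
          (by simp)).hasFDerivAt
      have d2 : ∀ i, HasDerivAt (fun r : ℝ => φ (r • u) i) (fderiv ℝ φ 0 u i) 0 := fun i =>
        (EuclideanSpace.proj (𝕜 := ℝ) i).hasFDerivAt.comp_hasDerivAt 0 (d1.comp_hasDerivAt 0 d0)
      have hm' : ∀ᶠ r : ℝ in 𝓝 0, e₁ (r • u) ∈ range e :=
        d0.continuousAt.eventually (by simpa using hm)
      have hz : ∀ᶠ r : ℝ in 𝓝 0, φ (r • u) 0 = 0 ∧ φ (r • u) 2 = 0 :=
        hm'.mono fun r a => rot_fix (by rw [← he _ a, hr])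
      have z1 : fderiv ℝ φ 0 u 0 = 0 := (d2 0).unique
        ((hasDerivAt_const (0 : ℝ) (0 : ℝ)).congr_of_eventuallyEq (hz.mono fun r a => a.1))
      have z2 : fderiv ℝ φ 0 u 2 = 0 := (d2 2).unique
        ((hasDerivAt_const (0 : ℝ) (0 : ℝ)).congr_of_eventuallyEq (hz.mono fun r a => a.2))
      refine lt_of_le_of_ne ?_ fun z3 => h3.ne' ?_
      · have t := (hasDerivAt_iff_tendsto_slope_left_right.1 (d2 1)).2
        refine ge_of_tendsto t ?_
        filter_upwards [nhdsWithin_le_nhds hm', nhdsWithin_le_nhds hz, self_mem_nhdsWithin]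
          with r a b c
        have c' : 0 < r := c
        have k : φ (r • u) = !₂[0, φ (r • u) 1, 0] := by
          ext i
          fin_cases i
          exacts [b.1, rfl, b.2]
        have k2 : 0 ≤ φ (r • u) 1 := (h.ray _).1 (by
          rw [← k, hk _ a, hl]
          exact (h₁.ray r).2 c'.le)
        rw [slope_def_field, zero_smul, z0]
        simpa using div_nonneg k2 c'.le
      · refine LinearMap.det_eq_zero_iff_ker_ne_bot.2 ((Submodule.ne_bot_iff _).2 ⟨u, ?_, ?_⟩)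
        · change fderiv ℝ φ 0 u = 0
          ext i
          fin_cases i
          exacts [z1, z3.symm, z2]
        · intro a
          simpa [hu] using congrArg (fun w : E 3 => w 1) a)
    h3
  refine ⟨F, hF, ?_⟩
  filter_upwards [hF', hm] with v a b
  rw [a, hk v b]

end Uq

open Uq

/-- equivariant disc theorem -/
theorem exists_move (ho : IsOr (𝓡 3) o) (h : Std o ε K p e) (h₁ : Std o ε K p e₁)
    (hp : p = K.ax 1 ∨ p = K.ax (-1)) :
    ∃ Φ, Iso o K K Φ ∧ ∀ v, ‖v‖ ≤ 2 → Φ (e v) = e₁ v := by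
  obtain ⟨F, hF, hF'⟩ := germ h h₁
  obtain ⟨δ, hδ, hb⟩ := Metric.eventually_nhds_iff.1 hF'
  have c0 : 0 < min 1 (δ / 3) := by positivity
  obtain ⟨G, hG, hG'⟩ := exists_shrink c0 (min_le_left _ _)
  obtain ⟨Φ₀, a0, b0⟩ := plant ho h hp hG
  obtain ⟨Φ₁, a1, b1⟩ := plant ho h hp hF
  obtain ⟨Φ₂, a2, b2⟩ := plant ho h₁ hp hG
  obtain ⟨Ψ, a3, b3, -⟩ := a2.symm
  refine ⟨_, iso_comp (iso_comp a0 a1) a3, fun v hv => ?_⟩
  rw [comp_apply, comp_apply, b0, b1, hb, ← b2, b3]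
  rw [hG' v (by linarith), dist_zero_right, norm_smul, Real.norm_of_nonneg c0.le]
  have := min_le_right 1 (δ / 3)
  nlinarith [norm_nonneg v]

namespace Uq

/-- a coordinatewise contraction of the model -/
noncomputable def sq (δ : ℝ) (v : E 3) : E 3 := WithLp.toLp 2 fun i => δ * Real.arctan (v i)

lemma sq_smooth (δ : ℝ) : ContDiff ℝ ∞ (sq δ) :=
  contDiff_euclidean.2 fun i => contDiff_const.mul (Real.contDiff_arctan.comp
    (EuclideanSpace.proj (𝕜 := ℝ) i).contDiff)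

lemma sq_fderiv (δ : ℝ) (v u : E 3) (i : Fin 3) :
    fderiv ℝ (sq δ) v u i = δ * (1 / (1 + v i ^ 2)) * u i := by
  have a1 := (EuclideanSpace.proj (𝕜 := ℝ) i).hasFDerivAt.comp v
    (((sq_smooth δ).differentiable (by simp)) v).hasFDerivAt
  have a2 := HasDerivAt.comp_hasFDerivAt (f := fun w : E 3 => w i) v
    ((Real.hasDerivAt_arctan (v i)).const_mul δ) (EuclideanSpace.proj (𝕜 := ℝ) i).hasFDerivAt
  simpa using congrArg (fun A : E 3 →L[ℝ] ℝ => A u) (a1.unique a2)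

lemma sq_det {δ : ℝ} (hδ : 0 < δ) (v : E 3) : 0 < (fderiv ℝ (sq δ) v).det := by
  have : LinearMap.toMatrix (EuclideanSpace.basisFun (Fin 3) ℝ).toBasis
      (EuclideanSpace.basisFun (Fin 3) ℝ).toBasis (fderiv ℝ (sq δ) v : E 3 →ₗ[ℝ] E 3) =
      Matrix.diagonal fun i => δ * (1 / (1 + v i ^ 2)) := by
    ext i j
    simp [LinearMap.toMatrix_apply, sq_fderiv, Matrix.diagonal_apply]
  rw [ContinuousLinearMap.det, ← LinearMap.det_toMatrix (EuclideanSpace.basisFun (Fin 3) ℝ).toBasis,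
    this, Matrix.det_diagonal]
  exact Finset.prod_pos fun i _ => by positivity

lemma sq_norm {δ : ℝ} (hδ : 0 < δ) (v : E 3) : ‖sq δ v‖ < 4 * δ := by
  have h : ∀ i, (sq δ v i) ^ 2 ≤ (2 * δ) ^ 2 := fun i => by
    have h1 := Real.arctan_lt_pi_div_two (v i)
    have h2 := Real.neg_pi_div_two_lt_arctan (v i)
    have h3 := Real.pi_le_four
    refine sq_le_sq' ?_ ?_ <;> simp only [sq] <;> nlinarith
  refine lt_of_pow_lt_pow_left₀ 2 (by positivity) ?_
  rw [EuclideanSpace.real_norm_sq_eq, Fin.sum_univ_three]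
  nlinarith [h 0, h 1, h 2]

lemma piece_mono {D D' : Set S3} (h : Piece o X Y D f) (hD : D' ⊆ D) : Piece o X Y D' f :=
  ⟨h.smooth.mono hD, h.inj.mono hD, fun x a => h.ori x (hD a), fun x a => h.eqv x (hD a),
    fun x a => h.knot x (hD a), fun z w a => h.dir z w (hD a), fun x a => h.half x (hD a)⟩

lemma out_iff {Φ : S3 → S3} (hi : Injective Φ) (h : ∀ v, ‖v‖ ≤ 2 → Φ (e₁ v) = e v) (x : S3) :
    Φ x ∈ Out e ↔ x ∈ Out e₁ := by
  refine not_congr ⟨?_, ?_⟩ <;> rintro ⟨v, a, b⟩ <;>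
    have c := h v ((mem_closedBall_zero_iff.1 a).trans (by norm_num))
  exacts [⟨v, a, hi (c.trans b)⟩, ⟨v, a, by rw [← b, c]⟩]

lemma out_image {Φ : S3 → S3} (hi : Bijective Φ) (h : ∀ v, ‖v‖ ≤ 2 → Φ (e₁ v) = e v) :
    (f ∘ Φ) '' Out e₁ = f '' Out e := by
  rw [image_comp]
  congr 1
  ext y
  obtain ⟨x, rfl⟩ := hi.2 y
  rw [hi.1.mem_set_image, out_iff hi.1 h]

lemma lt_of_out {v : E 3} (h : e v ∈ Out e) : 1 / 2 < ‖v‖ :=
  not_le.1 fun a => h ⟨v, mem_closedBall_zero_iff.2 a, rfl⟩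

lemma norm_inv' (v : E 3) : ‖(‖v‖ ^ 2)⁻¹ • v‖ = ‖v‖⁻¹ := by
  rw [norm_smul, norm_inv, norm_pow, norm_norm]
  by_cases h : ‖v‖ = 0
  · simp [h]
  · field_simp

lemma iso_bij {ψ : S3 → S3} (h : Iso o X Y ψ) : Bijective ψ :=
  ⟨injOn_univ.1 h.pc.inj, h.surj⟩

lemma vel_congr {γ γ' : Circle → S3} {z : Circle} (h : γ =ᶠ[𝓝 z] γ') :
    vel (𝓡 3) γ z = vel (𝓡 3) γ' z := by
  have c : ContinuousAt (fun s : ℝ => z * Circle.exp s) 0 := by fun_prop
  have : Tendsto (fun s : ℝ => z * Circle.exp s) (𝓝 0) (𝓝 z) := by simpa using c.tendsto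
  exact congrArg (fun A : ℝ →L[ℝ] E 3 => A 1) (dif_congr (h.comp_tendsto this))

/-- gluing of two pieces on an open invariant cover -/
lemma piece_glue {A B : Set S3} {a b ψ : S3 → S3} (ha : Piece o X Y A a) (hb : Piece o X Y B b)
    (hA : IsOpen A) (hB : IsOpen B) (iA : MapsTo X.ρ A A) (iB : MapsTo X.ρ B B)
    (hc : A ∪ B = univ) (ea : EqOn ψ a A) (eb : EqOn ψ b B) (hi : Injective ψ) :
    Piece o X Y univ ψ := by
  have key : ∀ x, ∃ D c, Piece o X Y D c ∧ x ∈ D ∧ D ∈ 𝓝 x ∧ MapsTo X.ρ D D ∧ EqOn ψ c D ∧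
      ψ =ᶠ[𝓝 x] c := fun x => by
    rcases hc.ge (mem_univ x) with k | k
    exacts [⟨A, a, ha, k, hA.mem_nhds k, iA, ea, ea.eventuallyEq_of_mem (hA.mem_nhds k)⟩,
      ⟨B, b, hb, k, hB.mem_nhds k, iB, eb, eb.eventuallyEq_of_mem (hB.mem_nhds k)⟩]
  refine ⟨fun x _ => ?_, hi.injOn, fun x _ => ?_, fun x _ => ?_, fun x _ => ?_, fun z w _ hw => ?_,
    fun x _ => ?_⟩
  · obtain ⟨D, c, h1, h2, h3, h4, h5, h6⟩ := key x
    exact ((h1.smooth.contMDiffAt h3).congr_of_eventuallyEq h6).contMDiffWithinAt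
  · obtain ⟨D, c, h1, h2, h3, h4, h5, h6⟩ := key x
    rw [dif_congr h6, h5 h2]
    exact h1.ori x h2
  · obtain ⟨D, c, h1, h2, h3, h4, h5, h6⟩ := key x
    rw [h5 h2, h5 (h4 h2)]
    exact h1.eqv x h2
  · obtain ⟨D, c, h1, h2, h3, h4, h5, h6⟩ := key x
    rw [h5 h2]
    exact h1.knot x h2
  · obtain ⟨D, c, h1, h2, h3, h4, h5, h6⟩ := key (X.k z)
    rw [vel_congr (h6.comp_tendsto X.emb.1.continuous.continuousAt)]
    exact h1.dir z w h2 (by rw [← h5 h2, hw])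
  · obtain ⟨D, c, h1, h2, h3, h4, h5, h6⟩ := key x
    rw [h5 h2]
    exact h1.half x h2

end Uq

theorem Std.small (h : Std o ε K p e) {N : Set S3} (hN : N ∈ 𝓝 p) :
    ∃ e₁, Std o ε K p e₁ ∧ range e₁ ⊆ N := by
  obtain ⟨r, hr, hb⟩ := Metric.mem_nhds_iff.1
    (h.emb.1.continuous.continuousAt.preimage_mem_nhds (x := 0) (h.zero ▸ hN))
  have hδ : 0 < r / 4 := by positivity
  set δ := r / 4 with hd
  have hs : ContMDiff (𝓡 3) (𝓡 3) ∞ (Uq.sq δ) := (sq_smooth δ).contMDiff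
  have hc : ∀ v i, Uq.sq δ v i = δ * Real.arctan (v i) := fun _ _ => rfl
  have hi : Injective (e ∘ Uq.sq δ) := h.emb.2.1.injective.comp fun v w a => by
    ext i
    have := congrArg (fun u : E 3 => u i) a
    exact Real.arctan_injective (mul_left_cancel₀ hδ.ne' this)
  have hD : ∀ v, dif (𝓡 3) (𝓡 3) (e ∘ Uq.sq δ) v =
      dif (𝓡 3) (𝓡 3) e (Uq.sq δ v) ∘L fderiv ℝ (Uq.sq δ) v := fun v => by
    rw [dif_comp (hs v) (h.emb.1 _), dif_model]
  have hdet : ∀ v, (dif (𝓡 3) (𝓡 3) (e ∘ Uq.sq δ) v).det ≠ 0 := fun v => by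
    rw [hD, det_comp']
    exact mul_ne_zero (det_ne h _) (sq_det hδ v).ne'
  obtain ⟨F, h1, h2, -⟩ := exists_inv isOpen_univ (h.emb.1.comp hs).contMDiffOn hi.injOn
    fun v _ => hdet v
  refine ⟨e ∘ Uq.sq δ, ⟨⟨h.emb.1.comp hs, h1 ▸ (F.isOpenEmbedding h2).isEmbedding, fun v => ?_⟩,
    ?_, fun v => ?_, fun v => ?_, fun t => ?_, fun v => ?_, fun v z hz => ?_⟩, ?_⟩
  · exact LinearMap.ker_eq_bot.1 (not_not.1 (mt (LinearMap.det_eq_zero_iff_ker_ne_bot
      (f := (dif (𝓡 3) (𝓡 3) (e ∘ Uq.sq δ) v : E 3 →ₗ[ℝ] E 3))).2 (hdet v)))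
  · rw [← h.zero, comp_apply]
    congr 1
    ext i
    simp [hc]
  · rw [comp_apply, comp_apply, h.eqv]
    congr 1
    ext i
    fin_cases i <;> simp [hc]
  · rw [comp_apply, h.knot]
    simp [hc, hδ.ne']
  · have : Uq.sq δ !₂[0, t, 0] = !₂[0, δ * Real.arctan t, 0] := by
      ext i
      fin_cases i <;> simp [hc]
    rw [comp_apply, this, h.ray, mul_nonneg_iff_of_pos_left hδ, Real.arctan_nonneg]
  · rw [hD, det_comp', ← mul_assoc]
    exact mul_pos (h.ori _) (sq_det hδ v)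
  · obtain ⟨c, a1, a2⟩ := h.dir _ z hz
    have k : 0 < δ * (1 / (1 + v 0 ^ 2)) := by positivity
    have : fderiv ℝ (Uq.sq δ) v !₂[1, 0, 0] = (δ * (1 / (1 + v 0 ^ 2))) • !₂[1, 0, 0] := by
      ext i
      fin_cases i <;> simp [sq_fderiv]
    refine ⟨c / (δ * (1 / (1 + v 0 ^ 2))), by rw [← mul_div_assoc]; exact div_pos a1 k, ?_⟩
    rw [a2, hD, ContinuousLinearMap.comp_apply, this, map_smul, smul_smul, div_mul_cancel₀ _ k.ne']
  · rintro _ ⟨v, rfl⟩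
    refine hb (mem_ball_zero_iff.2 ((sq_norm hδ v).trans_eq ?_))
    rw [hd]
    ring

theorem SumD.sub_left (ho : IsOr (𝓡 3) o) (h : SumD o J K S e e' f f')
    (h₁ : Std o 1 J (J.ax (-1)) e₁) : ∃ f₁, SumD o J K S e₁ e' f₁ f' := by
  obtain ⟨Φ, a, b⟩ := exists_move ho h₁ h.std (.inr rfl)
  have hb := iso_bij a
  refine ⟨f ∘ Φ, h₁, h.std', (piece_mono a.pc (subset_univ _)).comp h.pc h₁.isOpen_out.1
    h.std.isOpen_out.1 fun x hx => (out_iff hb.1 b x).2 hx, h.pc', by rw [out_image hb b, h.cov],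
    fun x hx y hy => ?_, by rw [h.tail, comp_apply, ← a.tail], h.head⟩
  rw [comp_apply, h.gl _ ((out_iff hb.1 b x).2 hx) y hy]
  refine exists_congr fun v => and_congr_left fun k => ?_
  have k1 := lt_of_out (k ▸ hy)
  rw [norm_inv', one_div] at k1
  have k2 : ‖v‖ ≤ 2 := by
    by_contra k3
    exact k1.not_ge (inv_anti₀ two_pos (not_le.1 k3).le)
  rw [← b v k2, hb.1.eq_iff]

theorem SumD.sub_right (ho : IsOr (𝓡 3) o) (h : SumD o J K S e e' f f')
    (h₁ : Std o (-1) K (K.ax 1) e₁) : ∃ f₁, SumD o J K S e e₁ f f₁ := by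
  obtain ⟨Φ, a, b⟩ := exists_move ho h₁ h.std' (.inl rfl)
  have hb := iso_bij a
  refine ⟨f' ∘ Φ, h.std, h₁, h.pc, (piece_mono a.pc (subset_univ _)).comp h.pc' h₁.isOpen_out.1
    h.std'.isOpen_out.1 fun x hx => (out_iff hb.1 b x).2 hx, by rw [out_image hb b, h.cov],
    fun x hx y hy => ?_, h.tail, by rw [h.head, comp_apply, ← a.head]⟩
  rw [comp_apply, h.gl x hx _ ((out_iff hb.1 b y).2 hy)]
  refine exists_congr fun v => and_congr_right fun k => ?_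
  have k1 := lt_of_out (k ▸ hx)
  have k2 : ‖(‖v‖ ^ 2)⁻¹ • v‖ ≤ 2 := by
    rw [norm_inv']
    exact (inv_anti₀ (by norm_num) k1.le).trans_eq (by norm_num)
  rw [← b _ k2, hb.1.eq_iff]

/-- the equivariant connected sum is unique up to equivalence -/
theorem IsSum.unique (ho : IsOr (𝓡 3) o) (h : IsSum o J K S) (h' : IsSum o J K S') :
    ∃ ψ, Iso o S S' ψ := by
  classical
  obtain ⟨e, e', f, f', h⟩ := h
  obtain ⟨d, d', g₀, g₀', h'⟩ := h'
  obtain ⟨g, h'⟩ := h'.sub_left ho h.std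
  obtain ⟨g', h'⟩ := h'.sub_right ho h.std'
  obtain ⟨oA, iA⟩ := h.std.isOpen_out
  obtain ⟨oB, iB⟩ := h.std'.isOpen_out
  obtain ⟨hA, a, pa, la⟩ := h.pc.symm oA iA
  obtain ⟨hB, b, pb, lb⟩ := h.pc'.symm oB iB
  let ψ : S3 → S3 := fun x => if x ∈ f '' Out e then g (a x) else g' (b x)
  have e1 : ∀ x ∈ Out e, ψ (f x) = g x := fun x hx => by
    simp only [ψ, if_pos (mem_image_of_mem f hx), la x hx]
  have tr : ∀ x ∈ Out e, ∀ y ∈ Out e', f x = f' y ↔ g x = g' y := fun x hx y hy => by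
    rw [h.gl x hx y hy, h'.gl x hx y hy]
  have e2 : ∀ y ∈ Out e', ψ (f' y) = g' y := fun y hy => by
    by_cases k : f' y ∈ f '' Out e
    · obtain ⟨x, hx, k⟩ := k
      rw [← k, e1 x hx, (tr x hx y hy).1 k]
    · simp only [ψ, if_neg k, lb y hy]
  have sub : ∀ {d : E 3 → S3} {x}, x ∉ range d → x ∈ Out d := fun k k' =>
    k (image_subset_range _ _ k')
  refine ⟨ψ, piece_glue (pa.comp h'.pc hA oA ?_) (pb.comp h'.pc' hB oB ?_) hA hB ?_ ?_ h.cov ?_ ?_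
    fun x y k => ?_, fun z => ?_, ?_, ?_⟩
  · rintro _ ⟨x, hx, rfl⟩
    rwa [la x hx]
  · rintro _ ⟨x, hx, rfl⟩
    rwa [lb x hx]
  · rintro _ ⟨x, hx, rfl⟩
    exact ⟨_, iA hx, (h.pc.eqv x hx).symm⟩
  · rintro _ ⟨x, hx, rfl⟩
    exact ⟨_, iB hx, (h.pc'.eqv x hx).symm⟩
  · rintro _ ⟨x, hx, rfl⟩
    rw [e1 x hx, comp_apply, la x hx]
  · rintro _ ⟨x, hx, rfl⟩
    rw [e2 x hx, comp_apply, lb x hx]
  · rcases h.cov.ge (mem_univ x) with ⟨u, hu, rfl⟩ | ⟨u, hu, rfl⟩ <;>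
      rcases h.cov.ge (mem_univ y) with ⟨w, hw, rfl⟩ | ⟨w, hw, rfl⟩
    · rw [e1 u hu, e1 w hw] at k
      rw [h'.pc.inj hu hw k]
    · rw [e1 u hu, e2 w hw] at k
      exact (tr u hu w hw).2 k
    · rw [e2 u hu, e1 w hw] at k
      exact ((tr w hw u hu).2 k.symm).symm
    · rw [e2 u hu, e2 w hw] at k
      rw [h'.pc'.inj hu hw k]
  · rcases h'.cov.ge (mem_univ z) with ⟨u, hu, rfl⟩ | ⟨u, hu, rfl⟩
    exacts [⟨_, e1 u hu⟩, ⟨_, e2 u hu⟩]
  · rw [h'.tail, h.tail, e1 _ (sub (not_mem_tail h.std))]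
  · rw [h'.head, h.head, e2 _ (sub (not_mem_head h.std'))]

end Pool.Agent.Lib.MP_7ac2ff_gt
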