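import Pool.Agent.Lib.MP_7ac2ff_gt.Main
import Pool.Agent.Lib.MP_7ac2ff_gt.Uniq

/-! Equivalent knots: concordance to the antipode, and sums. -/

namespace Pool.Agent.Lib.MP_7ac2ff_gt

open Set Function Filter
open scoped Manifold ContDiff Topology

set_option linter.style.haveILetI false
set_option backward.isDefEq.respectTransparency false

variable {o : S3 → ℝ} {J K S X Y : DSI}

namespace Ic

lemma tcc_prod {x y : S3} (h : y ∈ (extChartAt (𝓡 3) x).source) (t : II) :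
    (tangentCoordChange (IB 3) (y, t) (x, t) (y, t)).det =
      (tangentCoordChange (𝓡 3) y x y).det := by
  have h1 := hasFDerivWithinAt_tangentCoordChange (I := 𝓡 3) ⟨mem_extChartAt_source y, h⟩
  have h2 := hasFDerivWithinAt_tangentCoordChange (I := 𝓡∂ 1)
    ⟨mem_extChartAt_source t, mem_extChartAt_source t⟩
  have h3 := hasFDerivWithinAt_tangentCoordChange (I := IB 3) (x := (y, t)) (y := (x, t))
    (z := (y, t)) ⟨mem_extChartAt_source _, by
      rw [extChartAt_prod]; exact ⟨h, mem_extChartAt_source t⟩⟩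
  have h4 := (HasFDerivWithinAt.comp (f := Prod.fst)
    (extChartAt (𝓡 3) y y, extChartAt (𝓡∂ 1) t t) h1
    (hasFDerivWithinAt_fst (s := range (𝓡 3) ×ˢ range (𝓡∂ 1)))
    fun (_ : E 3 × E 1) h => (mem_prod.1 h).1).prodMk (HasFDerivWithinAt.comp (f := Prod.snd)
    (extChartAt (𝓡 3) y y, extChartAt (𝓡∂ 1) t t) h2 hasFDerivWithinAt_snd
    fun (_ : E 3 × E 1) h => (mem_prod.1 h).2)
  have h5 := (IB 3).uniqueDiffOn _ (extChartAt_target_subset_range (y, t)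
    (mem_extChartAt_target (y, t)))
  rw [extChartAt_prod, ModelWithCorners.range_prod] at h5
  rw [extChartAt_prod, extChartAt_prod, ModelWithCorners.range_prod] at h3
  have h6 : tangentCoordChange (𝓡∂ 1) t t t = ContinuousLinearMap.id ℝ _ :=
    ContinuousLinearMap.ext fun v => tangentCoordChange_self (mem_extChartAt_source t)
  rw [h5.eq h3 h4, h6]
  exact (LinearMap.det_prodMap (tangentCoordChange (𝓡 3) y x y : E 3 →ₗ[ℝ] E 3)
    (LinearMap.id : E 1 →ₗ[ℝ] E 1)).trans (by rw [LinearMap.det_id, mul_one])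

lemma or_end {a : S3 × II → ℝ} (h : IsOr (IB 3) a) (t : II) : IsOr (𝓡 3) fun x => a (x, t) :=
  fun x => by
    filter_upwards [(Continuous.prodMk_left t).continuousAt.eventually (h (x, t)),
      extChartAt_source_mem_nhds (I := 𝓡 3) x] with y h1 h2
    rwa [tcc_prod h2] at h1

lemma or_pos {a : S3 → ℝ} (ho : IsOr (𝓡 3) o) (ha : IsOr (𝓡 3) a) {x y : S3} {d : ℝ}
    (h : 0 < o x * o y * d) : 0 < a x * a y * d := by
  have : PreconnectedSpace S3 := isPreconnected_iff_preconnectedSpace.1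
    (isPreconnected_sphere (by rw [← Module.finrank_eq_rank]; simp) _ _)
  obtain ⟨ε, h0, h1⟩ := OrAt.sign (I := 𝓡 3) isPreconnected_univ (fun x _ => ho x)
    fun x _ => ha x
  have h2 := mul_pos (mul_pos (h1 x trivial) (h1 y trivial)) h
  refine pos_of_mul_pos_left (b := (ε * o x * o y) ^ 2) ?_ (sq_nonneg _)
  exact h2.trans_eq (by ring)

end Ic

open Ic Uq Tube

theorem qconc_iso (ho : IsOr (𝓡 3) o) {ψ : S3 → S3} (h : Iso o X Y ψ) : QConc X Y.anti := by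
  obtain ⟨χ, hχ, -, -⟩ := h.symm
  have sχ := contMDiffOn_univ.1 hχ.pc.smooth
  have bχ := iso_bij hχ
  obtain ⟨T₀⟩ := exists_tube X
  obtain ⟨T, γ, γ', e1, e2, g, g'⟩ := exists_arcs T₀
  obtain ⟨W, _, ⟨G⟩⟩ := exists_glued T.isOpen_O1 (T.isOpen_lt (1 / 2)) T.gg Tube.gg_s Tube.gg_t
    (Tube.end_O1 (m := (X.ax 1, 0)) (.inl rfl))
  replace G : LT T W := G
  letI := G.cs (HB 3)
  obtain ⟨oM, m1, m2⟩ := exists_or_cyl (F := E (3 + 1)) (n := 3) (hF := ⟨by simp⟩)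
  obtain ⟨oW, o1, o2⟩ := G.exists_or G.mfd gg_s gg_t gg_pre m1
  obtain ⟨φ, P, a, b, c, d, p1, p2, p3, p4, p5, q1, q2, q3, q4, q5, q⟩ := G.surf e1 e2 g g'
  obtain ⟨o', o3, -⟩ := exists_or_cyl (F := ℂ) (n := 1) (hF := ⟨by simp⟩)
  have j0 := G.emb_jj (i := 0) (.inl rfl)
  have j1 := G.emb_jj (i := 1) (.inr rfl)
  have dj := fun x => dif_comp (sχ x) (j1.1 (χ x))
  have rj : range (G.jj 1 ∘ χ) = range (G.jj 1) := bχ.2.range_comp _
  have rk : range (χ ∘ Y.k) = range X.k := by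
    ext x
    obtain ⟨y, rfl⟩ := bχ.2 x
    rw [range_comp, bχ.1.mem_set_image, hχ.pc.knot y trivial]
  have hh : χ '' Y.anti.half = X.anti.half := by
    ext x
    obtain ⟨y, rfl⟩ := bχ.2 x
    rw [bχ.1.mem_set_image, (hχ.pc.anti (mapsTo_univ _ _)).half y trivial]
  refine ⟨W, _, G.cs (HB 3), G.jj 0, G.jj 1 ∘ χ, G.AA, G.rr,
    ⟨oW, ⟨G.t2, G.compact, G.mfd, o1⟩, j0, ⟨j1.1.comp sχ, j1.2.1.comp
      (sχ.continuous.isClosedEmbedding bχ.1).isEmbedding, fun x => ?_⟩, rj ▸ G.disj, rj ▸ G.bd_eq,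
      fun x => ?_, G.homol⟩, ⟨G.emb_AA, G.bd_AA, fun p _ => G.neat p⟩,
    ⟨rfl, fun z w e => ⟨1, one_pos, ?_⟩⟩, ⟨?_, fun z w e => ?_⟩, ⟨G.s_rr, G.rr_rr⟩,
    fun x => ⟨G.rr_jj (.inl rfl) x, (G.rr_jj (.inr rfl) _).trans (congrArg _ (hχ.pc.eqv x trivial))⟩,
    G.rr_AA, Circle × II, _, _, o', φ, P, fun z => (z, 1), a, b, c, d,
    ⟨inferInstance, inferInstance, inferInstance, o3⟩, p1, p2, p3, p4, p5, by fun_prop,
    Prod.mk_left_injective 1, range_subset_iff.2 fun z => (bd_cyl _).2 (.inr rfl), q1, q2,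
    q3.trans ?_, q4.trans (congrArg _ hχ.head), q5.trans (congrArg _ ?_), q⟩
  · show Injective (dif (𝓡 3) (IB 3) (G.jj 1 ∘ χ) x)
    rw [dj]
    exact (j1.2.2 (χ x)).comp (Kt.inj_of_det (Kt.ne3 (hχ.pc.ori x trivial)))
  · have k1 := or_pos ho (or_end m1 0) (hχ.pc.ori x trivial)
    have k2 := m2 (χ x)
    rw [bsg, bsg, dj, G.dif_jj (.inl rfl), G.dif_jj (.inr rfl), ← ContinuousLinearMap.comp_assoc,
      ContinuousLinearMap.fst_comp_inl, det_id', ContinuousLinearMap.id_comp, comp_apply, LT.jj,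
      LT.jj, o2 _ (end_O1 (.inl rfl)), o2 _ (end_O1 (.inr rfl)), mul_one]
    refine neg_of_mul_neg_right (a := oM (χ x, 0) ^ 2) ?_ (sq_nonneg _)
    exact (mul_neg_of_pos_of_neg k1 k2).trans_eq' (by ring)
  · obtain rfl := X.emb.2.1.injective (j0.2.1.injective e)
    exact (one_smul _ _).symm
  · exact (range_comp (G.jj 1) X.k).trans ((congrArg _ rk.symm).trans
      (range_comp (G.jj 1) (χ ∘ Y.k)).symm)
  · obtain ⟨r, r0, r1⟩ := hχ.pc.dir w z trivial (j1.2.1.injective e).symm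
    refine ⟨r⁻¹, inv_pos.2 r0, ?_⟩
    have k1 := vel_comp (f := G.jj 1) (X.emb.1 z) (j1.1 _)
    have k2 := vel_comp (f := G.jj 1) (γ := χ ∘ Y.k) ((sχ.comp Y.emb.1) w) (j1.1 _)
    rw [G.dif_jj (.inr rfl)] at k1 k2
    rw [r1, map_smul, ← k1] at k2
    exact ((inv_smul_eq_iff₀ r0.ne').2 k2).symm
  · rw [image_comp, hh]
  · exact (congrArg X.ax (neg_neg 1)).trans (hχ.tail.trans (congrArg (χ ∘ Y.ax) (neg_neg 1).symm))

theorem IsSum.of_iso {τ : S3 → S3} (h : IsSum o X J S) (hτ : Iso o Y X τ) : IsSum o Y J S := by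
  obtain ⟨e, e', f, f', h⟩ := h
  obtain ⟨χ, hχ, -, r⟩ := hτ.symm
  have hb := iso_bij hτ
  have b : ∀ v, ‖v‖ ≤ 2 → τ ((χ ∘ e) v) = e v := fun v _ => r _
  have s := h.std.comp hχ
  rw [← hχ.head] at s
  refine ⟨χ ∘ e, e', f ∘ τ, f', s, h.std', (piece_mono hτ.pc (subset_univ _)).comp h.pc
    s.isOpen_out.1 h.std.isOpen_out.1 fun x hx => (out_iff hb.1 b x).2 hx, h.pc',
    by rw [out_image hb b, h.cov], fun x hx y hy => ?_, by rw [h.tail, comp_apply, ← hτ.tail],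
    h.head⟩
  rw [comp_apply, h.gl _ ((out_iff hb.1 b x).2 hx) y hy]
  refine exists_congr fun v => and_congr_left fun _ => ?_
  rw [← r (e v), hb.1.eq_iff, comp_apply]

end Pool.Agent.Lib.MP_7ac2ff_gt
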