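import Pool.Agent.Lib.MP_7ac2ff_gt.TubeC

/-! Existence of an equivariant tubular neighbourhood. -/

noncomputable section

namespace Pool.Agent.Lib.MP_7ac2ff_gt

open Set Function Filter Complex Tb
open scoped Manifold ContDiff Topology ComplexConjugate Real

theorem exists_tube (K : DSI) : Nonempty (Tube K) := by
  obtain ⟨Φ, cΦ, e1, dΦ⟩ := chart K
  have e0 : ∀ t, Φ (ee t, 0) = kk K t := fun t => by simpa only [one_smul] using e1 1 one_pos t
  have o0 : IsOpen {y : ℂ × ℂ | y.1 ≠ 0} := isOpen_ne.preimage continuous_fst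
  obtain ⟨O, Ψ, o1, o2, o3, o4⟩ := ift (O := {y : ℂ × ℂ | y.1 ≠ 0} ∩ Φ ⁻¹' {0}ᶜ) (f := Φ)
    (C := range fun t => (ee t, 0)) (by simp)
    (cΦ.continuousOn.isOpen_inter_preimage o0 isOpen_compl_singleton)
    (Periodic.compact_of_continuous (c := 2 * π) (fun t => by simp only [ee_per t])
      Real.two_pi_pos.ne' (ee_cd.continuous.prodMk continuous_const))
    (range_subset_iff.2 fun t => ⟨ee_ne t, fun e => ne_zero_of_mem_unit_sphere _
      ((e0 t).symm.trans e)⟩) (cΦ.mono inter_subset_left) (by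
        rintro _ ⟨s, rfl⟩ _ ⟨t, rfl⟩ e
        rw [e0, e0] at e
        simp only [kk_inj K e]) (forall_mem_range.2 dΦ)
  have ca := fun y (hy : y ∈ O) => cΦ.contDiffAt (o0.mem_nhds (o3 hy).1)
  have cb := fun y (hy : y ∈ O) => (rh_cd K (o3 hy).2).comp y (ca y hy)
  let W := O ∩ (rh K ∘ Φ) ⁻¹' (Φ '' O)
  let r := Ψ ∘ rh K ∘ Φ
  have oW : IsOpen W := ContinuousOn.isOpen_inter_preimage
    (fun y hy => (cb y hy).continuousAt.continuousWithinAt) o1
    (open_image o1 fun x hx => (o4 x hx).2.1)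
  have k1 : ∀ y ∈ W, r y ∈ O ∧ Φ (r y) = rh K (Φ y) := fun y ⟨_, z, hz, e⟩ => by
    have : r y = z := (congrArg Ψ e.symm).trans (o4 z hz).1
    exact this ▸ ⟨hz, e⟩
  have hm : ∀ᶠ c in 𝓝 (1 : ℝ), ∀ t, ((c • ee t, 0) : ℂ × ℂ) ∈ O :=
    (ev_circ (f := fun p : ℝ × ℂ => ((p.1 • p.2, 0) : ℂ × ℂ)) (by fun_prop) o1 fun t =>
      o2 ⟨t, by simp⟩).mono fun c h t => h _ (norm_ee t)
  choose σ hσ using kk_rh K
  have k2 : ∀ᶠ c in 𝓝 (1 : ℝ), ∀ t, r (c • ee t, 0) = (c • ee (σ t), 0) := by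
    filter_upwards [hm, lt_mem_nhds zero_lt_one] with c h c0 t
    simp only [r, comp]
    rw [e1 c c0, hσ t c c0, ← e1 c c0, (o4 _ (h _)).1]
  have k3 : ∀ t, r (ee t, 0) = (ee (σ t), 0) := fun t => by
    simpa only [one_smul] using k2.self_of_nhds t
  have mem : ∀ t, (ee t, 0) ∈ W := fun t => ⟨o2 ⟨t, rfl⟩, _, o2 ⟨σ t, rfl⟩, by
    rw [comp, e0, e0]; simpa only [one_smul] using (hσ t 1 one_pos).symm⟩
  have cr : ∀ y ∈ W, ContDiffAt ℝ ∞ r y := fun y hy =>
    ContDiffAt.comp (g := Ψ) y (by rw [comp, ← (k1 y hy).2]; exact (o4 _ (k1 y hy).1).2.2)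
      (cb y hy.1)
  have da := fun t => ((ca _ (mem t).1).differentiableAt (by simp)).hasFDerivAt
  have loc : Loc W r := by
    refine ⟨oW, fun y hy => (o3 hy.1).1, fun y hy => (cr y hy).contDiffWithinAt, mem,
      fun y hy => ⟨(k1 y hy).1, y, hy.1, ?_⟩, fun y hy => ?_, fun t => by rw [k3, norm_ee],
      k2.mono fun c h t => by rw [h, k3], ?_, ?_⟩
    · rw [comp, (k1 y hy).2, rh_rh K (o3 hy.1).2]
    · change Ψ (rh K (Φ (r y))) = y
      rw [(k1 y hy).2, rh_rh K (o3 hy.1).2, (o4 y hy.1).1]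
    · obtain ⟨z, hz⟩ := (K.two 1).2 (.inl rfl)
      have f1 : K.ρ (K.k z) = K.k z := hz ▸ K.fix.subset ⟨1, rfl⟩
      have f2 : Φ (ee (arg z), 0) = K.k z := by rw [e0, kk, Circle.exp_arg]
      have f3 : r (ee (arg z), 0) = (ee (arg z), 0) := by
        simp only [r, comp]
        rw [f2, rh_val, f1, ← f2, (o4 _ (mem _).1).1]
      refine ⟨arg z, f3, ?_⟩
      obtain ⟨e, he⟩ := equiv_of (by simp) (dΦ (arg z))
      have k := (HasFDerivAt.comp (g := Φ) (g' := fderiv ℝ Φ (ee (arg z), 0)) _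
        (by rw [f3]; exact da _)
        ((cr _ (mem (arg z))).differentiableAt (by simp)).hasFDerivAt).unique
        ((HasFDerivAt.comp (g := rh K) (g' := fderiv ℝ (rh K) (K.k z)) _ (by
          rw [f2]
          exact ((rh_cd K (ne_zero_of_mem_unit_sphere _)).differentiableAt (by simp)).hasFDerivAt)
            (da _)).congr_of_eventuallyEq (mem_of_superset (oW.mem_nhds (mem _))
              fun y hy => (k1 y hy).2))
      rw [← he] at k
      exact (rh_det K f1).trans_eq (det_semi e.toLinearEquiv fun v => congrArg (· v) k).symm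
    · by_contra! h
      refine infinite_of_injOn_mapsTo (f := K.k ∘ Circle.exp) (t := {K.ax 1, K.ax (-1)})
        (K.emb.2.1.injective.comp_injOn (Circle.exp_injOn_Ico (a := 0) (b := 1)
          (by linarith [Real.two_le_pi]))) (fun t _ => ?_) (Ico_infinite one_pos) (toFinite _)
      have f1 := (k1 _ (mem t)).2
      rw [h, e0, kk, rh_val] at f1
      obtain ⟨z, hz⟩ := K.fix.superset (Subtype.ext f1.symm)
      rcases (K.two z).1 ⟨_, hz.symm⟩ with rfl | rfl
      exacts [.inl hz.symm, .inr hz.symm]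
  obtain ⟨W', G, θ, a1, a2, a3, a4, a5, a6, a7, a8, a9⟩ := loc.core (N := fun y => ‖Φ y‖)
    (fun y hy => ((ca y hy.1).norm ℝ (o3 hy.1).2).contDiffWithinAt)
    (fun y hy => by rw [(k1 y hy).2, norm_rh]) (fun _ => norm_nonneg _) fun c c0 t => by
      rw [e1 c c0, norm_smul, kk, norm_eq_of_mem_sphere, mul_one, Real.norm_of_nonneg c0.le]
  have cF : ∀ y ∈ W', ContDiffAt ℝ ∞ (G ∘ Ψ) (Φ y) := fun y hy =>
    ContDiffAt.comp (g := G) _ (by rw [(o4 y (a2 hy).1).1]; exact a4.contDiffAt (a1.mem_nhds hy))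
      (o4 y (a2 hy).1).2.2
  refine tube_of K (V := Φ '' W') (F := G ∘ Ψ) (θ := θ)
    (open_image a1 fun x hx => (o4 x (a2 hx).1).2.1) (forall_mem_image.2 fun y hy => (o3 (a2 hy).1).2)
    (fun t => ⟨_, a3 t, e0 t⟩) (forall_mem_image.2 fun y hy => (cF y hy).contDiffWithinAt)
    (forall_mem_image.2 fun y hy => ?_) (fun t => (injective_iff_map_eq_zero _).2 fun x hx => ?_)
    (fun t => by rw [← e0, comp, (o4 _ (mem t).1).1, a7]) a8 a9
  · simpa only [r, comp, (o4 y (a2 hy).1).1] using a5 y hy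
  · obtain ⟨e, he⟩ := equiv_of (by simp) (dΦ t)
    obtain ⟨w, rfl⟩ := e.surjective x
    have k := ((((cF _ (a3 t)).differentiableAt (by simp)).hasFDerivAt.comp _
      (da t)).congr_of_eventuallyEq (f₁ := G) (mem_of_superset (o1.mem_nhds (mem t).1)
        fun y hy => (congrArg G (o4 y hy).1).symm)).fderiv
    rw [← he, e0] at k
    rw [(injective_iff_map_eq_zero _).1 (a6 t) w ((congrArg (· w) k).trans hx), map_zero]

end Pool.Agent.Lib.MP_7ac2ff_gt
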