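import Pool.Agent.Lib.MP_7ac2ff_gt.ShT
import Pool.Agent.Lib.MP_7ac2ff_gt.Axis
import Pool.Agent.Lib.MP_7ac2ff_gt.Tube

/-! The shell around the knot and the twist equivalence. -/

namespace Pool.Agent.Lib.MP_7ac2ff_gt

open Set Function Filter Sh Complex
open scoped Manifold ContDiff Topology ComplexConjugate

set_option backward.isDefEq.respectTransparency false

namespace Sk

variable {K : DSI} (T : Tube K)

lemma c_P {y : S3} (h : y ∈ T.U) : ContinuousAt T.P y :=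
  (T.sP.contMDiffAt (T.opn.mem_nhds h)).continuousAt

lemma isOpen_P {Ω : Set (ℂ × ℂ)} (h : IsOpen Ω) : IsOpen {y | y ∈ T.U ∧ T.P y ∈ Ω} :=
  isOpen_iff_mem_nhds.2 fun _ hy => inter_mem (T.opn.mem_nhds hy.1) (c_P T hy.1 (h.mem_nhds hy.2))

lemma nv {p : ℂ} {x : ℝ} (hp : ‖p‖ = 1) (hx : |x| < 3) :
    0 < √(1 + x / 4) ∧ ‖((√(1 + x / 4) : ℝ) : ℂ) * p‖ ^ 2 = 1 + x / 4 ∧
      ‖((√(1 + x / 4) : ℝ) : ℂ) * p‖ < 2 := by
  have a := abs_lt.1 hx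
  have e : ‖((√(1 + x / 4) : ℝ) : ℂ) * p‖ = √(1 + x / 4) := by
    rw [norm_mul, hp, mul_one, norm_real, Real.norm_of_nonneg (Real.sqrt_nonneg _)]
  refine ⟨Real.sqrt_pos.2 (by linarith), by rw [e, Real.sq_sqrt (by linarith)], ?_⟩
  rw [e, Real.sqrt_lt' two_pos]; linarith

lemma ne_of_sq {v : ℂ} (h : 1 / 4 < ‖v‖ ^ 2) : v ≠ 0 := fun e => by
  rw [e, norm_zero] at h; norm_num at h

/-- the shell around the knot -/
noncomputable def shell : Shell K where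
  U := {y | y ∈ T.U ∧ 1 / 4 < ‖(T.P y).2‖ ^ 2 ∧ ‖(T.P y).2‖ ^ 2 < 7 / 4}
  P y := ((T.P y).1, nrm (T.P y).2, 4 * (‖(T.P y).2‖ ^ 2 - 1))
  Θ q := T.Θ (q.1, ((√(1 + q.2.2 / 4) : ℝ) : ℂ) * q.2.1)
  In := {y | y ∈ T.U ∧ ‖(T.P y).2‖ ≤ 1}
  ins y hy := by
    have := norm_nonneg (T.P y).2
    refine ⟨fun h => ?_, fun h => ⟨hy.1, ?_⟩⟩
    · have := h.2
      change 4 * (‖(T.P y).2‖ ^ 2 - 1) ≤ 0
      nlinarith
    · change 4 * (‖(T.P y).2‖ ^ 2 - 1) ≤ 0 at h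
      nlinarith
  opn := isOpen_P T (Ω := {q | 1 / 4 < ‖q.2‖ ^ 2 ∧ ‖q.2‖ ^ 2 < 7 / 4})
    ((isOpen_lt (g := fun q : ℂ × ℂ => ‖q.2‖ ^ 2) continuous_const (by fun_prop)).inter
      (isOpen_lt (f := fun q : ℂ × ℂ => ‖q.2‖ ^ 2) (by fun_prop) continuous_const))
  sP y hy := by
    have : ContDiffAt ℝ ∞ (fun q : ℂ × ℂ => (q.1, nrm q.2, 4 * (‖q.2‖ ^ 2 - 1))) (T.P y) :=
      contDiffAt_fst.prodMk ((cd_nrm contDiffAt_snd (ne_of_sq hy.2.1)).prodMk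
        (contDiffAt_const.mul ((contDiffAt_snd.norm_sq ℝ).sub contDiffAt_const)))
    exact (this.comp_contMDiffAt (T.sP.contMDiffAt (T.opn.mem_nhds hy.1))).contMDiffWithinAt
  sΘ a p x ha hp hx := by
    have b := abs_lt.1 hx
    have : ContDiffAt ℝ ∞ (fun q : ℂ × ℂ × ℝ => (q.1, ((√(1 + q.2.2 / 4) : ℝ) : ℂ) * q.2.1))
        (a, p, x) :=
      contDiffAt_fst.prodMk ((cd_ofReal (ContDiffAt.sqrt (by fun_prop)
        (by change 1 + x / 4 ≠ 0; linarith))).mul (by fun_prop))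
    exact ContMDiffAt.comp (g := T.Θ) _ (Tube.s_th ha (nv hp hx).2.2) this.contMDiffAt
  left y hy := by
    obtain ⟨l1, -, l3⟩ := T.left y hy.1
    refine ⟨l1, norm_nrm (ne_of_sq hy.2.1), abs_lt.2 ⟨?_, ?_⟩, ?_⟩
    · change -3 < 4 * (‖(T.P y).2‖ ^ 2 - 1)
      linarith [hy.2.1]
    · change 4 * (‖(T.P y).2‖ ^ 2 - 1) < 3
      linarith [hy.2.2]
    · change T.Θ ((T.P y).1, ((√(1 + 4 * (‖(T.P y).2‖ ^ 2 - 1) / 4) : ℝ) : ℂ) * nrm (T.P y).2) = y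
      rw [show 1 + 4 * (‖(T.P y).2‖ ^ 2 - 1) / 4 = ‖(T.P y).2‖ ^ 2 by ring,
        Real.sqrt_sq (norm_nonneg _), norm_mul_nrm, l3]
  right a p x ha hp hx := by
    obtain ⟨n1, n2, n3⟩ := nv hp hx
    obtain ⟨r1, r2⟩ := T.right a _ ha n3
    have b := abs_lt.1 hx
    refine ⟨⟨r1, ?_, ?_⟩, ?_⟩
    · simp only [r2, n2]; linarith
    · simp only [r2, n2]; linarith
    · simp only [r2, n2]
      rw [nrm_mul, nrm_pos n1, one_mul, nrm_unit hp]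
      exact Prod.ext rfl (Prod.ext rfl (by ring))
  knot y hy h := ne_of_sq hy.2.1 ((T.knot y).1 h).2
  eqv a p x ha hp hx := (T.eqv _ _ ha (nv hp hx).2.2).trans (by simp)

variable {T}

lemma sarc {X : DSI} {e : ℂ} {γ : ℝ → S3} (h : Arc T e X.half γ) (he : ‖e‖ = 1)
    (h1 : T.Θ (e, 0) = X.ax 1) (h2 : T.Θ (-e, 0) = X.ax (-1)) : SArc (shell T) e X γ := by
  refine ⟨h.cont, h.inj, h.img, ?_, ?_, ?_, ?_, fun x hx => ⟨fun a => h.one_le 0 a.1 a.2,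
    fun a => ?_⟩, fun x hx a b => ?_⟩
  · rw [h.lft _ ⟨le_rfl, by norm_num⟩, ← h1]; norm_num
  · rw [h.rgt _ ⟨by norm_num, le_rfl⟩, ← h2]; norm_num
  · rw [h.lft _ ⟨by norm_num, le_rfl⟩]; simp only [shell]; norm_num
  · rw [h.rgt _ ⟨le_rfl, by norm_num⟩]; simp only [shell]; norm_num
  · obtain ⟨c1, -, -, c4⟩ := h.spec he hx 0 a
    exact ⟨c1, c4.trans_le (by linarith)⟩
  · change 4 * (‖(T.P (γ x)).2‖ ^ 2 - 1) = 0 at b
    have c : ‖(T.P (γ x)).2‖ = 1 := by nlinarith [norm_nonneg (T.P (γ x)).2]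
    have d := (h.spec he hx 0 (h.one_le 0 a.1 c.le)).2.2.2
    change ‖(T.P (γ x)).2‖ = _ at d
    linarith

lemma nice {γ γ' : ℝ → S3} (e1 : T.Θ (1, 0) = K.ax 1) (e2 : T.Θ (-1, 0) = K.ax (-1))
    (h : Arc T 1 K.half γ) (h' : Arc T (-1) K.anti.half γ') :
    Nice (shell T) γ γ' {y | y ∈ T.U ∧ ‖(T.P y).2‖ < 1 / 2 ∧ (T.P y).1.re < 0} := by
  refine ⟨sarc h norm_one e1 e2, sarc h' (by simp) e2 ?_, ?_, ?_, fun y hy => ?_, ?_,
    fun y hy => ⟨hy.1, by linarith [hy.2.1]⟩, disjoint_left.2 fun y a b => ?_,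
    fun x hx a => ?_, fun x hx a => ?_⟩
  · rw [neg_neg, e1]; exact congrArg K.ax (neg_neg _).symm
  · have := (T.isCompact_ww (C := {ζ | ζ.re ≤ 0}) (isClosed_le continuous_re continuous_const)
      (c := 0) (by norm_num) fun _ h => h).isClosed.preimage
      (f := fun y : S3 => ((y, 0) : MM)) (by fun_prop)
    convert this using 1
    ext y
    refine and_congr_right fun _ => ?_
    change _ ↔ (T.ww (y, 0)).re ≤ 0
    rw [Tube.ww_re]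
    change _ ↔ ‖(T.P y).2‖ ^ 2 - 1 ≤ 0
    have := norm_nonneg (T.P y).2
    constructor <;> intro <;> nlinarith
  · convert isOpen_P T (Ω := {q | ‖q.2‖ < 1}) (isOpen_lt (by fun_prop) continuous_const) using 1
    ext y
    refine ⟨fun a => ⟨a.1.1, lt_of_le_of_ne a.1.2 fun e => a.2 ⟨⟨a.1.1, ?_, ?_⟩, ?_⟩⟩,
      fun a => ⟨⟨a.1, le_of_lt a.2⟩, fun b => ?_⟩⟩
    · rw [e]; norm_num
    · rw [e]; norm_num
    · change 4 * (‖(T.P y).2‖ ^ 2 - 1) = 0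
      rw [e]; norm_num
    · have c : 4 * (‖(T.P y).2‖ ^ 2 - 1) = 0 := b.2
      have d : ‖(T.P y).2‖ < 1 := a.2
      nlinarith [norm_nonneg (T.P y).2]
  · obtain ⟨a, b⟩ := (T.knot y).1 hy
    exact ⟨a, by rw [b]; simp⟩
  · refine (isOpen_P T (Ω := {q | ‖q.2‖ < 1 / 2 ∧ q.1.re < 0})
      ((isOpen_lt (f := fun q : ℂ × ℂ => ‖q.2‖) (by fun_prop) continuous_const).inter
        (isOpen_lt (f := fun q : ℂ × ℂ => q.1.re) (by fun_prop) continuous_const))).mem_nhds ?_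
    obtain ⟨r1, r2⟩ := T.right (-1) 0 (by simp) (by simp)
    rw [← e2]
    exact ⟨r1, by rw [r2]; norm_num⟩
  · have c := a.2.1
    have d := b.2.1
    nlinarith [norm_nonneg (T.P y).2]
  · have c := a.2.1
    obtain ⟨-, c2, -, c4⟩ := h.spec norm_one ⟨hx.1, by linarith [hx.2]⟩ 0
      (h.one_le 0 a.1 (show ‖(T.P (γ x)).2‖ ≤ 1 by linarith))
    change ‖(T.P (γ x)).2‖ = _ at c4
    change (T.P (γ x)).1 = _ at c2
    have d : x < 0 := lt_of_not_ge fun d => by rw [abs_of_nonneg d] at c4; linarith [hx.2]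
    have f := a.2.2
    rw [c2, if_pos d] at f
    norm_num at f
  · have c := a.2.1
    obtain ⟨-, c2, -, c4⟩ := h'.spec (by simp) ⟨by linarith [hx.1], hx.2⟩ 0
      (h'.one_le 0 a.1 (show ‖(T.P (γ' x)).2‖ ≤ 1 by linarith))
    change ‖(T.P (γ' x)).2‖ = _ at c4
    change (T.P (γ' x)).1 = _ at c2
    have d : ¬x < 0 := fun d => by rw [abs_of_neg d] at c4; linarith [hx.1]
    have f := a.2.2
    rw [c2, if_neg d] at f
    norm_num at f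

variable (T) in
/-- twist of the sphere along the tube -/
noncomputable def tz (u : ℂ → ℂ) (y : S3) : S3 := (T.tw u (y, 0)).1

variable {u : ℂ → ℂ} {y : S3}

lemma tw_tz : T.tw u (y, 0) = (tz T u y, 0) := Prod.ext rfl Tube.tw_snd

lemma tz_out (h : y ∉ T.U) : tz T u y = y := congrArg Prod.fst (Tube.tw_out (m := (y, 0)) h)

lemma tz_eq (h : y ∈ T.U) : tz T u y = T.Θ ((T.P y).1 * u (T.ww (y, 0)), (T.P y).2) := by
  rw [tz, Tube.tw, if_pos h]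
  rfl

lemma tz_in (hu : ∀ ζ, ‖u ζ‖ = 1) (h : y ∈ T.U) :
    tz T u y ∈ T.U ∧ T.P (tz T u y) = ((T.P y).1 * u (T.ww (y, 0)), (T.P y).2) := by
  obtain ⟨a, b, -⟩ := T.left y h
  rw [tz_eq h]
  exact T.right _ _ (by rw [norm_mul, a, hu, one_mul]) b

lemma tz_mem (hu : ∀ ζ, ‖u ζ‖ = 1) {Q : ℂ → Prop} :
    (tz T u y ∈ T.U ∧ Q (T.P (tz T u y)).2) ↔ (y ∈ T.U ∧ Q (T.P y).2) := by
  by_cases h : y ∈ T.U
  · simp only [(tz_in hu h).1, (tz_in hu h).2, h]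
  · rw [tz_out h]

lemma tz_U (hu : ∀ ζ, ‖u ζ‖ = 1) : tz T u y ∈ (shell T).U ↔ y ∈ (shell T).U :=
  tz_mem hu (Q := fun v => 1 / 4 < ‖v‖ ^ 2 ∧ ‖v‖ ^ 2 < 7 / 4)

lemma tz_In (hu : ∀ ζ, ‖u ζ‖ = 1) : tz T u y ∈ (shell T).In ↔ y ∈ (shell T).In :=
  tz_mem hu (Q := fun v => ‖v‖ ≤ 1)

lemma tz_cancel (hu : ∀ ζ, ‖u ζ‖ = 1) : tz T (fun ζ => conj (u ζ)) (tz T u y) = y := by
  have := Tube.tw_cancel (T := T) (u := u) (m := (y, 0)) fun _ => hu _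
  rw [tw_tz] at this
  exact congrArg Prod.fst this

lemma tz_cancel' (hu : ∀ ζ, ‖u ζ‖ = 1) : tz T u (tz T (fun ζ => conj (u ζ)) y) = y := by
  simpa only [conj_conj] using tz_cancel (T := T) (u := fun ζ => conj (u ζ)) (y := y)
    fun ζ => by simpa using hu ζ

lemma tz_congr {u' : ℂ → ℂ} (h : y ∈ T.U → u (T.ww (y, 0)) = u' (T.ww (y, 0))) :
    tz T u y = tz T u' y := congrArg Prod.fst (Tube.tw_congr (m := (y, 0)) h)

lemma tz_one (h : y ∈ T.U → u (T.ww (y, 0)) = 1) : tz T u y = y :=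
  congrArg Prod.fst (Tube.tw_one (m := (y, 0)) h)

lemma ρ_tz (hu : ∀ ζ, ‖u ζ‖ = 1) : K.ρ (tz T u y) = tz T (fun ζ => conj (u ζ)) (K.ρ y) :=
  congrArg Prod.fst (Tube.R0_tw (m := (y, 0)) fun _ => hu _)

lemma s_tz (hb : ∀ ζ : ℂ, 2 ≤ ζ.re → u ζ = 1) (hv : ∀ ζ, ContDiffAt ℝ ∞ u ζ)
    (hu : ∀ ζ, ‖u ζ‖ = 1) : ContMDiff (𝓡 3) (𝓡 3) ∞ (tz T u) := fun y =>
  contMDiffAt_fst.comp y (ContMDiffAt.comp (g := T.tw u) y (Tube.s_tw hb fun _ => ⟨hv _, hu _⟩)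
    (contMDiffAt_id.prodMk contMDiffAt_const))

lemma ρ_U : K.ρ y ∈ (shell T).U ↔ y ∈ (shell T).U := by
  have a : ∀ y, y ∈ (shell T).U → K.ρ y ∈ (shell T).U := fun y h =>
    (Shell.R0_in (T := shell T) (m := (y, 0)) h).1
  exact ⟨fun h => K.invol y ▸ a _ h, a y⟩

/-- the twisting angle -/
noncomputable def uu (ζ : ℂ) : ℂ := conj (cc true ((4 * ζ.re : ℝ) * I))

lemma norm_uu (ζ : ℂ) : ‖uu ζ‖ = 1 := by simp only [uu, RCLike.norm_conj, norm_cc]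

lemma cd_uu (ζ : ℂ) : ContDiffAt ℝ ∞ uu ζ :=
  cd_conj ((cd_cc true _).comp ζ ((cd_ofReal (contDiffAt_const.mul cd_re.contDiffAt)).mul
    contDiffAt_const))

lemma uu_hi {ζ : ℂ} (h : 1 / 2 ≤ ζ.re) : uu ζ = 1 := by
  rw [uu, cc_hi (by simp; linarith), map_one]

lemma uu_lo {ζ : ℂ} (h : ζ.re ≤ -1 / 2) : uu ζ = -1 := by
  rw [uu, cc_lo (by simp; linarith), map_neg, map_one]

lemma ww0 : (T.ww (y, 0)).re = ‖(T.P y).2‖ ^ 2 - 1 := T.ww_re _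

lemma ts_tz (h : y ∈ (shell T).U) (b : Bool) :
    (shell T).ts (tau b) y = tz T (fun ζ => (if b then 1 else -1) * uu ζ) y := by
  rw [Shell.ts_eq h (un_tau b), tz_eq h.1, uu, ww0]
  change T.Θ (_, ((√(1 + 4 * (‖(T.P y).2‖ ^ 2 - 1) / 4) : ℝ) : ℂ) * nrm (T.P y).2) = _
  rw [show 1 + 4 * (‖(T.P y).2‖ ^ 2 - 1) / 4 = ‖(T.P y).2‖ ^ 2 by ring,
    Real.sqrt_sq (norm_nonneg _), norm_mul_nrm]
  rfl

lemma ts_true (h : y ∈ (shell T).U) : (shell T).ts (tau true) y = tz T uu y := by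
  rw [ts_tz h]; simp only [if_true, one_mul]

lemma off (h : y ∉ (shell T).U) (h' : y ∈ T.U) :
    ‖(T.P y).2‖ ^ 2 ≤ 1 / 4 ∨ 7 / 4 ≤ ‖(T.P y).2‖ ^ 2 := by
  by_contra a
  push Not at a
  exact h ⟨h', a.1, a.2⟩

lemma tau_out (h : y ∉ (shell T).In) : (shell T).ts (tau true) y = tz T uu y := by
  by_cases a : y ∈ (shell T).U
  · exact ts_true a
  · rw [Shell.ts_out a]
    refine (tz_one fun b => uu_hi ?_).symm
    have c : 1 < ‖(T.P y).2‖ := lt_of_not_ge fun c => h ⟨b, c⟩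
    rw [ww0]
    rcases off a b with d | d <;> nlinarith

lemma tz_tz {u' : ℂ → ℂ} (hu : ∀ ζ, ‖u ζ‖ = 1) :
    tz T u' (tz T u y) = tz T (fun ζ => u ζ * u' ζ) y := by
  have := Tube.tw_tw (T := T) (u' := u') (m := (y, 0)) fun _ => hu _
  rw [tw_tz] at this
  exact congrArg Prod.fst this

lemma n_neg (ζ : ℂ) : ‖(fun _ => -1 : ℂ → ℂ) ζ‖ = 1 := by simp

lemma tau_in (h : y ∈ (shell T).In) :
    (shell T).ts (tau false) (tz T (fun _ => -1) y) = tz T uu y := by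
  by_cases a : y ∈ (shell T).U
  · rw [ts_tz ((tz_U n_neg).2 a), tz_tz n_neg]
    exact tz_congr fun _ => by simp
  · rw [Shell.ts_out (mt (tz_U n_neg).1 a)]
    refine tz_congr fun b => (uu_lo ?_).symm
    have c := h.2
    rw [ww0]
    rcases off a b with d | d <;> nlinarith [norm_nonneg (T.P y).2]

lemma rot_half {e : ℂ} {H H' : Set S3} {γ γ' : ℝ → S3} (he : ‖e‖ = 1) (h : Arc T e H γ)
    (h' : Arc T (-e) H' γ') (hy : y ∈ (shell T).In) (hH : y ∈ H) :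
    tz T (fun _ => -1) y ∈ H' := by
  obtain ⟨x, hx, rfl⟩ := h.img.ge hH
  have o := h.one_le 0 hy.1 hy.2
  obtain ⟨-, a2, a3, -⟩ := h.spec he hx 0 o
  obtain ⟨b1, b2, b3, -⟩ := h'.spec (by simpa using he) hx 0 o
  refine h'.img.le ⟨x, hx, ?_⟩
  change (T.P (γ x)).1 = _ at a2
  change (T.P (γ x)).2 = _ at a3
  refine (Tube.th_av b1).symm.trans ?_
  rw [tz_eq hy.1, a2, a3, b2, b3]
  split_ifs <;> simp

lemma rot_rot : tz T (fun _ => -1) (tz T (fun _ => -1) y) = y := by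
  rw [tz_tz n_neg]
  exact tz_one fun _ => by simp

lemma eqv_tau : (shell T).ρ2 (tz T uu y) = tz T uu (K.ρ y) := by
  by_cases a : y ∈ (shell T).U
  · rw [← ts_true a, Shell.ρ2_tau, ts_true (ρ_U.2 a)]
  · rw [Shell.ρ2, Shell.ts_out (mt ((tz_U norm_uu).1 ∘ ρ_U.1) a), ρ_tz norm_uu]
    refine tz_congr fun b => ?_
    rcases off (mt ρ_U.1 a) b with d | d
    · rw [uu_lo (by rw [ww0]; linarith), map_neg, map_one]
    · rw [uu_hi (by rw [ww0]; linarith), map_one]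

lemma tau_core {a : ℂ} (ha : ‖a‖ = 1) : tz T uu (T.Θ (a, 0)) = T.Θ (-a, 0) := by
  obtain ⟨r1, r2⟩ := T.right a 0 ha (by simp)
  rw [tz_eq r1, uu_lo (by rw [ww0, r2]; norm_num), r2, mul_neg_one]

variable (T) in
/-- the core of the tube -/
noncomputable def core (z : Circle) : S3 := T.Θ (z, 0)

lemma s_core : ContMDiff (𝓡 1) (𝓡 3) ∞ (core T) := fun z => by
  have a : ContMDiffAt (𝓡 1) 𝓘(ℝ, ℂ) ∞ (fun w : Circle => (w : ℂ)) z :=
    @contMDiff_coe_sphere ℂ _ _ _ 1 ⟨Complex.finrank_real_complex⟩ z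
  exact ContMDiffAt.comp (g := T.Θ) (f := fun z : Circle => ((z : ℂ), (0 : ℂ))) z
    (Tube.s_th z.norm_coe (by simp)) (a.prodMk_space contMDiffAt_const)

lemma core_spec (z : Circle) : core T z ∈ T.U ∧ T.P (core T z) = ((z : ℂ), 0) :=
  T.right _ _ z.norm_coe (by simp)

lemma core_knot (z : Circle) : core T z ∈ range K.k :=
  (T.knot _).2 ⟨(core_spec z).1, by rw [(core_spec z).2]⟩

lemma vel_core (z : Circle) : vel (𝓡 3) (core T) z ≠ 0 := by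
  intro h0
  have c := vel_comp (f := T.P) (J := 𝓘(ℝ, ℂ × ℂ)) (s_core z)
    (T.sP.contMDiffAt (T.opn.mem_nhds (core_spec z).1))
  rw [h0, map_zero, show T.P ∘ core T = fun z : Circle => ((z : ℂ), (0 : ℂ)) from
    funext fun z => (core_spec z).2] at c
  obtain ⟨t, rfl⟩ := Circle.exp_surjective z
  have d := Kt.vel_model (γ := fun w : Circle => ((w : ℂ), (0 : ℂ)))
    ((Tb.ee_d t).prodMk (hasDerivAt_const t (0 : ℂ)))
  exact mul_ne_zero I_ne_zero (Tb.ee_ne t) (congrArg Prod.fst (d.symm.trans c))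

lemma dir_tau (hs : ContMDiff (𝓡 3) (𝓡 3) ∞ (tz T uu)) (z w : Circle)
    (e : tz T uu (K.k z) = K.k w) :
    ∃ c : ℝ, 0 < c ∧ vel (𝓡 3) (tz T uu ∘ K.k) z = c • vel (𝓡 3) K.k w := by
  obtain ⟨ε, -, hε⟩ := dir_sign K s_core vel_core (range_subset_iff.2 (core_knot (T := T)))
  obtain ⟨a1, a2⟩ := (T.knot _).1 ⟨z, rfl⟩
  obtain ⟨l1, -, l3⟩ := T.left _ a1
  let s : Circle := ⟨(T.P (K.k z)).1, mem_sphere_zero_iff_norm.2 l1⟩
  have b : core T s = K.k z := by rw [← l3, core, ← a2]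
  have f : tz T uu ∘ core T = fun z => core T (-z) := funext fun z => tau_core z.norm_coe
  obtain ⟨c1, p1, q1⟩ := hε s z b
  obtain ⟨c2, p2, q2⟩ := hε (-s) w ((congrFun f s).symm.trans ((congrArg _ b).trans e))
  have c0 : c1 ≠ 0 := fun h => by simp [h] at p1
  have g : vel (𝓡 3) (tz T uu ∘ core T) s = vel (𝓡 3) (core T) (-s) := by
    rw [f]
    simp only [vel, neg_mul]
  refine ⟨c1⁻¹ * c2, ?_, ?_⟩
  · refine (div_pos (mul_pos p1 p2) (mul_pos p1 p1)).trans_eq ?_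
    have : ε ≠ 0 := fun h => by simp [h] at p1
    field_simp
  · rw [vel_comp (s_core s) (hs _), q1, q2, map_smul, b] at g
    rw [vel_comp (K.emb.1 z) (hs _), ← smul_smul, ← g, inv_smul_smul₀ c0]

end Sk

open Sk in
theorem exists_shell {o : S3 → ℝ} (ho : IsOr (𝓡 3) o) (K : DSI) :
    ∃ (T : Shell K) (γ γ' : ℝ → S3) (N : Set S3),
    Nice T γ γ' N ∧ ∀ X, Tw T X → ∃ τ, Iso o K.anti X τ := by
  obtain ⟨T₀⟩ := exists_tube K
  obtain ⟨T, γ, γ', e1, e2, h, h'⟩ := exists_arcs T₀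
  refine ⟨shell T, γ, γ', _, nice e1 e2 h h', fun X hX => ⟨tz T uu, ?_⟩⟩
  have hs : ContMDiff (𝓡 3) (𝓡 3) ∞ (tz T uu) :=
    s_tz (fun _ a => uu_hi (by linarith)) cd_uu norm_uu
  have hs' : ContMDiff (𝓡 3) (𝓡 3) ∞ (tz T fun ζ => conj (uu ζ)) :=
    s_tz (fun _ a => by rw [uu_hi (by linarith), map_one]) (fun ζ => cd_conj (cd_uu ζ))
      fun ζ => by simpa using norm_uu ζ
  have hd : ∀ x, (dif (𝓡 3) (𝓡 3) (tz T uu) x).det ≠ 0 := fun x a => by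
    have b := congrArg ContinuousLinearMap.det (dif_left_inv (hs x) (hs' _)
      (Eventually.of_forall fun _ => tz_cancel norm_uu))
    rw [det_comp', det_id', a, mul_zero] at b
    exact zero_ne_one b
  have hp : tz T uu =ᶠ[𝓝 (T.Θ (1, 3 / 2))] id := by
    obtain ⟨r1, r2⟩ := T.right 1 (3 / 2) norm_one (by norm_num)
    filter_upwards [(isOpen_P T (Ω := {q | 3 / 2 < ‖q.2‖ ^ 2})
      (isOpen_lt continuous_const (by fun_prop))).mem_nhds ⟨r1, by rw [r2]; norm_num⟩] with y hy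
    have := hy.2
    exact tz_one fun _ => uu_hi (by rw [ww0]; change 3 / 2 < ‖(T.P y).2‖ ^ 2 at this; linarith)
  refine ⟨⟨hs.contMDiffOn, (LeftInverse.injective (g := tz T fun ζ => conj (uu ζ))
    fun _ => tz_cancel norm_uu).injOn,
    fun x _ => ori_pos ho hs hd hp x, fun x _ => by rw [hX.ρ]; exact eqv_tau,
    fun x _ => by rw [hX.k]; exact Tube.tw_knot (m := (x, 0)) fun _ => norm_uu _,
    fun z w _ e => by rw [hX.k] at e ⊢; exact dir_tau hs z w e, fun x _ => ?_⟩,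
    RightInverse.surjective (g := tz T fun ζ => conj (uu ζ)) fun _ => tz_cancel' norm_uu, ?_, ?_⟩
  · by_cases a : x ∈ (shell T).In
    · have b := (tz_In n_neg).2 a
      rw [← tau_in a, hX.ins _ b]
      exact ⟨fun c => rot_rot (T := T) (y := x) ▸ rot_half norm_one h h' b c,
        rot_half (by simp) h' (by rwa [neg_neg]) a⟩
    · rw [← tau_out a, hX.out _ a]
  · rw [hX.tail, ← e1]
    exact ((congrArg _ e2).symm.trans ((tau_core (by simp)).trans (by rw [neg_neg]))).symm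
  · rw [hX.head, ← e2, ← tau_core norm_one, e1]
    exact congrArg _ (congrArg K.ax (neg_neg _).symm)

end Pool.Agent.Lib.MP_7ac2ff_gt
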