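import Pool.Agent.Lib.MP_7ac2ff_gt.ShT
import Pool.Agent.Lib.MP_7ac2ff_gt.Uniq
import Pool.Agent.Lib.MP_7ac2ff_gt.Axis

/-! Transporting a shell into a connected sum. -/

namespace Pool.Agent.Lib.MP_7ac2ff_gt

open Set Function Filter Sh
open scoped Manifold ContDiff Topology

variable {o : S3 → ℝ} {J K S X Y : DSI}

namespace Ss

/-- the half-axis parametrised by the real part -/
noncomputable def cv (X : DSI) (t : ℝ) : S3 := X.ax (Circle.exp (Real.arccos t))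

lemma cv_cont (X : DSI) : Continuous (cv X) :=
  X.cont.comp (Circle.exp.continuous.comp Real.continuous_arccos)

lemma cv_inj (X : DSI) : InjOn (cv X) (Icc (-1) 1) := fun a ha b hb e => by
  rw [← Ax.up_re ha, ← Ax.up_re hb, X.inj e]

lemma cv_mem (X : DSI) (t : ℝ) : cv X t ∈ X.half := ⟨_, Ax.up_im t, rfl⟩

lemma cv_surj {y : S3} (h : y ∈ X.half) : ∃ t ∈ Icc (-1 : ℝ) 1, cv X t = y := by
  obtain ⟨z, hz, rfl⟩ := h
  exact ⟨_, Ax.re_mem z, congrArg X.ax (Ax.upper hz)⟩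

lemma cv_one (X : DSI) : cv X 1 = X.ax 1 := by simp [cv]

lemma cv_neg (X : DSI) : cv X (-1) = X.ax (-1) := by
  have := Ax.upper (z := -1) (by simp)
  exact congrArg X.ax (by simpa using this)

lemma between {C : Set S3} (hC : IsPreconnected C) (h : C ⊆ X.half) {u s w : ℝ} (h1 : -1 ≤ u)
    (h2 : u ≤ s) (h3 : s ≤ w) (h4 : w ≤ 1) (hu : cv X u ∈ C) (hw : cv X w ∈ C) : cv X s ∈ C := by
  obtain ⟨y, a, ⟨p, hp, rfl⟩, q, hq, b⟩ := isPreconnected_closed_iff.1 hC (cv X '' Icc (-1) s)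
    (cv X '' Icc s 1) (isCompact_Icc.image (cv_cont X)).isClosed
    (isCompact_Icc.image (cv_cont X)).isClosed (fun y hy => by
      obtain ⟨t, ht, rfl⟩ := cv_surj (h hy)
      rcases le_total t s with k | k
      exacts [.inl ⟨t, ⟨ht.1, k⟩, rfl⟩, .inr ⟨t, ⟨k, ht.2⟩, rfl⟩])
    ⟨_, hu, u, ⟨h1, h2⟩, rfl⟩ ⟨_, hw, w, ⟨h3, h4⟩, rfl⟩
  have e := cv_inj X ⟨by linarith [hq.1], hq.2⟩ ⟨hp.1, by linarith [hp.2]⟩ b
  rwa [show s = p from le_antisymm (e ▸ hq.1) hp.2]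

/-- a half-axis meeting a separating set in two points -/
lemma arc_gen {In T0 C : Set S3} {y1 y2 : S3} (hc : IsClosed In) (ho : IsOpen (In \ T0))
    (hs : T0 ⊆ In) (m1 : y1 ∈ X.half) (m2 : y2 ∈ X.half) (n1 : y1 ∈ T0) (n2 : y2 ∈ T0)
    (only : ∀ y ∈ X.half, y ∈ T0 → y = y1 ∨ y = y2) (k1 : X.ax 1 ∈ In \ T0)
    (k2 : X.ax (-1) ∈ In \ T0) (ex : ∃ z ∈ X.half, z ∉ In) (hC : IsPreconnected C)
    (hX : C ⊆ X.half)
    (hd : (X.ax 1 ∈ C ∧ y1 ∈ C ∧ y2 ∉ C) ∨ (X.ax (-1) ∈ C ∧ y2 ∈ C ∧ y1 ∉ C)) :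
    ∃ Γ : ℝ → S3, Continuous Γ ∧ InjOn Γ (Icc (-2) 2) ∧ Γ '' Icc (-2) 2 = X.half ∧
      Γ (-2) = X.ax 1 ∧ Γ 2 = X.ax (-1) ∧ Γ (-1) = y1 ∧ Γ 1 = y2 ∧
      (∀ x ∈ Icc (-2 : ℝ) 2, Γ x ∈ In ↔ 1 ≤ |x|) ∧ ∀ x ∈ Icc (-2 : ℝ) 2, Γ x ∈ T0 → |x| = 1 := by
  have hco := cv_cont X
  have hin := cv_inj X
  have hme := cv_mem X
  have hsu := @cv_surj X
  have bt := @between X C hC hX
  have c1 := cv_one X
  have c2 := cv_neg X
  generalize cv X = w at hco hin hme hsu bt c1 c2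
  obtain ⟨t1, a1, rfl⟩ := hsu m1
  obtain ⟨t2, a2, rfl⟩ := hsu m2
  rw [← c1] at k1 hd
  rw [← c2] at k2 hd
  have b1 : t1 < 1 := lt_of_le_of_ne a1.2 fun e => k1.2 (e ▸ n1)
  have b2 : -1 < t2 := lt_of_le_of_ne a2.1 fun e => k2.2 (e ▸ n2)
  have b3 : t2 < t1 := lt_of_not_ge fun e => by
    rcases hd with ⟨p, q, r⟩ | ⟨p, q, r⟩
    exacts [r (bt a1.1 e a2.2 le_rfl q p), r (bt le_rfl a1.1 e a2.2 p q)]
  have side : ∀ I : Set ℝ, IsPreconnected I → I ⊆ Icc (-1) 1 → t1 ∉ I → t2 ∉ I →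
      w '' I ⊆ In \ T0 ∨ w '' I ⊆ Inᶜ := fun I p q r s =>
    (p.image _ hco.continuousOn).subset_or_subset ho hc.isOpen_compl
      (disjoint_compl_right.mono_left sdiff_subset) (by
        rintro _ ⟨t, ht, rfl⟩
        refine (em _).imp (fun k => ⟨k, fun k' => ?_⟩) id
        rcases only _ (hme t) k' with e | e
        exacts [r (hin (q ht) a1 e ▸ ht), s (hin (q ht) a2 e ▸ ht)])
  have s1 : ∀ t, t1 < t → t ≤ 1 → w t ∈ In := fun t p q =>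
    (((side (Ioc t1 1) isPreconnected_Ioc (fun _ k => ⟨by linarith [k.1, a1.1], k.2⟩)
      (fun k => k.1.false) fun k => (b3.trans k.1).false).resolve_right
      fun k => k ⟨1, ⟨b1, le_rfl⟩, rfl⟩ k1.1) ⟨t, ⟨p, q⟩, rfl⟩).1
  have s2 : ∀ t, -1 ≤ t → t < t2 → w t ∈ In := fun t p q =>
    (((side (Ico (-1) t2) isPreconnected_Ico (fun _ k => ⟨k.1, by linarith [k.2, a2.2]⟩)
      (fun k => (b3.trans k.2).false) fun k => k.2.false).resolve_right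
      fun k => k ⟨-1, ⟨le_rfl, b2⟩, rfl⟩ k2.1) ⟨t, ⟨p, q⟩, rfl⟩).1
  have s3 : ∀ t, t2 < t → t < t1 → w t ∉ In := fun t p q => by
    refine ((side (Ioo t2 t1) isPreconnected_Ioo
      (fun _ k => ⟨by linarith [k.1], by linarith [k.2]⟩) (fun k => k.2.false)
      fun k => k.1.false).resolve_left fun k => ?_) ⟨t, ⟨p, q⟩, rfl⟩
    obtain ⟨z, hz, hz'⟩ := ex
    obtain ⟨u, hu, rfl⟩ := hsu hz
    refine hz' (k ⟨u, ⟨lt_of_not_ge fun l => ?_, lt_of_not_ge fun l => ?_⟩, rfl⟩).1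
    · rcases l.eq_or_lt with rfl | l
      exacts [hz' (hs n2), hz' (s2 u hu.1 l)]
    · rcases l.eq_or_lt with rfl | l
      exacts [hz' (hs n1), hz' (s1 u l hu.2)]
  obtain ⟨τ, c, an, e1, e2⟩ := Ax.glue (φ := fun x => 1 - (1 - t1) * x)
    (ψ := fun x => -1 - (t2 + 1) * x) (by fun_prop) (by fun_prop)
    (fun x _ y _ l => by nlinarith) (fun x _ y _ l => by nlinarith) (by simpa using b3)
  have p1 : τ (-2) = 1 := by rw [e1 _ ⟨le_rfl, by norm_num⟩]; ring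
  have p2 : τ (-1) = t1 := by rw [e1 _ ⟨by norm_num, le_rfl⟩]; ring
  have p3 : τ 1 = t2 := by rw [e2 _ ⟨le_rfl, by norm_num⟩]; ring
  have p4 : τ 2 = -1 := by rw [e2 _ ⟨by norm_num, le_rfl⟩]; ring
  have i1 : (-2 : ℝ) ∈ Icc (-2 : ℝ) 2 := by norm_num
  have i2 : (-1 : ℝ) ∈ Icc (-2 : ℝ) 2 := by norm_num
  have i3 : (1 : ℝ) ∈ Icc (-2 : ℝ) 2 := by norm_num
  have i4 : (2 : ℝ) ∈ Icc (-2 : ℝ) 2 := by norm_num
  have mp : MapsTo τ (Icc (-2) 2) (Icc (-1) 1) := fun x hx =>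
    ⟨p4 ▸ an.antitoneOn hx i4 hx.2, p1 ▸ an.antitoneOn i1 hx hx.1⟩
  have inj := hin.comp an.injOn mp
  refine ⟨w ∘ τ, hco.comp c, inj, Subset.antisymm ?_ fun y hy => ?_,
    by rw [comp_apply, p1, c1], by rw [comp_apply, p4, c2], congrArg _ p2, congrArg _ p3,
    fun x hx => ⟨fun k => le_of_not_gt fun l => ?_, fun k => ?_⟩, fun x hx k => ?_⟩
  · rintro _ ⟨x, -, rfl⟩
    exact hme _
  · obtain ⟨t, ht, rfl⟩ := hsu hy
    obtain ⟨x, hx, rfl⟩ := intermediate_value_Icc' (by norm_num : (-2 : ℝ) ≤ 2) c.continuousOn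
      (by rwa [p1, p4])
    exact ⟨x, hx, rfl⟩
  · have := abs_lt.1 l
    exact s3 _ (p3 ▸ an hx i3 this.2) (p2 ▸ an i2 hx this.1) k
  · rcases le_abs'.1 k with l | l <;> rcases l.eq_or_lt with rfl | l
    exacts [by rw [comp_apply, p2]; exact hs n1, s1 _ (p2 ▸ an hx i2 l) (mp hx).2,
      by rw [comp_apply, p3]; exact hs n2, s2 _ (mp hx).1 (p3 ▸ an i3 hx l)]
  · rcases only _ (hme _) k with e | e
    · rw [inj hx i2 (e.trans (congrArg _ p2.symm))]; norm_num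
    · rw [inj hx i3 (e.trans (congrArg _ p3.symm))]; norm_num

/-- data for moving a shell along a piece -/
structure Dat (o : S3 → ℝ) (T : Shell K) (S : DSI) (D : Set S3) (f g : S3 → S3) : Prop where
  pc : Piece o K S D f
  pg : Piece o S K (f '' D) g
  op : IsOpen D
  op' : IsOpen (f '' D)
  li : ∀ x ∈ D, g (f x) = x
  hU : T.U ⊆ D
  hI : T.Inᶜ ⊆ D

namespace Dat

variable {T : Shell K} {D : Set S3} {f g : S3 → S3} (d : Dat o T S D f g)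
include d

lemma img_open {V : Set S3} (hV : IsOpen V) (h : V ⊆ D) : IsOpen (f '' V) := by
  have : f '' V = f '' D ∩ g ⁻¹' V := by
    refine Subset.antisymm ?_ ?_
    · rintro _ ⟨x, hx, rfl⟩
      exact ⟨⟨x, h hx, rfl⟩, by rwa [mem_preimage, d.li x (h hx)]⟩
    · rintro _ ⟨⟨x, hx, rfl⟩, a⟩
      exact ⟨x, by rwa [mem_preimage, d.li x hx] at a, rfl⟩
  rw [this]
  exact d.pg.smooth.continuousOn.isOpen_inter_preimage d.op' hV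

lemma mem_img {V : Set S3} (h : V ⊆ D) {x : S3} (hx : x ∈ D) : f x ∈ f '' V ↔ x ∈ V :=
  d.pc.inj.mem_image_iff h hx

/-- the transported shell -/
def push : Shell S where
  U := f '' T.U
  P := T.P ∘ g
  Θ := f ∘ T.Θ
  In := (f '' T.Inᶜ)ᶜ
  ins := by
    rintro _ ⟨x, hx, rfl⟩
    rw [mem_compl_iff, d.mem_img d.hI (d.hU hx), notMem_compl_iff, comp_apply, d.li x (d.hU hx),
      T.ins x hx]
  opn := d.img_open T.opn d.hU
  sP := T.sP.comp (d.pg.smooth.mono (image_mono d.hU)) (by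
    rintro _ ⟨x, hx, rfl⟩
    rwa [mem_preimage, d.li x (d.hU hx)])
  sΘ := fun a p x h1 h2 h3 => (d.pc.smooth.contMDiffAt
    (d.op.mem_nhds (d.hU (T.right a p x h1 h2 h3).1))).comp _ (T.sΘ a p x h1 h2 h3)
  left := by
    rintro _ ⟨x, hx, rfl⟩
    obtain ⟨a, b, c, e⟩ := T.left x hx
    rw [comp_apply, d.li x (d.hU hx), comp_apply, e]
    exact ⟨a, b, c, rfl⟩
  right := fun a p x h1 h2 h3 => by
    obtain ⟨b, c⟩ := T.right a p x h1 h2 h3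
    exact ⟨⟨_, b, rfl⟩, by rw [comp_apply, comp_apply, d.li _ (d.hU b), c]⟩
  knot := by
    rintro _ ⟨x, hx, rfl⟩
    rw [d.pc.knot x (d.hU hx)]
    exact T.knot x hx
  eqv := fun a p x h1 h2 h3 => by
    rw [comp_apply, d.pc.eqv _ (d.hU (T.right a p x h1 h2 h3).1), T.eqv a p x h1 h2 h3]
    rfl

variable {x : S3} {v : ℂ → ℂ}

lemma mem_U (hx : x ∈ D) : f x ∈ d.push.U ↔ x ∈ T.U := d.mem_img d.hU hx

lemma mem_In (hx : x ∈ D) : f x ∈ d.push.In ↔ x ∈ T.In :=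
  (not_congr (d.mem_img d.hI hx)).trans notMem_compl_iff

lemma P_eq (hx : x ∈ D) : d.push.P (f x) = T.P x := congrArg T.P (d.li x hx)

lemma ts_D (hv : Un v) (hx : x ∈ D) : T.ts v x ∈ D := by
  by_cases a : x ∈ T.U
  exacts [d.hU ((Shell.ts_mem hv).2 a), by rwa [Shell.ts_out a]]

lemma ts_f (hv : Un v) (hx : x ∈ D) : d.push.ts v (f x) = f (T.ts v x) := by
  by_cases a : x ∈ T.U
  · rw [Shell.ts_eq ((d.mem_U hx).2 a) hv, Shell.ts_eq a hv, d.P_eq hx]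
    rfl
  · rw [Shell.ts_out a, Shell.ts_out (mt (d.mem_U hx).1 a)]

lemma arc {A B : DSI} {ε : ℂ} {γ : ℝ → S3} (hε : ‖ε‖ = 1) (hγ : SArc T ε A γ)
    (pc : Piece o A B D f) (hc : IsClosed T.In)
    (ho : IsOpen (T.In \ {y | y ∈ T.U ∧ (T.P y).2.2 = 0}))
    (k1 : B.ax 1 ∈ d.push.In \ d.push.U) (k2 : B.ax (-1) ∈ d.push.In \ d.push.U)
    (hC : (B.ax 1 = f (A.ax 1) ∧ ∀ x ∈ Icc (-2 : ℝ) (-1), γ x ∈ D) ∨
      (B.ax (-1) = f (A.ax (-1)) ∧ ∀ x ∈ Icc (1 : ℝ) 2, γ x ∈ D)) :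
    ∃ Γ, SArc d.push ε B Γ := by
  have i0 : (0 : ℝ) ∈ Icc (-2 : ℝ) 2 := by norm_num
  have i2 : (-1 : ℝ) ∈ Icc (-2 : ℝ) 2 := by norm_num
  have i3 : (1 : ℝ) ∈ Icc (-2 : ℝ) 2 := by norm_num
  obtain ⟨u1, q1⟩ := T.right ε 1 0 hε norm_one (by norm_num)
  obtain ⟨u2, q2⟩ := T.right (-ε) (-1) 0 (by rwa [norm_neg]) (by simp) (by norm_num)
  rw [← hγ.lft] at u1 q1
  rw [← hγ.rgt] at u2 q2
  have hm : ∀ x ∈ Icc (-2 : ℝ) 2, γ x ∈ D → f (γ x) ∈ B.half := fun x hx a =>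
    (pc.half _ a).2 (hγ.img.le ⟨x, hx, rfl⟩)
  have g0 : γ 0 ∉ T.In := fun a => by simpa [zero_lt_one.not_ge] using (hγ.ins 0 i0).1 a
  obtain ⟨C, c1, c2, c3⟩ : ∃ C, IsPreconnected C ∧ C ⊆ B.half ∧
      ((B.ax 1 ∈ C ∧ f (γ (-1)) ∈ C ∧ f (γ 1) ∉ C) ∨
        (B.ax (-1) ∈ C ∧ f (γ 1) ∈ C ∧ f (γ (-1)) ∉ C)) := by
    have key : ∀ a b : ℝ, Icc a b ⊆ Icc (-2) 2 → (∀ x ∈ Icc a b, γ x ∈ D) →
        IsPreconnected ((f ∘ γ) '' Icc a b) ∧ (f ∘ γ) '' Icc a b ⊆ B.half ∧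
        ∀ y ∈ Icc (-2 : ℝ) 2, γ y ∈ D → f (γ y) ∈ (f ∘ γ) '' Icc a b → y ∈ Icc a b :=
      fun a b s m => ⟨isPreconnected_Icc.image _ (pc.smooth.continuousOn.comp
        hγ.cont.continuousOn m), forall_mem_image.2 fun x hx => hm x (s hx) (m x hx),
        fun y hy n ⟨x, hx, e⟩ => hγ.inj (s hx) hy (pc.inj (m x hx) n e) ▸ hx⟩
    rcases hC with ⟨a, b⟩ | ⟨a, b⟩
    · obtain ⟨r1, r2, r3⟩ := key (-2) (-1) (Icc_subset_Icc_right (by norm_num)) b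
      exact ⟨_, r1, r2, .inl ⟨⟨-2, by norm_num, by rw [a, ← hγ.tail]; rfl⟩, ⟨-1, by norm_num, rfl⟩,
        fun k => by have := (r3 1 i3 (d.hU u2) k).2; norm_num at this⟩⟩
    · obtain ⟨r1, r2, r3⟩ := key 1 2 (Icc_subset_Icc_left (by norm_num)) b
      exact ⟨_, r1, r2, .inr ⟨⟨2, by norm_num, by rw [a, ← hγ.head]; rfl⟩, ⟨1, by norm_num, rfl⟩,
        fun k => by have := (r3 (-1) i2 (d.hU u1) k).1; norm_num at this⟩⟩
  have sub : (T.In \ {y | y ∈ T.U ∧ (T.P y).2.2 = 0})ᶜ ⊆ D := fun y hy =>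
    by_contra fun a => hy ⟨by_contra fun b => a (d.hI b), fun b => a (d.hU b.1)⟩
  have op : IsOpen (d.push.In \ {y | y ∈ d.push.U ∧ (d.push.P y).2.2 = 0}) := by
    have : d.push.In \ {y | y ∈ d.push.U ∧ (d.push.P y).2.2 = 0} =
        (f '' (T.In \ {y | y ∈ T.U ∧ (T.P y).2.2 = 0})ᶜ)ᶜ := by
      ext y
      by_cases a : y ∈ f '' D
      · obtain ⟨x, hx, rfl⟩ := a
        rw [mem_compl_iff, d.mem_img sub hx, notMem_compl_iff, Set.mem_sdiff, Set.mem_sdiff, d.mem_In hx,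
          mem_ofPred_eq, mem_ofPred_eq, d.mem_U hx, d.P_eq hx]
      · exact iff_of_true ⟨fun b => a (image_mono d.hI b), fun b => a (image_mono d.hU b.1)⟩
          fun b => a (image_mono sub b)
    rw [this]
    exact (ho.isClosed_compl.isCompact.image_of_continuousOn
      (pc.smooth.continuousOn.mono sub)).isClosed.isOpen_compl
  obtain ⟨Γ, r1, r2, r3, r4, r5, r6, r7, r8, r9⟩ := arc_gen (X := B) (In := d.push.In)
    (d.img_open hc.isOpen_compl d.hI).isClosed_compl op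
    (fun y hy => (d.push.ins y hy.1).2 hy.2.le) (hm _ i2 (d.hU u1)) (hm _ i3 (d.hU u2))
    ⟨⟨_, u1, rfl⟩, by rw [d.P_eq (d.hU u1), q1]⟩ ⟨⟨_, u2, rfl⟩, by rw [d.P_eq (d.hU u2), q2]⟩
    (by
      rintro _ a ⟨⟨x, hx, rfl⟩, b⟩
      rw [d.P_eq (d.hU hx)] at b
      obtain ⟨s, hs, rfl⟩ := hγ.img.ge ((pc.half x (d.hU hx)).1 a)
      rcases (abs_eq zero_le_one).1 (hγ.core s hs hx b) with rfl | rfl
      exacts [.inr rfl, .inl rfl])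
    ⟨k1.1, fun a => k1.2 a.1⟩ ⟨k2.1, fun a => k2.2 a.1⟩
    ⟨_, hm 0 i0 (d.hI g0), mt (d.mem_In (d.hI g0)).1 g0⟩ c1 c2 c3
  exact ⟨Γ, r1, r2, r3, r4, r5, r6.trans (congrArg f hγ.lft), r7.trans (congrArg f hγ.rgt), r8,
    fun x hx a b => r9 x hx ⟨a, b⟩⟩

lemma piece (hρ : MapsTo K.ρ D D) (hX : Tw T X) (hY : Tw d.push Y) : Piece o X Y D f := by
  refine ⟨d.pc.smooth, d.pc.inj, d.pc.ori, fun x hx => ?_, by rw [hX.k, hY.k]; exact d.pc.knot,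
    by rw [hX.k, hY.k]; exact d.pc.dir, fun x hx => ?_⟩
  · rw [hX.ρ, hY.ρ, Shell.ρ2, Shell.ρ2, d.pc.eqv x hx, d.ts_f un_rl (hρ hx)]
  · have key : ∀ b, ∃ y ∈ D, (y ∈ T.In ↔ x ∈ T.In) ∧ T.ts (tau b) y = x := fun b =>
      ⟨_, d.ts_D (un_tau b).conj hx, Shell.ts_in (un_tau b).conj, Shell.ts_cancel' (un_tau b)⟩
    by_cases a : x ∈ T.In
    · obtain ⟨y, hy, b, rfl⟩ := key false
      rw [hX.ins y (b.2 a), ← d.ts_f (un_tau _) hy, hY.ins _ ((d.mem_In hy).2 (b.2 a)),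
        d.pc.half y hy]
    · obtain ⟨y, hy, b, rfl⟩ := key true
      rw [hX.out y (mt b.1 a), ← d.ts_f (un_tau _) hy, hY.out _ (mt (d.mem_In hy).1 (mt b.1 a)),
        (d.pc.anti hρ).half y hy]

end Dat

end Ss

open Ss

theorem sum_shell {T : Shell K} {γ γ' : ℝ → S3} {N : Set S3} (hT : Nice T γ γ' N)
    {e e' : E 3 → S3} {f f' : S3 → S3} (h : SumD o K J S e e' f f') (hN : range e ⊆ N) :
    ∃ (T' : Shell S) (Γ Γ' : ℝ → S3), SArc T' 1 S Γ ∧ SArc T' (-1) S.anti Γ' ∧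
      ∀ X Y, Tw T X → Tw T' Y → SumD o X J Y e e' f f' := by
  obtain ⟨o1, o2⟩ := h.std.isOpen_out
  obtain ⟨o3, g, pg, li⟩ := h.pc.symm o1 o2
  have out : ∀ x, x ∉ N → x ∈ Out e := fun x a ⟨v, _, b⟩ => a (hN ⟨v, b⟩)
  have eU : ∀ v, e v ∉ T.U := fun v => disjoint_left.1 hT.disj (hN ⟨v, rfl⟩)
  have eI : ∀ v, e v ∈ T.In := fun v => hT.sub (hN ⟨v, rfl⟩)
  have d : Dat o T S (Out e) f g := ⟨h.pc, pg, o1, o3, li,
    fun x a => out x (disjoint_right.1 hT.disj a), fun x a => out x fun b => a (hT.sub b)⟩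
  have oth : ∀ y ∈ Out e', f' y ∈ d.push.In \ d.push.U := fun y hy => by
    refine ⟨?_, ?_⟩ <;> rintro ⟨x, hx, a⟩
    · obtain ⟨v, rfl, -⟩ := (h.gl x (d.hI hx) y hy).1 a
      exact hx (eI v)
    · obtain ⟨v, rfl, -⟩ := (h.gl x (d.hU hx) y hy).1 a
      exact eU v hx
  have k1 : S.ax 1 ∈ d.push.In \ d.push.U := by
    refine ⟨?_, fun a => d.push.knot _ a ((S.two 1).2 (.inl rfl))⟩
    rw [h.tail, d.mem_In fun ⟨v, _, b⟩ => Uq.not_mem_tail h.std ⟨v, b⟩]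
    exact hT.knot ((K.two 1).2 (.inl rfl))
  have k2 : S.ax (-1) ∈ d.push.In \ d.push.U :=
    h.head ▸ oth _ fun ⟨v, _, b⟩ => Uq.not_mem_head h.std' ⟨v, b⟩
  have n1 : ∀ L : DSI, L.anti.ax (-1) = L.ax 1 := fun L => congrArg L.ax (neg_neg 1)
  obtain ⟨Γ, hΓ⟩ := d.arc norm_one hT.arc h.pc hT.closed hT.opn k1 k2
    (.inl ⟨h.tail, fun x hx => out _ (hT.av x ⟨hx.1, by linarith [hx.2]⟩)⟩)
  obtain ⟨Γ', hΓ'⟩ := d.arc (by simp) hT.arc' (h.pc.anti o2) hT.closed hT.opn k2 (n1 S ▸ k1)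
    (.inr ⟨by rw [n1, n1, h.tail], fun x hx => out _ (hT.av' x ⟨by linarith [hx.1], hx.2⟩)⟩)
  refine ⟨d.push, Γ, Γ', hΓ, hΓ', fun X Y hX hY => ⟨⟨h.std.emb, h.std.zero.trans hX.head.symm,
    fun v => ?_, by rw [hX.k]; exact h.std.knot, fun r => ?_, h.std.ori,
    by rw [hX.k]; exact h.std.dir⟩, h.std', d.piece o2 hX hY, ⟨h.pc'.smooth, h.pc'.inj, h.pc'.ori,
    fun y hy => ?_, by rw [hY.k]; exact h.pc'.knot, by rw [hY.k]; exact h.pc'.dir, fun y hy => ?_⟩,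
    h.cov, h.gl, by rw [hY.tail, hX.tail, h.tail], by rw [hY.head, h.head]⟩⟩
  · rw [hX.ρ, Shell.ρ2, h.std.eqv, Shell.ts_out (eU _)]
  · rw [← h.std.ray, ← hX.ins _ (eI _), Shell.ts_out (eU _)]
  · rw [hY.ρ, Shell.ρ2, h.pc'.eqv y hy, Shell.ts_out (oth _ (h.std'.isOpen_out.2 hy)).2]
  · rw [← h.pc'.half y hy, ← hY.ins _ (oth y hy).1, Shell.ts_out (oth y hy).2]

end Pool.Agent.Lib.MP_7ac2ff_gt
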