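import Pool.Agent.Lib.MP_7ac2ff_gt.ShG
import Pool.Agent.Lib.MP_7ac2ff_gt.ShellK
import Pool.Agent.Lib.MP_7ac2ff_gt.ShellS
import Pool.Agent.Lib.MP_7ac2ff_gt.IsoConc

/-! Equivariant sums commute up to equivariant rational concordance. -/

namespace Pool.Agent.Lib.MP_7ac2ff_gt

open Set Function Filter Sh
open scoped Manifold ContDiff Topology

variable {o : S3 → ℝ} {J K S S' : DSI}

/-- the first summand may be replaced by its antipode -/
theorem IsSum.step (ho : IsOr (𝓡 3) o) (h : IsSum o K J S) :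
    ∃ Y, IsSum o K.anti J Y ∧ QConc S Y := by
  obtain ⟨T, γ, γ', N, hT, hτ⟩ := exists_shell ho K
  obtain ⟨X, hX, -⟩ := exists_twist hT.arc hT.arc'
  obtain ⟨τ, hτ⟩ := hτ X hX
  obtain ⟨e, e', f, f', h⟩ := h
  obtain ⟨e₁, h1, h2⟩ := h.std.small hT.nhd
  obtain ⟨f₁, h⟩ := h.sub_left ho h1
  obtain ⟨T', Γ, Γ', a, a', b⟩ := sum_shell hT h h2
  obtain ⟨Y, hY, c⟩ := exists_twist a a'
  exact ⟨Y, IsSum.of_iso ⟨_, _, _, _, b X Y hX hY⟩ hτ, c⟩

lemma anti_anti (K : DSI) : K.anti.anti = K := by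
  cases K
  simp only [DSI.anti, neg_neg]

theorem sum_comm (ho : IsOr (𝓡 3) o) (h : IsSum o J K S) (h' : IsSum o K J S') :
    Relation.EqvGen QConc S S' := by
  obtain ⟨Y, a, b⟩ := h.step ho
  obtain ⟨Y', a', b'⟩ := h'.step ho
  have c := a.anti
  rw [anti_anti] at c
  obtain ⟨ψ, d⟩ := a'.unique ho c
  have e := qconc_iso ho d
  rw [anti_anti] at e
  exact .trans _ _ _ (.rel _ _ b) (.symm _ _ (.trans _ _ _ (.rel _ _ b') (.rel _ _ e)))

end Pool.Agent.Lib.MP_7ac2ff_gt
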