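import Mathlib

/-! Scalar functions used in the logarithmic transform. -/

namespace Pool.Agent.Lib.MP_7ac2ff_gt

open Set Function Filter Complex
open scoped ContDiff Topology ComplexConjugate

noncomputable def nrm (z : ℂ) : ℂ := ((‖z‖⁻¹ : ℝ) : ℂ) * z

lemma norm_nrm {z : ℂ} (h : z ≠ 0) : ‖nrm z‖ = 1 := by
  simp [nrm, norm_ne_zero_iff.2 h]

lemma norm_nrm_le (z : ℂ) : ‖nrm z‖ ≤ 1 := by
  by_cases h : z = 0
  · simp [nrm, h]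
  · exact (norm_nrm h).le

lemma nrm_unit {z : ℂ} (h : ‖z‖ = 1) : nrm z = z := by simp [nrm, h]

lemma nrm_mul (z w : ℂ) : nrm (z * w) = nrm z * nrm w := by
  simp only [nrm, norm_mul, mul_inv, ofReal_mul]; ring

lemma nrm_sq (z : ℂ) : nrm (z ^ 2) = nrm z ^ 2 := by rw [sq, nrm_mul, sq]

lemma nrm_conj (z : ℂ) : nrm (conj z) = conj (nrm z) := by simp [nrm]

lemma nrm_pos {r : ℝ} (h : 0 < r) : nrm r = 1 := by
  simp [nrm, abs_of_pos h, h.ne']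

lemma norm_mul_nrm (z : ℂ) : (‖z‖ : ℂ) * nrm z = z := by
  by_cases h : z = 0
  · simp [nrm, h]
  · have : (‖z‖ : ℂ) ≠ 0 := by simpa using h
    simp only [nrm, ofReal_inv]; field_simp

lemma unit_mul_conj {z : ℂ} (h : ‖z‖ = 1) : z * conj z = 1 := by
  rw [mul_conj, normSq_eq_norm_sq, h]; simp

lemma re_nrm_pos {z : ℂ} (h : 0 < z.re) : 0 < (nrm z).re := by
  have : z ≠ 0 := fun e => by simp [e] at h
  rw [nrm, re_ofReal_mul]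
  positivity

lemma cd_ofReal {X : Type} [NormedAddCommGroup X] [NormedSpace ℝ X] {f : X → ℝ} {x : X}
    (h : ContDiffAt ℝ ∞ f x) : ContDiffAt ℝ ∞ (fun y => (f y : ℂ)) x :=
  ofRealCLM.contDiff.contDiffAt.comp x h

lemma cd_conj {X : Type} [NormedAddCommGroup X] [NormedSpace ℝ X] {f : X → ℂ} {x : X}
    (h : ContDiffAt ℝ ∞ f x) : ContDiffAt ℝ ∞ (fun y => conj (f y)) x :=
  conjCLE.contDiff.contDiffAt.comp x h

lemma cd_nrm {X : Type} [NormedAddCommGroup X] [NormedSpace ℝ X] {f : X → ℂ} {x : X}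
    (h : ContDiffAt ℝ ∞ f x) (h0 : f x ≠ 0) : ContDiffAt ℝ ∞ (fun y => nrm (f y)) x :=
  (cd_ofReal ((h.norm ℝ h0).inv (norm_ne_zero_iff.2 h0))).mul h

lemma cd_re : ContDiff ℝ ∞ fun z : ℂ => z.re := reCLM.contDiff
lemma cd_im : ContDiff ℝ ∞ fun z : ℂ => z.im := imCLM.contDiff

lemma sq_nrm_of {X F : ℂ} (hX : X ≠ 0) (hF : F ≠ 0) (h : (‖F‖ : ℂ) * X = F * conj X) :
    nrm X ^ 2 = nrm F := by
  have h1 := congrArg nrm h
  rw [nrm_mul, nrm_mul, nrm_pos (norm_pos_iff.2 hF), nrm_conj] at h1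
  linear_combination nrm X * h1 + nrm F * unit_mul_conj (norm_nrm hX)

lemma eq_of_sq {x y : ℂ} (h : x ^ 2 = y ^ 2) (hx : 0 < x.re) (hy : 0 < y.re) : x = y := by
  rcases sq_eq_sq_iff_eq_or_eq_neg.1 h with e | e
  · exact e
  · rw [e, neg_re] at hx; linarith

noncomputable def cut (ζ : ℂ) : ℝ := Real.smoothTransition (2 - ζ.re)

lemma cut_nonneg (ζ : ℂ) : 0 ≤ cut ζ := Real.smoothTransition.nonneg _
lemma cut_one {ζ : ℂ} (h : ζ.re ≤ 1) : cut ζ = 1 := Real.smoothTransition.one_of_one_le (by linarith)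
lemma cut_zero {ζ : ℂ} (h : 2 ≤ ζ.re) : cut ζ = 0 :=
  Real.smoothTransition.zero_of_nonpos (by linarith)
lemma cd_cut : ContDiff ℝ ∞ cut :=
  Real.smoothTransition.contDiff.comp (contDiff_const.sub cd_re)

noncomputable def FF (ζ : ℂ) : ℂ := (ζ.re : ℂ) + ((ζ.im * cut ζ : ℝ) : ℂ) * I

@[simp] lemma FF_re (ζ : ℂ) : (FF ζ).re = ζ.re := by simp [FF]
@[simp] lemma FF_im (ζ : ℂ) : (FF ζ).im = ζ.im * cut ζ := by simp [FF]

lemma FF_small {ζ : ℂ} (h : ζ.re ≤ 1) : FF ζ = ζ := Complex.ext (by simp) (by simp [cut_one h])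
lemma FF_big {ζ : ℂ} (h : 2 ≤ ζ.re) : FF ζ = ζ.re := Complex.ext (by simp) (by simp [cut_zero h])

lemma FF_ne {ζ : ℂ} (h : ζ ≠ 0) : FF ζ ≠ 0 := fun e => by
  have h1 : ζ.re = 0 := by rw [← FF_re, e, zero_re]
  rw [FF_small (by linarith)] at e
  exact h e

lemma cd_FF (ζ : ℂ) : ContDiffAt ℝ ∞ FF ζ :=
  (cd_ofReal cd_re.contDiffAt).add ((cd_ofReal (cd_im.mul cd_cut).contDiffAt).mul contDiffAt_const)

noncomputable def ZZ (ζ : ℂ) : ℂ := ((√(ζ.re ^ 2 + cut ζ ^ 2) : ℝ) : ℂ) + FF ζ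

lemma sq_sum_pos (ζ : ℂ) : 0 < ζ.re ^ 2 + cut ζ ^ 2 := by
  rcases le_or_gt ζ.re 1 with h | h
  · rw [cut_one h]; positivity
  · positivity

lemma ZZ_re_pos (ζ : ℂ) : 0 < (ZZ ζ).re := by
  simp only [ZZ, add_re, ofReal_re, FF_re]
  rcases le_or_gt ζ.re 1 with h | h
  · have : -ζ.re < √(ζ.re ^ 2 + cut ζ ^ 2) :=
      Real.lt_sqrt_of_sq_lt (by rw [cut_one h]; linarith)
    linarith
  · positivity

lemma ZZ_ne (ζ : ℂ) : ZZ ζ ≠ 0 := fun e => by simpa [e] using ZZ_re_pos ζ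

noncomputable def om (ζ : ℂ) : ℂ := nrm (ZZ ζ)

lemma norm_om (ζ : ℂ) : ‖om ζ‖ = 1 := norm_nrm (ZZ_ne ζ)

lemma cd_om (ζ : ℂ) : ContDiffAt ℝ ∞ om ζ :=
  cd_nrm ((cd_ofReal (((cd_re.pow 2).add (cd_cut.pow 2)).contDiffAt.sqrt
    (sq_sum_pos ζ).ne')).add (cd_FF ζ)) (ZZ_ne ζ)

lemma om_big {ζ : ℂ} (h : 2 ≤ ζ.re) : om ζ = 1 := by
  rw [om, ZZ, FF_big h, ← ofReal_add]
  exact nrm_pos (by positivity)

noncomputable def mu (ζ : ℂ) : ℂ := conj (nrm (FF ζ)) * om ζ ^ 2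

lemma norm_mu {ζ : ℂ} (h : ζ ≠ 0) : ‖mu ζ‖ = 1 := by simp [mu, norm_nrm (FF_ne h), norm_om]

lemma cd_mu {ζ : ℂ} (h : ζ ≠ 0) : ContDiffAt ℝ ∞ mu ζ :=
  (cd_conj (cd_nrm (cd_FF ζ) (FF_ne h))).mul ((cd_om ζ).pow 2)

lemma mu_big {ζ : ℂ} (h : 2 ≤ ζ.re) : mu ζ = 1 := by
  rw [mu, om_big h, FF_big h, nrm_pos (by linarith)]; simp

lemma norm_FF_end {ζ : ℂ} (h : ζ.im ^ 2 = 1) : ‖FF ζ‖ = √(ζ.re ^ 2 + cut ζ ^ 2) := by
  rw [norm_eq_sqrt_sq_add_sq, FF_re, FF_im, mul_pow, h, one_mul]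

lemma om_sq_end {ζ : ℂ} (h : ζ.im ^ 2 = 1) : om ζ ^ 2 = nrm (FF ζ) := by
  have h0 : ζ ≠ 0 := fun e => by simp [e] at h
  refine sq_nrm_of (ZZ_ne ζ) (FF_ne h0) ?_
  rw [ZZ, ← norm_FF_end h, map_add, conj_ofReal, mul_add, mul_add, mul_conj, normSq_eq_norm_sq]
  push_cast; ring

lemma mu_end {ζ : ℂ} (h : ζ.im ^ 2 = 1) : mu ζ = 1 := by
  have h0 : ζ ≠ 0 := fun e => by simp [e] at h
  rw [mu, om_sq_end h, mul_comm, unit_mul_conj (norm_nrm (FF_ne h0))]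

noncomputable def sgv (ε : ℝ) (ζ : ℂ) : ℂ := (1 + ε * I) * ‖FF ζ‖ + (1 - ε * I) * FF ζ

/-- branch of the square root of the direction of FF -/
noncomputable def sg (ε : ℝ) (ζ : ℂ) : ℂ := nrm (sgv ε ζ)

lemma sgv_re (ε : ℝ) (ζ : ℂ) : (sgv ε ζ).re = ‖FF ζ‖ + ζ.re + ε * ζ.im * cut ζ := by
  simp [sgv]; ring

lemma sgv_im (ε : ℝ) (ζ : ℂ) : (sgv ε ζ).im = ε * ‖FF ζ‖ + ζ.im * cut ζ - ε * ζ.re := by
  simp [sgv]; ring

lemma sgv_ne {ε : ℝ} (hε : ε ^ 2 = 1) {ζ : ℂ} (h0 : ζ ≠ 0) (h : 0 ≤ ε * ζ.im) : sgv ε ζ ≠ 0 := by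
  intro e
  have h1 := sgv_re ε ζ
  have h2 := sgv_im ε ζ
  rw [e] at h1 h2
  have h3 := norm_pos_iff.2 (FF_ne h0)
  have h4 := mul_nonneg h (cut_nonneg ζ)
  simp only [zero_re, zero_im] at h1 h2
  have h5 : ‖FF ζ‖ + ε * ζ.im * cut ζ - ζ.re = 0 := by
    linear_combination (-ε) * h2 - (‖FF ζ‖ - ζ.re) * hε
  linarith

lemma FF_ne_of_sgv {ε : ℝ} {ζ : ℂ} (h : sgv ε ζ ≠ 0) : FF ζ ≠ 0 := fun e => h (by simp [sgv, e])

lemma cd_sgv (ε : ℝ) {ζ : ℂ} (h : FF ζ ≠ 0) : ContDiffAt ℝ ∞ (sgv ε) ζ :=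
  (contDiffAt_const.mul (cd_ofReal ((cd_FF ζ).norm ℝ h))).add (contDiffAt_const.mul (cd_FF ζ))

lemma cd_sg {ε : ℝ} {ζ : ℂ} (h : sgv ε ζ ≠ 0) : ContDiffAt ℝ ∞ (sg ε) ζ :=
  cd_nrm (cd_sgv ε (FF_ne_of_sgv h)) h

lemma sg_sq {ε : ℝ} {ζ : ℂ} (h : sgv ε ζ ≠ 0) : sg ε ζ ^ 2 = nrm (FF ζ) := by
  refine sq_nrm_of h (FF_ne_of_sgv h) ?_
  have := mul_conj (FF ζ)
  rw [normSq_eq_norm_sq] at this
  simp only [sgv, map_add, map_mul, map_sub, map_one, conj_ofReal, conj_I]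
  push_cast at this
  linear_combination (-(1 + ε * I)) * this

lemma sg_pos (ε : ℝ) {ζ : ℂ} (h : 0 < ζ.re) (h' : FF ζ = ζ.re) : sg ε ζ = 1 := by
  have : sgv ε ζ = ((2 * ζ.re : ℝ) : ℂ) := by
    rw [sgv, h', norm_real, Real.norm_of_nonneg h.le]; push_cast; ring
  rw [sg, this]
  exact nrm_pos (by linarith)

lemma sg_big (ε : ℝ) {ζ : ℂ} (h : 2 ≤ ζ.re) : sg ε ζ = 1 := sg_pos ε (by linarith) (FF_big h)

lemma FF_real {ζ : ℂ} (h : ζ.im = 0) : FF ζ = ζ.re := Complex.ext (by simp) (by simp [h])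

lemma sg_neg {ε : ℝ} (hε : ε ^ 2 = 1) {ζ : ℂ} (h : ζ.re < 0) (h' : ζ.im = 0) : sg ε ζ = ε * I := by
  have : sgv ε ζ = ((-2 * ζ.re : ℝ) : ℂ) * (ε * I) := by
    rw [sgv, FF_real h', norm_real, Real.norm_of_nonpos h.le]; push_cast; ring
  rw [sg, this, nrm_mul, nrm_pos (by linarith), one_mul, nrm_unit]
  have : |ε| = 1 := by rwa [← sq_eq_sq₀ (abs_nonneg _) zero_le_one, sq_abs, one_pow]
  simp [this]

lemma sg_end {ε : ℝ} (hε : ε ^ 2 = 1) {ζ : ℂ} (h : ζ.im = ε) : sg ε ζ = om ζ := by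
  have h0 : ζ ≠ 0 := fun e => by rw [← h] at hε; simp [e] at hε
  have h1 : ζ.im ^ 2 = 1 := by rw [h, hε]
  refine eq_of_sq ?_ (re_nrm_pos ?_) (re_nrm_pos (ZZ_re_pos ζ))
  · rw [sg_sq (sgv_ne hε h0 (by rw [h]; exact mul_self_nonneg ε)), om_sq_end h1]
  · have h2 := ZZ_re_pos ζ
    simp only [ZZ, add_re, ofReal_re, FF_re, ← norm_FF_end h1] at h2
    have h3 := cut_nonneg ζ
    rw [sgv_re, h, ← sq, hε]
    linarith

/-- branch of the square root -/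
noncomputable def eta (ε : ℝ) (ζ : ℂ) : ℂ := (√‖ζ‖ : ℝ) * sg ε ζ

lemma eta_zero (ε : ℝ) : eta ε 0 = 0 := by simp [eta]

lemma eta_sq {ε : ℝ} (hε : ε ^ 2 = 1) {ζ : ℂ} (h : 0 ≤ ε * ζ.im) (h1 : ζ.re ≤ 1) :
    eta ε ζ ^ 2 = ζ := by
  by_cases h0 : ζ = 0
  · simp [h0, eta_zero]
  rw [eta, mul_pow, sg_sq (sgv_ne hε h0 h), FF_small h1, ← ofReal_pow,
    Real.sq_sqrt (norm_nonneg _), norm_mul_nrm]

lemma nrm_eta {ε : ℝ} (hε : ε ^ 2 = 1) {ζ : ℂ} (h0 : ζ ≠ 0) (h : 0 ≤ ε * ζ.im) :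
    nrm (eta ε ζ) = sg ε ζ := by
  rw [eta, nrm_mul, nrm_pos (Real.sqrt_pos.2 (norm_pos_iff.2 h0)), one_mul]
  exact nrm_unit (norm_nrm (sgv_ne hε h0 h))

lemma continuousAt_eta_zero (ε : ℝ) : ContinuousAt (eta ε) 0 := by
  rw [ContinuousAt, eta_zero, tendsto_zero_iff_norm_tendsto_zero]
  refine squeeze_zero (fun _ => norm_nonneg _) (g := fun ζ => √‖ζ‖) (fun ζ => ?_) ?_
  · rw [eta, norm_mul, norm_real, Real.norm_of_nonneg (Real.sqrt_nonneg _)]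
    exact mul_le_of_le_one_right (Real.sqrt_nonneg _) (norm_nrm_le _)
  · have : Continuous fun ζ : ℂ => √‖ζ‖ := by fun_prop
    simpa using this.tendsto 0

lemma continuousAt_eta {ε : ℝ} (hε : ε ^ 2 = 1) {ζ : ℂ} (h : 0 ≤ ε * ζ.im) :
    ContinuousAt (eta ε) ζ := by
  by_cases h0 : ζ = 0
  · rw [h0]; exact continuousAt_eta_zero ε
  · exact ContinuousAt.mul (by fun_prop) (cd_sg (sgv_ne hε h0 h)).continuousAt

abbrev C3 := ℂ × ℂ × ℂ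

/-- gluing map -/
noncomputable def g0 (y : C3) : C3 :=
  (nrm (conj y.2.2) * om (y.1 * y.2.2 ^ 2), y.2.1, y.1 * y.2.2 ^ 2)

/-- its inverse -/
noncomputable def h0 (y : C3) : C3 :=
  (nrm y.2.2 * (y.1 * conj (om y.2.2)) ^ 2, y.2.1,
    (√‖y.2.2‖ : ℝ) * conj (y.1 * conj (om y.2.2)))

/-- the involution near the double fibre -/
def r0 (y : C3) : C3 := (conj y.1, conj y.2.1, y.1 * y.2.2)

lemma cd_g0 {y : C3} (h : y.2.2 ≠ 0) : ContDiffAt ℝ ∞ g0 y := by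
  have h1 : ContDiffAt ℝ ∞ (fun y : C3 => y.1 * y.2.2 ^ 2) y := by fun_prop
  exact ((cd_nrm (cd_conj (by fun_prop)) (by simpa using h)).mul
    ((cd_om _).comp y h1)).prodMk ((by fun_prop : ContDiffAt ℝ ∞ (fun y : C3 => y.2.1) y).prodMk h1)

lemma cd_h0 {y : C3} (h : y.2.2 ≠ 0) : ContDiffAt ℝ ∞ h0 y := by
  have h0 : ContDiffAt ℝ ∞ (fun y : C3 => y.2.2) y := by fun_prop
  have h1 : ContDiffAt ℝ ∞ (fun y : C3 => y.1 * conj (om y.2.2)) y :=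
    contDiffAt_fst.mul (cd_conj ((cd_om _).comp y h0))
  exact ((cd_nrm h0 h).mul (h1.pow 2)).prodMk
    ((by fun_prop : ContDiffAt ℝ ∞ (fun y : C3 => y.2.1) y).prodMk
      ((cd_ofReal ((h0.norm ℝ h).sqrt (norm_ne_zero_iff.2 h))).mul (cd_conj h1)))

lemma cd_r0 (y : C3) : ContDiffAt ℝ ∞ r0 y :=
  (cd_conj contDiffAt_fst).prodMk ((cd_conj (by fun_prop)).prodMk (by fun_prop))

lemma h0_g0 {y : C3} (h1 : ‖y.1‖ = 1) (h : y.2.2 ≠ 0) : h0 (g0 y) = y := by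
  obtain ⟨q, p, ξ⟩ := y
  simp only at h1 h
  have a1 := unit_mul_conj (norm_om (q * ξ ^ 2))
  have a2 := unit_mul_conj (norm_nrm h)
  have a3 : nrm (conj ξ) * om (q * ξ ^ 2) * conj (om (q * ξ ^ 2)) = conj (nrm ξ) := by
    rw [mul_assoc, a1, mul_one, nrm_conj]
  simp only [h0, g0, a3, Prod.mk.injEq, true_and]
  constructor
  · rw [nrm_mul, nrm_sq, nrm_unit h1]
    linear_combination q * (nrm ξ * conj (nrm ξ) + 1) * a2
  · rw [norm_mul, h1, one_mul, norm_pow, Real.sqrt_sq (norm_nonneg _), conj_conj, norm_mul_nrm]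

lemma g0_h0 {y : C3} (h1 : ‖y.1‖ = 1) (h : y.2.2 ≠ 0) : g0 (h0 y) = y := by
  obtain ⟨a, p, w⟩ := y
  simp only at h1 h
  have a1 := unit_mul_conj (norm_om w)
  have hb : ‖a * conj (om w)‖ = 1 := by simp [h1, norm_om]
  have a2 := unit_mul_conj hb
  have a4 : nrm w * (a * conj (om w)) ^ 2 * ((√‖w‖ : ℝ) * conj (a * conj (om w))) ^ 2 = w := by
    rw [mul_pow ((√‖w‖ : ℝ) : ℂ), ← ofReal_pow, Real.sq_sqrt (norm_nonneg _)]
    linear_combination (‖w‖ * nrm w * (a * conj (om w) * conj (a * conj (om w)) + 1)) * a2 +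
      norm_mul_nrm w
  simp only [h0, g0, a4, Prod.mk.injEq, and_true]
  rw [map_mul, conj_conj, conj_ofReal, nrm_mul, nrm_pos (Real.sqrt_pos.2 (norm_pos_iff.2 h)),
    nrm_unit hb]
  linear_combination a * a1

lemma g0_r0 {y : C3} (h1 : ‖y.1‖ = 1) (h : y.2.2 ≠ 0) (h2 : (y.1 * y.2.2 ^ 2).re ≤ 1) :
    g0 (r0 y) = (conj (g0 y).1 * mu (g0 y).2.2, conj (g0 y).2.1, (g0 y).2.2) := by
  obtain ⟨q, p, ξ⟩ := y
  simp only at h1 h h2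
  have a0 := unit_mul_conj h1
  have a1 := unit_mul_conj (norm_om (q * ξ ^ 2))
  have a2 := unit_mul_conj (norm_nrm h)
  have a3 : conj q * (q * ξ) ^ 2 = q * ξ ^ 2 := by linear_combination q * ξ ^ 2 * a0
  simp only [r0, g0, a3, Prod.mk.injEq, and_true, mu, FF_small h2]
  rw [nrm_mul q, nrm_sq, nrm_conj, nrm_conj, nrm_mul, nrm_unit h1]
  simp only [map_mul, map_pow, conj_conj]
  linear_combination (-(conj q * conj (nrm ξ) * om (q * ξ ^ 2))) * a2 -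
    (nrm ξ * conj q * conj (nrm ξ) ^ 2 * om (q * ξ ^ 2)) * a1

lemma g0_cov {a p η : ℂ} (ha : ‖a‖ = 1) :
    g0 (a ^ 2, p, conj a * η) = (a * conj (nrm η) * om (η ^ 2), p, η ^ 2) := by
  have a0 := unit_mul_conj ha
  have a3 : a ^ 2 * (conj a * η) ^ 2 = η ^ 2 := by
    linear_combination η ^ 2 * (a * conj a + 1) * a0
  simp only [g0, a3, Prod.mk.injEq, and_true]
  rw [map_mul, conj_conj, nrm_mul, nrm_unit ha, nrm_conj]

end Pool.Agent.Lib.MP_7ac2ff_gt
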