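import Pool.Agent.Lib.MP_7ac2ff_gt.TubeDefs
import Pool.Agent.Lib.MP_7ac2ff_gt.Scal

/-! Coordinates on the tube times the interval, twists. -/

namespace Pool.Agent.Lib.MP_7ac2ff_gt

open Set Function Filter Complex
open scoped Manifold ContDiff Topology ComplexConjugate

abbrev MM := S3 × II

namespace Tube

variable {K : DSI} (T : Tube K)

noncomputable def av (m : MM) : ℂ := (T.P m.1).1
noncomputable def vv (m : MM) : ℂ := (T.P m.1).2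
noncomputable def ww (m : MM) : ℂ :=
  ((‖T.vv m‖ ^ 2 - 1 : ℝ) : ℂ) + ((2 * (m.2 : ℝ) - 1 : ℝ) : ℂ) * I

lemma ww_re (m : MM) : (T.ww m).re = ‖T.vv m‖ ^ 2 - 1 := by
  simp only [ww, add_re, ofReal_re, mul_re, I_re, ofReal_im, I_im]; ring
lemma ww_im (m : MM) : (T.ww m).im = 2 * (m.2 : ℝ) - 1 := by
  simp only [ww, add_im, ofReal_re, mul_im, I_re, ofReal_im, I_im]; ring

noncomputable def Cm (m : MM) : C3 := (T.av m, nrm (T.vv m), T.ww m)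

noncomputable def Dm (y : C3) : MM :=
  (T.Θ (y.1, (√(1 + y.2.2.re) : ℝ) * y.2.1), projIcc 0 1 zero_le_one ((y.2.2.im + 1) / 2))

variable {T}

lemma norm_av {m : MM} (h : m.1 ∈ T.U) : ‖T.av m‖ = 1 := (T.left _ h).1
lemma norm_vv {m : MM} (h : m.1 ∈ T.U) : ‖T.vv m‖ < 2 := (T.left _ h).2.1
lemma th_av {m : MM} (h : m.1 ∈ T.U) : T.Θ (T.av m, T.vv m) = m.1 := (T.left _ h).2.2

lemma extU {m m' : MM} (h : m.1 ∈ T.U) (h' : m'.1 ∈ T.U) (e1 : T.av m = T.av m')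
    (e2 : T.vv m = T.vv m') (e3 : m.2 = m'.2) : m = m' :=
  Prod.ext (by rw [← th_av h, ← th_av h', e1, e2]) e3

lemma mk_spec {a v : ℂ} (ha : ‖a‖ = 1) (hv : ‖v‖ < 2) (t : II) :
    T.Θ (a, v) ∈ T.U ∧ T.av (T.Θ (a, v), t) = a ∧ T.vv (T.Θ (a, v), t) = v := by
  obtain ⟨h1, h2⟩ := T.right a v ha hv
  exact ⟨h1, congrArg Prod.fst h2, congrArg Prod.snd h2⟩

lemma s_P {m : MM} (h : m.1 ∈ T.U) : ContMDiffAt (IB 3) 𝓘(ℝ, ℂ × ℂ) ∞ (fun m : MM => T.P m.1) m :=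
  (T.sP.contMDiffAt (T.opn.mem_nhds h)).comp m contMDiffAt_fst

lemma s_av {m : MM} (h : m.1 ∈ T.U) : ContMDiffAt (IB 3) 𝓘(ℝ, ℂ) ∞ T.av m :=
  contDiffAt_fst.comp_contMDiffAt (s_P h)

lemma s_vv {m : MM} (h : m.1 ∈ T.U) : ContMDiffAt (IB 3) 𝓘(ℝ, ℂ) ∞ T.vv m :=
  contDiffAt_snd.comp_contMDiffAt (s_P h)

lemma s_t (m : MM) : ContMDiffAt (IB 3) 𝓘(ℝ) ∞ (fun m : MM => (m.2 : ℝ)) m :=
  (contMDiff_subtypeVal_Icc.comp contMDiff_snd) m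

lemma s_ww {m : MM} (h : m.1 ∈ T.U) : ContMDiffAt (IB 3) 𝓘(ℝ, ℂ) ∞ T.ww m := by
  have : ContDiffAt ℝ ∞ (fun p : ℂ × ℝ => ((‖p.1‖ ^ 2 - 1 : ℝ) : ℂ) + ((2 * p.2 - 1 : ℝ) : ℂ) * I)
      (T.vv m, (m.2 : ℝ)) :=
    (cd_ofReal ((contDiffAt_fst.norm_sq ℝ).sub contDiffAt_const)).add
      ((cd_ofReal (by fun_prop)).mul contDiffAt_const)
  exact this.comp_contMDiffAt (f := fun m : MM => (T.vv m, (m.2 : ℝ)))
    ((s_vv h).prodMk_space (s_t m))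

lemma s_Cm {m : MM} (h : m.1 ∈ T.U) (hv : T.vv m ≠ 0) : ContMDiffAt (IB 3) 𝓘(ℝ, C3) ∞ T.Cm m :=
  (s_av h).prodMk_space (((cd_nrm contDiffAt_id hv).comp_contMDiffAt (f := T.vv)
    (s_vv h)).prodMk_space (s_ww h))

lemma s_th {a v : ℂ} (ha : ‖a‖ = 1) (hv : ‖v‖ < 2) :
    ContMDiffAt 𝓘(ℝ, ℂ × ℂ) (𝓡 3) ∞ T.Θ (a, v) := by
  refine T.sΘ.contMDiffAt (IsOpen.mem_nhds ?_ ⟨fun e => by simp [show a = 0 from e] at ha, hv⟩)
  exact (isOpen_ne_fun continuous_fst continuous_const).inter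
    (isOpen_lt continuous_snd.norm continuous_const)

end Tube

/-- admissible coordinates -/
structure Gd (y : C3) : Prop where
  n1 : ‖y.1‖ = 1
  n2 : ‖y.2.1‖ = 1
  lo : -1 < y.2.2.re
  hi : y.2.2.re < 3
  im : |y.2.2.im| ≤ 1

lemma Gd.of_lt {y : C3} (h1 : ‖y.1‖ = 1) (h2 : ‖y.2.1‖ = 1) (h : ‖y.2.2‖ < 1) : Gd y := by
  have a := abs_re_le_norm y.2.2
  have b := abs_im_le_norm y.2.2
  exact ⟨h1, h2, by linarith [(abs_le.1 a).1], by linarith [(abs_le.1 a).2], by linarith⟩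

lemma Gd.norm_v {y : C3} (h : Gd y) : ‖((√(1 + y.2.2.re) : ℝ) : ℂ) * y.2.1‖ = √(1 + y.2.2.re) := by
  rw [norm_mul, h.n2, mul_one, norm_real, Real.norm_of_nonneg (Real.sqrt_nonneg _)]

lemma Gd.lt_two {y : C3} (h : Gd y) : ‖((√(1 + y.2.2.re) : ℝ) : ℂ) * y.2.1‖ < 2 := by
  rw [h.norm_v, Real.sqrt_lt' two_pos]; linarith [h.hi]

namespace Tube

variable {K : DSI} {T : Tube K}

lemma D_spec {y : C3} (h : Gd y) : (T.Dm y).1 ∈ T.U ∧ T.vv (T.Dm y) ≠ 0 ∧ T.Cm (T.Dm y) = y := by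
  obtain ⟨h1, h2, h3⟩ := T.mk_spec h.n1 h.lt_two (T.Dm y).2
  have h4 : T.vv (T.Dm y) = _ := h3
  have h5 : 0 < √(1 + y.2.2.re) := Real.sqrt_pos.2 (by linarith [h.lo])
  refine ⟨h1, by rw [h4, ← norm_pos_iff, h.norm_v]; exact h5, Prod.ext h2 (Prod.ext ?_ ?_)⟩
  · change nrm (T.vv (T.Dm y)) = _
    rw [h4, nrm_mul, nrm_pos h5, one_mul, nrm_unit h.n2]
  · refine Complex.ext ?_ ?_
    · change (T.ww (T.Dm y)).re = _
      rw [ww_re, h4, h.norm_v, Real.sq_sqrt (by linarith [h.lo])]; ring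
    · change (T.ww (T.Dm y)).im = _
      have := abs_le.1 h.im
      rw [ww_im, Dm, projIcc_of_mem _ ⟨by linarith, by linarith⟩]; ring

lemma D_mem {y : C3} (h : Gd y) : (T.Dm y).1 ∈ T.U := (D_spec h).1
lemma D_av {y : C3} (h : Gd y) : T.av (T.Dm y) = y.1 := congrArg Prod.fst (D_spec h).2.2
lemma D_ww {y : C3} (h : Gd y) : T.ww (T.Dm y) = y.2.2 := congrArg (·.2.2) (D_spec h).2.2

lemma abs_ww_im (m : MM) : |(T.ww m).im| ≤ 1 := by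
  rw [ww_im, abs_le]; constructor <;> linarith [m.2.2.1, m.2.2.2]

lemma C_spec {m : MM} (h : m.1 ∈ T.U) (hv : T.vv m ≠ 0) : Gd (T.Cm m) ∧ T.Dm (T.Cm m) = m := by
  have h1 := norm_vv h
  have h2 := norm_pos_iff.2 hv
  refine ⟨⟨norm_av h, norm_nrm hv, ?_, ?_, abs_ww_im m⟩, Prod.ext ?_ (Subtype.ext ?_)⟩
  · change -1 < (T.ww m).re
    rw [ww_re]; nlinarith
  · change (T.ww m).re < 3
    rw [ww_re]; nlinarith
  · change T.Θ (T.av m, (√(1 + (T.ww m).re) : ℝ) * nrm (T.vv m)) = _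
    rw [ww_re, add_sub_cancel, Real.sqrt_sq h2.le, norm_mul_nrm, th_av h]
  · change ((projIcc 0 1 zero_le_one (((T.ww m).im + 1) / 2) : II) : ℝ) = _
    rw [ww_im, sub_add_cancel, mul_div_cancel_left₀ _ two_ne_zero, projIcc_val]

lemma vv_ne {m : MM} (h : -1 < (T.ww m).re) : T.vv m ≠ 0 := fun e => by simp [ww_re, e] at h

lemma vv_ne' {m : MM} (h : ‖T.ww m‖ < 1) : T.vv m ≠ 0 :=
  vv_ne (by linarith [(abs_le.1 (abs_re_le_norm (T.ww m))).1])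

lemma s_D1 {y : C3} (h : Gd y) : ContMDiffAt 𝓘(ℝ, C3) (𝓡 3) ∞ (fun y => (T.Dm y).1) y := by
  have : ContDiffAt ℝ ∞ (fun y : C3 => (y.1, ((√(1 + y.2.2.re) : ℝ) : ℂ) * y.2.1)) y :=
    contDiffAt_fst.prodMk ((cd_ofReal ((contDiffAt_const.add (cd_re.contDiffAt.comp y
      (by fun_prop))).sqrt (by have := h.lo; change 1 + y.2.2.re ≠ 0; linarith))).mul (by fun_prop))
  exact ContMDiffAt.comp (g := T.Θ) y (s_th h.n1 h.lt_two) this.contMDiffAt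

lemma s_Dm {y : C3} (h : Gd y) (h' : |y.2.2.im| < 1) : ContMDiffAt 𝓘(ℝ, C3) (IB 3) ∞ T.Dm y := by
  have h1 : ContDiffAt ℝ ∞ (fun y : C3 => (y.2.2.im + 1) / 2) y :=
    ((cd_im.contDiffAt.comp y (by fun_prop)).add contDiffAt_const).div_const _
  have := abs_lt.1 h'
  exact (s_D1 h).prodMk (((contMDiffOn_projIcc (x := 0) (y := 1)).contMDiffAt
    (Icc_mem_nhds (by linarith) (by linarith))).comp y h1.contMDiffAt)

lemma c_Dm {y : C3} (h : Gd y) : ContinuousAt T.Dm y :=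
  (s_D1 h).continuousAt.prodMk ((continuous_projIcc.comp (by fun_prop)).continuousAt)

lemma s_coord {φ : C3 → C3} {m : MM} (h : m.1 ∈ T.U) (hv : T.vv m ≠ 0)
    (hφ : ContDiffAt ℝ ∞ φ (T.Cm m)) (h1 : Gd (φ (T.Cm m))) (h2 : |(φ (T.Cm m)).2.2.im| < 1) :
    ContMDiffAt (IB 3) (IB 3) ∞ (fun m => T.Dm (φ (T.Cm m))) m :=
  (s_Dm h1 h2).comp m (hφ.comp_contMDiffAt (s_Cm h hv))

lemma isOpen_ww {Ω : Set ℂ} (h : IsOpen Ω) : IsOpen {m : MM | m.1 ∈ T.U ∧ T.ww m ∈ Ω} :=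
  isOpen_iff_mem_nhds.2 fun _ hm => inter_mem (continuous_fst.continuousAt (T.opn.mem_nhds hm.1))
    ((s_ww hm.1).continuousAt (h.mem_nhds hm.2))

lemma isCompact_ww {C : Set ℂ} (h : IsClosed C) {c : ℝ} (hc : c < 3) (hC : ∀ ζ ∈ C, ζ.re ≤ c) :
    IsCompact {m : MM | m.1 ∈ T.U ∧ T.ww m ∈ C} := by
  let S : Set ((ℂ × ℂ) × II) := {p | ‖p.1.1‖ = 1 ∧ ‖p.1.2‖ ^ 2 ≤ c + 1 ∧
    ((‖p.1.2‖ ^ 2 - 1 : ℝ) : ℂ) + ((2 * (p.2 : ℝ) - 1 : ℝ) : ℂ) * I ∈ C}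
  have h2 : ∀ p ∈ S, ‖p.1.2‖ < 2 := fun p hp => by
    have := hp.2.1
    nlinarith [norm_nonneg p.1.2]
  have hS : IsCompact S := by
    refine (((isCompact_sphere (0 : ℂ) 1).prod (isCompact_closedBall (0 : ℂ) 2)).prod
      isCompact_univ).of_isClosed_subset ?_ fun p hp => ⟨⟨by simpa using hp.1,
        by simpa using (h2 p hp).le⟩, trivial⟩
    exact (isClosed_eq (by fun_prop) continuous_const).inter
      ((isClosed_le (f := fun p : (ℂ × ℂ) × II => ‖p.1.2‖ ^ 2) (by fun_prop) continuous_const).inter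
        (h.preimage (f := fun p : (ℂ × ℂ) × II =>
          ((‖p.1.2‖ ^ 2 - 1 : ℝ) : ℂ) + ((2 * (p.2 : ℝ) - 1 : ℝ) : ℂ) * I) (by fun_prop)))
  have := hS.image_of_continuousOn (f := fun p : (ℂ × ℂ) × II => (T.Θ p.1, p.2)) fun p hp =>
    ((ContinuousAt.comp (f := Prod.fst) (s_th hp.1 (h2 p hp)).continuousAt continuousAt_fst).prodMk
      continuousAt_snd).continuousWithinAt
  convert this using 1
  ext m
  constructor
  · rintro ⟨h1, h3⟩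
    refine ⟨((T.av m, T.vv m), m.2), ⟨norm_av h1, ?_, h3⟩, Prod.ext (th_av h1) rfl⟩
    have := hC _ h3
    rw [ww_re] at this
    linarith
  · rintro ⟨⟨⟨a, v⟩, t⟩, hp, rfl⟩
    obtain ⟨h1, -, h3⟩ := T.mk_spec hp.1 (h2 _ hp) t
    exact ⟨h1, by rw [ww, h3]; exact hp.2.2⟩

lemma far {m : MM} (h : m.1 ∉ T.U) : ∀ᶠ m' in 𝓝 m, m'.1 ∈ T.U → 2 ≤ (T.ww m').re := by
  have := (T.isCompact_ww (C := {ζ | ζ.re ≤ 2}) (isClosed_le continuous_re continuous_const)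
    (c := 2) (by norm_num) fun _ h => h).isClosed.isOpen_compl.mem_nhds
    (show m ∈ _ from fun e => h e.1)
  filter_upwards [this] with m' h1 h2
  exact le_of_not_ge fun e => h1 ⟨h2, e⟩

open Classical in
variable (T) in
/-- twist along the circle direction -/
noncomputable def tw (u : ℂ → ℂ) (m : MM) : MM :=
  if m.1 ∈ T.U then (T.Θ (T.av m * u (T.ww m), T.vv m), m.2) else m

variable {u u' : ℂ → ℂ} {m : MM}

lemma tw_snd : (T.tw u m).2 = m.2 := by unfold tw; split_ifs <;> rfl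

lemma tw_out (h : m.1 ∉ T.U) : T.tw u m = m := if_neg h

lemma tw_in (h : m.1 ∈ T.U) (hu : ‖u (T.ww m)‖ = 1) : (T.tw u m).1 ∈ T.U ∧
    T.av (T.tw u m) = T.av m * u (T.ww m) ∧ T.vv (T.tw u m) = T.vv m ∧ T.ww (T.tw u m) = T.ww m := by
  obtain ⟨h1, h2, h3⟩ := T.mk_spec (a := T.av m * u (T.ww m)) (by rw [norm_mul, norm_av h, hu, one_mul])
    (norm_vv h) m.2
  rw [tw, if_pos h]
  exact ⟨h1, h2, h3, by rw [ww, h3]; rfl⟩

lemma tw_mem (hu : m.1 ∈ T.U → ‖u (T.ww m)‖ = 1) : (T.tw u m).1 ∈ T.U ↔ m.1 ∈ T.U := by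
  by_cases h : m.1 ∈ T.U
  · simp [h, (tw_in h (hu h)).1]
  · rw [tw_out h]

lemma tw_one (hu : m.1 ∈ T.U → u (T.ww m) = 1) : T.tw u m = m := by
  by_cases h : m.1 ∈ T.U
  · rw [tw, if_pos h, hu h, mul_one, th_av h]
  · exact tw_out h

lemma tw_congr (hu : m.1 ∈ T.U → u (T.ww m) = u' (T.ww m)) : T.tw u m = T.tw u' m := by
  by_cases h : m.1 ∈ T.U
  · rw [tw, tw, if_pos h, if_pos h, hu h]
  · rw [tw_out h, tw_out h]

lemma tw_tw (hu : m.1 ∈ T.U → ‖u (T.ww m)‖ = 1) :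
    T.tw u' (T.tw u m) = T.tw (fun ζ => u ζ * u' ζ) m := by
  by_cases h : m.1 ∈ T.U
  · obtain ⟨h1, h2, h3, h4⟩ := tw_in h (hu h)
    rw [tw, if_pos h1, h2, h3, h4, tw_snd, tw, if_pos h, mul_assoc]
  · rw [tw_out h, tw_out h, tw_out h]

lemma tw_cancel (hu : m.1 ∈ T.U → ‖u (T.ww m)‖ = 1) :
    T.tw (fun ζ => conj (u ζ)) (T.tw u m) = m := by
  rw [tw_tw hu]
  exact tw_one fun h => unit_mul_conj (hu h)

lemma s_tw (hb : ∀ ζ : ℂ, 2 ≤ ζ.re → u ζ = 1)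
    (hu : m.1 ∈ T.U → ContDiffAt ℝ ∞ u (T.ww m) ∧ ‖u (T.ww m)‖ = 1) :
    ContMDiffAt (IB 3) (IB 3) ∞ (T.tw u) m := by
  by_cases h : m.1 ∈ T.U
  · have h1 : ContMDiffAt (IB 3) 𝓘(ℝ, ℂ × ℂ) ∞ (fun m => (T.av m * u (T.ww m), T.vv m)) m :=
      ((contDiffAt_fst.mul contDiffAt_snd).comp_contMDiffAt ((s_av h).prodMk_space
        ((hu h).1.comp_contMDiffAt (s_ww h)))).prodMk_space (s_vv h)
    have h2 := (ContMDiffAt.comp (g := T.Θ) m (s_th (by rw [norm_mul, norm_av h, (hu h).2, one_mul])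
      (norm_vv h)) h1).prodMk (contMDiffAt_snd (I := 𝓡 3) (J := 𝓡∂ 1) (n := ∞) (p := m))
    refine h2.congr_of_eventuallyEq ?_
    filter_upwards [continuous_fst.continuousAt (T.opn.mem_nhds h)] with m' h'
    exact if_pos h'
  · refine contMDiffAt_id.congr_of_eventuallyEq ?_
    filter_upwards [far h] with m' h'
    exact tw_one fun e => hb _ (h' e)

lemma tw_D {y : C3} (h : Gd y) :
    T.tw u (T.Dm y) = T.Dm (y.1 * u y.2.2, y.2) := by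
  rw [tw, if_pos (D_mem h), D_av h, D_ww h]
  exact Prod.ext (congrArg (fun v => T.Θ (_, v)) (T.mk_spec h.n1 h.lt_two (T.Dm y).2).2.2) rfl

end Tube

/-- the product involution -/
def R0 (K : DSI) (m : MM) : MM := (K.ρ m.1, m.2)

lemma s_R0 (K : DSI) : ContMDiff (IB 3) (IB 3) ∞ (R0 K) :=
  (K.smooth.comp contMDiff_fst).prodMk contMDiff_snd

lemma R0_R0 (K : DSI) (m : MM) : R0 K (R0 K m) = m := Prod.ext (K.invol _) rfl

namespace Tube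

variable {K : DSI} {T : Tube K} {u : ℂ → ℂ} {m : MM}

lemma R0_in (h : m.1 ∈ T.U) : (R0 K m).1 ∈ T.U ∧ T.av (R0 K m) = conj (T.av m) ∧
    T.vv (R0 K m) = conj (T.vv m) ∧ T.ww (R0 K m) = T.ww m := by
  have e : R0 K m = (T.Θ (conj (T.av m), conj (T.vv m)), m.2) :=
    Prod.ext (by rw [← T.eqv _ _ (norm_av h) (norm_vv h), th_av h]; rfl) rfl
  obtain ⟨h1, h2, h3⟩ := T.mk_spec (a := conj (T.av m)) (v := conj (T.vv m))
    (by simpa using norm_av h) (by simpa using norm_vv h) m.2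
  rw [e]
  exact ⟨h1, h2, h3, by rw [ww, h3, RCLike.norm_conj]; rfl⟩

lemma R0_mem : (R0 K m).1 ∈ T.U ↔ m.1 ∈ T.U :=
  ⟨fun h => by simpa [R0_R0] using (R0_in h).1, fun h => (R0_in h).1⟩

lemma R0_tw (hu : m.1 ∈ T.U → ‖u (T.ww m)‖ = 1) :
    R0 K (T.tw u m) = T.tw (fun ζ => conj (u ζ)) (R0 K m) := by
  by_cases h : m.1 ∈ T.U
  · obtain ⟨a1, a2, a3, a4⟩ := tw_in h (hu h)
    obtain ⟨b1, b2, b3, b4⟩ := R0_in a1
    obtain ⟨c1, c2, c3, c4⟩ := R0_in h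
    obtain ⟨d1, d2, d3, d4⟩ := tw_in (u := fun ζ => conj (u ζ)) c1 (by simpa [c4] using hu h)
    exact extU b1 d1 (by rw [b2, a2, d2, c2, c4, map_mul]) (by rw [b3, a3, d3, c3])
      (tw_snd.trans (tw_snd (m := R0 K m)).symm)
  · rw [tw_out h, tw_out (mt R0_mem.1 h)]

lemma R0_D {y : C3} (h : Gd y) : R0 K (T.Dm y) = T.Dm (conj y.1, conj y.2.1, y.2.2) :=
  Prod.ext ((T.eqv _ _ h.n1 h.lt_two).trans (by simp [Dm])) rfl

end Tube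

end Pool.Agent.Lib.MP_7ac2ff_gt
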