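import Mathlib

namespace Pool.Agent.Lib.MP_7ac2ff_gt

open Set Function
open scoped Manifold ContDiff Topology

abbrev E (n : ℕ) := EuclideanSpace ℝ (Fin n)
abbrev S3 := Metric.sphere (0 : E 4) 1
abbrev II := Icc (0 : ℝ) 1
/-- model for manifolds with boundary of dimension n + 1 -/
abbrev HB (n : ℕ) := ModelProd (E n) (EuclideanHalfSpace 1)
noncomputable abbrev IB (n : ℕ) := (𝓡 n).prod (𝓡∂ 1)

/-- rational singular homology -/
noncomputable abbrev Hq (n : ℕ) (X : Type) [TopologicalSpace X] : ModuleCat ℚ :=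
  ((AlgebraicTopology.singularHomologyFunctor (ModuleCat.{0} ℚ) n).obj (ModuleCat.of ℚ ℚ)).obj
    (TopCat.of X)

section
variable {V V' H H' M N : Type} [NormedAddCommGroup V] [NormedSpace ℝ V] [NormedAddCommGroup V']
  [NormedSpace ℝ V'] [TopologicalSpace H] [TopologicalSpace H'] (I : ModelWithCorners ℝ V H)
  (J : ModelWithCorners ℝ V' H') [TopologicalSpace M] [ChartedSpace H M] [TopologicalSpace N]
  [ChartedSpace H' N]

/-- smooth embedding -/
def SmEmb (f : M → N) : Prop :=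
  ContMDiff I J ∞ f ∧ Topology.IsEmbedding f ∧ ∀ x, Injective (mfderiv I J f x)

/-- the differential read in the preferred charts -/
noncomputable def dif (f : M → N) (x : M) : V →L[ℝ] V' := mfderiv I J f x

/-- velocity of a closed curve at z -/
noncomputable def vel (γ : Circle → N) (z : Circle) : V' :=
  dif 𝓘(ℝ) J (fun s : ℝ => γ (z * Circle.exp s)) 0 1

/-- an orientation: the sign of o x compares it with the preferred chart at x -/
def IsOr [IsManifold I 1 M] (o : M → ℝ) : Prop :=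
  ∀ x, ∀ᶠ y in 𝓝 x, 0 < o x * o y * (tangentCoordChange I y x y).det

end

/-- directed strongly invertible knot; the half-axis is the image under ax of the upper half
circle, directed from ax 1 to ax (-1) -/
structure DSI where
  k : Circle → S3
  ρ : S3 → S3
  ax : Circle → S3
  emb : SmEmb (𝓡 1) (𝓡 3) k
  smooth : ContMDiff (𝓡 3) (𝓡 3) ∞ ρ
  invol : Involutive ρ
  ori : ∃ o, IsOr (𝓡 3) o ∧ ∀ x, 0 < o x * o (ρ x) * (dif (𝓡 3) (𝓡 3) ρ x).det
  inv : ρ '' range k = range k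
  cont : Continuous ax
  inj : Injective ax
  fix : range ax = fixedPoints ρ
  two : ∀ z, ax z ∈ range k ↔ z = 1 ∨ z = -1

/-- closed half-axis -/
def DSI.half (K : DSI) : Set S3 := K.ax '' {z | 0 ≤ (z : ℂ).im}

/-- the other half-axis, directed from the head of the given one to its tail -/
noncomputable def DSI.anti (K : DSI) : DSI :=
  { K with
    ax := fun z => K.ax (-z)
    cont := K.cont.comp continuous_neg
    inj := K.inj.comp neg_injective
    fix := (neg_surjective.range_comp K.ax).trans K.fix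
    two := fun z => (K.two (-z)).trans (by rw [neg_eq_iff_eq_neg, neg_inj, or_comm]) }

section
variable (n : ℕ) (W : Type) [TopologicalSpace W] [ChartedSpace (HB n) W]

/-- boundary -/
def Bd : Set W := (IB n).boundary W

/-- compact smooth manifold with boundary, oriented by o -/
def OrMfd (o : W → ℝ) : Prop :=
  T2Space W ∧ CompactSpace W ∧ ∃ _ : IsManifold (IB n) ∞ W, IsOr (IB n) o

end

section
variable {W : Type} [TopologicalSpace W] [ChartedSpace (HB 3) W]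

def SmEnd (j : S3 → W) : Prop := SmEmb (𝓡 3) (IB 3) j

/-- the boundary orientation pulled back by j, compared with the preferred chart at x -/
noncomputable def bsg (o : W → ℝ) (j : S3 → W) (x : S3) : ℝ :=
  o (j x) * (ContinuousLinearMap.fst ℝ _ _ ∘L dif (𝓡 3) (IB 3) j x).det

/-- oriented rational homology cobordism -/
def Cob (j₀ j₁ : S3 → W) : Prop :=
  ∃ o : W → ℝ, OrMfd 3 W o ∧ SmEnd j₀ ∧ SmEnd j₁ ∧ Disjoint (range j₀) (range j₁) ∧
    Bd 3 W = range j₀ ∪ range j₁ ∧ (∀ x, bsg o j₀ x * bsg o j₁ x < 0) ∧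
    ∀ n, Nonempty (Hq n W ≅ Hq n (S3 × II))

/-- properly embedded annulus -/
def Neat (A : Circle × II → W) : Prop :=
  SmEmb (IB 1) (IB 3) A ∧ A ⁻¹' Bd 3 W = Bd 1 (Circle × II) ∧
    ∀ p ∈ Bd 1 (Circle × II), ∃ u, (dif (IB 1) (IB 3) A p u).2 ≠ 0

/-- the same oriented curve -/
def Same (γ γ' : Circle → W) : Prop :=
  range γ = range γ' ∧ ∀ z w, γ z = γ' w → ∃ c : ℝ, 0 < c ∧ vel (IB 3) γ z = c • vel (IB 3) γ' w

def SmInv (r : W → W) : Prop := ContMDiff (IB 3) (IB 3) ∞ r ∧ Involutive r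

/-- the fixed set of r is a finite set together with a surface; G is this surface cut along the
annulus a, it is oriented and one boundary circle runs along the second half-axis forwards and
along the first one backwards -/
def Surf (K₀ K₁ : DSI) (j₀ j₁ : S3 → W) (a : Set W) (r : W → W) : Prop :=
  ∃ (G : Type) (_ : TopologicalSpace G) (_ : ChartedSpace (HB 1) G) (o : G → ℝ) (φ : G → W)
    (P : Set W) (β : Circle → G) (s s' t t' : ℝ),
    OrMfd 1 G o ∧ Continuous φ ∧ P.Finite ∧ fixedPoints r = range φ ∪ P ∧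
    InjOn φ (φ ⁻¹' aᶜ) ∧ φ ⁻¹' (a ∪ Bd 3 W) = Bd 1 G ∧
    Continuous β ∧ Injective β ∧ range β ⊆ Bd 1 G ∧ s ≤ s' ∧ t ≤ t' ∧
    (φ ∘ β ∘ Circle.exp) '' Icc s s' = j₁ '' K₁.half ∧ φ (β (Circle.exp s)) = j₁ (K₁.ax 1) ∧
    φ (β (Circle.exp s')) = j₁ (K₁.ax (-1)) ∧
    (φ ∘ β ∘ Circle.exp) '' Icc t t' = j₀ '' K₀.half ∧ φ (β (Circle.exp t)) = j₀ (K₀.ax (-1)) ∧
    φ (β (Circle.exp t')) = j₀ (K₀.ax 1)

end

/-- equivariant rational concordance -/
def QConc (K₀ K₁ : DSI) : Prop :=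
  ∃ (W : Type) (_ : TopologicalSpace W) (_ : ChartedSpace (HB 3) W) (j₀ j₁ : S3 → W)
    (A : Circle × II → W) (r : W → W), Cob j₀ j₁ ∧ Neat A ∧
    Same (fun z => A (z, 0)) (j₀ ∘ K₀.k) ∧ Same (fun z => A (z, 1)) (j₁ ∘ K₁.k) ∧ SmInv r ∧
    (∀ x, r (j₀ x) = j₀ (K₀.ρ x) ∧ r (j₁ x) = j₁ (K₁.ρ x)) ∧ r '' range A = range A ∧
    Surf K₀ K₁ j₀ j₁ (range A) r

/-- e is a standard equivariant chart of K around p; the sign ε gives its orientation and the
direction of the knot in it -/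
structure Std (o : S3 → ℝ) (ε : ℝ) (K : DSI) (p : S3) (e : E 3 → S3) : Prop where
  emb : SmEmb (𝓡 3) (𝓡 3) e
  zero : e 0 = p
  eqv : ∀ v, K.ρ (e v) = e !₂[-v 0, v 1, -v 2]
  knot : ∀ v, e v ∈ range K.k ↔ v 1 = 0 ∧ v 2 = 0
  ray : ∀ r : ℝ, e !₂[0, r, 0] ∈ K.half ↔ 0 ≤ r
  ori : ∀ v, 0 < ε * o (e v) * (dif (𝓡 3) (𝓡 3) e v).det
  dir : ∀ v z, e v = K.k z →
    ∃ c : ℝ, 0 < ε * c ∧ vel (𝓡 3) K.k z = c • dif (𝓡 3) (𝓡 3) e v !₂[1, 0, 0]

/-- f embeds the part D of K into S, respecting all the structure -/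
structure Piece (o : S3 → ℝ) (K S : DSI) (D : Set S3) (f : S3 → S3) : Prop where
  smooth : ContMDiffOn (𝓡 3) (𝓡 3) ∞ f D
  inj : InjOn f D
  ori : ∀ x ∈ D, 0 < o x * o (f x) * (dif (𝓡 3) (𝓡 3) f x).det
  eqv : ∀ x ∈ D, S.ρ (f x) = f (K.ρ x)
  knot : ∀ x ∈ D, f x ∈ range S.k ↔ x ∈ range K.k
  dir : ∀ z w, K.k z ∈ D → f (K.k z) = S.k w →
    ∃ c : ℝ, 0 < c ∧ vel (𝓡 3) (f ∘ K.k) z = c • vel (𝓡 3) S.k w
  half : ∀ x ∈ D, f x ∈ S.half ↔ x ∈ K.half

/-- complement of the ball of radius one half -/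
def Out (e : E 3 → S3) : Set S3 := (e '' Metric.closedBall 0 (1 / 2))ᶜ

/-- S is glued from J and K, with balls removed, by the inversion in the unit sphere -/
structure SumD (o : S3 → ℝ) (J K S : DSI) (e e' : E 3 → S3) (f f' : S3 → S3) : Prop where
  std : Std o 1 J (J.ax (-1)) e
  std' : Std o (-1) K (K.ax 1) e'
  pc : Piece o J S (Out e) f
  pc' : Piece o K S (Out e') f'
  cov : f '' Out e ∪ f' '' Out e' = univ
  gl : ∀ x ∈ Out e, ∀ y ∈ Out e', f x = f' y ↔ ∃ v, x = e v ∧ y = e' ((‖v‖ ^ 2)⁻¹ • v)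
  tail : S.ax 1 = f (J.ax 1)
  head : S.ax (-1) = f' (K.ax (-1))

/-- S is an equivariant connected sum of J and K, formed at the head of J and the tail of K -/
def IsSum (o : S3 → ℝ) (J K S : DSI) : Prop := ∃ e e' f f', SumD o J K S e e' f f'

end Pool.Agent.Lib.MP_7ac2ff_gt
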