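import Pool.Agent.Lib.MP_7ac2ff_gt.Log

/-! The two ends and the annulus. -/

namespace Pool.Agent.Lib.MP_7ac2ff_gt

open Set Function Filter Complex
open scoped Manifold ContDiff Topology ComplexConjugate

set_option linter.style.haveILetI false
set_option backward.isDefEq.respectTransparency false

lemma bd_cyl {n : ℕ} {M : Type} [TopologicalSpace M] [ChartedSpace (E n) M] (m : M × II) :
    m ∈ (IB n).boundary (M × II) ↔ m.2 = 0 ∨ m.2 = 1 := by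
  rw [boundary_product]
  exact ⟨fun h => h.2, fun h => ⟨trivial, h⟩⟩

namespace Tube

variable {K : DSI} {T : Tube K} {m : MM}

lemma im_end (h : m.2 = 0 ∨ m.2 = 1) : (T.ww m).im ^ 2 = 1 := by
  rw [ww_im]
  rcases h with h | h <;> rw [h] <;> norm_num

lemma end_O1 (h : m.2 = 0 ∨ m.2 = 1) : m ∈ T.O1 := fun e => by simpa [e.2] using im_end (T := T) h

lemma knot_iff : m.1 ∈ range K.k ↔ m.1 ∈ T.U ∧ T.vv m = 0 := T.knot m.1

lemma knot_O1 (h : m.1 ∈ range K.k) : m ∈ T.O1 := fun e => by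
  have := T.ww_re m
  simp [e.2, (knot_iff (T := T).1 h).2] at this

lemma tw_knot {u : ℂ → ℂ} (hu : m.1 ∈ T.U → ‖u (T.ww m)‖ = 1) :
    (T.tw u m).1 ∈ range K.k ↔ m.1 ∈ range K.k := by
  rw [knot_iff (T := T), knot_iff (T := T), tw_mem hu]
  exact and_congr_right fun h => by rw [(tw_in h (hu h)).2.2.1]

lemma ρ1_knot (h : m.1 ∈ range K.k) : (T.ρ1 m).1 ∈ range K.k :=
  (tw_knot (mu_O1 (R0_O1.2 (knot_O1 h)))).2 (K.inv.le ⟨_, h, rfl⟩)

lemma ρ1_end (h : m.2 = 0 ∨ m.2 = 1) : T.ρ1 m = R0 K m := tw_one fun _ => mu_end (im_end h)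

end Tube

namespace LT

open Tube

variable {K : DSI} {T : Tube K} {W : Type} [TopologicalSpace W] (G : LT T W)

/-- the ends -/
noncomputable def jj (i : II) (x : S3) : W := G.c1.symm (x, i)

/-- the annulus -/
noncomputable def AA (p : Circle × II) : W := G.c1.symm (K.k p.1, p.2)

lemma bd (w : W) : letI := G.cs (HB 3)
    w ∈ (IB 3).boundary W ↔ w ∈ G.c1.source ∧ ((G.c1 w).2 = 0 ∨ (G.c1 w).2 = 1) := by
  rw [G.mem_boundary, bd_cyl]
  by_cases a : w ∈ G.c1.source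
  · simp [G.c_of a, a]
  · rw [G.c_of' a]
    obtain ⟨a1, a2, -⟩ := G.core a
    exact ⟨fun h => (end_O1 h ⟨a1.1, a2⟩).elim, fun h => (a h.1).elim⟩

lemma bd_e1 {m : MM} (h : m ∈ T.O1) : letI := G.cs (HB 3)
    G.c1.symm m ∈ (IB 3).boundary W ↔ m.2 = 0 ∨ m.2 = 1 := by
  rw [G.bd, G.r1 h]
  simp [G.m1 h]

lemma bd_eq : letI := G.cs (HB 3)
    (IB 3).boundary W = range (G.jj 0) ∪ range (G.jj 1) := by
  ext w
  constructor
  · intro h
    obtain ⟨a, b | b⟩ := (G.bd w).1 h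
    · exact .inl ⟨(G.c1 w).1, by rw [jj, ← b]; exact G.c1.left_inv a⟩
    · exact .inr ⟨(G.c1 w).1, by rw [jj, ← b]; exact G.c1.left_inv a⟩
  · rintro (⟨x, rfl⟩ | ⟨x, rfl⟩)
    · exact (G.bd_e1 (end_O1 (.inl rfl))).2 (.inl rfl)
    · exact (G.bd_e1 (end_O1 (.inr rfl))).2 (.inr rfl)

lemma dif_e1 {m : MM} (h : m ∈ T.O1) : letI := G.cs (HB 3)
    dif (IB 3) (IB 3) G.c1.symm m = ContinuousLinearMap.id ℝ _ := by
  letI := G.cs (HB 3)
  have h1 := dif_left_inv (G.s_e1 h) ((G.smooth_c G.mfd (.inl rfl)).1.contMDiffAt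
    (G.c1.open_source.mem_nhds (G.m1 h))) (G.c1.eventually_right_inverse (G.t1.ge h))
  rwa [show dif (IB 3) (IB 3) G.c1 (G.c1.symm m) = ContinuousLinearMap.id ℝ _ from
    (G.hasMFDerivAt_c1 (G.m1 h)).mfderiv, ContinuousLinearMap.id_comp] at h1

section
variable {V H N : Type} [NormedAddCommGroup V] [NormedSpace ℝ V] [TopologicalSpace H]
  {J : ModelWithCorners ℝ V H} [TopologicalSpace N] [ChartedSpace H N] {f : N → MM}

lemma dif_c (hf : ContMDiff J (IB 3) ∞ f) (h : ∀ x, f x ∈ T.O1) (x : N) : letI := G.cs (HB 3)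
    dif J (IB 3) (G.c1.symm ∘ f) x = dif J (IB 3) f x := by
  letI := G.cs (HB 3)
  rw [dif_comp (hf x) (G.s_e1 (h x)), G.dif_e1 (h x), ContinuousLinearMap.id_comp]

lemma emb_c [CompactSpace N] (hf : ContMDiff J (IB 3) ∞ f) (h : ∀ x, f x ∈ T.O1)
    (hi : Injective f) (hd : ∀ x, Injective (dif J (IB 3) f x)) : letI := G.cs (HB 3)
    SmEmb J (IB 3) (G.c1.symm ∘ f) := by
  letI := G.cs (HB 3)
  haveI := G.t2
  have h1 : ContMDiff J (IB 3) ∞ (G.c1.symm ∘ f) := fun x => (G.s_e1 (h x)).comp x (hf x)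
  refine ⟨h1, (h1.continuous.isClosedEmbedding fun x y e => hi (G.inj1 (h x) (h y) e)).isEmbedding,
    fun x => ?_⟩
  have := hd x
  rw [← G.dif_c hf h] at this
  exact this

end

lemma dif_jj {i : II} (hi : i = 0 ∨ i = 1) (x : S3) : letI := G.cs (HB 3)
    dif (𝓡 3) (IB 3) (G.jj i) x = ContinuousLinearMap.inl ℝ _ _ :=
  (G.dif_c (f := fun x => (x, i)) (contMDiff_id.prodMk contMDiff_const)
    (fun _ => end_O1 hi) x).trans mfderiv_prod_left

lemma emb_jj {i : II} (hi : i = 0 ∨ i = 1) : letI := G.cs (HB 3)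
    SmEmb (𝓡 3) (IB 3) (G.jj i) :=
  G.emb_c (f := fun x => (x, i)) (contMDiff_id.prodMk contMDiff_const) (fun _ => end_O1 hi)
    (Prod.mk_left_injective i) fun x => by
      rw [show dif (𝓡 3) (IB 3) (fun x : S3 => (x, i)) x = ContinuousLinearMap.inl ℝ _ _ from
        mfderiv_prod_left]
      exact Prod.mk_left_injective 0

lemma disj : Disjoint (range (G.jj 0)) (range (G.jj 1)) :=
  disjoint_left.2 fun _ ⟨_, e⟩ ⟨_, e'⟩ => zero_ne_one (congrArg Prod.snd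
    (G.inj1 (end_O1 (.inl rfl)) (end_O1 (.inr rfl)) (e.trans e'.symm)))

lemma exists_o : letI := G.cs (HB 3)
    haveI := G.mfd
    ∃ o : W → ℝ, IsOr (IB 3) o ∧
      ∀ x, o (G.jj 0 x) * (ContinuousLinearMap.fst ℝ _ _ ∘L dif (𝓡 3) (IB 3) (G.jj 0) x).det *
        (o (G.jj 1 x) * (ContinuousLinearMap.fst ℝ _ _ ∘L dif (𝓡 3) (IB 3) (G.jj 1) x).det) < 0 := by
  obtain ⟨oM, h1, h2⟩ := exists_or_cyl (F := E (3 + 1)) (n := 3) (hF := ⟨by simp⟩)
  obtain ⟨o, h3, h4⟩ := G.exists_or G.mfd gg_s gg_t gg_pre h1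
  refine ⟨o, h3, fun x => ?_⟩
  rw [G.dif_jj (.inl rfl), G.dif_jj (.inr rfl), ContinuousLinearMap.fst_comp_inl, det_id', jj, jj,
    h4 _ (end_O1 (.inl rfl)), h4 _ (end_O1 (.inr rfl)), mul_one, mul_one]
  exact h2 x

lemma dif_k (p : Circle × II) : dif (IB 1) (IB 3) (Prod.map K.k id : Circle × II → MM) p =
    (dif (𝓡 1) (𝓡 3) K.k p.1).prodMap (ContinuousLinearMap.id ℝ _) := by
  rw [← dif_id (I := 𝓡∂ 1) (x := p.2)]
  exact mfderiv_prodMap ((K.emb.1 _).mdifferentiableAt (by simp)) mdifferentiableAt_id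

lemma emb_AA : letI := G.cs (HB 3)
    SmEmb (IB 1) (IB 3) G.AA :=
  G.emb_c (f := Prod.map K.k id) (K.emb.1.prodMap contMDiff_id) (fun p => knot_O1 ⟨p.1, rfl⟩)
    (K.emb.2.1.injective.prodMap injective_id) fun p => by
      rw [dif_k]
      exact (K.emb.2.2 p.1).prodMap injective_id

lemma neat (p : Circle × II) : letI := G.cs (HB 3)
    ∃ u, (dif (IB 1) (IB 3) G.AA p u).2 ≠ 0 := by
  obtain ⟨τ, h⟩ := exists_ne (0 : E 1)
  refine ⟨(0, τ), ?_⟩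
  have := G.dif_c (f := Prod.map K.k id) (K.emb.1.prodMap contMDiff_id)
    (fun p => knot_O1 ⟨p.1, rfl⟩) p
  rw [dif_k] at this
  rw [show G.AA = G.c1.symm ∘ Prod.map K.k id from rfl, this]
  exact h

lemma bd_AA : letI := G.cs (HB 3)
    G.AA ⁻¹' (IB 3).boundary W = (IB 1).boundary (Circle × II) := by
  ext p
  exact (G.bd_e1 (knot_O1 ⟨p.1, rfl⟩)).trans (bd_cyl p).symm

lemma mem_AA {w : W} : w ∈ range G.AA ↔ w ∈ G.c1.source ∧ (G.c1 w).1 ∈ range K.k := by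
  constructor
  · rintro ⟨p, rfl⟩
    have h : (K.k p.1, p.2) ∈ T.O1 := knot_O1 ⟨p.1, rfl⟩
    exact ⟨G.m1 h, p.1, by rw [AA, G.r1 h]⟩
  · rintro ⟨a, z, e⟩
    exact ⟨(z, (G.c1 w).2), by rw [AA, e]; exact G.c1.left_inv a⟩

lemma AA_e1 {m : MM} (h : m ∈ T.O1) : G.c1.symm m ∈ range G.AA ↔ m.1 ∈ range K.k := by
  rw [G.mem_AA, G.r1 h]
  simp only [G.m1 h, true_and]

lemma rr_AA : G.rr '' range G.AA = range G.AA := by
  have : ∀ w ∈ range G.AA, G.rr w ∈ range G.AA := fun w h => by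
    obtain ⟨a, b⟩ := G.mem_AA.1 h
    rw [← G.c1.left_inv a, G.rr_e1 (G.s1 a), G.AA_e1 (ρ1_mem (G.s1 a))]
    exact ρ1_knot b
  exact subset_antisymm (image_subset_iff.2 this) fun w h => ⟨_, this w h, G.rr_rr w⟩

lemma rr_jj {i : II} (hi : i = 0 ∨ i = 1) (x : S3) : G.rr (G.jj i x) = G.jj i (K.ρ x) := by
  rw [jj, G.rr_e1 (end_O1 hi), ρ1_end hi]
  rfl

end LT

end Pool.Agent.Lib.MP_7ac2ff_gt
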