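import Pool.Agent.Lib.MP_7ac2ff_gt.Emb

/-! The two halves of the product map equivariantly onto the transformed manifold. -/

namespace Pool.Agent.Lib.MP_7ac2ff_gt

open Set Function Filter Complex
open scoped Manifold ContDiff Topology ComplexConjugate

set_option linter.style.haveILetI false

noncomputable def nu (ε : ℝ) (ζ : ℂ) : ℂ := conj (sg ε ζ) * om ζ

lemma norm_nu {ε : ℝ} {ζ : ℂ} (h : sgv ε ζ ≠ 0) : ‖nu ε ζ‖ = 1 := by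
  simp [nu, sg, norm_nrm h, norm_om]

lemma cd_nu {ε : ℝ} {ζ : ℂ} (h : sgv ε ζ ≠ 0) : ContDiffAt ℝ ∞ (nu ε) ζ :=
  (cd_conj (cd_sg h)).mul (cd_om ζ)

lemma nu_big (ε : ℝ) {ζ : ℂ} (h : 2 ≤ ζ.re) : nu ε ζ = 1 := by simp [nu, sg_big ε h, om_big h]

lemma nu_end {ε : ℝ} (hε : ε ^ 2 = 1) {ζ : ℂ} (h : ζ.im = ε) : nu ε ζ = 1 := by
  rw [nu, sg_end hε h, mul_comm, unit_mul_conj (norm_om ζ)]

lemma nu_mu {ε : ℝ} {ζ : ℂ} (h : sgv ε ζ ≠ 0) : conj (nu ε ζ) * mu ζ = nu ε ζ := by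
  have h1 := unit_mul_conj (norm_om ζ)
  have h2 : sg ε ζ * conj (sg ε ζ) = 1 := unit_mul_conj (norm_nrm h)
  rw [nu, mu, ← sg_sq h]
  simp only [map_mul, map_pow, conj_conj]
  linear_combination (sg ε ζ * conj (sg ε ζ) ^ 2 * om ζ) * h1 + conj (sg ε ζ) * om ζ * h2

lemma nu_pos (ε ε' : ℝ) {ζ : ℂ} (h : 0 < ζ.re) (h' : ζ.im = 0) : nu ε ζ = nu ε' ζ := by
  rw [nu, nu, sg_pos ε h (FF_real h'), sg_pos ε' h (FF_real h')]

lemma nu_neg {ε : ℝ} (hε : ε ^ 2 = 1) {ζ : ℂ} (h : ζ.re < 0) (h' : ζ.im = 0) :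
    nu (-ε) ζ = -nu ε ζ := by
  rw [nu, nu, sg_neg hε h h', sg_neg (by rwa [neg_sq]) h h']
  simp

/-- the two halves -/
def Hf (ε : ℝ) : Set MM := {m | 0 ≤ ε * (2 * (m.2 : ℝ) - 1)}

namespace Tube

variable {K : DSI} {T : Tube K} {ε : ℝ} {m : MM}

lemma sgv_O1 (hε : ε ^ 2 = 1) (hm : m ∈ Hf ε) (h : m ∈ T.O1) (h' : m.1 ∈ T.U) :
    sgv ε (T.ww m) ≠ 0 :=
  sgv_ne hε (fun e => h ⟨h', e⟩) (by rw [ww_im]; exact hm)

lemma nu_O1 (hε : ε ^ 2 = 1) (hm : m ∈ Hf ε) (h : m ∈ T.O1) (h' : m.1 ∈ T.U) :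
    ‖nu ε (T.ww m)‖ = 1 := norm_nu (sgv_O1 hε hm h h')

lemma core_v (h : T.ww m = 0) : ‖T.vv m‖ = 1 ∧ (m.2 : ℝ) = 1 / 2 := by
  have h1 := T.ww_re m
  have h2 := T.ww_im m
  rw [h] at h1 h2
  simp only [zero_re, zero_im] at h1 h2
  exact ⟨(pow_eq_one_iff_of_nonneg (norm_nonneg _) two_ne_zero).1 (by linarith), by linarith⟩

lemma gd0 {q p : ℂ} (hq : ‖q‖ = 1) (hp : ‖p‖ = 1) : Gd (q, p, 0) := .of_lt hq hp (by simp)

lemma D0 {q p : ℂ} (hq : ‖q‖ = 1) (hp : ‖p‖ = 1) :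
    T.Dm (q, p, 0) ∈ T.O3 ∧ T.ww (T.Dm (q, p, 0)) = 0 :=
  ⟨⟨D_mem (gd0 hq hp), by simp [D_ww (gd0 hq hp)]⟩, D_ww (gd0 hq hp)⟩

lemma D_inj {y y' : C3} (h : Gd y) (h' : Gd y') (e : T.Dm y = T.Dm y') : y = y' := by
  rw [← D_C (T := T) h, e, D_C h']

lemma sq_av (h : m.1 ∈ T.U) : ‖T.av m ^ 2‖ = 1 := by simp [norm_av h]

end Tube

namespace LT

open Tube

variable {K : DSI} {T : Tube K} {W : Type} [TopologicalSpace W] (G : LT T W) {ε ε' : ℝ}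
  {m m' : MM}

open Classical in
/-- folding map -/
noncomputable def JJ (ε : ℝ) (m : MM) : W :=
  if m ∈ T.O1 then G.c1.symm (T.tw (nu ε) m) else G.c3.symm (T.Dm (T.av m ^ 2, T.vv m, 0))

lemma JJ_in (h : m ∈ T.O1) : G.JJ ε m = G.c1.symm (T.tw (nu ε) m) := if_pos h

lemma JJ_core (h : m.1 ∈ T.U) (h0 : T.ww m = 0) :
    G.JJ ε m = G.c3.symm (T.Dm (T.av m ^ 2, T.vv m, 0)) := if_neg (not_not.2 ⟨h, h0⟩)

lemma cov_e {a p η : ℂ} (ha : ‖a‖ = 1) (hp : ‖p‖ = 1) (h0 : η ≠ 0) (h : ‖η‖ < 1 / 2) :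
    G.c3.symm (T.Dm (a ^ 2, p, conj a * η)) =
      G.c1.symm (T.Dm (a * conj (nrm η) * om (η ^ 2), p, η ^ 2)) := by
  have h1 : ((a ^ 2, p, conj a * η) : C3) ∈ An (1 / 2) :=
    ⟨by simp [ha], hp, norm_pos_iff.1 (by simpa [ha] using h0), by simpa [ha] using h⟩
  rw [G.gl _ (An_D (by norm_num) h1), gg_D (An_gd h1 (by norm_num)), g0_cov ha]

lemma JJ_near (hε : ε ^ 2 = 1) (hm : m ∈ Hf ε) (h : m.1 ∈ T.U) (h1 : ‖T.ww m‖ < 1 / 4) :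
    G.JJ ε m = G.c3.symm (T.Dm (T.av m ^ 2, nrm (T.vv m), conj (T.av m) * eta ε (T.ww m))) := by
  by_cases h0 : T.ww m = 0
  · rw [G.JJ_core h h0, h0, eta_zero, mul_zero, nrm_unit (core_v h0).1]
  have h2 : 0 ≤ ε * (T.ww m).im := by rw [ww_im]; exact hm
  have h3 := eta_sq hε h2 ((re_le_norm _).trans (by linarith))
  obtain ⟨h4, h5⟩ := Sc_C (c := 1 / 4) (by norm_num) ⟨h, h0, h1⟩
  have h6 := congrArg norm h3
  rw [norm_pow] at h6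
  rw [G.cov_e (p := nrm (T.vv m)) (norm_av h) h4.2.1 (fun e => h0 (by rw [← h3, e]; simp))
    (by nlinarith [norm_nonneg (eta ε (T.ww m))]), h3, nrm_eta hε h0 h2,
    G.JJ_in fun e => h0 e.2, mul_assoc]
  conv_lhs => rw [← h5, tw_D (An_gd h4 (by norm_num))]
  rfl

lemma c_JJ (hε : ε ^ 2 = 1) : ContinuousOn (G.JJ ε) (Hf ε) := by
  intro m hm
  by_cases h : m ∈ T.O1
  · have h1 := (G.c_e1.continuousAt (T.isOpen_O1.mem_nhds (tw_O1 h (nu_O1 hε hm h)))).comp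
      (s_tw (fun _ => nu_big ε) fun h' =>
        ⟨cd_nu (sgv_O1 hε hm h h'), nu_O1 hε hm h h'⟩).continuousAt
    refine (h1.congr ?_).continuousWithinAt
    filter_upwards [T.isOpen_O1.mem_nhds h] with y hy
    exact (G.JJ_in hy).symm
  · obtain ⟨h1, h0⟩ := not_not.1 h
    have hv := (core_v h0).1
    have a := (s_av h1).continuousAt
    have h2 : ContinuousAt (fun m => ((T.av m ^ 2, nrm (T.vv m),
        conj (T.av m) * eta ε (T.ww m)) : C3)) m :=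
      (a.pow 2).prodMk ((s_Cm h1 (vv_ne' (by simp [h0]))).continuousAt.snd.fst.prodMk
        ((continuous_conj.continuousAt.comp a).mul
          ((continuousAt_eta_zero ε).comp_of_eq (s_ww h1).continuousAt h0)))
    have e : ((T.av m ^ 2, nrm (T.vv m), conj (T.av m) * eta ε (T.ww m)) : C3) =
        (T.av m ^ 2, T.vv m, 0) := by rw [h0, eta_zero, mul_zero, nrm_unit hv]
    have h3 := (G.c_e3.continuousAt ((T.isOpen_lt _).mem_nhds (D0 (sq_av h1) hv).1)).comp_of_eq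
      ((c_Dm (T := T) (gd0 (sq_av h1) hv)).comp_of_eq h2 e) (congrArg T.Dm e)
    refine h3.continuousWithinAt.congr_of_eventuallyEq ?_ (G.JJ_near hε hm h1 (by simp [h0]))
    filter_upwards [self_mem_nhdsWithin, nhdsWithin_le_nhds ((T.isOpen_lt (1 / 4)).mem_nhds
      (show m ∈ _ from ⟨h1, by simp [h0]⟩))] with y a b
    exact G.JJ_near hε a b.1 b.2

lemma rr_core {q p : ℂ} (hq : ‖q‖ = 1) (hp : ‖p‖ = 1) :
    G.rr (G.c3.symm (T.Dm (q, p, 0))) = G.c3.symm (T.Dm (conj q, conj p, 0)) := by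
  rw [G.rr_e3 (D0 hq hp).1, ρ3, D_C (gd0 hq hp), r0, mul_zero]

lemma rr_JJ (hε : ε ^ 2 = 1) (hm : m ∈ Hf ε) : G.rr (G.JJ ε m) = G.JJ ε (R0 K m) := by
  by_cases h : m ∈ T.O1
  · have h' := R0_O1.2 h
    have hm' : R0 K m ∈ Hf ε := hm
    rw [G.JJ_in h, G.rr_e1 (tw_O1 h (nu_O1 hε hm h)), G.JJ_in h', ρ1, R0_tw (nu_O1 hε hm h),
      tw_tw (by simpa using nu_O1 hε hm' h'), tw_congr fun e => nu_mu (sgv_O1 hε hm' h' e)]
  · obtain ⟨h1, h0⟩ := not_not.1 h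
    obtain ⟨a1, a2, a3, a4⟩ := R0_in h1
    rw [G.JJ_core h1 h0, G.JJ_core a1 (a4.trans h0), G.rr_core (sq_av h1) (core_v h0).1, a2, a3,
      map_pow]

lemma JJ_src (hε : ε ^ 2 = 1) (hm : m ∈ Hf ε) : G.JJ ε m ∈ G.c1.source ↔ m ∈ T.O1 := by
  by_cases h : m ∈ T.O1
  · simp only [h, G.JJ_in h, G.m1 (tw_O1 h (nu_O1 hε hm h))]
  · obtain ⟨h1, h0⟩ := not_not.1 h
    have := D0 (T := T) (sq_av h1) (core_v h0).1
    simp only [h, G.JJ_core h1 h0, G.core' this.1 this.2]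

lemma JJ_end {i : II} (hε : ε ^ 2 = 1) (hi : 2 * (i : ℝ) - 1 = ε) (x : S3) :
    G.JJ ε (x, i) = G.jj i x := by
  have h : (T.ww (x, i)).im = ε := (T.ww_im _).trans hi
  rw [G.JJ_in fun e => by rw [e.2, zero_im] at h; simp [← h] at hε,
    tw_one fun _ => nu_end hε h, jj]

lemma JJ_AA (hε : ε ^ 2 = 1) (hm : m ∈ Hf ε) : G.JJ ε m ∈ range G.AA ↔ m.1 ∈ range K.k := by
  by_cases h : m ∈ T.O1
  · rw [G.JJ_in h, G.AA_e1 (tw_O1 h (nu_O1 hε hm h)), tw_knot (nu_O1 hε hm h)]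
  · exact ⟨fun e => (h ((G.JJ_src hε hm).1 (G.mem_AA.1 e).1)).elim, fun e => (h (knot_O1 e)).elim⟩

lemma JJ_bd (hε : ε ^ 2 = 1) (hm : m ∈ Hf ε) : letI := G.cs (HB 3)
    G.JJ ε m ∈ (IB 3).boundary W ↔ m.2 = 0 ∨ m.2 = 1 := by
  by_cases h : m ∈ T.O1
  · rw [G.JJ_in h, G.bd_e1 (tw_O1 h (nu_O1 hε hm h)), tw_snd]
  · exact ⟨fun e => (h ((G.JJ_src hε hm).1 ((G.bd _).1 e).1)).elim, fun e => (h (end_O1 e)).elim⟩

lemma JJ_mid (ε ε' : ℝ) (ht : (m.2 : ℝ) = 1 / 2) (h : m.1 ∈ T.U → 1 ≤ ‖T.vv m‖) :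
    G.JJ ε m = G.JJ ε' m := by
  by_cases h0 : m ∈ T.O1
  · have h2 : (T.ww m).im = 0 := by rw [ww_im, ht]; norm_num
    rw [G.JJ_in h0, G.JJ_in h0, tw_congr fun h1 => nu_pos ε ε' ?_ h2]
    refine lt_of_le_of_ne (by rw [ww_re]; nlinarith [h h1]) fun e => h0 ⟨h1, ?_⟩
    exact Complex.ext e.symm h2
  · rw [JJ, JJ, if_neg h0, if_neg h0]

lemma JJ_out (hε : ε ^ 2 = 1) (ht : (m.2 : ℝ) = 1 / 2) (e : m'.2 = m.2) (h : m.1 ∈ T.U)
    (h' : m'.1 ∈ T.U) (hv : T.vv m' = T.vv m) (ha : T.av m' = -T.av m) (h1 : ‖T.vv m‖ ≤ 1) :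
    G.JJ ε m = G.JJ (-ε) m' := by
  have hw : T.ww m' = T.ww m := by rw [ww, ww, hv, e]
  by_cases h0 : T.ww m = 0
  · rw [G.JJ_core h h0, G.JJ_core h' (hw.trans h0), hv, ha, neg_sq]
  · have h2 : (T.ww m).im = 0 := by rw [ww_im, ht]; norm_num
    have h3 : (T.ww m).re < 0 := lt_of_le_of_ne
      (by rw [ww_re]; nlinarith [norm_nonneg (T.vv m)]) fun e => h0 (Complex.ext e h2)
    rw [G.JJ_in fun e => h0 e.2, G.JJ_in fun e => h0 (hw ▸ e.2), tw, tw, if_pos h, if_pos h', hw,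
      hv, ha, e, nu_neg hε h3 h2, neg_mul_neg]

lemma JJ_inj (hε : ε ^ 2 = 1) (hε' : ε' ^ 2 = 1) (hm : m ∈ Hf ε) (hm' : m' ∈ Hf ε')
    (e : G.JJ ε m = G.JJ ε' m') : m'.2 = m.2 ∧
      ((m' = m ∧ (ε' = ε ∨ (m.2 : ℝ) = 1 / 2 ∧ (m.1 ∈ T.U → 1 ≤ ‖T.vv m‖))) ∨
      (m.1 ∈ T.U ∧ m'.1 ∈ T.U ∧ (m.2 : ℝ) = 1 / 2 ∧ T.vv m' = T.vv m ∧ T.av m' = -T.av m ∧
        ‖T.vv m‖ ≤ 1 ∧ (ε' ≠ ε ∨ ‖T.vv m‖ = 1))) := by
  have h01 : m' ∈ T.O1 ↔ m ∈ T.O1 := by rw [← G.JJ_src hε hm, ← G.JJ_src hε' hm', e]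
  by_cases h : m ∈ T.O1
  · have h' := h01.2 h
    have n := nu_O1 hε hm h
    have n' := nu_O1 hε' hm' h'
    rw [G.JJ_in h, G.JJ_in h'] at e
    replace e := G.inj1 (tw_O1 h n) (tw_O1 h' n') e
    have e2 : m'.2 = m.2 := by rw [← tw_snd (T := T) (u := nu ε'), ← e, tw_snd]
    refine ⟨e2, ?_⟩
    have ht : ε' ≠ ε → ε' = -ε ∧ (m.2 : ℝ) = 1 / 2 := fun hne => by
      have a := (sq_eq_sq_iff_eq_or_eq_neg.1 (hε'.trans hε.symm)).resolve_left hne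
      have b : 0 ≤ ε' * (2 * (m'.2 : ℝ) - 1) := hm'
      have c : ε * (2 * (m.2 : ℝ) - 1) = 0 := le_antisymm (by rw [a, e2] at b; linarith) hm
      exact ⟨a, by linear_combination (ε / 2) * c - ((m.2 : ℝ) - 1 / 2) * hε⟩
    by_cases hU : m.1 ∈ T.U
    · have hU' : m'.1 ∈ T.U := by rw [← tw_mem n', ← e, tw_mem n]; exact hU
      obtain ⟨-, a2, a3, a4⟩ := tw_in hU (n hU)
      obtain ⟨-, b2, b3, b4⟩ := tw_in hU' (n' hU')
      rw [e] at a2 a3 a4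
      rw [b3] at a3
      rw [b2, ← b4, a4] at a2
      have n0 : nu ε (T.ww m) ≠ 0 := norm_pos_iff.1 (by rw [n hU]; exact one_pos)
      by_cases hne : ε' = ε
      · exact .inl ⟨extU hU' hU (mul_right_cancel₀ n0 (hne ▸ a2)) a3 e2, .inl hne⟩
      obtain ⟨rfl, t⟩ := ht hne
      have h2 : (T.ww m).im = 0 := by rw [ww_im, t]; norm_num
      have h4 := T.ww_re m
      have h5 := norm_nonneg (T.vv m)
      rcases lt_trichotomy (T.ww m).re 0 with c | c | c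
      · rw [nu_neg hε c h2] at a2
        exact .inr ⟨hU, hU', t, a3, mul_right_cancel₀ n0 (by linear_combination -a2),
          by nlinarith, .inl hne⟩
      · exact (h ⟨hU, Complex.ext c h2⟩).elim
      · rw [nu_pos (-ε) ε c h2] at a2
        exact .inl ⟨extU hU' hU (mul_right_cancel₀ n0 a2) a3 e2, .inr ⟨t, fun _ => by nlinarith⟩⟩
    · have hU' : m'.1 ∉ T.U := by rwa [← tw_mem n', ← e, tw_mem n]
      rw [tw_out hU, tw_out hU'] at e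
      exact .inl ⟨e.symm, (em _).imp_right fun hne => ⟨(ht hne).2, fun a => (hU a).elim⟩⟩
  · obtain ⟨h1, h0⟩ := not_not.1 h
    obtain ⟨h1', h0'⟩ := not_not.1 (mt h01.1 h)
    obtain ⟨v, t⟩ := core_v h0
    obtain ⟨v', t'⟩ := core_v h0'
    rw [G.JJ_core h1 h0, G.JJ_core h1' h0'] at e
    replace e := D_inj (gd0 (sq_av h1) v) (gd0 (sq_av h1') v')
      (G.inj3 (D0 (sq_av h1) v).1 (D0 (sq_av h1') v').1 e)
    simp only [Prod.mk.injEq, and_true] at e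
    have e2 : m'.2 = m.2 := Subtype.ext (t'.trans t.symm)
    refine ⟨e2, ?_⟩
    rcases sq_eq_sq_iff_eq_or_eq_neg.1 e.1.symm with a | a
    · exact .inl ⟨extU h1' h1 a e.2.symm e2, .inr ⟨t, fun _ => v.ge⟩⟩
    · exact .inr ⟨h1, h1', t, e.2.symm, a, v.le, .inr v⟩

lemma JJ_surj (w : W) : ∃ u : Bool, ∃ m ∈ Hf (if u then 1 else -1),
    G.JJ (if u then 1 else -1) m = w := by
  by_cases a : w ∈ G.c1.source
  · have key : ∀ ε : ℝ, ε ^ 2 = 1 → G.c1 w ∈ Hf ε → ∃ m ∈ Hf ε, G.JJ ε m = w := fun ε hε hm => by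
      have n := nu_O1 hε hm (G.s1 a)
      refine ⟨T.tw (fun ζ => conj (nu ε ζ)) (G.c1 w),
        by simpa only [Hf, mem_ofPred_eq, tw_snd] using hm, ?_⟩
      rw [G.JJ_in (tw_O1 (G.s1 a) (by simpa using n)), tw_tw (by simpa using n),
        tw_one fun h => by rw [mul_comm, unit_mul_conj (n h)], G.c1.left_inv a]
    rcases le_total 0 (2 * ((G.c1 w).2 : ℝ) - 1) with h | h
    · exact ⟨true, key 1 (by norm_num) (by simpa [Hf] using h)⟩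
    · exact ⟨false, key (-1) (by norm_num) (by simpa [Hf] using h)⟩
  · obtain ⟨a1, a2, a3⟩ := G.core a
    obtain ⟨v, t⟩ := core_v a2
    obtain ⟨b, hb⟩ := IsAlgClosed.exists_pow_nat_eq (T.av (G.c3 w)) two_pos
    have nb : ‖b‖ = 1 := (pow_eq_one_iff_of_nonneg (norm_nonneg _) two_ne_zero).1
      (by rw [← norm_pow, hb, norm_av a1.1])
    obtain ⟨c1, c2, c3⟩ := T.mk_spec nb (norm_vv a1.1) (G.c3 w).2
    refine ⟨true, (T.Θ (b, T.vv (G.c3 w)), (G.c3 w).2), by simp [Hf, t], ?_⟩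
    rw [G.JJ_core c1 (by rw [ww, c3]; exact a2), c2, c3, hb, ← a2, ← nrm_unit v]
    exact (congrArg G.c3.symm (O3_C a1).2).trans a3

lemma fixed {w : W} (h : G.rr w = w) : (∃ u : Bool, ∃ m ∈ Hf (if u then 1 else -1),
    K.ρ m.1 = m.1 ∧ G.JJ (if u then 1 else -1) m = w) ∨
      w ∈ (fun p : ℂ => G.c3.symm (T.Dm (-1, p, 0))) '' {1, -1} := by
  obtain ⟨u, m, hm, rfl⟩ := G.JJ_surj w
  have hε : (if u then 1 else -1 : ℝ) ^ 2 = 1 := by split_ifs <;> norm_num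
  rw [G.rr_JJ hε hm] at h
  obtain ⟨-, ⟨e, -⟩ | ⟨h1, -, t, a3, a2, -, a | a⟩⟩ := G.JJ_inj (m' := R0 K m) hε hε hm hm h.symm
  · exact .inl ⟨u, m, hm, congrArg Prod.fst e, rfl⟩
  · exact (a rfl).elim
  · obtain ⟨-, b2, b3, -⟩ := R0_in h1
    have h0 : T.ww m = 0 := by simp [ww, a, t]
    have c2 := unit_mul_conj (norm_av h1)
    have c3 := unit_mul_conj a
    rw [← b2, a2] at c2
    rw [← b3, a3] at c3
    refine .inr ⟨T.vv m, mul_self_eq_one_iff.1 c3, ?_⟩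
    rw [G.JJ_core h1 h0, show T.av m ^ 2 = -1 by linear_combination -c2]

lemma fixed' {w : W} (h : w ∈ (fun p : ℂ => G.c3.symm (T.Dm (-1, p, 0))) '' {1, -1}) :
    G.rr w = w := by
  obtain ⟨p, rfl | rfl, rfl⟩ := h <;> rw [G.rr_core (by simp) (by simp)] <;> simp

end LT

end Pool.Agent.Lib.MP_7ac2ff_gt
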