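import Pool.Agent.Lib.MP_7ac2ff_gt.Defs

/-! Gluing two open subsets of a manifold along a diffeomorphism. -/

namespace Pool.Agent.Lib.MP_7ac2ff_gt

open Set Function Filter
open scoped Manifold ContDiff Topology

set_option linter.style.haveILetI false
set_option linter.unusedSectionVars false

/-- two open pieces glued along g -/
structure Glued {M : Type} [TopologicalSpace M] (O1 O3 : Set M) (g : OpenPartialHomeomorph M M)
    (W : Type) [TopologicalSpace W] where
  c1 : OpenPartialHomeomorph W M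
  c3 : OpenPartialHomeomorph W M
  t1 : c1.target = O1
  t3 : c3.target = O3
  cov : ∀ w, w ∈ c1.source ∨ w ∈ c3.source
  gl : ∀ m ∈ g.source, c3.symm m = c1.symm (g m)
  only : ∀ m ∈ O3, c3.symm m ∈ c1.source → m ∈ g.source

theorem exists_glued {M : Type} [TopologicalSpace M] {O1 O3 : Set M} (h1 : IsOpen O1)
    (h3 : IsOpen O3) (g : OpenPartialHomeomorph M M) (hs : g.source ⊆ O3) (ht : g.target ⊆ O1)
    {m0 : M} (h0 : m0 ∈ O1) :
    ∃ (W : Type) (_ : TopologicalSpace W), Nonempty (Glued O1 O3 g W) := by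
  classical
  let W := {x : Bool × M // if x.1 then x.2 ∈ O1 else x.2 ∈ O3 ∧ x.2 ∉ g.source}
  let e1 : M → W := fun m => if h : m ∈ O1 then ⟨(true, m), h⟩ else ⟨(true, m0), h0⟩
  let e3 : M → W := fun m => if h : m ∈ O3 ∧ m ∉ g.source then ⟨(false, m), h⟩ else e1 (g m)
  have e1v : ∀ m ∈ O1, (e1 m).1 = (true, m) := fun m hm => by simp [e1, hm]
  have e3a : ∀ m ∈ g.source, (e3 m).1 = (true, g m) := fun m hm => by
    simp only [e3, hm, not_true, and_false, dif_neg, not_false_iff]
    exact e1v _ (ht (g.map_source hm))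
  have e3b : ∀ m ∈ O3, m ∉ g.source → (e3 m).1 = (false, m) := fun m hm hm' => by
    simp [e3, hm, hm']
  let top : TopologicalSpace W :=
    { IsOpen := fun S => IsOpen (O1 ∩ e1 ⁻¹' S) ∧ IsOpen (O3 ∩ e3 ⁻¹' S)
      isOpen_univ := by simp [h1, h3]
      isOpen_inter := fun S S' a b => by
        constructor
        · rw [preimage_inter, inter_inter_distrib_left]; exact a.1.inter b.1
        · rw [preimage_inter, inter_inter_distrib_left]; exact a.2.inter b.2
      isOpen_sUnion := fun s hs => by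
        constructor
        · rw [preimage_sUnion, inter_iUnion₂]; exact isOpen_biUnion fun S h => (hs S h).1
        · rw [preimage_sUnion, inter_iUnion₂]; exact isOpen_biUnion fun S h => (hs S h).2 }
  let c3f : W → M := fun w => if w.1.1 then g.symm w.1.2 else w.1.2
  have o1 : ∀ t, IsOpen t → IsOpen[top] ({w : W | w.1.1 = true} ∩ (fun w => w.1.2) ⁻¹' t) := by
    intro t ht'
    constructor
    · convert h1.inter ht' using 1
      ext m
      refine and_congr_right fun hm => ?_
      simp [e1v m hm]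
    · convert g.isOpen_inter_preimage ht' using 1
      ext m
      by_cases hm : m ∈ g.source
      · simp [e3a m hm, hm, hs hm]
      · by_cases hm' : m ∈ O3
        · simp [e3b m hm' hm, hm]
        · simp [hm, hm']
  have o3 : ∀ t, IsOpen t →
      IsOpen[top] ({w : W | w.1.1 = false ∨ w.1.2 ∈ g.target} ∩ c3f ⁻¹' t) := by
    intro t ht'
    constructor
    · convert g.isOpen_inter_preimage_symm ht' using 1
      ext m
      by_cases hm : m ∈ O1
      · simp [c3f, e1v m hm, hm]
      · simp [hm, mt (@ht m) hm]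
    · convert h3.inter ht' using 1
      ext m
      refine and_congr_right fun hm' => ?_
      by_cases hm : m ∈ g.source
      · simp [c3f, e3a m hm, g.map_source hm, g.left_inv hm]
      · simp [c3f, e3b m hm' hm]
  refine ⟨W, top, ⟨⟨⟨⟨⟨fun w => w.1.2, e1, {w | w.1.1 = true}, O1, ?_, ?_, ?_, ?_⟩, ?_, ?_⟩, ?_, h1⟩,
    ⟨⟨⟨c3f, e3, {w | w.1.1 = false ∨ w.1.2 ∈ g.target}, O3, ?_, ?_, ?_, ?_⟩, ?_, ?_⟩, ?_, h3⟩,
    rfl, rfl, ?_, ?_, ?_⟩⟩⟩
  · rintro ⟨⟨b, m⟩, h⟩ (rfl : b = true)
    exact h
  · intro m hm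
    simp [e1v m hm]
  · rintro ⟨⟨b, m⟩, h⟩ (rfl : b = true)
    exact Subtype.ext (e1v m h)
  · intro m hm
    simp [e1v m hm]
  · exact (continuousOn_open_iff (by simpa using o1 univ isOpen_univ)).2 o1
  · exact (continuousOn_open_iff h1).2 fun t ht => ht.1
  · simpa using o1 univ isOpen_univ
  · rintro ⟨⟨b, m⟩, h⟩ hw
    cases b
    · exact h.1
    · exact hs (g.map_target (by simpa using hw))
  · intro m hm'
    by_cases hm : m ∈ g.source
    · simp [e3a m hm, g.map_source hm]
    · simp [e3b m hm' hm]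
  · rintro ⟨⟨b, m⟩, h⟩ hw
    cases b
    · exact Subtype.ext (e3b m h.1 h.2)
    · have hm : m ∈ g.target := by simpa using hw
      refine Subtype.ext ((e3a _ (g.map_target hm)).trans ?_)
      simp [g.right_inv hm]
  · intro m hm'
    by_cases hm : m ∈ g.source
    · simp [c3f, e3a m hm, g.left_inv hm]
    · simp [c3f, e3b m hm' hm]
  · exact (continuousOn_open_iff (by simpa using o3 univ isOpen_univ)).2 o3
  · exact (continuousOn_open_iff h3).2 fun t ht => ht.2
  · simpa using o3 univ isOpen_univ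
  · rintro ⟨⟨b, m⟩, h⟩
    cases b
    · exact Or.inr (Or.inl rfl)
    · exact Or.inl rfl
  · intro m hm
    exact Subtype.ext ((e3a m hm).trans (e1v _ (ht (g.map_source hm))).symm)
  · intro m hm' h
    by_contra hm
    have : (e3 m).1.1 = true := h
    simp [e3b m hm' hm] at this

namespace Glued

variable {V H M W : Type} [NormedAddCommGroup V] [NormedSpace ℝ V] [TopologicalSpace H]
  {I : ModelWithCorners ℝ V H} [TopologicalSpace M] [ChartedSpace H M] [TopologicalSpace W]
  {O1 O3 : Set M} {g : OpenPartialHomeomorph M M} (G : Glued O1 O3 g W)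

open Classical in
/-- preferred piece -/
noncomputable def c (w : W) : OpenPartialHomeomorph W M := if w ∈ G.c1.source then G.c1 else G.c3

lemma mem_c (w : W) : w ∈ (G.c w).source := by
  unfold c
  split_ifs with h
  exacts [h, (G.cov w).resolve_left h]

lemma c_cases (w : W) : G.c w = G.c1 ∨ G.c w = G.c3 := by
  unfold c
  split_ifs <;> simp

lemma c_of {w : W} (h : w ∈ G.c1.source) : G.c w = G.c1 := if_pos h
lemma c_of' {w : W} (h : w ∉ G.c1.source) : G.c w = G.c3 := if_neg h

lemma m1 {m : M} (h : m ∈ O1) : G.c1.symm m ∈ G.c1.source := G.c1.map_target (G.t1.ge h)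
lemma m3 {m : M} (h : m ∈ O3) : G.c3.symm m ∈ G.c3.source := G.c3.map_target (G.t3.ge h)
lemma r1 {m : M} (h : m ∈ O1) : G.c1 (G.c1.symm m) = m := G.c1.right_inv (G.t1.ge h)
lemma r3 {m : M} (h : m ∈ O3) : G.c3 (G.c3.symm m) = m := G.c3.right_inv (G.t3.ge h)
lemma s1 {w : W} (h : w ∈ G.c1.source) : G.c1 w ∈ O1 := G.t1.le (G.c1.map_source h)
lemma s3 {w : W} (h : w ∈ G.c3.source) : G.c3 w ∈ O3 := G.t3.le (G.c3.map_source h)

lemma inj1 {m m' : M} (h : m ∈ O1) (h' : m' ∈ O1) (e : G.c1.symm m = G.c1.symm m') : m = m' := by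
  rw [← G.r1 h, e, G.r1 h']

lemma inj3 {m m' : M} (h : m ∈ O3) (h' : m' ∈ O3) (e : G.c3.symm m = G.c3.symm m') : m = m' := by
  rw [← G.r3 h, e, G.r3 h']

lemma both {w : W} (h1 : w ∈ G.c1.source) (h3 : w ∈ G.c3.source) (ht : g.target ⊆ O1) :
    G.c3 w ∈ g.source ∧ G.c1 w = g (G.c3 w) := by
  have h := G.only _ (G.s3 h3) (by rwa [G.c3.left_inv h3])
  refine ⟨h, ?_⟩
  rw [← G.r1 (ht (g.map_source h)), ← G.gl _ h, G.c3.left_inv h3]

variable (H) in
@[reducible] noncomputable def cs : ChartedSpace H W where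
  atlas := {e | ∃ m, e = G.c1.trans (chartAt H m) ∨ e = G.c3.trans (chartAt H m)}
  chartAt w := (G.c w).trans (chartAt H (G.c w w))
  mem_chart_source w := ⟨G.mem_c w, mem_chart_source H _⟩
  chart_mem_atlas w := ⟨G.c w w, by rcases G.c_cases w with h | h <;> simp [h]⟩

variable [IsManifold I ∞ M]

lemma trans_smooth (ht : g.target ⊆ O1) (hg : ContMDiffOn I I ∞ g g.source)
    (hg' : ContMDiffOn I I ∞ g.symm g.target) {a b : OpenPartialHomeomorph W M}
    (ha : a = G.c1 ∨ a = G.c3) (hb : b = G.c1 ∨ b = G.c3) :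
    ContMDiffOn I I ∞ (b ∘ a.symm) (a.target ∩ a.symm ⁻¹' b.source) := by
  rcases ha with rfl | rfl <;> rcases hb with rfl | rfl
  · exact contMDiffOn_id.congr fun m hm => G.c1.right_inv hm.1
  · refine (hg'.mono fun m hm => ?_).congr fun m hm => ?_
    · obtain ⟨h1, h2⟩ := G.both (G.c1.map_target hm.1) hm.2 ht
      rw [← G.c1.right_inv hm.1, h2]; exact g.map_source h1
    · obtain ⟨h1, h2⟩ := G.both (G.c1.map_target hm.1) hm.2 ht
      rw [G.c1.right_inv hm.1] at h2
      conv_rhs => rw [h2, g.left_inv h1]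
      rfl
  · refine (hg.mono fun m hm => G.only m (G.t3 ▸ hm.1) hm.2).congr fun m hm => ?_
    have := (G.both hm.2 (G.c3.map_target hm.1) ht).2
    rwa [G.c3.right_inv hm.1] at this
  · exact contMDiffOn_id.congr fun m hm => G.c3.right_inv hm.1

lemma isManifold (ht : g.target ⊆ O1) (hg : ContMDiffOn I I ∞ g g.source)
    (hg' : ContMDiffOn I I ∞ g.symm g.target) : @IsManifold ℝ _ V _ _ H _ I ∞ W _ (G.cs H) := by
  letI := G.cs H
  refine isManifold_of_contDiffOn I ∞ W ?_
  have key : ∀ {a b : OpenPartialHomeomorph W M}, (a = G.c1 ∨ a = G.c3) → (b = G.c1 ∨ b = G.c3) →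
      ∀ m m', ContDiffOn ℝ ∞ (I ∘ (a.trans (chartAt H m)).symm ≫ₕ b.trans (chartAt H m') ∘ I.symm)
        (I.symm ⁻¹' ((a.trans (chartAt H m)).symm ≫ₕ b.trans (chartAt H m')).source ∩ range I) := by
    intro a b ha hb m m'
    have := (contMDiffOn_iff.1 (G.trans_smooth ht hg hg' ha hb)).2 m m'
    refine (this.mono fun z hz => ?_).congr fun z _ => rfl
    simp only [mfld_simps] at hz ⊢
    tauto
  rintro e e' ⟨m, rfl | rfl⟩ ⟨m', rfl | rfl⟩
  exacts [key (.inl rfl) (.inl rfl) m m', key (.inl rfl) (.inr rfl) m m',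
    key (.inr rfl) (.inl rfl) m m', key (.inr rfl) (.inr rfl) m m']

lemma smooth_c (hM : @IsManifold ℝ _ V _ _ H _ I ∞ W _ (G.cs H)) {a : OpenPartialHomeomorph W M}
    (ha : a = G.c1 ∨ a = G.c3) : letI := G.cs H
    ContMDiffOn I I ∞ a a.source ∧ ContMDiffOn I I ∞ a.symm a.target := by
  letI := G.cs H
  have hat : ∀ m, a.trans (chartAt H m) ∈ IsManifold.maximalAtlas I ∞ W := fun m =>
    IsManifold.subset_maximalAtlas ⟨m, by rcases ha with rfl | rfl <;> simp⟩
  constructor
  · intro w hw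
    have h1 : w ∈ (a.trans (chartAt H (a w))).source := ⟨hw, mem_chart_source H _⟩
    have h2 := contMDiffAt_of_mem_maximalAtlas (hat (a w)) h1
    have h3 := (contMDiffAt_symm_of_mem_maximalAtlas (IsManifold.chart_mem_maximalAtlas (I := I)
      (n := ∞) (a w)) (mem_chart_target H (a w))).comp w h2
    refine (h3.congr_of_eventuallyEq ?_).contMDiffWithinAt
    filter_upwards [(a.trans (chartAt H (a w))).open_source.mem_nhds h1] with y hy
    exact ((chartAt H (a w)).left_inv hy.2).symm
  · intro m hm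
    have h1 : chartAt H m m ∈ (a.trans (chartAt H m)).target :=
      ⟨mem_chart_target H m, by simpa using hm⟩
    have h2 := (contMDiffAt_symm_of_mem_maximalAtlas (hat m) h1).comp m
      (contMDiffAt_of_mem_maximalAtlas (IsManifold.chart_mem_maximalAtlas (I := I) (n := ∞) m)
        (mem_chart_source H m))
    refine (h2.congr_of_eventuallyEq ?_).contMDiffWithinAt
    filter_upwards [(chartAt H m).open_source.mem_nhds (mem_chart_source H m)] with y hy
    simp [(chartAt H m).left_inv hy]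

omit [IsManifold I ∞ M] in
lemma hasMFDerivAt_c1 {w : W} (h : w ∈ G.c1.source) : letI := G.cs H
    HasMFDerivAt I I G.c1 w (ContinuousLinearMap.id ℝ V) := by
  letI := G.cs H
  refine ⟨G.c1.continuousAt h, (hasFDerivWithinAt_id _ _).congr_of_eventuallyEq ?_ ?_⟩
  · filter_upwards [extChartAt_target_mem_nhdsWithin (I := I) w] with z hz
    have := (extChartAt I w).right_inv hz
    have e : extChartAt I w = ((G.c1.trans (chartAt H (G.c1 w))).extend I) := by
      rw [← G.c_of h]; rfl
    rw [e] at this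
    rw [writtenInExtChartAt, e]
    exact this
  · have e : extChartAt I w = ((G.c1.trans (chartAt H (G.c1 w))).extend I) := by
      rw [← G.c_of h]; rfl
    have := (extChartAt I w).left_inv (mem_extChartAt_source (I := I) w)
    simp only [writtenInExtChartAt, comp_apply, this, id]
    rw [e]; rfl

omit [IsManifold I ∞ M] in
lemma mem_boundary (w : W) : letI := G.cs H
    w ∈ I.boundary W ↔ G.c w w ∈ I.boundary M := Iff.rfl

end Glued

end Pool.Agent.Lib.MP_7ac2ff_gt
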