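import Pool.Agent.Lib.MP_7ac2ff_gt.IsoDefs

/-! Compactly supported equivariant diffeomorphisms of the model with a given germ. -/

namespace Pool.Agent.Lib.MP_7ac2ff_gt

open Set Function Filter Metric
open scoped Manifold ContDiff Topology

namespace Gd3

/-- the first axis -/
def Ax (v : E 3) : Prop := v 1 = 0 ∧ v 2 = 0

/-- the rotation as a linear map -/
noncomputable def rotL : E 3 →L[ℝ] E 3 := LinearMap.toContinuousLinearMap
  { toFun := rot
    map_add' := fun x y => by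
      ext i
      fin_cases i <;> simp [rot, add_comm]
    map_smul' := fun c x => by
      ext i
      fin_cases i <;> simp [rot] }

theorem rotL_apply (v : E 3) : rotL v = rot v := rfl

theorem norm_rot (v : E 3) : ‖rot v‖ = ‖v‖ := by
  simp [EuclideanSpace.norm_eq, Fin.sum_univ_three, rot]

theorem Ax.add {x y : E 3} (hx : Ax x) (hy : Ax y) : Ax (x + y) :=
  ⟨by simp [hx.1, hy.1], by simp [hx.2, hy.2]⟩

theorem Ax.smul {x : E 3} (hx : Ax x) (c : ℝ) : Ax (c • x) := ⟨by simp [hx.1], by simp [hx.2]⟩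

theorem Ax.sub {x y : E 3} (hx : Ax x) (hy : Ax y) : Ax (x - y) :=
  ⟨by simp [hx.1, hy.1], by simp [hx.2, hy.2]⟩

theorem Ax.eq {x : E 3} (hx : Ax x) : x = x 0 • (!₂[1, 0, 0] : E 3) := by
  ext i
  fin_cases i <;> simp [hx.1, hx.2]

theorem ax_one : Ax !₂[1, 0, 0] := ⟨by simp, by simp⟩

theorem det_ne {A : E 3 →L[ℝ] E 3} (h : ∀ v, A v = 0 → v = 0) : A.det ≠ 0 :=
  (LinearMap.isUnit_det _ ((LinearMap.isUnit_iff_ker_eq_bot _).2
    (LinearMap.ker_eq_bot'.2 h))).ne_zero

theorem det_comp (A B : E 3 →L[ℝ] E 3) : (A ∘L B).det = A.det * B.det := LinearMap.det_comp _ _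

theorem good_id : Good id :=
  ⟨contDiff_id, bijective_id, fun v => det_ne fun w => by simp, ⟨0, fun _ _ => rfl⟩, fun _ => rfl,
    fun _ => Iff.rfl⟩

/-- small perturbations of the identity -/
theorem good_near {g : E 3 → E 3} (hg : ContDiff ℝ ∞ g) (hd : ∀ v, ‖fderiv ℝ g v‖ ≤ 1 / 2)
    {R : ℝ} (hR : ∀ v, R ≤ ‖v‖ → g v = 0) (he : ∀ v, g (rot v) = rot (g v))
    (ha : ∀ v, Ax v → Ax (g v)) : Good fun v => v + g v := by
  have hD := hg.differentiable (by simp)
  have hL : LipschitzWith (1 / 2) g := lipschitzWith_of_nnnorm_fderiv_le hD fun v => by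
    exact_mod_cast hd v
  have inj : Injective fun v => v + g v := fun x y e => by
    have h1 := hL.dist_le_mul x y
    rw [dist_eq_norm, dist_eq_norm, show g x - g y = -(x - y) by
      rw [neg_sub, sub_eq_sub_iff_add_eq_add, add_comm]; exact e, norm_neg] at h1
    push_cast at h1
    exact sub_eq_zero.1 (norm_le_zero_iff.1 (by linarith))
  have sur : ∀ y, ∃ x, x + g x = y ∧ (Ax y → Ax x) := fun y => by
    have hc : ContractingWith (1 / 2) fun x => y - g x :=
      ⟨by norm_num, .of_dist_le_mul fun a b =>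
        (dist_sub_left y _ _).trans_le (hL.dist_le_mul a b)⟩
    refine ⟨_, eq_sub_iff_add_eq.1 hc.fixedPoint_isFixedPt.eq.symm, fun hy => ?_⟩
    have : IsClosed {v : E 3 | Ax v} :=
      (isClosed_eq (by fun_prop) continuous_const).inter (isClosed_eq (by fun_prop) continuous_const)
    refine this.mem_of_tendsto (hc.tendsto_iterate_fixedPoint y) (.of_forall fun n => ?_)
    induction n with
    | zero => exact hy
    | succ n ih =>
      rw [iterate_succ_apply']
      exact hy.sub (ha _ ih)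
  refine ⟨contDiff_id.add hg, ⟨inj, fun y => (sur y).imp fun _ => And.left⟩,
    fun v => det_ne fun w hw => ?_, ⟨R, fun v hv => by rw [hR v hv, add_zero]⟩,
    fun v => by rw [he]; exact (rotL.map_add _ _).symm, fun v => ⟨fun h => ?_, fun h => ?_⟩⟩
  · rw [show fderiv ℝ (fun v => v + g v) v = _ from
      ((hasFDerivAt_id v).fun_add (hD v).hasFDerivAt).fderiv] at hw
    have h1 := (fderiv ℝ g v).le_of_opNorm_le (hd v) w
    rw [show fderiv ℝ g v w = -w from eq_neg_of_add_eq_zero_right hw, norm_neg] at h1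
    exact norm_le_zero_iff.1 (by linarith)
  · obtain ⟨x, h1, h2⟩ := sur (v + g v)
    exact inj h1 ▸ h2 h
  · exact Ax.add h (ha v h)

/-- the radial cut-off -/
noncomputable def chi (v : E 3) : ℝ := Real.smoothTransition ((16 - ‖v‖ ^ 2) / 7)

theorem chi_smooth : ContDiff ℝ ∞ chi :=
  Real.smoothTransition.contDiff.comp ((contDiff_const.sub (contDiff_norm_sq ℝ)).div_const _)

theorem chi_one {v : E 3} (h : ‖v‖ ≤ 3) : chi v = 1 :=
  Real.smoothTransition.one_of_one_le (by nlinarith [norm_nonneg v])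

theorem chi_zero {v : E 3} (h : 4 ≤ ‖v‖) : chi v = 0 :=
  Real.smoothTransition.zero_of_nonpos (by nlinarith)

theorem cut : ∃ ε > 0, ∀ δ > 0, ∀ h : E 3 → E 3, h 0 = 0 →
    (∀ v ∈ ball (0 : E 3) (5 * δ), ContDiffAt ℝ ∞ h v ∧ ‖fderiv ℝ h v‖ ≤ ε ∧
      h (rot v) = rot (h v) ∧ (Ax v → Ax (h v))) →
    ∃ F, Good F ∧ ∀ v, ‖v‖ ≤ 3 * δ → F v = v + h v := by
  obtain ⟨M, hM⟩ := chi_smooth.lipschitzWith_of_hasCompactSupport (.intro (isCompact_closedBall 0 4)
    fun v hv => chi_zero (le_of_not_ge fun e => hv (mem_closedBall_zero_iff.2 e))) (by simp)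
  refine ⟨1 / (2 * (1 + 5 * M)), by positivity, fun δ hδ h h0 H => ?_⟩
  let c : E 3 → ℝ := fun v => chi (δ⁻¹ • v)
  have n1 : ∀ v : E 3, ‖δ⁻¹ • v‖ = δ⁻¹ * ‖v‖ := fun v => by
    rw [norm_smul, norm_inv, Real.norm_of_nonneg hδ.le]
  have c0 : ∀ v, 4 * δ ≤ ‖v‖ → c v = 0 := fun v hv =>
    chi_zero (by rw [n1, le_inv_mul_iff₀ hδ]; linarith)
  have cs : ContDiff ℝ ∞ c := chi_smooth.comp (contDiff_id.const_smul _)
  have cd : ∀ v, ‖fderiv ℝ c v‖ ≤ M * δ⁻¹ := fun v =>
    norm_fderiv_le_of_lip' ℝ (by positivity) (.of_forall fun w => by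
      have := hM.dist_le_mul (δ⁻¹ • w) (δ⁻¹ • v)
      rwa [dist_eq_norm, dist_eq_norm, ← smul_sub, n1, ← mul_assoc] at this)
  have key : ∀ v, ContDiffAt ℝ ∞ (fun v => c v • h v) v ∧
      ‖fderiv ℝ (fun v => c v • h v) v‖ ≤ 1 / 2 := fun v => by
    rcases lt_or_ge ‖v‖ (5 * δ) with hv | hv
    · have hv' := mem_ball_zero_iff.2 hv
      have h1 := (convex_ball (0 : E 3) (5 * δ)).norm_image_sub_le_of_norm_fderiv_le
        (fun w hw => (H w hw).1.differentiableAt (by simp)) (fun w hw => (H w hw).2.1)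
        (mem_ball_self (by positivity)) hv'
      rw [h0, sub_zero, sub_zero] at h1
      refine ⟨cs.contDiffAt.smul (H v hv').1, ?_⟩
      rw [((cs.differentiable (by simp) v).hasFDerivAt.fun_smul
        ((H v hv').1.differentiableAt (by simp)).hasFDerivAt).fderiv]
      refine (norm_add_le _ _).trans ?_
      rw [norm_smul, ContinuousLinearMap.norm_smulRight_apply]
      have h2 : ‖c v‖ ≤ 1 := (Real.norm_of_nonneg (Real.smoothTransition.nonneg _)).trans_le
        (Real.smoothTransition.le_one _)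
      calc _ ≤ 1 * (1 / (2 * (1 + 5 * M))) + M * δ⁻¹ * (1 / (2 * (1 + 5 * M)) * (5 * δ)) := by
            gcongr
            exacts [(H v hv').2.1, cd v, h1.trans (by gcongr)]
        _ = 1 / 2 := by field_simp
    · have : (fun v => c v • h v) =ᶠ[𝓝 v] fun _ => 0 :=
        (continuous_norm.continuousAt.eventually_const_lt (show 4 * δ < ‖v‖ by linarith)).mono
          fun w hw => by simp only [c0 w hw.le, zero_smul]
      exact ⟨contDiffAt_const.congr_of_eventuallyEq this, by simp [this.fderiv_eq]⟩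
  have out : ∀ v, v ∈ ball (0 : E 3) (5 * δ) ∨ c v = 0 := fun v =>
    (lt_or_ge ‖v‖ (5 * δ)).imp mem_ball_zero_iff.2 fun e => c0 v (by linarith)
  refine ⟨_, good_near (contDiff_iff_contDiffAt.2 fun v => (key v).1) (fun v => (key v).2)
    (R := 4 * δ) (fun v hv => by rw [c0 v hv, zero_smul]) (fun v => ?_) fun v hv => ?_,
    fun v hv => ?_⟩
  · have : c (rot v) = c v := by simp only [c, chi, n1, norm_rot]
    rw [this, ← rotL_apply (_ • _), map_smul]
    rcases out v with e | e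
    · rw [(H v e).2.2.1, rotL_apply]
    · simp [e]
  · rcases out v with e | e
    · exact ((H v e).2.2.2 hv).smul _
    · simp [e, Ax]
  · rw [show c v = 1 from chi_one (by rw [n1, inv_mul_le_iff₀ hδ]; linarith), one_smul]

end Gd3

open Gd3

theorem Good.comp {F G : E 3 → E 3} (hF : Good F) (hG : Good G) : Good (G ∘ F) := by
  obtain ⟨R, hR⟩ := hF.supp
  obtain ⟨S, hS⟩ := hG.supp
  refine ⟨hG.smooth.comp hF.smooth, hG.bij.comp hF.bij, fun v => ?_, ⟨max R S, fun v hv => ?_⟩,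
    fun v => by simp only [Function.comp, hF.eqv, hG.eqv], fun v => (hG.axis _).trans (hF.axis v)⟩
  · rw [fderiv_comp v (hG.smooth.differentiable (by simp) _) (hF.smooth.differentiable (by simp) _),
      det_comp]
    exact mul_ne_zero (hG.det _) (hF.det _)
  · rw [comp_apply, hR v (le_of_max_le_left hv), hS v (le_of_max_le_right hv)]

theorem Good.symm {F : E 3 → E 3} (hF : Good F) :
    ∃ G, Good G ∧ LeftInverse G F ∧ RightInverse G F := by
  obtain ⟨G, h1, h2⟩ := bijective_iff_has_inverse.1 hF.bij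
  obtain ⟨R, hR⟩ := hF.supp
  have hD := hF.smooth.differentiable (by simp)
  have hs : ContDiff ℝ ∞ G := contDiff_iff_contDiffAt.2 fun y => by
    have h3 : HasFDerivAt F (((fderiv ℝ F (G y)).toContinuousLinearEquivOfDetNeZero (hF.det _) :
      E 3 ≃L[ℝ] E 3) : E 3 →L[ℝ] E 3) (G y) := (hD _).hasFDerivAt
    have h4 := hF.smooth.contDiffAt.to_localInverse h3 (by simp)
    have h5 := (hF.smooth.contDiffAt.hasStrictFDerivAt' h3 (by simp)).eventually_right_inverse
    rw [h2 y] at h4 h5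
    exact h4.congr_of_eventuallyEq (h5.mono fun z hz => hF.bij.1 ((h2 z).trans hz.symm))
  refine ⟨G, ⟨hs, ⟨h2.injective, h1.surjective⟩, fun v => ?_,
    ⟨R, fun v hv => hF.bij.1 (by rw [h2, hR v hv])⟩, fun v => hF.bij.1 (by rw [h2, hF.eqv, h2]),
    fun v => by rw [← hF.axis, h2]⟩, h1, h2⟩
  have := det_comp (fderiv ℝ F (G v)) (fderiv ℝ G v)
  rw [← fderiv_comp v (hD _) (hs.differentiable (by simp) _), h2.comp_eq_id] at this
  exact right_ne_zero_of_mul (this ▸ good_id.det v)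

namespace Gd3

/-- equivariant linear maps keeping the axis -/
def Lk (A : E 3 → E 3) : Prop := (∀ v, A (rot v) = rot (A v)) ∧ ∀ v, Ax v → Ax (A v)

theorem Lk.symm {e : E 3 ≃L[ℝ] E 3} (h : Lk e) : Lk e.symm := by
  refine ⟨fun v => e.injective (by simp [h.1]), fun v hv => ?_⟩
  have h1 := (h.2 _ ax_one).eq
  have h2 : e !₂[1, 0, 0] 0 ≠ 0 := fun h2 => by
    rw [h2, zero_smul, map_eq_zero_iff _ e.injective] at h1
    simpa using congrArg (· 0) h1
  have : e.symm v = (v 0 / e !₂[1, 0, 0] 0) • (!₂[1, 0, 0] : E 3) := e.injective (by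
    rw [e.apply_symm_apply, map_smul]
    conv_rhs => rw [h1, smul_smul, ← h1, div_mul_cancel₀ _ h2, ← hv.eq])
  exact this ▸ ax_one.smul _

theorem lin_good {D : E 3 →L[ℝ] E 3} (hD : Lk D)
    (hi : ∀ t ∈ Icc (0 : ℝ) 1, ∀ v, v + t • (D v - v) = 0 → v = 0) {r : ℝ}
    (hr : ∀ v, ‖v‖ ≤ r → ‖v‖ ≤ 3 ∧ ‖D v‖ ≤ 3) : ∃ F, Good F ∧ ∀ v, ‖v‖ ≤ r → F v = D v := by
  obtain ⟨ε, ε0, hε⟩ := cut
  let P : ℝ → Prop := fun t => ∃ F, Good F ∧ ∀ v, ‖v‖ ≤ r → F v = v + t • (D v - v)
  have hN : (∀ v, D (rot v) - rot v = rot (D v - v)) ∧ ∀ v, Ax v → Ax (D v - v) :=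
    ⟨fun v => by rw [hD.1]; exact (rotL.map_sub _ _).symm, fun v hv => (hD.2 v hv).sub hv⟩
  have key : P 0 → P 1 := by
    refine isPreconnected_Icc.induction₂' (fun s t => P s → P t) (fun s hs => ?_)
      (fun _ _ _ _ _ _ h1 h2 => h2 ∘ h1) (left_mem_Icc.2 zero_le_one)
      (right_mem_Icc.2 zero_le_one)
    let e := (1 + s • (D - 1)).toContinuousLinearEquivOfDetNeZero (det_ne (hi s hs))
    have he : ∀ v, e v = v + s • (D v - v) := fun _ => rfl
    have hk : Lk e.symm := Lk.symm ⟨fun v => by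
      rw [he, he, hN.1, ← rotL_apply (_ + _), map_add, map_smul]; rfl,
      fun v hv => hv.add ((hN.2 v hv).smul s)⟩
    let B : E 3 →L[ℝ] E 3 := (D - 1) ∘L e.symm
    have hc : ContinuousAt (fun t => ‖(t - s) • B‖) s := by fun_prop
    filter_upwards [mem_nhdsWithin_of_mem_nhds (hc.eventually_lt_const
      (show ‖(s - s) • B‖ < ε by rwa [norm_smul, sub_self, norm_zero, zero_mul]))] with t ht
    obtain ⟨G, hG, h1⟩ := hε 1 one_pos ((t - s) • B :) (map_zero _) fun v _ =>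
      ⟨(ContinuousLinearMap.contDiff _).contDiffAt, by
        rw [ContinuousLinearMap.fderiv]; exact ht.le, by
        change (t - s) • (D (e.symm _) - e.symm _) = rotL ((t - s) • (D (e.symm _) - e.symm _))
        rw [hk.1, hN.1, map_smul, rotL_apply], fun hv => (hN.2 _ (hk.2 v hv)).smul _⟩
    have h2 : ∀ v, ‖v‖ ≤ r → G (v + s • (D v - v)) = v + t • (D v - v) := fun v hv => by
      have h3 := (convex_closedBall (0 : E 3) 3).add_smul_sub_mem
        (mem_closedBall_zero_iff.2 (hr v hv).1) (mem_closedBall_zero_iff.2 (hr v hv).2) hs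
      rw [h1 _ (by simpa using h3), ← he]
      change e v + (t - s) • (D (e.symm _) - e.symm _) = _
      rw [e.symm_apply_apply, he, add_assoc, ← add_smul, add_sub_cancel]
    obtain ⟨G', hG', h3, -⟩ := hG.symm
    exact ⟨fun ⟨F, hF, h4⟩ => ⟨_, hF.comp hG, fun v hv => by rw [comp_apply, h4 v hv, h2 v hv]⟩,
      fun ⟨F, hF, h4⟩ => ⟨_, hF.comp hG', fun v hv => by rw [comp_apply, h4 v hv, ← h2 v hv, h3]⟩⟩
  simpa [P] using key ⟨id, good_id, by simp⟩

end Gd3

theorem exists_shrink {c : ℝ} (h0 : 0 < c) (h1 : c ≤ 1) :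
    ∃ F, Good F ∧ ∀ v, ‖v‖ ≤ 3 → F v = c • v := by
  refine lin_good (D := c • 1) ⟨fun v => (rotL.map_smul c v).symm, fun v hv => hv.smul c⟩
    (fun t ht v hv => ?_) fun v hv => ⟨hv, ?_⟩
  · have : (1 - t + t * c) • v = 0 := by
      rw [← hv]
      change _ = v + t • (c • v - v)
      module
    refine (smul_eq_zero.1 this).resolve_left (ne_of_gt ?_)
    nlinarith [ht.1, ht.2]
  · change ‖c • v‖ ≤ 3
    rw [norm_smul, Real.norm_of_nonneg h0.le]
    nlinarith [norm_nonneg v]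

theorem exists_good {φ : E 3 → E 3} (hφ : ∀ᶠ v in 𝓝 0, ContDiffAt ℝ ∞ φ v) (h0 : φ 0 = 0)
    (he : ∀ᶠ v in 𝓝 0, φ (rot v) = rot (φ v))
    (ha : ∀ᶠ v in 𝓝 (0 : E 3), v 1 = 0 → v 2 = 0 → φ v 1 = 0 ∧ φ v 2 = 0)
    (h1 : 0 < fderiv ℝ φ 0 !₂[1, 0, 0] 0) (h2 : 0 < fderiv ℝ φ 0 !₂[0, 1, 0] 1)
    (h3 : 0 < (fderiv ℝ φ 0).det) : ∃ F, Good F ∧ F =ᶠ[𝓝 0] φ := by
  have hd := (hφ.self_of_nhds.differentiableAt (by simp)).hasFDerivAt
  set D := fderiv ℝ φ 0
  have hD : Lk D := by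
    constructor
    · have e1 : HasFDerivAt (φ ∘ rotL) (D ∘L rotL) 0 :=
        HasFDerivAt.comp 0 (by rwa [map_zero]) rotL.hasFDerivAt
      exact DFunLike.congr_fun
        ((e1.congr_of_eventuallyEq (EventuallyEq.symm he)).unique (rotL.hasFDerivAt.comp 0 hd))
    · intro v hv
      have e1 : HasDerivAt (fun t : ℝ => t • v) v 0 := by
        simpa using (hasDerivAt_id (0 : ℝ)).smul_const v
      have e2 := HasFDerivAt.comp_hasDerivAt (0 : ℝ) (l := φ) (by rwa [zero_smul]) e1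
      have e3 : ∀ᶠ t : ℝ in 𝓝 0, Ax (φ (t • v)) :=
        (((continuous_id.smul continuous_const).tendsto' 0 0 (zero_smul ℝ v)).eventually ha).mono
          fun t ht =>
          ht (hv.smul t).1 (hv.smul t).2
      have e4 : ∀ i, (∀ᶠ t : ℝ in 𝓝 0, φ (t • v) i = 0) → D v i = 0 := fun i hi =>
        ((EuclideanSpace.proj (𝕜 := ℝ) i).hasFDerivAt.comp_hasDerivAt 0 e2).unique
          ((hasDerivAt_const 0 0).congr_of_eventuallyEq hi)
      exact ⟨e4 1 (e3.mono fun _ => And.left), e4 2 (e3.mono fun _ => And.right)⟩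
  have a0 := hD.2 _ ax_one
  have a1 : D !₂[0, 1, 0] 0 = 0 ∧ D !₂[0, 1, 0] 2 = 0 := by
    have := hD.1 !₂[0, 1, 0]
    rw [show rot !₂[0, 1, 0] = !₂[0, 1, 0] by simp [rot]] at this
    have e0 := congrArg (· 0) this
    have e2 := congrArg (· 2) this
    simp [rot] at e0 e2
    constructor <;> linarith
  have a2 : D !₂[0, 0, 1] 1 = 0 := by
    have := hD.1 !₂[0, 0, 1]
    rw [show rot !₂[0, 0, 1] = -!₂[0, 0, 1] by ext i; fin_cases i <;> simp [rot], map_neg] at this
    have e1 := congrArg (· 1) this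
    simp [rot] at e1
    linarith
  have hv : ∀ v : E 3, D v = v 0 • D !₂[1, 0, 0] + v 1 • D !₂[0, 1, 0] + v 2 • D !₂[0, 0, 1] := by
    intro v
    simp only [← map_smul, ← map_add]
    congr 1
    ext i
    fin_cases i <;> simp
  have a3 : 0 < D !₂[0, 0, 1] 2 := by
    rw [ContinuousLinearMap.det, ← LinearMap.det_toMatrix (EuclideanSpace.basisFun _ ℝ).toBasis,
      Matrix.det_fin_three] at h3
    simp only [LinearMap.toMatrix_apply, OrthonormalBasis.coe_toBasis_repr_apply,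
      EuclideanSpace.basisFun_repr, OrthonormalBasis.coe_toBasis, ContinuousLinearMap.coe_coe,
      hv (EuclideanSpace.basisFun _ ℝ _)] at h3
    simp [a0.1, a0.2, a1.1, a1.2, a2] at h3
    exact (mul_pos_iff_of_pos_left (mul_pos h1 h2)).1 h3
  obtain ⟨F, hF, hF'⟩ := lin_good hD (r := 3 / (1 + ‖D‖)) (fun t ht v e => by
    have c : ∀ {x a : ℝ}, 0 < a → x + t * (x * a - x) = 0 → x = 0 := fun {x a} h e =>
      (mul_eq_zero.1 (show x * (1 - t + t * a) = 0 by linarith)).resolve_right (ne_of_gt (by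
        rcases ht.1.eq_or_lt with e | e
        · simp [← e]
        · nlinarith [ht.2, mul_pos e h]))
    rw [hv] at e
    have e0 := congrArg (· 0) e
    have e1 := congrArg (· 1) e
    have e2 := congrArg (· 2) e
    simp [a0.1, a0.2, a1.1, a1.2, a2] at e0 e1 e2
    have b2 := c a3 e2
    rw [b2, zero_mul, add_zero] at e0
    ext i
    fin_cases i
    exacts [c h1 e0, c h2 e1, b2]) fun v e => by
    rw [le_div_iff₀ (by positivity)] at e
    have := D.le_opNorm v
    constructor <;> nlinarith [norm_nonneg v, mul_nonneg (norm_nonneg v) (norm_nonneg D)]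
  obtain ⟨ε, ε0, hε⟩ := cut
  let e := D.toContinuousLinearEquivOfDetNeZero h3.ne'
  have hk : Lk e.symm := Lk.symm hD
  have t0 : Tendsto e.symm (𝓝 0) (𝓝 0) := e.symm.continuous.tendsto' _ _ (map_zero _)
  have s1 : ∀ᶠ v in 𝓝 0, ContDiffAt ℝ ∞ (fun v => φ (e.symm v) - v) v :=
    (t0.eventually hφ).mono fun v h => (h.comp v e.symm.contDiff.contDiffAt).sub contDiffAt_id
  have s2 : fderiv ℝ (fun v => φ (e.symm v) - v) 0 = 0 := by
    have := (HasFDerivAt.comp 0 (g := φ) (by rwa [map_zero]) e.symm.hasFDerivAt).fun_sub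
      (hasFDerivAt_id 0)
    refine this.fderiv.trans (ContinuousLinearMap.ext fun v => sub_eq_zero.2 ?_)
    exact e.apply_symm_apply v
  have s3 := (s1.self_of_nhds.continuousAt_fderiv (by simp)).norm.eventually_lt_const
    (show _ < ε by simpa only [s2, norm_zero] using ε0)
  obtain ⟨δ, δ0, hδ⟩ := Metric.eventually_nhds_iff_ball.1
    (s1.and (s3.and ((t0.eventually he).and (t0.eventually ha))))
  obtain ⟨G, hG, hG'⟩ := hε (δ / 5) (by positivity) (fun v => φ (e.symm v) - v) (by simp [h0])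
    fun v h => by
      obtain ⟨b1, b2, b3, b4⟩ := hδ v (by rwa [mul_div_cancel₀ _ (by norm_num)] at h)
      refine ⟨b1, b2.le, ?_, fun hv => Ax.sub (b4 (hk.2 v hv).1 (hk.2 v hv).2) hv⟩
      rw [hk.1, b3]
      exact (rotL.map_sub _ _).symm
  refine ⟨_, hF.comp hG, ?_⟩
  filter_upwards [closedBall_mem_nhds 0 (show 0 < 3 / (1 + ‖D‖) by positivity),
    (D.continuous.tendsto' _ _ (map_zero _)).eventually
      (closedBall_mem_nhds 0 (show 0 < 3 * (δ / 5) by positivity))] with v b1 b2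
  rw [comp_apply, hF' v (mem_closedBall_zero_iff.1 b1), hG' _ (mem_closedBall_zero_iff.1 b2),
    add_sub_cancel]
  exact congrArg φ (e.symm_apply_apply v)

end Pool.Agent.Lib.MP_7ac2ff_gt
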