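import Pool.Agent.Lib.MP_7ac2ff_gt.HomB

/-! Rational singular homology kit: Mayer-Vietoris with the five lemma, transfer. -/

namespace Pool.Agent.Lib.MP_7ac2ff_gt

open Set Function Topology CategoryTheory
open scoped ContinuousMap

variable {X Y Z : Type} [TopologicalSpace X] [TopologicalSpace Y] [TopologicalSpace Z]

namespace Hm

open Finsupp

variable {n : ℕ}

lemma comp_inj {f : C(X, Y)} (hf : Injective f) : Injective fun s : Sx n X => f.comp s :=
  fun _ _ h => ContinuousMap.ext fun x => hf (DFunLike.congr_fun h x)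

lemma push_inj {f : C(X, Y)} (hf : Injective f) : Injective (push n f) :=
  mapDomain_injective (comp_inj hf)

lemma push_in_iff {f : C(X, Y)} (hf : Injective f) {T : Set Y} {c : Ch n X} :
    push n f c ∈ Su (In n T) ↔ c ∈ Su (In n (f ⁻¹' T)) := by
  classical
  refine ⟨fun h => ?_, push_su (P := In n (f ⁻¹' T)) (Q := In n T) f fun _ hs => hs⟩
  rw [Su, mem_supported] at h ⊢
  intro s hs
  have : f.comp s ∈ (push n f c).support := by
    change _ ∈ (mapDomain _ c).support
    rw [mapDomain_support_of_injective (comp_inj hf)]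
    exact Finset.mem_image_of_mem _ hs
  exact h this

lemma push_range (f : C(X, Y)) (c : Ch n X) : push n f c ∈ Su (In n (range f)) :=
  push_su (P := univ) (Q := In n (range f)) f (fun _ _ _ => mem_range_self _) (by simp)

lemma exists_push {f : C(X, Y)} (hf : IsEmbedding f) {d : Ch n Y} (hd : d ∈ Su (In n (range f))) :
    ∃ c, push n f c = d := by
  refine map_su LinearMap.id (N := LinearMap.range (push n f)) (fun s hs => ?_) hd
  choose g hg using hs
  have : Continuous g := hf.continuous_iff.2 (s.continuous.congr fun x => (hg x).symm)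
  refine ⟨single ⟨g, this⟩ 1, ?_⟩
  rw [push_single, LinearMap.id_apply]
  congr 1
  exact ContinuousMap.ext hg

lemma su_inter {A B : Set X} {c : Ch n X} (h : c ∈ Su (In n A)) (h' : c ∈ Su (In n B)) :
    c ∈ Su (In n (A ∩ B)) := fun _ hs x => ⟨h hs x, h' hs x⟩

lemma su_mono {A B : Set X} (h : A ⊆ B) {c : Ch n X} (hc : c ∈ Su (In n A)) : c ∈ Su (In n B) :=
  supported_mono (s := In n A) (t := In n B) (fun _ hs x => h (hs x)) hc

/-- the pair (B, A ∩ B) has no relative homology -/
def RA (A B : Set X) : Prop := ∀ n, ∀ d ∈ Su (In n B), D n d ∈ Su (In (n - 1) A) →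
  ∃ e ∈ Su (In (n + 1) B), d - bd n e ∈ Su (In n A)

lemma ra_of_qi {f : C(X, Y)} (hf : IsEmbedding f) (h : QI f) (n : ℕ) (d : Ch n Y)
    (hd : D n d ∈ Su (In (n - 1) (range f))) : ∃ e, d - bd n e ∈ Su (In n (range f)) := by
  rw [qi_iff] at h
  have key : ∀ a : Ch n X, D n (d - push n f a) = 0 → ∃ e, d - bd n e ∈ Su (In n (range f)) :=
    fun a ha => by
      obtain ⟨x, e, -, he⟩ := (h n).1 _ ha
      refine ⟨e, ?_⟩
      rw [← he, show d - (d - push n f a - push n f x) = push n f (a + x) by rw [map_add]; abel]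
      exact push_range _ _
  cases n with
  | zero => exact key 0 rfl
  | succ n =>
    obtain ⟨a, ha⟩ := exists_push hf hd
    have ha' : push n f a = bd n d := ha
    have h0 : D n a = 0 := push_inj hf.injective (by rw [← D_push, ha', D_bd, map_zero])
    obtain ⟨a', rfl⟩ := (h n).2 a d h0 ha'
    refine key a' ?_
    change bd n _ = 0
    rw [map_sub, bd_push, ha', sub_self]

lemma qi_of_ra {f : C(X, Y)} (hf : IsEmbedding f) (h : ∀ n (d : Ch n Y),
    D n d ∈ Su (In (n - 1) (range f)) → ∃ e, d - bd n e ∈ Su (In n (range f))) : QI f := by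
  rw [qi_iff]
  refine fun n => ⟨fun z hz => ?_, fun x e _ he => ?_⟩
  · obtain ⟨e, he⟩ := h n z (by rw [hz]; exact Submodule.zero_mem _)
    obtain ⟨x, hx⟩ := exists_push hf he
    refine ⟨x, e, push_inj hf.injective ?_, by rw [hx]; abel⟩
    rw [← D_push, hx, map_sub, hz, D_bd, map_zero, sub_zero]
  · obtain ⟨e', he'⟩ := h (n + 1) e (by
      change bd n e ∈ _
      rw [← he]
      exact push_range _ _)
    obtain ⟨x', hx⟩ := exists_push hf he'
    refine ⟨x', push_inj hf.injective ?_⟩
    rw [← bd_push, hx, map_sub, bd_bd, sub_zero, he]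

lemma ra_restrict {f : C(X, Y)} (hf : IsEmbedding f) {U : Set Y} (h : QI (f.restrictPreimage U)) :
    RA (range f) U := by
  intro n d hd hD
  let j : C(U, Y) := ⟨Subtype.val, continuous_subtype_val⟩
  have hj : Injective j := Subtype.val_injective
  have hr : range (f.restrictPreimage U) = j ⁻¹' range f := range_restrictPreimage U f
  obtain ⟨c, rfl⟩ := exists_push (f := j) IsEmbedding.subtypeVal
    (d := d) (by rwa [show range j = U from Subtype.range_coe])
  rw [D_push, push_in_iff hj, ← hr] at hD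
  obtain ⟨e, he⟩ := ra_of_qi (hf.restrictPreimage U) h n c hD
  refine ⟨push _ j e, su_mono (Subtype.range_coe (s := U)).subset (push_range j e), ?_⟩
  rwa [bd_push, ← map_sub, push_in_iff hj, ← hr]

lemma ra_mv {A U V : Set Y} (hU : IsOpen U) (hV : IsOpen V) (h : U ∪ V = univ) (h1 : RA A U)
    (h2 : RA A V) (h3 : RA A (U ∩ V)) (n : ℕ) (d : Ch n Y)
    (hd : D n d ∈ Su (In (n - 1) A)) : ∃ e, d - bd n e ∈ Su (In n A) := by
  obtain ⟨j, hj⟩ := (ev_small hU hV h d).exists
  obtain ⟨⟨e, he⟩, hD⟩ := sd_pow hd j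
  rw [Su, supported_union, Submodule.mem_sup] at hj
  obtain ⟨d1, m1, d2, m2, hs⟩ := hj
  rw [← hs] at he hD
  have key : ∀ c1 ∈ Su (In n U), ∀ c2 ∈ Su (In n V), c1 + c2 = d1 + d2 →
      D n c1 ∈ Su (In (n - 1) A) → ∃ e, d - bd n e ∈ Su (In n A) := fun c1 k1 c2 k2 hc hc1 => by
    obtain ⟨e1, -, he1⟩ := h1 n c1 k1 hc1
    obtain ⟨e2, -, he2⟩ := h2 n c2 k2 (by
      rw [eq_sub_of_add_eq' hc, map_sub]
      exact Submodule.sub_mem _ hD hc1)
    refine ⟨e + e1 + e2, ?_⟩
    convert Submodule.add_mem _ he (Submodule.add_mem _ he1 he2) using 1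
    rw [map_add, map_add, ← hc]
    abel
  cases n with
  | zero => exact key d1 m1 d2 m2 rfl (Submodule.zero_mem _)
  | succ n =>
    have hD' : bd n (d1 + d2) ∈ Su (In n A) := hD
    have hy : bd n (d1 + d2) ∈ Su (In n (A ∩ U)) ⊔ Su (In n (A ∩ V)) := by
      have : bd n (d1 + d2) ∈ Su (In n U) ⊔ Su (In n V) := by
        rw [map_add]
        exact Submodule.add_mem_sup (bd_in m1) (bd_in m2)
      rw [Su, Su, ← supported_union] at this ⊢
      have h := Submodule.mem_inf.2 ⟨hD', this⟩
      rw [Su, ← supported_inter] at h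
      refine supported_mono (fun s hs => ?_) h
      exact hs.2.imp (fun H x => ⟨hs.1 x, H x⟩) fun H x => ⟨hs.1 x, H x⟩
    obtain ⟨y1, p1, y2, p2, hy⟩ := Submodule.mem_sup.1 hy
    have hz : bd n d1 - y1 = y2 - bd n d2 := by
      rw [map_add] at hy
      rw [sub_eq_sub_iff_add_eq_add, ← hy, add_comm]
    obtain ⟨w, mw, hw⟩ := h3 n (bd n d1 - y1)
      (su_inter (Submodule.sub_mem _ (bd_in m1) (su_mono inter_subset_right p1))
        (hz ▸ Submodule.sub_mem _ (su_mono inter_subset_right p2) (bd_in m2))) (by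
      rw [map_sub, D_bd, zero_sub]
      refine Submodule.neg_mem _ ?_
      cases n with
      | zero => exact Submodule.zero_mem _
      | succ n => exact bd_in (su_mono inter_subset_left p1))
    refine key (d1 - w) (Submodule.sub_mem _ m1 (su_mono inter_subset_left mw)) (d2 + w)
      (Submodule.add_mem _ m2 (su_mono inter_subset_right mw)) (by abel) ?_
    change bd n (d1 - w) ∈ Su (In n A)
    rw [map_sub, show bd n d1 - bd n w = bd n d1 - y1 - bd n w + y1 by abel]
    exact Submodule.add_mem _ hw (su_mono inter_subset_left p1)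

instance : ContractibleSpace (Sp n) :=
  (convex_stdSimplex ℝ _).contractibleSpace ⟨_, (bc n).2⟩

instance : LocallyPathConnectedSpace (Sp n) := (convex_stdSimplex ℝ _).locallyPathConnectedSpace

lemma covering [T2Space X] {p : C(X, Y)} {δ : C(X, X)} (hq : IsOpenQuotientMap p)
    (hfree : ∀ x, δ x ≠ x) (hfib : ∀ x y, p x = p y ↔ y = x ∨ y = δ x) : IsCoveringMap p := by
  rw [isCoveringMap_iff_isCoveringMapOn_univ]
  refine IsClosedMap.isCoveringMapOn_of_isLocalHomeomorphOn (fun C hC => ?_) (fun y _ => ?_) ?_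
  · rw [← hq.isQuotientMap.isClosed_preimage]
    have : p ⁻¹' (p '' C) = C ∪ δ ⁻¹' C := by
      ext x
      constructor
      · rintro ⟨y, hy, e⟩
        rcases (hfib x y).1 e.symm with rfl | rfl
        · exact Or.inl hy
        · exact Or.inr hy
      · rintro (hx | hx)
        · exact ⟨x, hx, rfl⟩
        · exact ⟨δ x, hx, ((hfib x _).2 (Or.inr rfl)).symm⟩
    rw [this]
    exact hC.union (hC.preimage δ.continuous)
  · obtain ⟨x, rfl⟩ := hq.surjective y
    exact (toFinite {x, δ x}).subset fun z hz => (hfib x z).1 (Eq.symm hz)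
  · refine IsLocalHomeomorph.isLocalHomeomorphOn ?_
    rw [isLocalHomeomorph_iff_isOpenEmbedding_restrict]
    intro x
    obtain ⟨A, B, hA, hB, hxA, hxB, hAB⟩ := t2_separation (hfree x).symm
    have hO : IsOpen (A ∩ δ ⁻¹' B) := hA.inter (hB.preimage δ.continuous)
    refine ⟨A ∩ δ ⁻¹' B, hO.mem_nhds ⟨hxA, hxB⟩, .of_continuous_injective_isOpenMap
      (p.continuous.comp continuous_subtype_val) (fun a b e => Subtype.ext ?_)
      (hq.isOpenMap.comp hO.isOpenMap_subtype_val)⟩
    rcases (hfib a b).1 e with e | e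
    · exact e.symm
    · exact (disjoint_left.1 hAB b.2.1 (e ▸ a.2.2)).elim

end Hm

open Hm

theorem QI.comp {f : C(X, Y)} {g : C(Y, Z)} (hf : QI f) (hg : QI g) : QI (g.comp f) := fun n => by
  have := hf n
  have := hg n
  rw [TopCat.ofHom_comp, Functor.map_comp]
  infer_instance

theorem QI.of_comp_left {f : C(X, Y)} {g : C(Y, Z)} (hf : QI f) (h : QI (g.comp f)) : QI g :=
  fun n => by
  have := hf n
  have h := h n
  rw [TopCat.ofHom_comp, Functor.map_comp] at h
  exact IsIso.of_isIso_comp_left ((HF n).map (TopCat.ofHom f)) _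

theorem QI.of_comp_right {f : C(X, Y)} {g : C(Y, Z)} (hg : QI g) (h : QI (g.comp f)) : QI f :=
  fun n => by
  have := hg n
  have h := h n
  rw [TopCat.ofHom_comp, Functor.map_comp] at h
  exact IsIso.of_isIso_comp_right _ ((HF n).map (TopCat.ofHom g))

theorem QI.of_homotopyEquiv (e : X ≃ₕ Y) : QI e.toFun := fun n =>
  ⟨(HF n).map (TopCat.ofHom e.invFun), by
    rw [← Functor.map_comp, ← TopCat.ofHom_comp, hf_homotopic e.left_inv]
    exact (HF n).map_id _, by
    rw [← Functor.map_comp, ← TopCat.ofHom_comp, hf_homotopic e.right_inv]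
    exact (HF n).map_id _⟩

theorem QI.of_isHomeomorph {f : C(X, Y)} (h : IsHomeomorph f) : QI f :=
  QI.of_homotopyEquiv h.homeomorph.toHomotopyEquiv

theorem QI.fst [ContractibleSpace Y] : QI (ContinuousMap.fst : C(X × Y, X)) := by
  obtain ⟨e⟩ := ContractibleSpace.hequiv_unit Y
  have h := (QI.of_homotopyEquiv ((ContinuousMap.HomotopyEquiv.refl X).prodCongr e)).comp
    (QI.of_isHomeomorph (f := ContinuousMap.fst) (Homeomorph.prodUnique X Unit).isHomeomorph)
  have e : (ContinuousMap.fst : C(X × Unit, X)).comp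
      ((ContinuousMap.HomotopyEquiv.refl X).prodCongr e).toFun = ContinuousMap.fst :=
    ContinuousMap.ext fun _ => rfl
  rwa [e] at h

/-- Mayer-Vietoris + five lemma -/
theorem QI.mv {f : C(X, Y)} (hf : IsEmbedding f) {U V : Set Y} (hU : IsOpen U) (hV : IsOpen V)
    (h : U ∪ V = univ) (h1 : QI (f.restrictPreimage U)) (h2 : QI (f.restrictPreimage V))
    (h3 : QI (f.restrictPreimage (U ∩ V))) : QI f :=
  qi_of_ra hf (ra_mv hU hV h (ra_restrict hf h1) (ra_restrict hf h2) (ra_restrict hf h3))

/-- transfer for a double covering whose deck transformation is homotopic to the identity -/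
theorem QI.transfer [T2Space X] {p : C(X, Y)} {δ : C(X, X)} (hq : IsOpenQuotientMap p)
    (hδ : Involutive δ) (hfree : ∀ x, δ x ≠ x) (hfib : ∀ x y, p x = p y ↔ y = x ∨ y = δ x)
    (hh : δ.Homotopic (ContinuousMap.id X)) : QI p := by
  have cov := covering hq hfree hfib
  have hp : p.comp δ = p := ContinuousMap.ext fun x => ((hfib x _).2 (Or.inr rfl)).symm
  have hd : δ.comp δ = ContinuousMap.id X := ContinuousMap.ext hδ
  have lift : ∀ n (s : Sx n Y), ∃ t : Sx n X, p.comp t = s := fun n s => by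
    obtain ⟨x, hx⟩ := hq.surjective (s (vx 0))
    obtain ⟨t, ⟨-, ht⟩, -⟩ := cov.existsUnique_continuousMap_lifts s (vx 0) x hx
    exact ⟨t, ContinuousMap.ext (congrFun ht)⟩
  have uniq : ∀ n (s t : Sx n X), p.comp s = p.comp t → s (vx 0) = t (vx 0) → s = t :=
    fun n s t e e0 => ContinuousMap.ext (congrFun (cov.eq_of_comp_eq s.continuous t.continuous
      (funext fun x => DFunLike.congr_fun e x) (vx 0) e0))
  have surj : ∀ n (z : Ch n Y), ∃ x, push n p x = z := fun n z =>
    map_su (P := univ) LinearMap.id (N := LinearMap.range (push n p)) (fun s _ => by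
      obtain ⟨t, rfl⟩ := lift n s
      exact ⟨Finsupp.single t 1, push_single _ _ _⟩) (by simp)
  have ker : ∀ n (y : Ch n X), push n p y = 0 → y + push n δ y = 0 := fun n y hy => by
    choose L hL using lift n
    let tr : Ch n Y →ₗ[ℚ] Ch n X :=
      (LinearMap.id + push n δ) ∘ₗ Finsupp.lmapDomain ℚ ℚ L
    have := ch_ext (f := tr ∘ₗ push n p) (g := LinearMap.id + push n δ) (fun s => by
      have h0 : p (s (vx 0)) = p (L (p.comp s) (vx 0)) :=
        (DFunLike.congr_fun (hL (p.comp s)) (vx 0)).symm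
      simp only [tr, LinearMap.comp_apply, push_single, Finsupp.lmapDomain_apply,
        Finsupp.mapDomain_single, LinearMap.add_apply, LinearMap.id_apply]
      rcases (hfib _ _).1 h0 with e | e
      · rw [uniq n _ s (hL _) e]
      · rw [uniq n _ (δ.comp s) (by rw [hL, ← ContinuousMap.comp_assoc, hp]) e,
          ← ContinuousMap.comp_assoc, hd, ContinuousMap.id_comp, add_comm]) y
    simpa [hy] using this.symm
  rw [qi_iff]
  refine fun n => ⟨fun z hz => ?_, fun x e hx he => ?_⟩
  · obtain ⟨x, rfl⟩ := surj n z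
    refine ⟨(1 / 2 : ℚ) • (x + push n δ x), 0, ?_, ?_⟩
    · rw [map_smul, map_add, D_push, ker _ _ (by rw [← D_push, hz]), smul_zero]
    · rw [map_smul, map_add, push_push, hp, map_zero, ← two_smul ℚ, smul_smul]
      simp
  · obtain ⟨e, rfl⟩ := surj _ e
    obtain ⟨w, hw⟩ := push_homotopic hh hx
    have := ker n (x - bd n e) (by rw [map_sub, he, bd_push, sub_self])
    rw [map_sub, ← bd_push] at this
    rw [push_id] at hw
    refine ⟨(1 / 2 : ℚ) • (e + push _ δ e - w), ?_⟩
    rw [map_smul, map_sub, map_add, ← hw, show bd n e + bd n (push _ δ e) - (push n δ x - x) =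
      x + x - (x - bd n e + (push n δ x - bd n (push _ δ e))) by abel, this, sub_zero,
      ← two_smul ℚ, smul_smul]
    simp

end Pool.Agent.Lib.MP_7ac2ff_gt
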