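import Pool.Agent.Lib.MP_7ac2ff_gt.HomA

/-! Barycentric subdivision of singular chains. -/

namespace Pool.Agent.Lib.MP_7ac2ff_gt.Hm

open Set Function Finsupp

variable {X Y Z : Type} [TopologicalSpace X] [TopologicalSpace Y] [TopologicalSpace Z]
  {k m n : ℕ}

abbrev vx (i : Fin (n + 1)) : Sp n := stdSimplex.vertex i

/-- value of an affine functional -/
noncomputable def ev (a : Fin (n + 1) → ℝ) (x : Sp n) : ℝ := ∑ i, x i * a i

lemma ev_vx (a : Fin (n + 1) → ℝ) (i : Fin (n + 1)) : ev a (vx i) = a i := by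
  simp [ev, Pi.single_apply]

lemma ev_le {a : Fin (n + 1) → ℝ} {r : ℝ} (h : ∀ i, a i ≤ r) (x : Sp n) : ev a x ≤ r := by
  calc ev a x ≤ ∑ i, x i * r :=
        Finset.sum_le_sum fun i _ => mul_le_mul_of_nonneg_left (h i) (stdSimplex.zero_le x i)
    _ = r := by rw [← Finset.sum_mul, stdSimplex.sum_eq_one, one_mul]

lemma ev_neg (a : Fin (n + 1) → ℝ) (x : Sp n) : ev (fun i => -a i) x = -ev a x := by
  simp [ev]

lemma le_ev {a : Fin (n + 1) → ℝ} {r : ℝ} (h : ∀ i, r ≤ a i) (x : Sp n) : r ≤ ev a x := by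
  have := ev_le (a := fun i => -a i) (r := -r) (fun i => neg_le_neg (h i)) x
  rw [ev_neg] at this
  linarith

lemma ev_face (a : Fin (n + 2) → ℝ) (i : Fin (n + 2)) (x : Sp n) :
    ev a (face i x) = ev (fun l => a (i.succAbove l)) x := by
  have : ∀ j, face i x j = ∑ l with i.succAbove l = j, x l := fun j =>
    FunOnFinite.linearMap_apply_apply ℝ ℝ i.succAbove x j
  simp only [ev, this, Finset.sum_mul]
  rw [← Finset.sum_fiberwise Finset.univ i.succAbove fun l => x l * a (i.succAbove l)]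
  refine Finset.sum_congr rfl fun j _ => Finset.sum_congr rfl fun l hl => ?_
  rw [(Finset.mem_filter.1 hl).2]

noncomputable def aff (v : Fin (k + 1) → Sp m) : Sx k (Sp m) where
  toFun x := ⟨fun j => ev (fun i => v i j) x,
    fun j => le_ev (fun i => stdSimplex.zero_le _ _) x, by
      simp only [ev]
      rw [Finset.sum_comm]
      simp [← Finset.mul_sum]⟩
  continuous_toFun := by
    refine Continuous.subtype_mk (continuous_pi fun j => continuous_finsetSum _ fun i _ => ?_) _
    exact ((continuous_apply i).comp continuous_subtype_val).mul continuous_const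

lemma aff_apply (v : Fin (k + 1) → Sp m) (x : Sp k) (j : Fin (m + 1)) :
    aff v x j = ev (fun i => v i j) x := rfl

lemma sp_ext {x y : Sp n} (h : ∀ j, x j = y j) : x = y := stdSimplex.ext (funext h)

lemma aff_vx (v : Fin (k + 1) → Sp m) (i : Fin (k + 1)) : aff v (vx i) = v i :=
  sp_ext fun j => by rw [aff_apply, ev_vx]

lemma aff_face (v : Fin (k + 2) → Sp m) (i : Fin (k + 2)) :
    (aff v).comp (face i) = aff fun l => v (i.succAbove l) :=
  ContinuousMap.ext fun x => sp_ext fun _ => ev_face _ i x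

lemma face_vx (i : Fin (n + 2)) (l : Fin (n + 1)) : face i (vx l) = vx (i.succAbove l) :=
  stdSimplex.map_vertex _ _

lemma ev_aff (a : Fin (m + 1) → ℝ) (v : Fin (k + 1) → Sp m) (x : Sp k) :
    ev a (aff v x) = ev (fun i => ev a (v i)) x := by
  simp only [ev, aff_apply, Finset.sum_mul, Finset.mul_sum, mul_assoc]
  exact Finset.sum_comm

def Aff (s : Sx k (Sp m)) : Prop := s = aff fun i => s (vx i)

lemma aff_Aff (v : Fin (k + 1) → Sp m) : Aff (aff v) := by simp [Aff, aff_vx]

lemma Aff.app {s : Sx k (Sp m)} (h : Aff s) (x : Sp k) (j : Fin (m + 1)) :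
    s x j = ev (fun i => s (vx i) j) x := by
  conv_lhs => rw [h]
  rfl

lemma Aff.comp {t : Sx m (Sp n)} {s : Sx k (Sp m)} (ht : Aff t) (hs : Aff s) : Aff (t.comp s) :=
  ContinuousMap.ext fun x => sp_ext fun j => by
    rw [aff_apply, ContinuousMap.comp_apply, ht.app]
    conv_lhs => rw [hs, ev_aff]
    simp only [ContinuousMap.comp_apply, ht.app (s _)]

lemma aff_id : Aff (ContinuousMap.id (Sp n)) :=
  ContinuousMap.ext fun x => sp_ext fun j => by
    simp [aff_apply, ev, Pi.single_apply]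

lemma face_Aff (i : Fin (n + 2)) : Aff (face i) := by
  have := aff_face (fun l => vx l) i
  rw [show (aff fun l : Fin (n + 2) => vx l) = ContinuousMap.id _ from aff_id.symm,
    ContinuousMap.id_comp] at this
  rw [this]
  exact aff_Aff _

/-! supports -/

abbrev Su {α : Type} (P : Set α) : Submodule ℚ (α →₀ ℚ) := supported ℚ ℚ P

lemma map_su {α M : Type} [AddCommGroup M] [Module ℚ M] {P : Set α} (f : (α →₀ ℚ) →ₗ[ℚ] M)
    {N : Submodule ℚ M} (h : ∀ a ∈ P, f (single a 1) ∈ N) {c : α →₀ ℚ} (hc : c ∈ Su P) :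
    f c ∈ N := by
  have : Su P ≤ N.comap f := by
    rw [Su, supported_eq_span_single, Submodule.span_le]
    rintro _ ⟨a, ha, rfl⟩
    exact h a ha
  exact this hc

lemma push_su {P : Set (Sx n X)} {Q : Set (Sx n Y)} (f : C(X, Y)) (h : ∀ s ∈ P, f.comp s ∈ Q)
    {c : Ch n X} (hc : c ∈ Su P) : push n f c ∈ Su Q :=
  map_su _ (fun a ha => by rw [push_single]; exact single_mem_supported _ _ (h a ha)) hc

lemma bd_su {P : Set (Sx (n + 1) X)} {Q : Set (Sx n X)} (h : ∀ s ∈ P, ∀ i, s.comp (face i) ∈ Q)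
    {c : Ch (n + 1) X} (hc : c ∈ Su P) : bd n c ∈ Su Q :=
  map_su _ (fun a ha => by
    rw [bd_single]
    exact Submodule.sum_mem _ fun i _ => Submodule.smul_mem _ _
      (single_mem_supported _ _ (h a ha i))) hc

/-- the natural operator with model w -/
noncomputable def op (w : Ch k (Sp n)) : Ch n X →ₗ[ℚ] Ch k X :=
  linearCombination ℚ fun s => push k s w

@[simp] lemma op_single (w : Ch k (Sp n)) (s : Sx n X) : op w (single s 1) = push k s w := by
  simp [op]

lemma op_su {w : Ch k (Sp n)} {G : Set (Sx k (Sp n))} (hw : w ∈ Su G) {P : Set (Sx n X)}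
    {Q : Set (Sx k X)} (h : ∀ s ∈ P, ∀ t ∈ G, s.comp t ∈ Q) {c : Ch n X} (hc : c ∈ Su P) :
    op w c ∈ Su Q :=
  map_su _ (fun a ha => by rw [op_single]; exact push_su _ (h a ha) hw) hc

lemma push_op (w : Ch k (Sp n)) (f : C(X, Y)) (c : Ch n X) :
    push k f (op w c) = op w (push n f c) :=
  ch_ext (f := push k f ∘ₗ op w) (g := op w ∘ₗ push n f) (fun s => by simp [push_push]) c

lemma bd_op (w : Ch (k + 1) (Sp n)) (c : Ch n X) : bd k (op w c) = op (bd k w) c :=
  ch_ext (f := bd k ∘ₗ op w) (fun s => by simp [bd_push]) c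

noncomputable def one (n : ℕ) : Ch n (Sp n) := single (ContinuousMap.id _) 1

lemma op_one (c : Ch n X) : op (one n) c = c :=
  ch_ext (g := LinearMap.id) (fun s => by simp [one]) c

lemma op_sub (w w' : Ch k (Sp n)) (c : Ch n X) : op (w - w') c = op w c - op w' c :=
  ch_ext (g := op w - op w') (fun s => by simp) c

lemma op_zero (c : Ch n X) : op (0 : Ch k (Sp n)) c = 0 :=
  ch_ext (g := 0) (fun s => by simp) c

lemma op_op_bd (w : Ch k (Sp n)) (c : Ch (n + 1) X) :
    op (op w (bd n (one (n + 1)))) c = op w (bd n c) :=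
  ch_ext (g := op w ∘ₗ bd n) (fun s => by simp [push_op, ← bd_push, one]) c

/-! cones -/

noncomputable def cn (b : Sp m) (s : Sx k (Sp m)) : Sx (k + 1) (Sp m) :=
  aff (Fin.cons b fun i => s (vx i))

noncomputable def cone (b : Sp m) : Ch k (Sp m) →ₗ[ℚ] Ch (k + 1) (Sp m) := lmapDomain ℚ ℚ (cn b)

lemma cone_single (b : Sp m) (s : Sx k (Sp m)) (a : ℚ) :
    cone b (single s a) = single (cn b s) a := by simp [cone]

lemma eq_su {α M : Type} [AddCommGroup M] [Module ℚ M] {P : Set α} (f g : (α →₀ ℚ) →ₗ[ℚ] M)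
    (h : ∀ a ∈ P, f (single a 1) = g (single a 1)) {c : α →₀ ℚ} (hc : c ∈ Su P) : f c = g c :=
  sub_eq_zero.1 (map_su (f - g) (N := ⊥) (fun a ha => by simp [h a ha]) hc)

lemma bd_cone (b : Sp m) {c : Ch (k + 1) (Sp m)} (hc : c ∈ Su {s | Aff s}) :
    bd (k + 1) (cone b c) = c - cone b (bd k c) := by
  refine eq_su (bd (k + 1) ∘ₗ cone b) (LinearMap.id - cone b ∘ₗ bd k) (fun s hs => ?_) hc
  simp only [LinearMap.comp_apply, cone_single, bd_single, LinearMap.sub_apply, LinearMap.id_apply,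
    map_sum, map_smul]
  rw [Fin.sum_univ_succ, sub_eq_add_neg, ← Finset.sum_neg_distrib]
  congr 1
  · simp only [cn, aff_face, Fin.val_zero, pow_zero, one_smul, Fin.succAbove_zero, Fin.cons_succ]
    rw [← show s = aff fun i => s (vx i) from hs]
  · refine Finset.sum_congr rfl fun j _ => ?_
    rw [Fin.val_succ, pow_succ, mul_neg_one, neg_smul, cn, cn, aff_face]
    congr 4
    funext l
    refine Fin.cases ?_ (fun l => ?_) l
    · simp
    · simp [face_vx]

lemma bd_cone_bd (b : Sp m) {c : Ch 1 (Sp m)} (hc : c ∈ Su {s | Aff s}) :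
    bd 0 (cone b (bd 0 c)) = bd 0 c := by
  refine eq_su (bd 0 ∘ₗ cone b ∘ₗ bd 0) (bd 0) (fun s hs => ?_) hc
  have h : ∀ t : Sx 0 (Sp m), Aff t → bd 0 (single (cn b t) 1) =
      single t 1 - single (aff fun _ => b) 1 := fun t ht => by
    rw [bd_single, Fin.sum_univ_two, cn, aff_face, aff_face]
    simp only [Fin.val_zero, pow_zero, one_smul, Fin.succAbove_zero, Fin.cons_succ, Fin.val_one,
      pow_one, neg_smul, ← sub_eq_add_neg]
    rw [← show t = aff fun i => t (vx i) from ht]
    congr 3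
    funext l
    obtain rfl : l = 0 := Fin.ext (by omega)
    rfl
  rw [LinearMap.comp_apply, LinearMap.comp_apply, bd_single (n := 0) s, Fin.sum_univ_two]
  simp only [map_add, map_smul, cone_single, h _ (Aff.comp hs (face_Aff _))]
  simp [sub_eq_add_neg, add_assoc]

noncomputable def bc (n : ℕ) : Sp n := stdSimplex.barycenter

noncomputable def uu : (n : ℕ) → Ch n (Sp n)
  | 0 => one 0
  | n + 1 => cone (bc _) (op (uu n) (bd n (one (n + 1))))

noncomputable def tt : (n : ℕ) → Ch (n + 1) (Sp n)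
  | 0 => 0
  | n + 1 => cone (bc _) (one (n + 1) - op (tt n) (bd n (one (n + 1))))

lemma one_aff : one n ∈ Su {s | Aff s} := single_mem_supported _ _ aff_id

lemma cone_aff (b : Sp m) (c : Ch k (Sp m)) : cone b c ∈ Su {s | Aff s} :=
  map_su (P := univ) _ (fun a _ => by
    rw [cone_single]; exact single_mem_supported _ _ (aff_Aff _)) (by simp)

lemma op_bd_aff {w : Ch k (Sp n)} (hw : w ∈ Su {s | Aff s}) :
    op w (bd n (one (n + 1))) ∈ Su {s | Aff s} :=
  op_su hw (P := {s | Aff s}) (fun _ hs _ ht => Aff.comp hs ht)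
    (bd_su (fun _ hs i => Aff.comp hs (face_Aff i)) one_aff)

lemma uu_aff : ∀ n, uu n ∈ Su {s | Aff s}
  | 0 => one_aff
  | _ + 1 => cone_aff _ _

lemma tt_aff : ∀ n, tt n ∈ Su {s | Aff s}
  | 0 => Submodule.zero_mem _
  | _ + 1 => cone_aff _ _

lemma bd_uu : ∀ n, bd n (uu (n + 1)) = op (uu n) (bd n (one (n + 1)))
  | 0 => by
    simp only [uu, op_one]
    exact bd_cone_bd _ one_aff
  | n + 1 => by
    rw [uu, bd_cone _ (op_bd_aff (uu_aff _)), bd_op, bd_uu n, op_op_bd, bd_bd]
    simp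

/-- barycentric subdivision -/
noncomputable def Sd (n : ℕ) : Ch n X →ₗ[ℚ] Ch n X := op (uu n)

lemma bd_Sd (c : Ch (n + 1) X) : bd n (Sd (n + 1) c) = Sd n (bd n c) := by
  rw [Sd, bd_op, bd_uu, op_op_bd, Sd]

lemma bd_tt : ∀ n, bd (n + 1) (tt (n + 1)) =
    one (n + 1) - op (tt n) (bd n (one (n + 1))) - uu (n + 1)
  | 0 => by
    simp only [tt, uu, op_zero, op_one, sub_zero]
    exact bd_cone _ one_aff
  | n + 1 => by
    rw [tt, bd_cone _ (Submodule.sub_mem _ one_aff (op_bd_aff (tt_aff _))), map_sub (bd _), bd_op,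
      bd_tt n, op_sub, op_sub, op_one, op_op_bd, bd_bd, map_zero, sub_zero, sub_sub_cancel]
    rfl

lemma bd_T (c : Ch (n + 1) X) :
    bd (n + 1) (op (tt (n + 1)) c) = c - op (tt n) (bd n c) - Sd (n + 1) c := by
  rw [bd_op, bd_tt, op_sub, op_sub, op_one, op_op_bd, Sd]

/-! chains in a subset -/

def In (n : ℕ) (A : Set X) : Set (Sx n X) := {s | ∀ x, s x ∈ A}

lemma op_in (w : Ch k (Sp n)) {A : Set X} {c : Ch n X} (hc : c ∈ Su (In n A)) :
    op w c ∈ Su (In k A) :=
  op_su (G := univ) (P := In n A) (Q := In k A) (by simp) (fun _ hs _ _ _ => hs _) hc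

lemma bd_in {A : Set X} {c : Ch (n + 1) X} (hc : c ∈ Su (In (n + 1) A)) : bd n c ∈ Su (In n A) :=
  bd_su (P := In (n + 1) A) (Q := In n A) (fun _ hs _ _ => hs _) hc

lemma sd_step {A : Set X} {d : Ch n X} (hd : D n d ∈ Su (In (n - 1) A)) :
    (∃ e, d - Sd n d - bd n e ∈ Su (In n A)) ∧ D n (Sd n d) ∈ Su (In (n - 1) A) := by
  cases n with
  | zero => exact ⟨⟨0, by simp [Sd, uu, op_one]⟩, by simp [D]⟩
  | succ n =>
    refine ⟨⟨op (tt (n + 1)) d, ?_⟩, ?_⟩
    · rw [bd_T, show ∀ a b c : Ch (n + 1) X, a - c - (a - b - c) = b from fun a b c => by abel]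
      exact op_in _ hd
    · change bd n _ ∈ _
      rw [bd_Sd]
      exact op_in _ hd

lemma sd_pow {A : Set X} {d : Ch n X} (hd : D n d ∈ Su (In (n - 1) A)) (j : ℕ) :
    (∃ e, d - (Sd n ^ j) d - bd n e ∈ Su (In n A)) ∧ D n ((Sd n ^ j) d) ∈ Su (In (n - 1) A) := by
  induction j with
  | zero => exact ⟨⟨0, by simp⟩, hd⟩
  | succ j ih =>
    obtain ⟨⟨e, he⟩, h⟩ := ih
    obtain ⟨⟨e', he'⟩, h'⟩ := sd_step h
    rw [pow_succ', Module.End.mul_apply]
    refine ⟨⟨e + e', ?_⟩, h'⟩
    convert Submodule.add_mem _ he he' using 1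
    rw [map_add]
    abel

/-! small simplices -/

noncomputable def cst (n : ℕ) : ℝ := n / (n + 1)

lemma cst_nonneg : 0 ≤ cst n := by unfold cst; positivity

lemma cst_lt : cst n < 1 := by
  unfold cst
  rw [div_lt_one (by positivity)]
  linarith

lemma cst_mono : cst n ≤ cst (n + 1) := by
  unfold cst
  rw [div_le_div_iff₀ (by positivity) (by positivity)]
  push_cast
  nlinarith

lemma ev_bc {a : Fin (n + 1) → ℝ} {r : ℝ} (h : ∀ i l, a i - a l ≤ r) (y : Sp n) :
    ev a (bc n) - ev a y ≤ cst n * r := by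
  have : ∀ l, ev a (bc n) - cst n * r ≤ a l := fun l => by
    have h1 : ev a (bc n) = ((n : ℝ) + 1)⁻¹ * ∑ i, a i := by
      rw [ev, Finset.mul_sum]
      refine Finset.sum_congr rfl fun i _ => ?_
      congr 1
      exact (stdSimplex.barycenter_apply i).trans (by simp)
    have h2 : ∑ i : Fin n, a (l.succAbove i) ≤ ∑ _i : Fin n, (a l + r) :=
      Finset.sum_le_sum fun i _ => by linarith [h (l.succAbove i) l]
    rw [Finset.sum_const, Finset.card_univ, Fintype.card_fin, nsmul_eq_mul] at h2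
    rw [h1, Fin.sum_univ_succAbove _ l, cst, sub_le_iff_le_add, inv_mul_le_iff₀ (by positivity)]
    have : ((n : ℝ) + 1) * (a l + n / (n + 1) * r) = a l + n * (a l + r) := by
      field_simp
      ring
    linarith
  linarith [le_ev this y]

def Good (n : ℕ) : Set (Sx n (Sp n)) := {s | Aff s ∧ ∀ (a : Fin (n + 1) → ℝ) (r : ℝ),
  (∀ i l, a i - a l ≤ r) → ∀ i l, ev a (s (vx i)) - ev a (s (vx l)) ≤ cst n * r}

lemma uu_good : ∀ n, uu n ∈ Su (Good n)
  | 0 => single_mem_supported _ _ ⟨aff_id, fun a r _ i l => by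
      obtain rfl : i = l := Fin.ext (by omega)
      simp [cst]⟩
  | n + 1 => by
    have h1 : bd n (one (n + 1)) ∈ Su (range face) :=
      bd_su (P := {ContinuousMap.id _}) (Q := range face) (fun s hs i => ⟨i, by rw [hs]; rfl⟩)
        (single_mem_supported _ _ rfl)
    have h2 := op_su (uu_good n) (P := range face) (Q := {s | ∃ i, ∃ t ∈ Good n, s = (face i).comp t})
      (fun s ⟨i, hi⟩ t ht => ⟨i, t, ht, by rw [hi]⟩) h1
    refine map_su (cone _) (fun s hs => ?_) h2
    obtain ⟨i, t, ht, hs⟩ := hs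
    rw [cone_single]
    refine single_mem_supported _ _ ⟨aff_Aff _, fun a r h j l => ?_⟩
    have hr : 0 ≤ r := by simpa using h 0 0
    rw [cn, aff_vx, aff_vx]
    refine Fin.cases ?_ (fun j => ?_) j <;> refine Fin.cases ?_ (fun l => ?_) l
    · simpa using mul_nonneg cst_nonneg hr
    · exact ev_bc h _
    · have := ev_bc (a := fun i => -a i) (r := r) (fun i l => by linarith [h l i]) (s (vx j))
      rw [ev_neg, ev_neg] at this
      simp only [Fin.cons_succ, Fin.cons_zero]
      linarith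
    · simp only [Fin.cons_succ, hs, ContinuousMap.comp_apply, ev_face]
      exact (ht.2 _ r (fun _ _ => h _ _) j l).trans (mul_le_mul_of_nonneg_right cst_mono hr)

def Small (n m : ℕ) (r : ℝ) : Set (Sx n (Sp m)) :=
  {s | Aff s ∧ ∀ i l j, s (vx i) j - s (vx l) j ≤ r}

lemma Sd_small {r : ℝ} {c : Ch n (Sp m)} (hc : c ∈ Su (Small n m r)) :
    Sd n c ∈ Su (Small n m (cst n * r)) :=
  op_su (uu_good n) (P := Small n m r) (Q := Small n m _) (fun s hs t ht => ⟨hs.1.comp ht.1, fun i l j => by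
    rw [ContinuousMap.comp_apply, ContinuousMap.comp_apply, hs.1.app, hs.1.app (t _)]
    exact ht.2 _ r (fun i l => hs.2 i l j) i l⟩) hc

lemma Sd_pow_small (j : ℕ) : (Sd n ^ j) (one n) ∈ Su (Small n n (cst n ^ j)) := by
  induction j with
  | zero =>
    refine single_mem_supported _ _ ⟨aff_id, fun i l j => ?_⟩
    have := stdSimplex.le_one (vx i) j
    have := stdSimplex.zero_le (vx l) j
    simp only [ContinuousMap.id_apply, pow_zero]
    linarith
  | succ j ih =>
    rw [pow_succ', pow_succ', Module.End.mul_apply]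
    exact Sd_small ih

lemma small_dist {r : ℝ} {s : Sx n (Sp m)} (hs : s ∈ Small n m r) (x y : Sp n) :
    dist (s x) (s y) ≤ r := by
  have hr : 0 ≤ r := by simpa using hs.2 0 0 0
  have : ∀ (x y : Sp n) j, s x j - s y j ≤ r := fun x y j => by
    rw [hs.1.app, hs.1.app y, sub_le_iff_le_add]
    refine ev_le (fun i => ?_) x
    rw [← sub_le_iff_le_add']
    exact le_ev (fun l => by linarith [hs.2 i l j]) y
  rw [Subtype.dist_eq, dist_pi_le_iff hr]
  intro j
  rw [Real.dist_eq, abs_le]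
  exact ⟨by have := this y x j; change -r ≤ s x j - s y j; linarith, this x y j⟩

lemma push_Sd_pow (f : C(X, Y)) (j : ℕ) (c : Ch n X) :
    push n f ((Sd n ^ j) c) = (Sd n ^ j) (push n f c) := by
  induction j with
  | zero => rfl
  | succ j ih =>
    rw [pow_succ', pow_succ', Module.End.mul_apply, Module.End.mul_apply, ← ih]
    exact push_op _ _ _

lemma ev_small {U V : Set X} (hU : IsOpen U) (hV : IsOpen V) (h : U ∪ V = univ) (d : Ch n X) :
    ∀ᶠ j in Filter.atTop, (Sd n ^ j) d ∈ Su (In n U ∪ In n V) := by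
  induction d using Finsupp.induction_linear with
  | zero => simp
  | add f g hf hg =>
    filter_upwards [hf, hg] with j h1 h2
    rw [map_add]
    exact Submodule.add_mem _ h1 h2
  | single s a =>
    obtain ⟨δ, hδ, H⟩ := lebesgue_number_lemma_of_metric (s := (univ : Set (Sp n)))
      (c := fun b : Bool => s ⁻¹' (if b then U else V)) isCompact_univ
      (fun b => by cases b <;> simp [hU.preimage s.continuous, hV.preimage s.continuous])
      (fun x _ => by
        have : s x ∈ U ∪ V := h ▸ mem_univ _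
        rcases this with h | h
        · exact mem_iUnion.2 ⟨true, h⟩
        · exact mem_iUnion.2 ⟨false, h⟩)
    filter_upwards [(tendsto_pow_atTop_nhds_zero_of_lt_one (cst_nonneg (n := n)) cst_lt).eventually
      (gt_mem_nhds hδ)] with j hj
    have : (single s a : Ch n X) = a • push n s (one n) := by simp [one]
    rw [this, map_smul, ← push_Sd_pow]
    refine Submodule.smul_mem _ _ (push_su s (fun t ht => ?_) (Sd_pow_small j))
    obtain ⟨b, hb⟩ := H (t (vx 0)) (mem_univ _)
    have : ∀ x, s (t x) ∈ (if b then U else V) := fun x =>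
      hb (Metric.mem_ball.2 ((small_dist ht _ _).trans_lt hj))
    cases b
    · exact Or.inr this
    · exact Or.inl this

end Pool.Agent.Lib.MP_7ac2ff_gt.Hm
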