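import Mathlib

namespace Pool.Agent.Lib.MP_7ac2ff_gt

open CategoryTheory

noncomputable abbrev HF (n : ℕ) : TopCat.{0} ⥤ ModuleCat.{0} ℚ :=
  (AlgebraicTopology.singularHomologyFunctor (ModuleCat.{0} ℚ) n).obj (ModuleCat.of ℚ ℚ)

/-- f induces isomorphisms in rational singular homology -/
def QI {X Y : Type} [TopologicalSpace X] [TopologicalSpace Y] (f : C(X, Y)) : Prop :=
  ∀ n, IsIso ((HF n).map (TopCat.ofHom f))

end Pool.Agent.Lib.MP_7ac2ff_gt
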