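import Pool.Agent.Lib.MP_7ac2ff_gt.TubeDefs

namespace Pool.Agent.Lib.MP_7ac2ff_gt

open Set Function
open scoped Manifold ContDiff Topology

/-- equivalence of directed strongly invertible knots -/
structure Iso (o : S3 → ℝ) (X Y : DSI) (ψ : S3 → S3) : Prop where
  pc : Piece o X Y univ ψ
  surj : Surjective ψ
  tail : Y.ax 1 = ψ (X.ax 1)
  head : Y.ax (-1) = ψ (X.ax (-1))

/-- the standard rotation -/
noncomputable def rot (v : E 3) : E 3 := !₂[-v 0, v 1, -v 2]

/-- compactly supported equivariant diffeomorphism of the model keeping the first axis -/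
structure Good (F : E 3 → E 3) : Prop where
  smooth : ContDiff ℝ ∞ F
  bij : Bijective F
  det : ∀ v, (fderiv ℝ F v).det ≠ 0
  supp : ∃ R : ℝ, ∀ v, R ≤ ‖v‖ → F v = v
  eqv : ∀ v, F (rot v) = rot (F v)
  axis : ∀ v, (F v 1 = 0 ∧ F v 2 = 0) ↔ (v 1 = 0 ∧ v 2 = 0)

end Pool.Agent.Lib.MP_7ac2ff_gt
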