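import Pool.Agent.Lib.MP_7ac2ff_gt.Glue

/-! Orientations. -/

namespace Pool.Agent.Lib.MP_7ac2ff_gt

open Set Function Filter Module
open scoped Manifold ContDiff Topology

set_option linter.style.haveILetI false
set_option linter.unusedSectionVars false
set_option backward.isDefEq.respectTransparency false

section
variable {V V' V'' H H' H'' M N Q : Type} [NormedAddCommGroup V] [NormedSpace ℝ V]
  [NormedAddCommGroup V'] [NormedSpace ℝ V'] [NormedAddCommGroup V''] [NormedSpace ℝ V'']
  [TopologicalSpace H] [TopologicalSpace H'] [TopologicalSpace H'']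
  [TopologicalSpace M] [ChartedSpace H M] [TopologicalSpace N] [ChartedSpace H' N]
  [TopologicalSpace Q] [ChartedSpace H'' Q]

lemma det_comp' (A B : V →L[ℝ] V) : (A ∘L B).det = A.det * B.det := by
  simp [ContinuousLinearMap.det, LinearMap.det_comp]

lemma det_id' : (ContinuousLinearMap.id ℝ V).det = 1 := by simp [ContinuousLinearMap.det]

lemma dif_comp {I : ModelWithCorners ℝ V H} {J : ModelWithCorners ℝ V' H'}
    {L : ModelWithCorners ℝ V'' H''} {f : M → N} {g : N → Q} {x : M}
    (hf : ContMDiffAt I J ∞ f x) (hg : ContMDiffAt J L ∞ g (f x)) :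
    dif I L (g ∘ f) x = dif J L g (f x) ∘L dif I J f x :=
  mfderiv_comp x (hg.mdifferentiableAt (by simp)) (hf.mdifferentiableAt (by simp))

lemma dif_congr {I : ModelWithCorners ℝ V H} {J : ModelWithCorners ℝ V' H'} {f g : M → N} {x : M}
    (h : f =ᶠ[𝓝 x] g) : dif I J f x = dif I J g x := h.mfderiv_eq

lemma dif_id {I : ModelWithCorners ℝ V H} {x : M} :
    dif I I (id : M → M) x = ContinuousLinearMap.id ℝ V := mfderiv_id

lemma dif_left_inv {I : ModelWithCorners ℝ V H} {J : ModelWithCorners ℝ V' H'} {f : M → N}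
    {g : N → M} {x : M} (hf : ContMDiffAt I J ∞ f x) (hg : ContMDiffAt J I ∞ g (f x))
    (h : g ∘ f =ᶠ[𝓝 x] id) : dif J I g (f x) ∘L dif I J f x = ContinuousLinearMap.id ℝ V := by
  rw [← dif_comp hf hg, dif_congr h, dif_id]

variable {I : ModelWithCorners ℝ V H} {J : ModelWithCorners ℝ V H'} [IsManifold I ∞ M]
  [IsManifold J ∞ N]

variable (I) in
def OrAt (o : M → ℝ) (x : M) : Prop :=
  ∀ᶠ y in 𝓝 x, 0 < o x * o y * (tangentCoordChange I y x y).det

lemma tcc_inv {x y : M} (h : y ∈ (chartAt H x).source) :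
    (tangentCoordChange I x y y).det * (tangentCoordChange I y x y).det = 1 := by
  rw [← det_comp', ← det_id' (V := V)]
  congr 1
  ext v
  have h1 : y ∈ (extChartAt I x).source := by simpa using h
  have h2 := mem_extChartAt_source (I := I) y
  exact (tangentCoordChange_comp ⟨⟨h2, h1⟩, h2⟩).trans (tangentCoordChange_self h2)

lemma OrAt.pull {f : M → N} {o : N → ℝ} {x : M} (hf : ContMDiffAt I J ∞ f x)
    (ho : OrAt J o (f x)) (hd : (dif I J f x).det ≠ 0) :
    OrAt I (fun y => o (f y) * (dif I J f y).det) x := by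
  have h1 := (hf.mfderiv_const (m := 0) (by simp)).continuousAt
  have h2 := (ContinuousLinearMap.continuous_det.continuousAt.comp h1).mul
    (continuousAt_const (y := (dif I J f x).det))
  have h0 : ∀ y, y ∈ (chartAt H x).source → f y ∈ (chartAt H' (f x)).source →
      (inTangentCoordinates I J id f (mfderiv I J f) x y).det =
        (tangentCoordChange J (f y) (f x) (f y)).det * ((dif I J f y).det *
          (tangentCoordChange I x y y).det) := fun y a b => by
    rw [inTangentCoordinates_eq id f _ a b, det_comp', det_comp']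
    rfl
  have e1 : ∀ {x : M}, (tangentCoordChange I x x x).det = 1 := fun {x} => by
    rw [← det_id' (V := V)]
    congr 1
    ext v
    exact tangentCoordChange_self (mem_extChartAt_source x)
  have e2 : ∀ {x : N}, (tangentCoordChange J x x x).det = 1 := fun {x} => by
    rw [← det_id' (V := V)]
    congr 1
    ext v
    exact tangentCoordChange_self (mem_extChartAt_source x)
  have h3 := h2.eventually (lt_mem_nhds (a := 0) (by
    simp only [Pi.mul_apply, comp_apply]
    rw [h0 x (mem_chart_source _ _) (mem_chart_source _ _), e1, e2]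
    simpa using hd))
  filter_upwards [h3, hf.continuousAt.eventually ho, chart_source_mem_nhds H x,
    hf.continuousAt.eventually (chart_source_mem_nhds H' (f x))] with y a b c d
  simp only [Pi.mul_apply, comp_apply] at a
  rw [h0 y c d] at a
  have e := tcc_inv (I := I) c
  set p := (tangentCoordChange J (f y) (f x) (f y)).det
  set q := (tangentCoordChange I x y y).det
  set q' := (tangentCoordChange I y x y).det
  have hq : 0 < q' ^ 2 := by
    have : q' ≠ 0 := fun h => by simp [h] at e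
    positivity
  have hp : 0 < p ^ 2 := by
    have : p ≠ 0 := fun h => by simp [h] at b
    positivity
  have := mul_pos (mul_pos a b) hq
  refine pos_of_mul_pos_left (b := p ^ 2) ?_ hp.le
  convert this using 1
  linear_combination (-(o (f x) * (dif I J f x).det * (o (f y) * (dif I J f y).det) * q' * p ^ 2)) * e

lemma OrAt.ratio {o o' : M → ℝ} {x : M} (h : OrAt I o x) (h' : OrAt I o' x) :
    ∀ᶠ y in 𝓝 x, 0 < (o x * o' x) * (o y * o' y) := by
  filter_upwards [h, h'] with y a b
  set p := (tangentCoordChange I y x y).det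
  have hp : 0 < p ^ 2 := by
    have : p ≠ 0 := fun h => by simp [h] at b
    positivity
  refine pos_of_mul_pos_left (b := p ^ 2) ?_ hp.le
  convert mul_pos a b using 1
  ring

lemma OrAt.sign {o o' : M → ℝ} {S : Set M} (hS : IsPreconnected S) (h : ∀ x ∈ S, OrAt I o x)
    (h' : ∀ x ∈ S, OrAt I o' x) : ∃ ε : ℝ, ε ≠ 0 ∧ ∀ x ∈ S, 0 < o x * (ε * o' x) := by
  have := hS.subset_or_subset (u := {x | ∀ᶠ y in 𝓝 x, 0 < o y * o' y})
    (v := {x | ∀ᶠ y in 𝓝 x, o y * o' y < 0}) isOpen_setOfPred_eventually_nhds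
    isOpen_setOfPred_eventually_nhds (disjoint_left.2 fun x a b =>
      lt_asymm (Eventually.self_of_nhds (p := fun y => 0 < o y * o' y) a)
        (Eventually.self_of_nhds (p := fun y => o y * o' y < 0) b)) fun x hx => by
      have r := (h x hx).ratio (h' x hx)
      rcases lt_trichotomy (o x * o' x) 0 with a | a | a
      · exact Or.inr (r.mono fun y hy => by nlinarith)
      · simpa [a] using r.self_of_nhds
      · exact Or.inl (r.mono fun y hy => by nlinarith)
  rcases this with a | a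
  · exact ⟨1, one_ne_zero, fun x hx => by
      simpa using Eventually.self_of_nhds (p := fun y => 0 < o y * o' y) (a hx)⟩
  · exact ⟨-1, by norm_num, fun x hx => by
      simpa using Eventually.self_of_nhds (p := fun y => o y * o' y < 0) (a hx)⟩

lemma OrAt.of_pos {o o' : M → ℝ} {x : M} (h : OrAt I o x) (e : ∀ᶠ y in 𝓝 x, 0 < o' y * o y) :
    OrAt I o' x := by
  filter_upwards [h, e] with y a b
  have c := e.self_of_nhds
  have h1 : o x ≠ 0 := fun h => by simp [h] at c
  have h2 : o y ≠ 0 := fun h => by simp [h] at b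
  refine pos_of_mul_pos_left (b := (o x * o y) ^ 2) ?_ (by positivity)
  convert mul_pos (mul_pos a b) c using 1
  ring

lemma OrAt.const_mul {o : M → ℝ} {x : M} (h : OrAt I o x) {ε : ℝ} (hε : ε ≠ 0) :
    OrAt I (fun y => ε * o y) x := by
  filter_upwards [h] with y a
  have := mul_pos a (sq_pos_of_ne_zero hε)
  linarith

lemma orAt_model (x : V) : OrAt 𝓘(ℝ, V) (fun _ => 1) x := by
  refine Eventually.of_forall fun y => ?_
  simp [ContinuousLinearMap.det]

end

namespace Glued

variable {V H M W : Type} [NormedAddCommGroup V] [NormedSpace ℝ V] [TopologicalSpace H]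
  {I : ModelWithCorners ℝ V H} [TopologicalSpace M] [ChartedSpace H M] [TopologicalSpace W]
  {O1 O3 : Set M} {g : OpenPartialHomeomorph M M} (G : Glued O1 O3 g W) [IsManifold I ∞ M]

lemma exists_or (hM : @IsManifold ℝ _ V _ _ H _ I ∞ W _ (G.cs H)) (hs : g.source ⊆ O3)
    (ht : g.target ⊆ O1) (hc : IsPreconnected g.source) {oM : M → ℝ} (ho : IsOr I oM) :
    letI := G.cs H
    ∃ o : W → ℝ, IsOr I o ∧ ∀ m ∈ O1, o (G.c1.symm m) = oM m := by
  classical
  letI := G.cs H
  have key : ∀ {a : OpenPartialHomeomorph W M}, (a = G.c1 ∨ a = G.c3) → ∀ w ∈ a.source,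
      OrAt I (fun y => oM (a y) * (dif I I a y).det) w := by
    intro a ha w hw
    obtain ⟨h1, h2⟩ := G.smooth_c hM ha
    have h3 := h1.contMDiffAt (a.open_source.mem_nhds hw)
    refine OrAt.pull h3 (ho _) fun h0 => ?_
    have := congrArg ContinuousLinearMap.det (dif_left_inv h3
      (h2.contMDiffAt (a.open_target.mem_nhds (a.map_source hw))) (a.eventually_left_inverse hw))
    rw [det_comp', h0, det_id'] at this
    simp at this
  have hS : IsPreconnected (G.c3.symm '' g.source) :=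
    hc.image _ (G.c3.continuousOn_symm.mono (hs.trans G.t3.ge))
  obtain ⟨ε, hε, h⟩ := OrAt.sign hS (fun w hw => key (.inl rfl) w (by
    obtain ⟨m, hm, rfl⟩ := hw
    rw [G.gl m hm]
    exact G.m1 (ht (g.map_source hm)))) fun w hw => key (.inr rfl) w (by
    obtain ⟨m, hm, rfl⟩ := hw
    exact G.m3 (hs hm))
  let o : W → ℝ := fun w => if w ∈ G.c1.source then oM (G.c1 w) * (dif I I G.c1 w).det
    else ε * (oM (G.c3 w) * (dif I I G.c3 w).det)
  refine ⟨o, fun x => show OrAt I o x from ?_, fun m hm => ?_⟩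
  · by_cases hx : x ∈ G.c1.source
    · refine (key (.inl rfl) x hx).of_pos ?_
      filter_upwards [G.c1.open_source.mem_nhds hx] with y hy
      have := (key (.inl rfl) y hy).self_of_nhds
      simp only [o, if_pos hy]
      exact mul_self_pos.2 fun h => by simp [h] at this
    · have hx' := (G.cov x).resolve_left hx
      refine ((key (.inr rfl) x hx').const_mul hε).of_pos ?_
      filter_upwards [G.c3.open_source.mem_nhds hx'] with y hy
      simp only [o]
      split_ifs with hy'
      · exact h y ⟨G.c3 y, (G.both hy' hy ht).1, G.c3.left_inv hy⟩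
      · have := ((key (.inr rfl) y hy).const_mul hε).self_of_nhds
        exact mul_self_pos.2 fun h => by simp only [h] at this; simp at this
  · have : dif I I G.c1 (G.c1.symm m) = ContinuousLinearMap.id ℝ V :=
      (G.hasMFDerivAt_c1 (G.m1 hm)).mfderiv
    simp only [o, if_pos (G.m1 hm), this, det_id', G.r1 hm, mul_one]

end Glued

/-- the coordinate on the interval -/
noncomputable abbrev pr1 : E 1 →L[ℝ] ℝ := EuclideanSpace.proj 0

lemma pr1_inj {τ : E 1} (h : pr1 τ = 0) : τ = 0 := by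
  ext i
  rw [Subsingleton.elim i 0]
  exact h

lemma hasMFDerivAt_val (t : II) : HasMFDerivAt (𝓡∂ 1) 𝓘(ℝ) (Subtype.val : II → ℝ) t
    (if (t : ℝ) < 1 then pr1 else -pr1 : E 1 →L[ℝ] ℝ) := by
  have h1 : HasMFDerivAt (𝓡∂ 1) 𝓘(ℝ, E 1) (extChartAt (𝓡∂ 1) t) t
      (ContinuousLinearMap.id ℝ (E 1)) := by
    refine (hasMFDerivAt_extChartAt (I := 𝓡∂ 1) (mem_chart_source _ t)).congr_mfderiv ?_
    rw [mfderiv_chartAt_eq_tangentCoordChange (mem_chart_source _ t)]
    ext1 v
    exact tangentCoordChange_self (mem_extChartAt_source t)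
  have h2 := (pr1.hasMFDerivAt (x := extChartAt (𝓡∂ 1) t t)).comp t h1
  split_ifs with h
  · refine h2.congr_of_eventuallyEq (Eventually.of_forall fun s => ?_)
    simp [extChartAt, h, IccLeftChart_apply, modelWithCornersEuclideanHalfSpace]
  · have h3 := (hasMFDerivAt_const (I := 𝓡∂ 1) (I' := 𝓘(ℝ)) (1 : ℝ) t).sub h2
    refine (h3.congr_of_eventuallyEq (Eventually.of_forall fun s => ?_)).congr_mfderiv ?_
    · simp [extChartAt, h, IccRightChart_apply, modelWithCornersEuclideanHalfSpace]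
    · exact zero_sub _

theorem exists_or_cyl {F : Type} [NormedAddCommGroup F] [InnerProductSpace ℝ F] {n : ℕ}
    [hF : Fact (finrank ℝ F = n + 1)] : ∃ o : Metric.sphere (0 : F) 1 × II → ℝ,
      IsOr (IB n) o ∧ ∀ x, o (x, 0) * o (x, 1) < 0 := by
  haveI : FiniteDimensional ℝ F := .of_finrank_eq_succ hF.out
  obtain ⟨L⟩ : Nonempty (F ≃L[ℝ] (E n × E 1)) :=
    FiniteDimensional.nonempty_continuousLinearEquiv_of_finrank_eq (by simp [hF.out])
  let f : Metric.sphere (0 : F) 1 × II → E n × E 1 := fun m => L ((1 + (m.2 : ℝ)) • (m.1 : F))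
  have hf : ContMDiff (IB n) 𝓘(ℝ, E n × E 1) ∞ f :=
    L.contDiff.comp_contMDiff ((contMDiff_const.add
      (contMDiff_subtypeVal_Icc.comp contMDiff_snd)).smul (contMDiff_coe_sphere.comp contMDiff_fst))
  have hd : ∀ m u, dif (IB n) 𝓘(ℝ, E n × E 1) f m u =
      L ((1 + (m.2 : ℝ)) • dif (𝓡 n) 𝓘(ℝ, F) Subtype.val m.1 u.1 +
        (if (m.2 : ℝ) < 1 then pr1 else -pr1 : E 1 →L[ℝ] ℝ) u.2 • (m.1 : F)) := by
    intro m u
    have a1 := ((contMDiff_coe_sphere (n := n) (m := ∞) m.1).mdifferentiableAt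
      (by simp)).hasMFDerivAt.comp m (hasMFDerivAt_fst (I := 𝓡 n) (I' := 𝓡∂ 1) m)
    have a2 := (hasMFDerivAt_val m.2).comp m (hasMFDerivAt_snd (I := 𝓡 n) (I' := 𝓡∂ 1) m)
    have a3 : HasMFDerivAt (IB n) 𝓘(ℝ, ℝ × F) (fun m => ((m.2 : ℝ), (m.1 : F))) m _ :=
      ⟨a2.1.prodMk a1.1, a2.2.prodMk a1.2⟩
    have a4 := (L.hasFDerivAt.comp ((m.2 : ℝ), (m.1 : F))
      (((hasFDerivAt_fst (𝕜 := ℝ) (p := ((m.2 : ℝ), (m.1 : F)))).const_add 1).smul
        hasFDerivAt_snd)).hasMFDerivAt.comp m a3
    exact congrArg (fun A : E n × E 1 →L[ℝ] E n × E 1 => A u) a4.mfderiv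
  have hne : ∀ m, (dif (IB n) 𝓘(ℝ, E n × E 1) f m).det ≠ 0 := by
    intro m h0
    obtain ⟨u, hu, hu0⟩ := (Submodule.ne_bot_iff _).1 (LinearMap.det_eq_zero_iff_ker_ne_bot.1 h0)
    have h1 : dif (IB n) 𝓘(ℝ, E n × E 1) f m u = 0 := hu
    rw [hd, L.map_eq_zero_iff] at h1
    have h2 : dif (𝓡 n) 𝓘(ℝ, F) Subtype.val m.1 u.1 ∈ (ℝ ∙ (m.1 : F))ᗮ := by
      rw [← range_mvfderiv_subtypeVal (n := n)]
      exact ⟨u.1, rfl⟩
    have h3 := congrArg (inner ℝ (m.1 : F)) h1
    rw [inner_add_right, inner_smul_right, inner_smul_right,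
      Submodule.mem_orthogonal_singleton_iff_inner_right.1 h2, real_inner_self_eq_norm_sq,
      norm_eq_of_mem_sphere] at h3
    have h4 : (if (m.2 : ℝ) < 1 then pr1 else -pr1 : E 1 →L[ℝ] ℝ) u.2 = 0 := by simpa using h3
    rw [h4, zero_smul, add_zero, smul_eq_zero] at h1
    have h5 : u.1 = 0 := injective_mvfderiv_subtypeVal_sphere (n := n) m.1
      ((h1.resolve_left (by linarith [m.2.2.1])).trans (map_zero _).symm)
    have h6 : u.2 = 0 := pr1_inj (by split_ifs at h4 <;> simpa using h4)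
    exact hu0 (Prod.ext h5 h6)
  refine ⟨fun m => 1 * (dif (IB n) 𝓘(ℝ, E n × E 1) f m).det,
    fun m => OrAt.pull (hf m) (orAt_model _) (hne m), fun x => ?_⟩
  have e : dif (IB n) 𝓘(ℝ, E n × E 1) f (x, 1) = dif (IB n) 𝓘(ℝ, E n × E 1) f (x, 0) ∘L
      (((2 : ℝ) • ContinuousLinearMap.id ℝ (E n)).prodMap (-ContinuousLinearMap.id ℝ (E 1))) := by
    refine ContinuousLinearMap.ext fun u => ?_
    rw [ContinuousLinearMap.comp_apply, hd, hd]
    simp [one_add_one_eq_two]
  have e2 : (((2 : ℝ) • ContinuousLinearMap.id ℝ (E n)).prodMap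
      (-ContinuousLinearMap.id ℝ (E 1))).det = -2 ^ n := by
    have : (((2 : ℝ) • ContinuousLinearMap.id ℝ (E n)).prodMap
      (-ContinuousLinearMap.id ℝ (E 1))).det = LinearMap.det
        (((2 : ℝ) • (LinearMap.id : E n →ₗ[ℝ] E n)).prodMap
          ((-1 : ℝ) • (LinearMap.id : E 1 →ₗ[ℝ] E 1))) := by
      unfold ContinuousLinearMap.det
      congr 1
      ext <;> simp
    rw [this, LinearMap.det_prodMap, LinearMap.det_smul, LinearMap.det_smul]
    simp
  have := mul_self_pos.2 (hne (x, 0))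
  have h2 : (0 : ℝ) < 2 ^ n := by positivity
  simp only [e, det_comp', e2]
  nlinarith

end Pool.Agent.Lib.MP_7ac2ff_gt
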