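import Pool.Agent.Lib.MP_7ac2ff_gt.IsoDefs
import Pool.Agent.Lib.MP_7ac2ff_gt.Ori
import Pool.Agent.Lib.MP_7ac2ff_gt.Tube

/-! Inverse functions, velocities and signs. -/

namespace Pool.Agent.Lib.MP_7ac2ff_gt

open Set Function Filter
open scoped Manifold ContDiff Topology ComplexConjugate

set_option linter.unusedSectionVars false
set_option backward.isDefEq.respectTransparency false

namespace Kt

theorem inj_of_det {A : E 3 →L[ℝ] E 3} (h : A.det ≠ 0) : Injective A :=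
  (A.toContinuousLinearEquivOfDetNeZero h).injective

section
variable {M N : Type} [TopologicalSpace M] [ChartedSpace (E 3) M] [IsManifold (𝓡 3) ∞ M]
  [TopologicalSpace N] [ChartedSpace (E 3) N] [IsManifold (𝓡 3) ∞ N]

theorem loc_inv {f : M → N} {x : M} (hf : ContMDiffAt (𝓡 3) (𝓡 3) ∞ f x)
    (hd : (dif (𝓡 3) (𝓡 3) f x).det ≠ 0) : ∃ g : N → M, ContMDiffAt (𝓡 3) (𝓡 3) ∞ g (f x) ∧
      g (f x) = x ∧ ∀ᶠ y in 𝓝 (f x), f (g y) = y := by
  have h1 := (contMDiffAt_iff.1 hf).2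
  have h2 := (hf.mdifferentiableAt (by simp)).hasMFDerivAt.2
  rw [ModelWithCorners.range_eq_univ] at h1 h2
  rw [contDiffWithinAt_univ] at h1
  rw [hasFDerivWithinAt_univ] at h2
  have h3 : HasFDerivAt (extChartAt (𝓡 3) (f x) ∘ f ∘ (extChartAt (𝓡 3) x).symm)
      (((dif (𝓡 3) (𝓡 3) f x).toContinuousLinearEquivOfDetNeZero hd : E 3 ≃L[ℝ] E 3) :
        E 3 →L[ℝ] E 3) (extChartAt (𝓡 3) x x) := h2
  have c := h1.to_localInverse h3 (by simp)
  have a := h1.localInverse_apply_image h3 (by simp)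
  have r := (h1.hasStrictFDerivAt' h3 (by simp)).eventually_right_inverse
  have e : (extChartAt (𝓡 3) (f x) ∘ f ∘ (extChartAt (𝓡 3) x).symm) (extChartAt (𝓡 3) x x) =
      extChartAt (𝓡 3) (f x) (f x) := by simp only [comp, extChartAt_to_inv]
  rw [e] at c a r
  have s1 : ContMDiffAt (𝓡 3) (𝓡 3) ∞ (extChartAt (𝓡 3) x).symm (extChartAt (𝓡 3) x x) :=
    (contMDiffOn_extChartAt_symm x).contMDiffAt (extChartAt_target_mem_nhds x)
  have s2 : ContMDiffAt (𝓡 3) (𝓡 3) ∞ (extChartAt (𝓡 3) (f x)) (f x) := contMDiffAt_extChartAt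
  have s3 : ContMDiffAt (𝓡 3) (𝓡 3) ∞ ((extChartAt (𝓡 3) x).symm ∘ h1.localInverse h3 (by simp) ∘
      extChartAt (𝓡 3) (f x)) (f x) :=
    ContMDiffAt.comp (f x) (by rw [comp, a]; exact s1) (c.contMDiffAt.comp (f x) s2)
  have e2 : ((extChartAt (𝓡 3) x).symm ∘ h1.localInverse h3 (by simp) ∘
      extChartAt (𝓡 3) (f x)) (f x) = x := by simp only [comp, a, extChartAt_to_inv]
  refine ⟨_, s3, e2, ?_⟩
  have c4 := (ContinuousAt.comp (g := f) (by rw [e2]; exact hf.continuousAt) s3.continuousAt)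
  have m := extChartAt_source_mem_nhds (I := 𝓡 3) (f x)
  filter_upwards [s2.continuousAt.eventually r, m, c4.eventually_mem
    (by rw [comp, e2]; exact m)] with y h h' h''
  exact (extChartAt (𝓡 3) (f x)).injOn h'' h' h

end

end Kt

section
variable {M N : Type} [TopologicalSpace M] [ChartedSpace (E 3) M] [IsManifold (𝓡 3) ∞ M]
  [TopologicalSpace N] [ChartedSpace (E 3) N] [IsManifold (𝓡 3) ∞ N]

/-- inverse function theorem -/
theorem exists_inv [Nonempty M] {f : M → N} {D : Set M} (hD : IsOpen D)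
    (hf : ContMDiffOn (𝓡 3) (𝓡 3) ∞ f D) (hi : InjOn f D)
    (hd : ∀ x ∈ D, (dif (𝓡 3) (𝓡 3) f x).det ≠ 0) :
    ∃ F : OpenPartialHomeomorph M N, (F : M → N) = f ∧ F.source = D ∧
      ContMDiffOn (𝓡 3) (𝓡 3) ∞ F.symm F.target := by
  have key : ∀ x ∈ D, f '' D ∈ 𝓝 (f x) ∧ ContMDiffAt (𝓡 3) (𝓡 3) ∞ (invFunOn f D) (f x) := by
    intro x hx
    obtain ⟨g, a, b, c⟩ := Kt.loc_inv (hf.contMDiffAt (hD.mem_nhds hx)) (hd x hx)
    have m : ∀ᶠ y in 𝓝 (f x), g y ∈ D :=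
      a.continuousAt.eventually_mem (by rw [b]; exact hD.mem_nhds hx)
    refine ⟨?_, a.congr_of_eventuallyEq ?_⟩
    · filter_upwards [c, m] with y h h'
      exact ⟨_, h', h⟩
    · filter_upwards [c, m] with y h h'
      exact (congrArg _ h).symm.trans (hi.leftInvOn_invFunOn h')
  have hs : ContMDiffOn (𝓡 3) (𝓡 3) ∞ (invFunOn f D) (f '' D) :=
    forall_mem_image.2 fun x hx => (key x hx).2.contMDiffWithinAt
  exact ⟨{ hi.toPartialEquiv f D with
    open_source := hD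
    open_target := isOpen_iff_mem_nhds.2 (forall_mem_image.2 fun x hx => (key x hx).1)
    continuousOn_toFun := hf.continuousOn
    continuousOn_invFun := hs.continuousOn }, rfl, rfl, hs⟩
end

theorem Kt.s_mul (z : Circle) : ContMDiff 𝓘(ℝ) (𝓡 1) ∞ fun s : ℝ => z * Circle.exp s :=
  contMDiff_const.mul contMDiff_circleExp

theorem vel_comp {V V' H H' M N : Type} [NormedAddCommGroup V] [NormedSpace ℝ V]
    [NormedAddCommGroup V'] [NormedSpace ℝ V'] [TopologicalSpace H] [TopologicalSpace H']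
    {I : ModelWithCorners ℝ V H} {J : ModelWithCorners ℝ V' H'} [TopologicalSpace M]
    [ChartedSpace H M] [TopologicalSpace N] [ChartedSpace H' N] {γ : Circle → M} {f : M → N}
    {z : Circle} (hγ : ContMDiffAt (𝓡 1) I ∞ γ z) (hf : ContMDiffAt I J ∞ f (γ z)) :
    vel J (f ∘ γ) z = dif I J f (γ z) (vel I γ z) := by
  have e : z * Circle.exp 0 = z := by simp
  have a : ContMDiffAt 𝓘(ℝ) I ∞ (fun s : ℝ => γ (z * Circle.exp s)) 0 :=
    ContMDiffAt.comp (g := γ) 0 (by rw [e]; exact hγ) (Kt.s_mul z 0)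
  have b := dif_comp a (g := f) (L := J) (by rw [e]; exact hf)
  rw [e] at b
  exact congrArg (fun A : ℝ →L[ℝ] V' => A 1) b

variable {o : S3 → ℝ} {X Y Z K : DSI}

theorem Kt.vel_model {V : Type} [NormedAddCommGroup V] [NormedSpace ℝ V] {γ : Circle → V} {t : ℝ}
    {v : V} (h : HasDerivAt (fun s => γ (Circle.exp s)) v t) :
    vel 𝓘(ℝ, V) γ (Circle.exp t) = v := by
  have h1 : HasDerivAt (fun s => γ (Circle.exp t * Circle.exp s)) v 0 := by
    simpa only [Circle.exp_add] using (show HasDerivAt (fun s => γ (Circle.exp s)) v (t + 0) by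
      rwa [add_zero]).comp_const_add t 0
  have h2 := h1.hasFDerivAt.hasMFDerivAt.mfderiv
  exact (congrArg (fun A : ℝ →L[ℝ] V => A 1) h2).trans (by simp)

theorem vel_ne {γ : Circle → S3} (h : SmEmb (𝓡 1) (𝓡 3) γ) (z : Circle) : vel (𝓡 3) γ z ≠ 0 := by
  intro h0
  have a := vel_comp (γ := id) (f := γ) contMDiffAt_id (h.1 z)
  have b : vel (𝓡 1) id z = 0 := h.2.2 z ((a.symm.trans h0).trans (map_zero _).symm)
  have c := vel_comp (γ := id) (f := fun w : Circle => (w : ℂ)) (J := 𝓘(ℝ, ℂ)) (z := z)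
    contMDiffAt_id (@contMDiff_coe_sphere ℂ _ _ _ 1 ⟨Complex.finrank_real_complex⟩ z)
  obtain ⟨t, rfl⟩ := Circle.exp_surjective z
  rw [b, map_zero] at c
  exact mul_ne_zero Complex.I_ne_zero (Tb.ee_ne t)
    ((Kt.vel_model (γ := fun w : Circle => (w : ℂ)) (Tb.ee_d t)).symm.trans c)

/-- a local diffeomorphism of the sphere that is the identity near one point keeps the orientation -/
theorem ori_pos (ho : IsOr (𝓡 3) o) {f : S3 → S3} (hf : ContMDiff (𝓡 3) (𝓡 3) ∞ f)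
    (hd : ∀ x, (dif (𝓡 3) (𝓡 3) f x).det ≠ 0) {p : S3} (hp : f =ᶠ[𝓝 p] id) (x : S3) :
    0 < o x * o (f x) * (dif (𝓡 3) (𝓡 3) f x).det := by
  have : PreconnectedSpace S3 := isPreconnected_iff_preconnectedSpace.1
    (isPreconnected_sphere (by rw [← Module.finrank_eq_rank]; simp) _ _)
  obtain ⟨ε, -, h⟩ := OrAt.sign (I := 𝓡 3) isPreconnected_univ (fun x _ => ho x)
    fun x _ => OrAt.pull (hf x) (ho (f x)) (hd x)
  have a := h p trivial
  rw [dif_congr hp, dif_id, det_id', hp.self_of_nhds, id] at a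
  have b : 0 < ε := by nlinarith [mul_self_nonneg (o p)]
  have c := h x trivial
  refine pos_of_mul_pos_left (b := ε) ?_ b.le
  linarith

theorem Kt.sgn (T : Tube K) {γ : Circle → S3} (hγ : ContMDiff (𝓡 1) (𝓡 3) ∞ γ)
    (hv : ∀ z, vel (𝓡 3) γ z ≠ 0) (hr : range γ ⊆ range K.k) : ∃ ε : ℝ, ε ^ 2 = 1 ∧
      ∀ z, ∃ μ : ℝ, 0 < ε * μ ∧ vel (𝓡 3) γ z =
        μ • dif 𝓘(ℝ, ℂ × ℂ) (𝓡 3) T.Θ (T.P (γ z)) (Complex.I * (T.P (γ z)).1, 0) := by
  have hU := fun z => (T.knot _).1 (hr ⟨z, rfl⟩)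
  have s1 : ContMDiff (𝓡 1) 𝓘(ℝ, ℂ × ℂ) ∞ (T.P ∘ γ) := fun z =>
    (T.sP.contMDiffAt (T.opn.mem_nhds (hU z).1)).comp z (hγ z)
  let c : ℝ → ℂ × ℂ := fun t => T.P (γ (Circle.exp t))
  have s2 : ContDiff ℝ ∞ c := (s1.comp contMDiff_circleExp).contDiff
  have d := fun t => (s2.differentiable (by simp) t).hasDerivAt
  let μ : ℝ → ℝ := fun t => (conj (c t).1 * (deriv c t).1).im
  have n1 : ∀ t, ‖(c t).1‖ = 1 := fun t => (T.left _ (hU _).1).1
  have key : ∀ t, deriv c t = μ t • (Complex.I * (c t).1, 0) := by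
    intro t
    have f1 : HasDerivAt (fun x => (c x).1) (deriv c t).1 t :=
      (ContinuousLinearMap.fst ℝ ℂ ℂ).hasFDerivAt.comp_hasDerivAt t (d t)
    have f2 : HasDerivAt (fun x => (c x).2) (deriv c t).2 t :=
      (ContinuousLinearMap.snd ℝ ℂ ℂ).hasFDerivAt.comp_hasDerivAt t (d t)
    have d2 : (deriv c t).2 = 0 := f2.unique (by
      rw [show (fun x => (c x).2) = fun _ => 0 from funext fun x => (hU _).2]
      exact hasDerivAt_const _ _)
    have d1 : 2 * inner ℝ (c t).1 (deriv c t).1 = 0 := f1.norm_sq.unique (by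
      rw [show (fun x => ‖(c x).1‖ ^ 2) = fun _ => 1 from funext fun x => by rw [n1, one_pow]]
      exact hasDerivAt_const _ _)
    have q := Complex.sq_norm (c t).1
    rw [n1, Complex.normSq_apply] at q
    rw [Complex.inner] at d1
    simp only [Complex.mul_re, Complex.conj_re, Complex.conj_im] at d1
    refine Prod.ext (Complex.ext ?_ ?_) (by simpa using d2)
    · simp [μ]
      linear_combination (deriv c t).1.re * q + (c t).1.re / 2 * d1
    · simp [μ]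
      linear_combination (deriv c t).1.im * q + (c t).1.im / 2 * d1
  have hvel : ∀ t, vel (𝓡 3) γ (Circle.exp t) =
      μ t • dif 𝓘(ℝ, ℂ × ℂ) (𝓡 3) T.Θ (c t) (Complex.I * (c t).1, 0) := by
    intro t
    have e : γ = T.Θ ∘ T.P ∘ γ := funext fun z => (T.left _ (hU z).1).2.2.symm
    have o1 : IsOpen {y : ℂ × ℂ | y.1 ≠ 0 ∧ ‖y.2‖ < 2} :=
      (isOpen_ne.preimage continuous_fst).inter (isOpen_lt continuous_snd.norm continuous_const)
    have a := vel_comp (s1 (Circle.exp t)) (T.sΘ.contMDiffAt (o1.mem_nhds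
      ⟨norm_ne_zero_iff.1 ((n1 t).trans_ne one_ne_zero), (T.left _ (hU _).1).2.1⟩))
    rw [← e, Kt.vel_model (d t), key t, map_smul] at a
    exact a
  have ne : ∀ t, μ t ≠ 0 := fun t h => hv _ (by rw [hvel, h, zero_smul])
  have cμ : Continuous μ := Complex.continuous_im.comp ((Complex.continuous_conj.comp
    s2.continuous.fst).mul (s2.continuous_deriv (by simp)).fst)
  have sg : ∃ ε : ℝ, ε ^ 2 = 1 ∧ ∀ t, 0 < ε * μ t := by
    have iv := fun s t (a : μ s < 0) (b : 0 < μ t) =>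
      (intermediate_value_univ s t cμ ⟨a.le, b.le⟩).elim ne
    rcases (ne 0).lt_or_gt with h | h
    · exact ⟨-1, by norm_num, fun t => by
        linarith [(ne t).lt_or_gt.resolve_right (iv 0 t h)]⟩
    · exact ⟨1, by norm_num, fun t => by
        linarith [(ne t).lt_or_gt.resolve_left fun a => iv t 0 a h]⟩
  obtain ⟨ε, h1, h2⟩ := sg
  refine ⟨ε, h1, fun z => ?_⟩
  obtain ⟨t, rfl⟩ := Circle.exp_surjective z
  exact ⟨μ t, h2 t, hvel t⟩

/-- two parametrisations of the knot run everywhere in the same or everywhere in opposite directions -/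
theorem dir_sign (K : DSI) {γ : Circle → S3} (hγ : ContMDiff (𝓡 1) (𝓡 3) ∞ γ)
    (hv : ∀ z, vel (𝓡 3) γ z ≠ 0) (hr : range γ ⊆ range K.k) : ∃ ε : ℝ, ε ^ 2 = 1 ∧
      ∀ z w, γ z = K.k w → ∃ c : ℝ, 0 < ε * c ∧ vel (𝓡 3) γ z = c • vel (𝓡 3) K.k w := by
  obtain ⟨T⟩ := exists_tube K
  obtain ⟨a, a1, a2⟩ := Kt.sgn T hγ hv hr
  obtain ⟨b, b1, b2⟩ := Kt.sgn T K.emb.1 (vel_ne K.emb) Subset.rfl
  refine ⟨a * b, by rw [mul_pow, a1, b1, one_mul], fun z w e => ?_⟩
  obtain ⟨u, u1, u2⟩ := a2 z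
  obtain ⟨v, v1, v2⟩ := b2 w
  have v0 : v ≠ 0 := fun h => by simp [h] at v1
  refine ⟨u / v, ?_, by rw [u2, v2, e, smul_smul, div_mul_cancel₀ _ v0]⟩
  refine (div_pos (mul_pos u1 v1) (sq_pos_of_ne_zero v0)).trans_eq ?_
  field_simp

end Pool.Agent.Lib.MP_7ac2ff_gt
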