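import Pool.Agent.Lib.MP_7ac2ff_gt.Surf
import Pool.Agent.Lib.MP_7ac2ff_gt.Homol
import Pool.Agent.Lib.MP_7ac2ff_gt.Tube
import Pool.Agent.Lib.MP_7ac2ff_gt.Axis

/-! Every knot is concordant to its antipode; the antipode reverses sums. -/

namespace Pool.Agent.Lib.MP_7ac2ff_gt

open Set Function
open scoped Manifold ContDiff Topology

set_option linter.style.haveILetI false

theorem qconc_anti (K : DSI) : QConc K K.anti := by
  obtain ⟨T₀⟩ := exists_tube K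
  obtain ⟨T, γ, γ', e1, e2, h, h'⟩ := exists_arcs T₀
  obtain ⟨W, _, ⟨G⟩⟩ := exists_glued T.isOpen_O1 (T.isOpen_lt (1 / 2)) T.gg Tube.gg_s Tube.gg_t
    (Tube.end_O1 (m := (K.ax 1, 0)) (.inl rfl))
  replace G : LT T W := G
  letI := G.cs (HB 3)
  obtain ⟨o, o1, o2⟩ := G.exists_o
  obtain ⟨φ, P, a, b, c, d, p1, p2, p3, p4, p5, p⟩ := G.surf e1 e2 h h'
  obtain ⟨o', o3, -⟩ := exists_or_cyl (F := ℂ) (n := 1) (hF := ⟨by simp⟩)
  have same : ∀ {i : II}, i = 0 ∨ i = 1 → Same (fun z => G.AA (z, i)) (G.jj i ∘ K.k) :=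
    fun hi => ⟨rfl, fun z w e => ⟨1, one_pos, by
      obtain rfl := K.emb.2.1.injective ((G.emb_jj hi).2.1.injective e)
      exact (one_smul _ _).symm⟩⟩
  exact ⟨W, _, G.cs (HB 3), G.jj 0, G.jj 1, G.AA, G.rr,
    ⟨o, ⟨G.t2, G.compact, G.mfd, o1⟩, G.emb_jj (.inl rfl), G.emb_jj (.inr rfl), G.disj, G.bd_eq,
      o2, G.homol⟩, ⟨G.emb_AA, G.bd_AA, fun p _ => G.neat p⟩, same (.inl rfl), same (.inr rfl),
    ⟨G.s_rr, G.rr_rr⟩, fun x => ⟨G.rr_jj (.inl rfl) x, G.rr_jj (.inr rfl) x⟩, G.rr_AA,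
    Circle × II, _, _, o', φ, P, fun z => (z, 1), a, b, c, d,
    ⟨inferInstance, inferInstance, inferInstance, o3⟩, p1, p2, p3, p4, p5, by fun_prop,
    Prod.mk_left_injective 1, range_subset_iff.2 fun z => (bd_cyl _).2 (.inr rfl), p⟩

end Pool.Agent.Lib.MP_7ac2ff_gt
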