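import Pool.Agent.Lib.MP_7ac2ff_gt.Scal

/-! Scalar functions for the logarithmic transform along a shell. -/

namespace Pool.Agent.Lib.MP_7ac2ff_gt.Sh

open Set Function Filter Complex
open scoped ContDiff Topology ComplexConjugate

noncomputable def c1 (ζ : ℂ) : ℝ := Real.smoothTransition (2 - ζ.im ^ 2 / 2)
noncomputable def c2 (ζ : ℂ) : ℝ := Real.smoothTransition (2 - 2 * ζ.re)

lemma c1_nonneg (ζ : ℂ) : 0 ≤ c1 ζ := Real.smoothTransition.nonneg _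
lemma c1_le (ζ : ℂ) : c1 ζ ≤ 1 := Real.smoothTransition.le_one _
lemma c1_one {ζ : ℂ} (h : |ζ.im| ≤ 1) : c1 ζ = 1 :=
  Real.smoothTransition.one_of_one_le (by nlinarith [sq_abs ζ.im, abs_nonneg ζ.im])
lemma c1_zero {ζ : ℂ} (h : 2 ≤ |ζ.im|) : c1 ζ = 0 :=
  Real.smoothTransition.zero_of_nonpos (by nlinarith [sq_abs ζ.im])
lemma c2_one {ζ : ℂ} (h : ζ.re ≤ 1 / 2) : c2 ζ = 1 :=
  Real.smoothTransition.one_of_one_le (by linarith)
lemma c2_zero {ζ : ℂ} (h : ζ.re = 1) : c2 ζ = 0 :=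
  Real.smoothTransition.zero_of_nonpos (by linarith)
lemma cd_c1 : ContDiff ℝ ∞ c1 :=
  Real.smoothTransition.contDiff.comp (contDiff_const.sub ((cd_im.pow 2).div_const _))
lemma cd_c2 : ContDiff ℝ ∞ c2 :=
  Real.smoothTransition.contDiff.comp (contDiff_const.sub (contDiff_const.mul cd_re))

noncomputable def FF (ζ : ℂ) : ℂ :=
  ((ζ.re * c1 ζ + 1 - c1 ζ : ℝ) : ℂ) + ((ζ.im * c1 ζ * c2 ζ : ℝ) : ℂ) * I

lemma FF_re (ζ : ℂ) : (FF ζ).re = ζ.re * c1 ζ + 1 - c1 ζ := by simp [FF]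
lemma FF_im (ζ : ℂ) : (FF ζ).im = ζ.im * c1 ζ * c2 ζ := by simp [FF]

lemma FF_small {ζ : ℂ} (h : ‖ζ‖ ≤ 1 / 2) : FF ζ = ζ := by
  have a := c1_one ((abs_im_le_norm ζ).trans (by linarith))
  have b := c2_one ((re_le_norm ζ).trans h)
  exact Complex.ext (by simp [FF_re, a]) (by simp [FF_im, a, b])

lemma FF_big {ζ : ℂ} (h : 2 ≤ |ζ.im|) : FF ζ = 1 :=
  Complex.ext (by simp [FF_re, c1_zero h]) (by simp [FF_im, c1_zero h])

lemma FF_end {ζ : ℂ} (h : ζ.re = 1) : FF ζ = 1 :=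
  Complex.ext (by simp [FF_re, h]) (by simp [FF_im, c2_zero h])

lemma FF_ne {ζ : ℂ} (h : ζ ≠ 0) : FF ζ ≠ 0 := fun e => by
  have h1 := FF_re ζ
  have h2 := FF_im ζ
  rw [e] at h1 h2
  have a := c1_nonneg ζ
  have b := c1_le ζ
  simp only [zero_re, zero_im] at h1 h2
  rcases le_or_gt ζ.re (1 / 2) with c | c
  · rw [c2_one c, mul_one] at h2
    rcases mul_eq_zero.1 h2.symm with d | d
    · rw [c1_one (by simp [d])] at h1
      exact h (Complex.ext (by simpa using h1.symm) d)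
    · simp [d] at h1
  · nlinarith

lemma cd_FF (ζ : ℂ) : ContDiffAt ℝ ∞ FF ζ :=
  (cd_ofReal (((cd_re.mul cd_c1).add contDiff_const).sub cd_c1).contDiffAt).add
    ((cd_ofReal ((cd_im.mul cd_c1).mul cd_c2).contDiffAt).mul contDiffAt_const)

noncomputable def mu (ζ : ℂ) : ℂ := conj (nrm (FF ζ))

lemma norm_mu {ζ : ℂ} (h : ζ ≠ 0) : ‖mu ζ‖ = 1 := by simp [mu, norm_nrm (FF_ne h)]

lemma cd_mu {ζ : ℂ} (h : ζ ≠ 0) : ContDiffAt ℝ ∞ mu ζ := cd_conj (cd_nrm (cd_FF ζ) (FF_ne h))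

lemma mu_big {ζ : ℂ} (h : 2 ≤ |ζ.im|) : mu ζ = 1 := by simp [mu, FF_big h, nrm]

noncomputable def lam (u : Bool) (ζ : ℂ) : ℂ := if u then ζ.im + I else 1

noncomputable def sgv (u : Bool) (ζ : ℂ) : ℂ := lam u ζ * ‖FF ζ‖ + conj (lam u ζ) * FF ζ

/-- branches of the square root of the direction of FF -/
noncomputable def sg (u : Bool) (ζ : ℂ) : ℂ := nrm (sgv u ζ)

/-- the closed half planes -/
def Hp (u : Bool) (ζ : ℂ) : Prop := if u then ζ.re ≤ 0 else 0 ≤ ζ.re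

lemma re_false (ζ : ℂ) : (sgv false ζ).re = ‖FF ζ‖ + (FF ζ).re := by simp [sgv, lam]
lemma re_true (ζ : ℂ) : (sgv true ζ).re = ζ.im * (‖FF ζ‖ + (FF ζ).re) + (FF ζ).im := by
  simp [sgv, lam]; ring
lemma im_true (ζ : ℂ) : (sgv true ζ).im = ζ.im * (FF ζ).im + (‖FF ζ‖ - (FF ζ).re) := by
  simp [sgv, lam]; ring

lemma add_re_pos {ζ : ℂ} (h0 : ζ ≠ 0) (h : 0 ≤ ζ.re) : 0 < ‖FF ζ‖ + (FF ζ).re := by
  have := norm_pos_iff.2 (FF_ne h0)
  have := mul_nonneg h (c1_nonneg ζ)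
  rw [FF_re]
  linarith [c1_le ζ]

lemma sgv_ne {u : Bool} {ζ : ℂ} (h0 : ζ ≠ 0) (h : Hp u ζ) : sgv u ζ ≠ 0 := fun e => by
  cases u
  · have := add_re_pos h0 h
    rw [← re_false, e] at this
    simp at this
  · have h : ζ.re ≤ 0 := h
    have h1 := re_true ζ
    have h2 := im_true ζ
    have a := re_le_norm (FF ζ)
    have b := mul_nonneg (sq_nonneg ζ.im) (c1_nonneg ζ)
    rw [e, FF_im, c2_one (by linarith)] at h1 h2
    simp only [zero_re, zero_im] at h1 h2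
    rcases mul_eq_zero.1 (show ζ.im ^ 2 * c1 ζ = 0 by linarith) with d | d
    · have d : ζ.im = 0 := by simpa using d
      have := norm_pos_iff.2 (FF_ne h0)
      rw [FF_re, c1_one (by simp [d]), d] at h2
      linarith
    · have d1 : FF ζ = 1 := Complex.ext (by simp [FF_re, d]) (by simp [FF_im, d])
      have d2 : ζ.im = 0 := by simpa [d1, d] using h1.symm
      simp [c1_one (ζ := ζ) (by simp [d2])] at d

lemma FF_ne_of_sgv {u : Bool} {ζ : ℂ} (h : sgv u ζ ≠ 0) : FF ζ ≠ 0 := fun e => h (by simp [sgv, e])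

lemma cd_lam (u : Bool) (ζ : ℂ) : ContDiffAt ℝ ∞ (lam u) ζ := by
  cases u
  exacts [contDiffAt_const, (cd_ofReal cd_im.contDiffAt).add contDiffAt_const]

lemma cd_sg {u : Bool} {ζ : ℂ} (h : sgv u ζ ≠ 0) : ContDiffAt ℝ ∞ (sg u) ζ :=
  cd_nrm (((cd_lam u ζ).mul (cd_ofReal ((cd_FF ζ).norm ℝ (FF_ne_of_sgv h)))).add
    ((cd_conj (cd_lam u ζ)).mul (cd_FF ζ))) h

lemma sg_sq {u : Bool} {ζ : ℂ} (h : sgv u ζ ≠ 0) : sg u ζ ^ 2 = nrm (FF ζ) := by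
  refine sq_nrm_of h (FF_ne_of_sgv h) ?_
  have := mul_conj (FF ζ)
  rw [normSq_eq_norm_sq] at this
  simp only [sgv, map_add, map_mul, conj_ofReal, conj_conj]
  push_cast at this
  linear_combination (-lam u ζ) * this

lemma sg_false_one {ζ : ℂ} (h : FF ζ = 1) : sg false ζ = 1 := by
  rw [sg, show sgv false ζ = ((2 : ℝ) : ℂ) by simp [sgv, lam, h]; norm_num, nrm_pos two_pos]

lemma sg_true_one {ζ : ℂ} (h : FF ζ = 1) : sg true ζ = nrm ζ.im := by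
  rw [sg, show sgv true ζ = ((2 : ℝ) : ℂ) * ζ.im by simp [sgv, lam, h]; ring, nrm_mul,
    nrm_pos two_pos, one_mul]

lemma sg_pos {ζ : ℂ} (h : ζ.re = 0) (h' : 0 < ζ.im) : sg true ζ = sg false ζ := by
  have h0 : ζ ≠ 0 := fun e => by simp [e] at h'
  have a := add_re_pos h0 h.ge
  refine eq_of_sq ?_ (re_nrm_pos ?_) (re_nrm_pos (by rwa [re_false]))
  · rw [sg_sq (sgv_ne (u := true) h0 h.le), sg_sq (sgv_ne (u := false) h0 h.ge)]
  · have := c1_nonneg ζ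
    rw [re_true, FF_im, c2_one (by linarith)]
    positivity

lemma nrm_neg (z : ℂ) : nrm (-z) = -nrm z := by simp [nrm]

lemma sg_neg {ζ : ℂ} (h : ζ.re = 0) (h' : ζ.im < 0) : -sg true ζ = sg false ζ := by
  have h0 : ζ ≠ 0 := fun e => by simp [e] at h'
  have a := add_re_pos h0 h.ge
  refine eq_of_sq ?_ ?_ (re_nrm_pos (by rwa [re_false]))
  · rw [neg_sq, sg_sq (sgv_ne (u := true) h0 h.le), sg_sq (sgv_ne (u := false) h0 h.ge)]
  · have := c1_nonneg ζ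
    rw [sg, ← nrm_neg]
    refine re_nrm_pos ?_
    rw [neg_re, re_true, FF_im, c2_one (by linarith)]
    nlinarith

noncomputable def top (ζ : ℂ) : ℂ := -1 + ζ.im * I

lemma top_im (ζ : ℂ) : (top ζ).im = ζ.im := by simp [top]
lemma top_re (ζ : ℂ) : (top ζ).re = -1 := by simp [top]
lemma top_eq {ζ : ℂ} (h : ζ.re = -1) : top ζ = ζ := Complex.ext (by rw [top_re, h]) (top_im ζ)

lemma sgv_top (ζ : ℂ) : sgv true (top ζ) ≠ 0 :=
  sgv_ne (fun e => by simpa [e] using top_re ζ) (by simp [Hp, top_re])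

/-- square root of the twist at the upper end -/
noncomputable def cc (u : Bool) (ζ : ℂ) : ℂ := if u then sg true (top ζ) else 1

lemma norm_cc (u : Bool) (ζ : ℂ) : ‖cc u ζ‖ = 1 := by
  cases u
  exacts [norm_one, norm_nrm (sgv_top ζ)]

lemma cd_cc (u : Bool) (ζ : ℂ) : ContDiffAt ℝ ∞ (cc u) ζ := by
  cases u
  exacts [contDiffAt_const, (cd_sg (sgv_top ζ)).comp ζ (contDiffAt_const.add
    ((cd_ofReal cd_im.contDiffAt).mul contDiffAt_const))]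

lemma cc_im (u : Bool) {ζ ζ' : ℂ} (h : ζ.im = ζ'.im) : cc u ζ = cc u ζ' := by
  simp only [cc, top, h]

lemma cc_big {ζ : ℂ} (h : 2 ≤ |ζ.im|) : cc true ζ = nrm ζ.im :=
  (sg_true_one (FF_big (by rwa [top_im]))).trans (by rw [top_im])

lemma cc_hi {ζ : ℂ} (h : 2 ≤ ζ.im) : cc true ζ = 1 :=
  (cc_big (h.trans (le_abs_self _))).trans (nrm_pos (by linarith))

lemma cc_lo {ζ : ℂ} (h : ζ.im ≤ -2) : cc true ζ = -1 := by
  rw [cc_big (le_abs.2 (.inr (by linarith))), ← neg_neg (ζ.im : ℂ), nrm_neg, ← ofReal_neg,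
    nrm_pos (by linarith)]

noncomputable def nu (u : Bool) (ζ : ℂ) : ℂ := cc u ζ * conj (sg u ζ)

/-- the twist of the involution at the ends -/
noncomputable def rl (u : Bool) (ζ : ℂ) : ℂ := conj (cc u ζ) ^ 2

lemma norm_nu {u : Bool} {ζ : ℂ} (h : sgv u ζ ≠ 0) : ‖nu u ζ‖ = 1 := by
  simp [nu, sg, norm_nrm h, norm_cc]

lemma norm_rl (u : Bool) (ζ : ℂ) : ‖rl u ζ‖ = 1 := by simp [rl, norm_cc]

lemma cd_nu {u : Bool} {ζ : ℂ} (h : sgv u ζ ≠ 0) : ContDiffAt ℝ ∞ (nu u) ζ :=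
  (cd_cc u ζ).mul (cd_conj (cd_sg h))

lemma cd_rl (u : Bool) (ζ : ℂ) : ContDiffAt ℝ ∞ (rl u) ζ := (cd_conj (cd_cc u ζ)).pow 2

lemma nu_big (u : Bool) {ζ : ℂ} (h : 2 ≤ |ζ.im|) : nu u ζ = 1 := by
  cases u
  · simp [nu, cc, sg_false_one (FF_big h)]
  · rw [nu, sg_true_one (FF_big h), ← cc_big h, unit_mul_conj (norm_cc _ _)]

lemma rl_big (u : Bool) {ζ : ℂ} (h : 2 ≤ |ζ.im|) : rl u ζ = 1 := by
  cases u
  · simp [rl, cc]
  · rcases le_abs.1 h with a | a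
    · simp [rl, cc_hi a]
    · simp [rl, cc_lo (show ζ.im ≤ -2 by linarith)]

lemma nu_end {u : Bool} {ζ : ℂ} (h : ζ.re = if u then -1 else 1) : nu u ζ = 1 := by
  cases u
  · simp [nu, cc, sg_false_one (FF_end h)]
  · rw [nu, cc, if_pos rfl, top_eq h]
    exact unit_mul_conj (norm_nrm (top_eq h ▸ sgv_top ζ))

lemma nu_mu {u : Bool} {ζ : ℂ} (h : sgv u ζ ≠ 0) : conj (nu u ζ) * mu ζ = rl u ζ * nu u ζ := by
  have h1 := unit_mul_conj (norm_cc u ζ)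
  have h2 : sg u ζ * conj (sg u ζ) = 1 := unit_mul_conj (norm_nrm h)
  rw [nu, mu, rl, ← sg_sq h]
  simp only [map_mul, map_pow, conj_conj]
  linear_combination (conj (cc u ζ) * conj (sg u ζ)) * h2 - (conj (cc u ζ) * conj (sg u ζ)) * h1

/-- branch of the square root -/
noncomputable def eta (u : Bool) (ζ : ℂ) : ℂ := (√‖ζ‖ : ℝ) * sg u ζ

lemma eta_zero (u : Bool) : eta u 0 = 0 := by simp [eta]

lemma eta_sq {u : Bool} {ζ : ℂ} (h : Hp u ζ) (h1 : ‖ζ‖ ≤ 1 / 2) : eta u ζ ^ 2 = ζ := by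
  by_cases h0 : ζ = 0
  · simp [h0, eta_zero]
  rw [eta, mul_pow, sg_sq (sgv_ne h0 h), FF_small h1, ← ofReal_pow,
    Real.sq_sqrt (norm_nonneg _), norm_mul_nrm]

lemma nrm_eta {u : Bool} {ζ : ℂ} (h0 : ζ ≠ 0) (h : Hp u ζ) : nrm (eta u ζ) = sg u ζ := by
  rw [eta, nrm_mul, nrm_pos (Real.sqrt_pos.2 (norm_pos_iff.2 h0)), one_mul]
  exact nrm_unit (norm_nrm (sgv_ne h0 h))

lemma continuousAt_eta_zero (u : Bool) : ContinuousAt (eta u) 0 := by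
  rw [ContinuousAt, eta_zero, tendsto_zero_iff_norm_tendsto_zero]
  refine squeeze_zero (fun _ => norm_nonneg _) (g := fun ζ => √‖ζ‖) (fun ζ => ?_) ?_
  · rw [eta, norm_mul, norm_real, Real.norm_of_nonneg (Real.sqrt_nonneg _)]
    exact mul_le_of_le_one_right (Real.sqrt_nonneg _) (norm_nrm_le _)
  · have : Continuous fun ζ : ℂ => √‖ζ‖ := by fun_prop
    simpa using this.tendsto 0

noncomputable def sq0 (ζ : ℂ) : ℂ := (√‖ζ‖ : ℝ) * nrm (‖ζ‖ + ζ)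

lemma sq0_aux {ζ : ℂ} (h : ζ.re = 1) : (‖ζ‖ : ℂ) + ζ ≠ 0 := fun e => by
  have := congrArg re e
  simp only [add_re, ofReal_re, h, zero_re] at this
  linarith [norm_nonneg ζ]

lemma sq0_sq {ζ : ℂ} (h : ζ.re = 1) : sq0 ζ ^ 2 = ζ := by
  have h0 : ζ ≠ 0 := fun e => by simp [e] at h
  have := mul_conj ζ
  rw [normSq_eq_norm_sq] at this
  rw [sq0, mul_pow, sq_nrm_of (sq0_aux h) h0, ← ofReal_pow, Real.sq_sqrt (norm_nonneg _),
    norm_mul_nrm]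
  simp only [map_add, conj_ofReal]
  push_cast at this
  linear_combination -this

lemma c_sq0 {ζ : ℂ} (h : ζ.re = 1) : ContinuousAt sq0 ζ :=
  ContinuousAt.mul (by fun_prop) (ContinuousAt.comp (g := nrm)
    (cd_nrm contDiffAt_id (sq0_aux h)).continuousAt (by fun_prop))

/-- gluing map -/
noncomputable def g0 (y : C3) : C3 := (nrm (conj y.2.2), y.2.1, y.1 * y.2.2 ^ 2)

/-- its inverse -/
noncomputable def h0 (y : C3) : C3 := (nrm y.2.2 * y.1 ^ 2, y.2.1, (√‖y.2.2‖ : ℝ) * conj y.1)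

lemma cd_g0 {y : C3} (h : y.2.2 ≠ 0) : ContDiffAt ℝ ∞ g0 y :=
  (cd_nrm (cd_conj (by fun_prop)) (by simpa using h)).prodMk (by fun_prop)

lemma cd_h0 {y : C3} (h : y.2.2 ≠ 0) : ContDiffAt ℝ ∞ h0 y := by
  have h0 : ContDiffAt ℝ ∞ (fun y : C3 => y.2.2) y := by fun_prop
  exact ((cd_nrm h0 h).mul (contDiffAt_fst.pow 2)).prodMk
    ((by fun_prop : ContDiffAt ℝ ∞ (fun y : C3 => y.2.1) y).prodMk
      ((cd_ofReal ((h0.norm ℝ h).sqrt (norm_ne_zero_iff.2 h))).mul (cd_conj contDiffAt_fst)))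

lemma h0_g0 {y : C3} (h1 : ‖y.1‖ = 1) (h : y.2.2 ≠ 0) : h0 (g0 y) = y := by
  obtain ⟨q, p, ξ⟩ := y
  simp only at h1 h
  have a2 := unit_mul_conj (norm_nrm h)
  simp only [h0, g0, nrm_conj, Prod.mk.injEq, true_and]
  constructor
  · rw [nrm_mul, nrm_sq, nrm_unit h1]
    linear_combination q * (nrm ξ * conj (nrm ξ) + 1) * a2
  · rw [norm_mul, h1, one_mul, norm_pow, Real.sqrt_sq (norm_nonneg _), conj_conj, norm_mul_nrm]

lemma g0_h0 {y : C3} (h1 : ‖y.1‖ = 1) (h : y.2.2 ≠ 0) : g0 (h0 y) = y := by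
  obtain ⟨a, p, w⟩ := y
  simp only at h1 h
  have a2 := unit_mul_conj h1
  have a4 : nrm w * a ^ 2 * ((√‖w‖ : ℝ) * conj a) ^ 2 = w := by
    rw [mul_pow ((√‖w‖ : ℝ) : ℂ), ← ofReal_pow, Real.sq_sqrt (norm_nonneg _)]
    linear_combination (‖w‖ * nrm w * (a * conj a + 1)) * a2 + norm_mul_nrm w
  simp only [h0, g0, a4, Prod.mk.injEq, and_true]
  rw [map_mul, conj_conj, conj_ofReal, nrm_mul, nrm_pos (Real.sqrt_pos.2 (norm_pos_iff.2 h)),
    nrm_unit h1, one_mul]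

lemma g0_r0 {y : C3} (h1 : ‖y.1‖ = 1) (h : y.2.2 ≠ 0) (h2 : ‖y.1 * y.2.2 ^ 2‖ ≤ 1 / 2) :
    g0 (r0 y) = (conj (g0 y).1 * mu (g0 y).2.2, conj (g0 y).2.1, (g0 y).2.2) := by
  obtain ⟨q, p, ξ⟩ := y
  simp only at h1 h h2
  have a0 := unit_mul_conj h1
  have a2 := unit_mul_conj (norm_nrm h)
  have a3 : conj q * (q * ξ) ^ 2 = q * ξ ^ 2 := by linear_combination q * ξ ^ 2 * a0
  simp only [r0, g0, a3, Prod.mk.injEq, and_true, mu, FF_small h2]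
  rw [nrm_mul q, nrm_sq, nrm_conj, nrm_conj, nrm_mul, nrm_unit h1]
  simp only [map_mul, map_pow, conj_conj]
  linear_combination (-(conj q * conj (nrm ξ))) * a2

lemma g0_cov {a p η : ℂ} (ha : ‖a‖ = 1) :
    g0 (a ^ 2, p, conj a * η) = (a * conj (nrm η), p, η ^ 2) := by
  have a0 := unit_mul_conj ha
  have a3 : a ^ 2 * (conj a * η) ^ 2 = η ^ 2 := by
    linear_combination η ^ 2 * (a * conj a + 1) * a0
  simp only [g0, a3, Prod.mk.injEq, and_true]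
  rw [map_mul, conj_conj, nrm_mul, nrm_unit ha, nrm_conj]

end Pool.Agent.Lib.MP_7ac2ff_gt.Sh
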