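import Pool.Agent.Lib.MP_7ac2ff_gt.ShA
import Pool.Agent.Lib.MP_7ac2ff_gt.Coord

/-! Shells: invariant thickened tori. -/

namespace Pool.Agent.Lib.MP_7ac2ff_gt.Sh

open Set Function Filter Complex
open scoped Manifold ContDiff Topology ComplexConjugate

/-- invariant thickened torus disjoint from the knot -/
structure Shell (K : DSI) where
  U : Set S3
  P : S3 → ℂ × ℂ × ℝ
  Θ : ℂ × ℂ × ℝ → S3
  In : Set S3
  ins : ∀ y ∈ U, y ∈ In ↔ (P y).2.2 ≤ 0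
  opn : IsOpen U
  sP : ContMDiffOn (𝓡 3) 𝓘(ℝ, ℂ × ℂ × ℝ) ∞ P U
  sΘ : ∀ a p x, ‖a‖ = 1 → ‖p‖ = 1 → |x| < 3 → ContMDiffAt 𝓘(ℝ, ℂ × ℂ × ℝ) (𝓡 3) ∞ Θ (a, p, x)
  left : ∀ y ∈ U, ‖(P y).1‖ = 1 ∧ ‖(P y).2.1‖ = 1 ∧ |(P y).2.2| < 3 ∧ Θ (P y) = y
  right : ∀ a p x, ‖a‖ = 1 → ‖p‖ = 1 → |x| < 3 → Θ (a, p, x) ∈ U ∧ P (Θ (a, p, x)) = (a, p, x)
  knot : ∀ y ∈ U, y ∉ range K.k
  eqv : ∀ a p x, ‖a‖ = 1 → ‖p‖ = 1 → |x| < 3 → K.ρ (Θ (a, p, x)) = Θ (conj a, conj p, x)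

/-- admissible coordinates -/
structure Gd (y : C3) : Prop where
  n1 : ‖y.1‖ = 1
  n2 : ‖y.2.1‖ = 1
  im : |y.2.2.im| < 3
  re : |y.2.2.re| ≤ 1

lemma Gd.of_lt {y : C3} (h1 : ‖y.1‖ = 1) (h2 : ‖y.2.1‖ = 1) (h : ‖y.2.2‖ < 1) : Gd y :=
  ⟨h1, h2, by linarith [abs_im_le_norm y.2.2], by linarith [abs_re_le_norm y.2.2]⟩

namespace Shell

variable {K : DSI} (T : Shell K)

noncomputable def av (m : MM) : ℂ := (T.P m.1).1
noncomputable def pv (m : MM) : ℂ := (T.P m.1).2.1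
noncomputable def ww (m : MM) : ℂ := ((1 - 2 * (m.2 : ℝ) : ℝ) : ℂ) + ((T.P m.1).2.2 : ℂ) * I

lemma ww_re (m : MM) : (T.ww m).re = 1 - 2 * (m.2 : ℝ) := by
  simp only [ww, add_re, ofReal_re, mul_re, I_re, ofReal_im, I_im]; ring
lemma ww_im (m : MM) : (T.ww m).im = (T.P m.1).2.2 := by
  simp only [ww, add_im, ofReal_re, mul_im, I_re, ofReal_im, I_im]; ring

noncomputable def Cm (m : MM) : C3 := (T.av m, T.pv m, T.ww m)

noncomputable def Dm (y : C3) : MM :=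
  (T.Θ (y.1, y.2.1, y.2.2.im), projIcc 0 1 zero_le_one ((1 - y.2.2.re) / 2))

variable {T}

lemma norm_av {m : MM} (h : m.1 ∈ T.U) : ‖T.av m‖ = 1 := (T.left _ h).1
lemma norm_pv {m : MM} (h : m.1 ∈ T.U) : ‖T.pv m‖ = 1 := (T.left _ h).2.1

lemma s_P {m : MM} (h : m.1 ∈ T.U) :
    ContMDiffAt (IB 3) 𝓘(ℝ, ℂ × ℂ × ℝ) ∞ (fun m : MM => T.P m.1) m :=
  (T.sP.contMDiffAt (T.opn.mem_nhds h)).comp m contMDiffAt_fst

lemma s_Cm {m : MM} (h : m.1 ∈ T.U) : ContMDiffAt (IB 3) 𝓘(ℝ, C3) ∞ T.Cm m := by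
  have : ContDiffAt ℝ ∞ (fun p : (ℂ × ℂ × ℝ) × ℝ => ((p.1.1, p.1.2.1,
      ((1 - 2 * p.2 : ℝ) : ℂ) + (p.1.2.2 : ℂ) * I) : C3)) (T.P m.1, (m.2 : ℝ)) :=
    ContDiffAt.prodMk (by fun_prop) (ContDiffAt.prodMk (by fun_prop)
      ((cd_ofReal (by fun_prop)).add ((cd_ofReal (by fun_prop)).mul contDiffAt_const)))
  exact this.comp_contMDiffAt (f := fun m : MM => (T.P m.1, (m.2 : ℝ)))
    ((s_P h).prodMk_space (Tube.s_t m))

lemma c_ww {m : MM} (h : m.1 ∈ T.U) : ContinuousAt T.ww m := (s_Cm h).continuousAt.snd.snd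

lemma D_spec {y : C3} (h : Gd y) : (T.Dm y).1 ∈ T.U ∧ T.Cm (T.Dm y) = y := by
  obtain ⟨h1, h2⟩ := T.right _ _ _ h.n1 h.n2 h.im
  refine ⟨h1, Prod.ext (congrArg (·.1) h2) (Prod.ext (congrArg (·.2.1) h2) (Complex.ext ?_ ?_))⟩
  · change (T.ww (T.Dm y)).re = _
    have := abs_le.1 h.re
    rw [ww_re, Dm, projIcc_of_mem _ ⟨by linarith, by linarith⟩]; ring
  · exact (T.ww_im _).trans (congrArg (·.2.2) h2)

lemma D_mem {y : C3} (h : Gd y) : (T.Dm y).1 ∈ T.U := (D_spec h).1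
lemma D_C {y : C3} (h : Gd y) : T.Cm (T.Dm y) = y := (D_spec h).2
lemma D_ww {y : C3} (h : Gd y) : T.ww (T.Dm y) = y.2.2 := congrArg (·.2.2) (D_C h)

lemma abs_ww_re (m : MM) : |(T.ww m).re| ≤ 1 := by
  rw [ww_re, abs_le]; constructor <;> linarith [m.2.2.1, m.2.2.2]

lemma gd_C {m : MM} (h : m.1 ∈ T.U) : Gd (T.Cm m) :=
  ⟨norm_av h, norm_pv h, (congrArg abs (T.ww_im m)).trans_lt (T.left _ h).2.2.1, abs_ww_re m⟩

lemma C_D {m : MM} (h : m.1 ∈ T.U) : T.Dm (T.Cm m) = m := by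
  refine Prod.ext ?_ (Subtype.ext ?_)
  · change T.Θ (T.av m, T.pv m, (T.ww m).im) = _
    rw [ww_im]
    exact (T.left _ h).2.2.2
  · change ((projIcc 0 1 zero_le_one ((1 - (T.ww m).re) / 2) : II) : ℝ) = _
    rw [ww_re, sub_sub_cancel, mul_div_cancel_left₀ _ two_ne_zero, projIcc_val]

lemma extU {m m' : MM} (h : m.1 ∈ T.U) (h' : m'.1 ∈ T.U) (e1 : T.av m = T.av m')
    (e2 : T.pv m = T.pv m') (e3 : T.ww m = T.ww m') : m = m' := by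
  rw [← C_D h, ← C_D h', Cm, Cm, e1, e2, e3]

lemma s_D1 {y : C3} (h : Gd y) : ContMDiffAt 𝓘(ℝ, C3) (𝓡 3) ∞ (fun y => (T.Dm y).1) y := by
  have : ContDiffAt ℝ ∞ (fun y : C3 => (y.1, y.2.1, y.2.2.im)) y :=
    contDiffAt_fst.prodMk (ContDiffAt.prodMk (by fun_prop)
      (cd_im.contDiffAt.comp y (by fun_prop)))
  exact ContMDiffAt.comp (g := T.Θ) y (T.sΘ _ _ _ h.n1 h.n2 h.im) this.contMDiffAt

lemma s_Dm {y : C3} (h : Gd y) (h' : |y.2.2.re| < 1) : ContMDiffAt 𝓘(ℝ, C3) (IB 3) ∞ T.Dm y := by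
  have h1 : ContDiffAt ℝ ∞ (fun y : C3 => (1 - y.2.2.re) / 2) y :=
    (contDiffAt_const.sub (cd_re.contDiffAt.comp y (by fun_prop))).div_const _
  have := abs_lt.1 h'
  exact (s_D1 h).prodMk (((contMDiffOn_projIcc (x := 0) (y := 1)).contMDiffAt
    (Icc_mem_nhds (by linarith) (by linarith))).comp y h1.contMDiffAt)

lemma c_Dm {y : C3} (h : Gd y) : ContinuousAt T.Dm y :=
  (s_D1 h).continuousAt.prodMk ((continuous_projIcc.comp (by fun_prop)).continuousAt)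

lemma s_coord {φ : C3 → C3} {m : MM} (h : m.1 ∈ T.U)
    (hφ : ContDiffAt ℝ ∞ φ (T.Cm m)) (h1 : Gd (φ (T.Cm m))) (h2 : |(φ (T.Cm m)).2.2.re| < 1) :
    ContMDiffAt (IB 3) (IB 3) ∞ (fun m => T.Dm (φ (T.Cm m))) m :=
  (s_Dm h1 h2).comp m (hφ.comp_contMDiffAt (s_Cm h))

lemma isOpen_ww {Ω : Set ℂ} (h : IsOpen Ω) : IsOpen {m : MM | m.1 ∈ T.U ∧ T.ww m ∈ Ω} :=
  isOpen_iff_mem_nhds.2 fun _ hm => inter_mem (continuous_fst.continuousAt (T.opn.mem_nhds hm.1))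
    ((c_ww hm.1) (h.mem_nhds hm.2))

lemma isCompact_ww {C : Set ℂ} (h : IsClosed C) {c : ℝ} (hc : c < 3) (hC : ∀ ζ ∈ C, |ζ.im| ≤ c) :
    IsCompact {m : MM | m.1 ∈ T.U ∧ T.ww m ∈ C} := by
  let S : Set C3 := Metric.sphere 0 1 ×ˢ Metric.sphere 0 1 ×ˢ (C ∩ {ζ | |ζ.re| ≤ 1})
  have h2 : ∀ p ∈ S, Gd p := fun p hp =>
    ⟨by simpa using hp.1, by simpa using hp.2.1, (hC _ hp.2.2.1).trans_lt hc, hp.2.2.2⟩
  have hS : IsCompact S := by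
    refine (isCompact_sphere _ _).prod ((isCompact_sphere _ _).prod
      ((isCompact_closedBall 0 4).of_isClosed_subset
        (h.inter (isClosed_le (by fun_prop) continuous_const)) fun ζ hz => ?_))
    have : |ζ.re| ≤ 1 := hz.2
    rw [mem_closedBall_zero_iff]
    linarith [norm_le_abs_re_add_abs_im ζ, hC ζ hz.1]
  convert hS.image_of_continuousOn (f := T.Dm) fun p hp => (c_Dm (h2 p hp)).continuousWithinAt
    using 1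
  ext m
  constructor
  · rintro ⟨h1, h3⟩
    exact ⟨T.Cm m, ⟨mem_sphere_zero_iff_norm.2 (norm_av h1), mem_sphere_zero_iff_norm.2 (norm_pv h1),
      h3, abs_ww_re m⟩, C_D h1⟩
  · rintro ⟨y, hp, rfl⟩
    exact ⟨D_mem (h2 _ hp), by rw [D_ww (h2 _ hp)]; exact hp.2.2.1⟩

lemma far {m : MM} (h : m.1 ∉ T.U) : ∀ᶠ m' in 𝓝 m, m'.1 ∈ T.U → 2 ≤ |(T.ww m').im| := by
  have := (T.isCompact_ww (C := {ζ | |ζ.im| ≤ 2}) (isClosed_le (by fun_prop) continuous_const)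
    (c := 2) (by norm_num) fun _ h => h).isClosed.isOpen_compl.mem_nhds
    (show m ∈ _ from fun e => h e.1)
  filter_upwards [this] with m' h1 h2
  exact le_of_not_ge fun e => h1 ⟨h2, e⟩

open Classical in
variable (T) in
/-- twist along the first circle direction -/
noncomputable def tw (u : ℂ → ℂ) (m : MM) : MM :=
  if m.1 ∈ T.U then (T.Θ (T.av m * u (T.ww m), T.pv m, (T.ww m).im), m.2) else m

variable {u u' : ℂ → ℂ} {m : MM}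

lemma tw_snd : (T.tw u m).2 = m.2 := by unfold tw; split_ifs <;> rfl

lemma tw_out (h : m.1 ∉ T.U) : T.tw u m = m := if_neg h

lemma tw_eq (h : m.1 ∈ T.U) : T.tw u m = T.Dm (T.av m * u (T.ww m), T.pv m, T.ww m) := by
  rw [tw, if_pos h]
  exact Prod.ext rfl (congrArg Prod.snd (C_D h)).symm

lemma gd_tw (h : m.1 ∈ T.U) (hu : ‖u (T.ww m)‖ = 1) : Gd (T.av m * u (T.ww m), T.pv m, T.ww m) :=
  ⟨by rw [norm_mul, norm_av h, hu, one_mul], norm_pv h, (gd_C h).im, (gd_C h).re⟩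

lemma tw_in (h : m.1 ∈ T.U) (hu : ‖u (T.ww m)‖ = 1) : (T.tw u m).1 ∈ T.U ∧
    T.av (T.tw u m) = T.av m * u (T.ww m) ∧ T.pv (T.tw u m) = T.pv m ∧
      T.ww (T.tw u m) = T.ww m := by
  obtain ⟨h1, h2⟩ := T.D_spec (gd_tw h hu)
  rw [tw_eq h]
  exact ⟨h1, congrArg (·.1) h2, congrArg (·.2.1) h2, congrArg (·.2.2) h2⟩

lemma tw_mem (hu : m.1 ∈ T.U → ‖u (T.ww m)‖ = 1) : (T.tw u m).1 ∈ T.U ↔ m.1 ∈ T.U := by
  by_cases h : m.1 ∈ T.U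
  · simp [h, (tw_in h (hu h)).1]
  · rw [tw_out h]

lemma tw_one (hu : m.1 ∈ T.U → u (T.ww m) = 1) : T.tw u m = m := by
  by_cases h : m.1 ∈ T.U
  · rw [tw_eq h, hu h, mul_one]; exact C_D h
  · exact tw_out h

lemma tw_congr (hu : m.1 ∈ T.U → u (T.ww m) = u' (T.ww m)) : T.tw u m = T.tw u' m := by
  by_cases h : m.1 ∈ T.U
  · rw [tw, tw, if_pos h, if_pos h, hu h]
  · rw [tw_out h, tw_out h]

lemma tw_tw (hu : m.1 ∈ T.U → ‖u (T.ww m)‖ = 1) :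
    T.tw u' (T.tw u m) = T.tw (fun ζ => u ζ * u' ζ) m := by
  by_cases h : m.1 ∈ T.U
  · obtain ⟨h1, h2, h3, h4⟩ := tw_in h (hu h)
    rw [tw_eq h1, h2, h3, h4, tw_eq h, mul_assoc]
  · rw [tw_out h, tw_out h, tw_out h]

lemma s_tw_in (h : m.1 ∈ T.U) (hu : ContDiffAt ℝ ∞ u (T.ww m)) (hn : ‖u (T.ww m)‖ = 1) :
    ContMDiffAt (IB 3) (IB 3) ∞ (T.tw u) m := by
  have h1 : ContDiffAt ℝ ∞ (fun y : C3 => ((y.1 * u y.2.2, y.2) : C3)) (T.Cm m) :=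
    (contDiffAt_fst.mul (hu.comp (T.Cm m) (f := fun y : C3 => y.2.2) (by fun_prop))).prodMk
      contDiffAt_snd
  have h2 := (ContMDiffAt.comp (g := fun y => (T.Dm y).1) m (s_D1 (gd_tw h hn))
    (h1.comp_contMDiffAt (s_Cm h))).prodMk (contMDiffAt_snd (I := 𝓡 3) (J := 𝓡∂ 1) (n := ∞) (p := m))
  refine h2.congr_of_eventuallyEq ?_
  filter_upwards [continuous_fst.continuousAt (T.opn.mem_nhds h)] with m' h'
  exact if_pos h'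

lemma s_tw (hb : ∀ ζ : ℂ, 2 ≤ |ζ.im| → u ζ = 1)
    (hu : m.1 ∈ T.U → ContDiffAt ℝ ∞ u (T.ww m) ∧ ‖u (T.ww m)‖ = 1) :
    ContMDiffAt (IB 3) (IB 3) ∞ (T.tw u) m := by
  by_cases h : m.1 ∈ T.U
  · exact s_tw_in h (hu h).1 (hu h).2
  · refine contMDiffAt_id.congr_of_eventuallyEq ?_
    filter_upwards [far h] with m' h'
    exact tw_one fun e => hb _ (h' e)

lemma tw_D {y : C3} (h : Gd y) : T.tw u (T.Dm y) = T.Dm (y.1 * u y.2.2, y.2) := by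
  have := T.D_C h
  rw [tw_eq (D_mem h), show T.av (T.Dm y) = y.1 from congrArg (·.1) this,
    show T.pv (T.Dm y) = y.2.1 from congrArg (·.2.1) this, D_ww h]

lemma R0_D {y : C3} (h : Gd y) : R0 K (T.Dm y) = T.Dm (conj y.1, conj y.2.1, y.2.2) :=
  Prod.ext (T.eqv _ _ _ h.n1 h.n2 h.im) rfl

lemma gd_conj {y : C3} (h : Gd y) : Gd (conj y.1, conj y.2.1, y.2.2) :=
  ⟨by simpa using h.n1, by simpa using h.n2, h.im, h.re⟩

lemma R0_in (h : m.1 ∈ T.U) : (R0 K m).1 ∈ T.U ∧ T.av (R0 K m) = conj (T.av m) ∧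
    T.pv (R0 K m) = conj (T.pv m) ∧ T.ww (R0 K m) = T.ww m := by
  obtain ⟨h1, h2⟩ := T.D_spec (gd_conj (gd_C h))
  rw [← R0_D (gd_C h), C_D h] at h1 h2
  exact ⟨h1, congrArg (·.1) h2, congrArg (·.2.1) h2, congrArg (·.2.2) h2⟩

lemma R0_mem : (R0 K m).1 ∈ T.U ↔ m.1 ∈ T.U :=
  ⟨fun h => by simpa [R0_R0] using (R0_in h).1, fun h => (R0_in h).1⟩

lemma R0_tw (hu : m.1 ∈ T.U → ‖u (T.ww m)‖ = 1) :
    R0 K (T.tw u m) = T.tw (fun ζ => conj (u ζ)) (R0 K m) := by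
  by_cases h : m.1 ∈ T.U
  · obtain ⟨c1, c2, c3, c4⟩ := R0_in h
    rw [tw_eq h, R0_D (gd_tw h (hu h)), tw_eq c1, c2, c3, c4, map_mul]
  · rw [tw_out h, tw_out (mt R0_mem.1 h)]

end Shell

end Pool.Agent.Lib.MP_7ac2ff_gt.Sh
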