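import Pool.Agent.Lib.MP_7ac2ff_gt.ShB
import Pool.Agent.Lib.MP_7ac2ff_gt.Emb

/-! The logarithmic transform along a shell. -/

namespace Pool.Agent.Lib.MP_7ac2ff_gt.Sh

open Set Function Filter Complex
open scoped Manifold ContDiff Topology ComplexConjugate

set_option linter.style.haveILetI false
set_option backward.isDefEq.respectTransparency false

lemma An_gd {c : ℝ} {y : C3} (h : y ∈ An c) (hc : c ≤ 1) : Gd y :=
  .of_lt h.1 h.2.1 (h.2.2.2.trans_le hc)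

lemma im_lt {ζ : ℂ} {c : ℝ} (hc : c ≤ 1) (h : ‖ζ‖ < c) : |ζ.re| < 1 :=
  (abs_re_le_norm _).trans_lt (h.trans_le hc)

lemma norm_g0 {y : C3} (h : ‖y.1‖ = 1) : ‖(g0 y).2.2‖ = ‖y.2.2‖ ^ 2 := by simp [g0, h]

lemma norm_h0 {y : C3} (h : ‖y.1‖ = 1) : ‖(h0 y).2.2‖ = √‖y.2.2‖ := by
  simp only [h0, norm_mul, RCLike.norm_conj, h, mul_one, norm_real,
    Real.norm_of_nonneg (Real.sqrt_nonneg _)]

lemma g0_An {y : C3} (h : y ∈ An (1 / 2)) : g0 y ∈ An (1 / 4) := by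
  have h1 := norm_pos_iff.2 h.2.2.1
  refine ⟨?_, h.2.1, ?_, ?_⟩
  · exact norm_nrm (by simpa using h.2.2.1)
  · rw [← norm_pos_iff, norm_g0 h.1]; positivity
  · rw [norm_g0 h.1]; nlinarith [h.2.2.2]

lemma h0_An {y : C3} (h : y ∈ An (1 / 4)) : h0 y ∈ An (1 / 2) := by
  have h1 := norm_pos_iff.2 h.2.2.1
  refine ⟨?_, h.2.1, ?_, ?_⟩
  · change ‖nrm _ * _ ^ 2‖ = 1
    simp [norm_nrm h.2.2.1, h.1]
  · rw [← norm_pos_iff, norm_h0 h.1]; positivity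
  · rw [norm_h0 h.1, Real.sqrt_lt' (by norm_num)]; linarith [h.2.2.2]

namespace Shell

variable {K : DSI} (T : Shell K)

def O1 : Set MM := {m | ¬(m.1 ∈ T.U ∧ T.ww m = 0)}
def O3 : Set MM := {m | m.1 ∈ T.U ∧ ‖T.ww m‖ < 1 / 2}
def Sc (c : ℝ) : Set MM := {m | m.1 ∈ T.U ∧ T.ww m ≠ 0 ∧ ‖T.ww m‖ < c}

lemma isCompact_le {c : ℝ} (hc : c < 3) : IsCompact {m : MM | m.1 ∈ T.U ∧ ‖T.ww m‖ ≤ c} :=
  T.isCompact_ww (C := {ζ | ‖ζ‖ ≤ c}) (isClosed_le continuous_norm continuous_const) hc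
    fun ζ h => (abs_im_le_norm ζ).trans h

lemma isOpen_lt (c : ℝ) : IsOpen {m : MM | m.1 ∈ T.U ∧ ‖T.ww m‖ < c} :=
  T.isOpen_ww (Ω := {ζ | ‖ζ‖ < c}) (_root_.isOpen_lt continuous_norm continuous_const)

lemma isOpen_O1 : IsOpen T.O1 :=
  (T.isCompact_ww isClosed_singleton (c := 0) (by norm_num)
    fun ζ h => by simp [show ζ = 0 from h]).isClosed.isOpen_compl

lemma isOpen_Sc (c : ℝ) : IsOpen (T.Sc c) :=
  T.isOpen_ww (Ω := {ζ | ζ ≠ 0 ∧ ‖ζ‖ < c})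
    (isOpen_ne.inter (_root_.isOpen_lt continuous_norm continuous_const))

variable {T}

lemma Sc_C {c : ℝ} {m : MM} (h : m ∈ T.Sc c) : T.Cm m ∈ An c ∧ T.Dm (T.Cm m) = m :=
  ⟨⟨norm_av h.1, norm_pv h.1, h.2⟩, C_D h.1⟩

lemma An_D {c : ℝ} (hc : c ≤ 1) {y : C3} (h : y ∈ An c) : T.Dm y ∈ T.Sc c :=
  ⟨D_mem (An_gd h hc), by rw [D_ww (An_gd h hc)]; exact h.2.2⟩

lemma s_g {m : MM} (h : m ∈ T.Sc (1 / 2)) :
    ContMDiffAt (IB 3) (IB 3) ∞ (fun m => T.Dm (g0 (T.Cm m))) m :=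
  have h1 := g0_An (Sc_C h).1
  s_coord h.1 (cd_g0 h.2.1) (An_gd h1 (by norm_num))
    (im_lt (by norm_num) h1.2.2.2)

lemma s_h {m : MM} (h : m ∈ T.Sc (1 / 4)) :
    ContMDiffAt (IB 3) (IB 3) ∞ (fun m => T.Dm (h0 (T.Cm m))) m :=
  have h1 := h0_An (Sc_C h).1
  s_coord h.1 (cd_h0 h.2.1) (An_gd h1 (by norm_num))
    (im_lt (by norm_num) h1.2.2.2)

variable (T) in
/-- the gluing diffeomorphism -/
noncomputable def gg : OpenPartialHomeomorph MM MM where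
  toFun m := T.Dm (g0 (T.Cm m))
  invFun m := T.Dm (h0 (T.Cm m))
  source := T.Sc (1 / 2)
  target := T.Sc (1 / 4)
  map_source' m h := An_D (by norm_num) (g0_An (Sc_C h).1)
  map_target' m h := An_D (by norm_num) (h0_An (Sc_C h).1)
  left_inv' m h := by
    obtain ⟨h1, h2⟩ := Sc_C h
    rw [D_C (An_gd (g0_An h1) (by norm_num)), h0_g0 h1.1 h1.2.2.1, h2]
  right_inv' m h := by
    obtain ⟨h1, h2⟩ := Sc_C h
    rw [D_C (An_gd (h0_An h1) (by norm_num)), g0_h0 h1.1 h1.2.2.1, h2]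
  continuousOn_toFun m h := (s_g h).continuousAt.continuousWithinAt
  continuousOn_invFun m h := (s_h h).continuousAt.continuousWithinAt
  open_source := T.isOpen_Sc _
  open_target := T.isOpen_Sc _

lemma gg_s : T.gg.source ⊆ T.O3 := fun _ h => ⟨h.1, h.2.2⟩
lemma gg_t : T.gg.target ⊆ T.O1 := fun _ h e => h.2.1 e.2

lemma gg_D {y : C3} (h : Gd y) : T.gg (T.Dm y) = T.Dm (g0 y) :=
  congrArg (fun y => T.Dm (g0 y)) (D_C h)

lemma gg_pre : IsPreconnected T.gg.source := by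
  have := (An.pre (1 / 2)).image T.Dm fun y h => (c_Dm (An_gd h (by norm_num))).continuousWithinAt
  convert this using 1
  ext m
  exact ⟨fun h => ⟨_, Sc_C h⟩, fun ⟨y, h, e⟩ => e ▸ An_D (by norm_num) h⟩

lemma norm_gg {m : MM} (h : m ∈ T.gg.source) : ‖T.ww (T.gg m)‖ = ‖T.ww m‖ ^ 2 := by
  have h1 := (Sc_C h).1
  exact (congrArg norm (D_ww (An_gd (g0_An h1) (by norm_num)))).trans (norm_g0 h1.1)

variable (T) in
noncomputable def ρ1 (m : MM) : MM := T.tw mu (R0 K m)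
variable (T) in
noncomputable def ρ3 (m : MM) : MM := T.Dm (r0 (T.Cm m))

lemma tw_O1 {u : ℂ → ℂ} {m : MM} (h : m ∈ T.O1) (hu : m.1 ∈ T.U → ‖u (T.ww m)‖ = 1) :
    T.tw u m ∈ T.O1 := fun e => by
  have h1 := (tw_mem hu).1 e.1
  exact h ⟨h1, (tw_in h1 (hu h1)).2.2.2 ▸ e.2⟩

lemma R0_O1 {m : MM} : R0 K m ∈ T.O1 ↔ m ∈ T.O1 := by
  refine not_congr ⟨fun e => ?_, fun e => ⟨R0_mem.2 e.1, (R0_in e.1).2.2.2 ▸ e.2⟩⟩
  have h1 := R0_mem.1 e.1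
  exact ⟨h1, (R0_in h1).2.2.2 ▸ e.2⟩

lemma mu_O1 {m : MM} (h : m ∈ T.O1) (h' : m.1 ∈ T.U) : ‖mu (T.ww m)‖ = 1 :=
  norm_mu fun e => h ⟨h', e⟩

lemma ρ1_mem {m : MM} (h : m ∈ T.O1) : T.ρ1 m ∈ T.O1 :=
  tw_O1 (R0_O1.2 h) (mu_O1 (R0_O1.2 h))

lemma ρ1_ρ1 {m : MM} (h : m ∈ T.O1) : T.ρ1 (T.ρ1 m) = m := by
  rw [ρ1, ρ1, R0_tw (mu_O1 (R0_O1.2 h)), R0_R0, tw_tw (by simpa using mu_O1 h)]
  exact tw_one fun h' => by rw [mul_comm, unit_mul_conj (mu_O1 h h')]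

lemma s_ρ1 {m : MM} (h : m ∈ T.O1) : ContMDiffAt (IB 3) (IB 3) ∞ T.ρ1 m :=
  ContMDiffAt.comp (g := T.tw mu) m (s_tw (fun _ => mu_big) fun h' =>
    ⟨cd_mu fun e => R0_O1.2 h ⟨h', e⟩, mu_O1 (R0_O1.2 h) h'⟩) (s_R0 K m)

lemma O3_C {m : MM} (h : m ∈ T.O3) : Gd (T.Cm m) ∧ T.Dm (T.Cm m) = m :=
  ⟨gd_C h.1, C_D h.1⟩

lemma norm_r0 {y : C3} (h : ‖y.1‖ = 1) : ‖(r0 y).2.2‖ = ‖y.2.2‖ := by simp [r0, h]

lemma gd_r0 {m : MM} (h : m ∈ T.O3) : Gd (r0 (T.Cm m)) :=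
  have h1 := (O3_C h).1
  .of_lt (by simpa [r0] using h1.n1) (by simpa [r0] using h1.n2)
    ((norm_r0 h1.n1).trans_lt (h.2.trans (by norm_num)))

lemma norm_ρ3 {m : MM} (h : m ∈ T.O3) : ‖T.ww (T.ρ3 m)‖ = ‖T.ww m‖ :=
  (congrArg norm (D_ww (gd_r0 h))).trans (norm_r0 (O3_C h).1.n1)

lemma ρ3_mem {m : MM} (h : m ∈ T.O3) : T.ρ3 m ∈ T.O3 :=
  ⟨D_mem (gd_r0 h), (norm_ρ3 h).trans_lt h.2⟩

lemma ρ3_ρ3 {m : MM} (h : m ∈ T.O3) : T.ρ3 (T.ρ3 m) = m := by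
  have h1 := unit_mul_conj (O3_C h).1.n1
  rw [ρ3, ρ3, D_C (gd_r0 h)]
  refine Eq.trans (congrArg T.Dm ?_) (O3_C h).2
  simp only [r0, conj_conj]
  refine Prod.ext rfl (Prod.ext rfl ?_)
  linear_combination (T.Cm m).2.2 * h1

lemma s_ρ3 {m : MM} (h : m ∈ T.O3) : ContMDiffAt (IB 3) (IB 3) ∞ T.ρ3 m :=
  s_coord h.1 (cd_r0 _) (gd_r0 h)
    (im_lt le_rfl ((norm_r0 (O3_C h).1.n1).trans_lt (h.2.trans (by norm_num))))

lemma gg_ρ {m : MM} (h : m ∈ T.gg.source) :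
    T.ρ3 m ∈ T.gg.source ∧ T.gg (T.ρ3 m) = T.ρ1 (T.gg m) := by
  have h1 := (Sc_C h).1
  have h2 := g0_An h1
  have h3 := An_gd h2 (by norm_num)
  have h4 := ρ3_mem (gg_s h)
  refine ⟨⟨h4.1, ?_, h4.2⟩, ?_⟩
  · rw [← norm_pos_iff, norm_ρ3 (gg_s h), norm_pos_iff]; exact h.2.1
  · change _ = T.tw mu (R0 K (T.Dm (g0 (T.Cm m))))
    rw [ρ3, gg_D (gd_r0 (gg_s h)), g0_r0 h1.1 h1.2.2.1
      (h2.2.2.2.le.trans (by norm_num)), R0_D h3, tw_D (gd_conj h3)]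

end Shell

/-- the transformed manifold -/
abbrev LT {K : DSI} (T : Shell K) (W : Type) [TopologicalSpace W] := Glued T.O1 T.O3 T.gg W

namespace LT

open Shell

variable {K : DSI} {T : Shell K} {W : Type} [TopologicalSpace W] (G : LT T W)

lemma core {w : W} (h : w ∉ G.c1.source) :
    G.c3 w ∈ T.O3 ∧ T.ww (G.c3 w) = 0 ∧ G.c3.symm (G.c3 w) = w := by
  have h3 := (G.cov w).resolve_left h
  have h4 := G.s3 h3
  refine ⟨h4, by_contra fun e => h ?_, G.c3.left_inv h3⟩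
  rw [← G.c3.left_inv h3, G.gl _ ⟨h4.1, e, h4.2⟩]
  exact G.m1 (gg_t (T.gg.map_source ⟨h4.1, e, h4.2⟩))

lemma core' {m : MM} (h : m ∈ T.O3) (h0 : T.ww m = 0) : G.c3.symm m ∉ G.c1.source :=
  fun e => (G.only m h e).2.1 h0

lemma near {m : MM} (h : m ∈ T.gg.target) : G.c1.symm m = G.c3.symm (T.gg.symm m) := by
  rw [G.gl _ (T.gg.map_target h), T.gg.right_inv h]

include G in
lemma t2 : T2Space W := by
  have key : ∀ {a : OpenPartialHomeomorph W MM} {w w' : W}, w ∈ a.source → w' ∈ a.source → w ≠ w' →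
      ∃ u v, IsOpen u ∧ IsOpen v ∧ w ∈ u ∧ w' ∈ v ∧ Disjoint u v := by
    intro a w w' h h' e
    obtain ⟨u, v, hu, hv, a1, a2, d⟩ := t2_separation (a.injOn.ne h h' e)
    exact ⟨_, _, a.isOpen_inter_preimage hu, a.isOpen_inter_preimage hv, ⟨h, a1⟩, ⟨h', a2⟩,
      disjoint_left.2 fun x b c => disjoint_left.1 d b.2 c.2⟩
  have key2 : ∀ {w w' : W}, w ∉ G.c3.source → w' ∉ G.c1.source →
      ∃ u v, IsOpen u ∧ IsOpen v ∧ w ∈ u ∧ w' ∈ v ∧ Disjoint u v := by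
    intro w w' h h'
    have h1 := (G.cov w).resolve_right h
    obtain ⟨a1, a2, -⟩ := G.core h'
    refine ⟨_, _, G.c1.isOpen_inter_preimage
      (T.isCompact_le (c := 1 / 16) (by norm_num)).isClosed.isOpen_compl,
      G.c3.isOpen_inter_preimage (T.isOpen_lt (1 / 4)), ⟨h1, fun e => h ?_⟩,
      ⟨(G.cov w').resolve_left h', a1.1, by simp [a2]⟩, disjoint_left.2 fun x b c => b.2 ?_⟩
    · have h2 : G.c1 w ∈ T.gg.target := ⟨e.1, fun e' => G.s1 h1 ⟨e.1, e'⟩, by linarith [e.2]⟩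
      rw [← G.c1.left_inv h1, G.near h2]
      exact G.m3 (gg_s (T.gg.map_target h2))
    · obtain ⟨d1, d2⟩ := G.both b.1 c.1 gg_t
      rw [d2]
      refine ⟨(T.gg.map_source d1).1, ?_⟩
      rw [norm_gg d1]
      nlinarith [c.2.2, norm_nonneg (T.ww (G.c3 x))]
  refine ⟨fun w w' e => ?_⟩
  by_cases a : w ∈ G.c1.source <;> by_cases b : w' ∈ G.c1.source
  · exact key a b e
  · by_cases c : w ∈ G.c3.source
    · exact key c ((G.cov _).resolve_left b) e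
    · exact key2 c b
  · by_cases c : w' ∈ G.c3.source
    · exact key ((G.cov _).resolve_left a) c e
    · obtain ⟨u, v, hu, hv, a1, a2, d⟩ := key2 c a
      exact ⟨v, u, hv, hu, a2, a1, d.symm⟩
  · exact key ((G.cov _).resolve_left a) ((G.cov _).resolve_left b) e

lemma c_e1 : ContinuousOn G.c1.symm T.O1 := G.c1.continuousOn_symm.mono G.t1.ge
lemma c_e3 : ContinuousOn G.c3.symm T.O3 := G.c3.continuousOn_symm.mono G.t3.ge

include G in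
lemma compact : CompactSpace W := by
  have h1 := (T.isOpen_lt (1 / 16)).isClosed_compl.isCompact.image_of_continuousOn
    (G.c_e1.mono fun m h e => h ⟨e.1, by simp [e.2]⟩)
  have h2 := (T.isCompact_le (c := 1 / 4) (by norm_num)).image_of_continuousOn
    (G.c_e3.mono fun m h => ⟨h.1, by linarith [h.2]⟩)
  refine ⟨(h1.union h2).of_isClosed_subset isClosed_univ fun w _ => ?_⟩
  by_cases a : w ∈ G.c1.source
  · by_cases e : (G.c1 w).1 ∈ T.U ∧ ‖T.ww (G.c1 w)‖ < 1 / 16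
    · have h2 : G.c1 w ∈ T.gg.target := ⟨e.1, fun e' => G.s1 a ⟨e.1, e'⟩, by linarith [e.2]⟩
      have h3 := T.gg.map_target h2
      have h4 := norm_gg h3
      rw [T.gg.right_inv h2] at h4
      refine Or.inr ⟨_, ⟨h3.1, ?_⟩, (G.near h2).symm.trans (G.c1.left_inv a)⟩
      nlinarith [e.2, norm_nonneg (T.ww (T.gg.symm (G.c1 w)))]
    · exact Or.inl ⟨_, e, G.c1.left_inv a⟩
  · obtain ⟨a1, a2, a3⟩ := G.core a
    exact Or.inr ⟨_, ⟨a1.1, by simp [a2]⟩, a3⟩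

open Classical in
/-- the involution -/
noncomputable def rr (w : W) : W :=
  if w ∈ G.c1.source then G.c1.symm (T.ρ1 (G.c1 w)) else G.c3.symm (T.ρ3 (G.c3 w))

lemma rr_e1 {m : MM} (h : m ∈ T.O1) : G.rr (G.c1.symm m) = G.c1.symm (T.ρ1 m) := by
  rw [rr, if_pos (G.m1 h), G.r1 h]

lemma rr_e3 {m : MM} (h : m ∈ T.O3) : G.rr (G.c3.symm m) = G.c3.symm (T.ρ3 m) := by
  by_cases a : G.c3.symm m ∈ G.c1.source
  · have h1 := G.only m h a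
    rw [G.gl m h1, G.rr_e1 (gg_t (T.gg.map_source h1)), G.gl _ (gg_ρ h1).1, (gg_ρ h1).2]
  · rw [rr, if_neg a, G.r3 h]

lemma rr_rr : Involutive G.rr := fun w => by
  rcases G.cov w with a | a
  · rw [← G.c1.left_inv a, G.rr_e1 (G.s1 a), G.rr_e1 (ρ1_mem (G.s1 a)), ρ1_ρ1 (G.s1 a)]
  · rw [← G.c3.left_inv a, G.rr_e3 (G.s3 a), G.rr_e3 (ρ3_mem (G.s3 a)), ρ3_ρ3 (G.s3 a)]

lemma mfd : @IsManifold ℝ _ _ _ _ _ _ (IB 3) ∞ W _ (G.cs (HB 3)) :=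
  G.isManifold gg_t (fun _ h => (s_g h).contMDiffWithinAt) fun _ h => (s_h h).contMDiffWithinAt

lemma s_e1 {m : MM} (h : m ∈ T.O1) : letI := G.cs (HB 3)
    ContMDiffAt (IB 3) (IB 3) ∞ G.c1.symm m :=
  letI := G.cs (HB 3)
  (G.smooth_c G.mfd (.inl rfl)).2.contMDiffAt (G.c1.open_target.mem_nhds (G.t1.ge h))

lemma s_rr : letI := G.cs (HB 3)
    ContMDiff (IB 3) (IB 3) ∞ G.rr := by
  letI := G.cs (HB 3)
  intro w
  rcases G.cov w with a | a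
  · have h1 := (G.smooth_c G.mfd (.inl rfl)).1.contMDiffAt (G.c1.open_source.mem_nhds a)
    refine (((G.s_e1 (ρ1_mem (G.s1 a))).comp _ (s_ρ1 (G.s1 a))).comp w h1).congr_of_eventuallyEq ?_
    filter_upwards [G.c1.open_source.mem_nhds a] with y hy
    exact if_pos hy
  · obtain ⟨h1, h2⟩ := G.smooth_c G.mfd (.inr rfl)
    refine (((h2.contMDiffAt (G.c3.open_target.mem_nhds (G.t3.ge (ρ3_mem (G.s3 a))))).comp _
      (s_ρ3 (G.s3 a))).comp w (h1.contMDiffAt (G.c3.open_source.mem_nhds a))).congr_of_eventuallyEq ?_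
    filter_upwards [G.c3.open_source.mem_nhds a] with y hy
    conv_lhs => rw [← G.c3.left_inv hy, G.rr_e3 (G.s3 hy)]
    rfl

end LT

namespace Shell

variable {K : DSI} {T : Shell K} {m : MM}

lemma end_O1 (h : m.2 = 0 ∨ m.2 = 1) : m ∈ T.O1 := fun e => by
  have := T.ww_re m
  rcases h with h | h <;> norm_num [e.2, h] at this

lemma knot_O1 (h : m.1 ∈ range K.k) : m ∈ T.O1 := fun e => T.knot _ e.1 h

lemma tw_knot {u : ℂ → ℂ} (hu : m.1 ∈ T.U → ‖u (T.ww m)‖ = 1) :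
    (T.tw u m).1 ∈ range K.k ↔ m.1 ∈ range K.k := by
  by_cases h : m.1 ∈ T.U
  · simp only [T.knot _ h, T.knot _ ((tw_mem hu).2 h)]
  · rw [tw_out h]

lemma ρ1_knot (h : m.1 ∈ range K.k) : (T.ρ1 m).1 ∈ range K.k :=
  (tw_knot (mu_O1 (R0_O1.2 (knot_O1 h)))).2 (K.inv.le ⟨_, h, rfl⟩)

end Shell

namespace LT

open Shell

variable {K : DSI} {T : Shell K} {W : Type} [TopologicalSpace W] (G : LT T W)

/-- the ends -/
noncomputable def jj (i : II) (x : S3) : W := G.c1.symm (x, i)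

/-- the annulus -/
noncomputable def AA (p : Circle × II) : W := G.c1.symm (K.k p.1, p.2)

lemma bd (w : W) : letI := G.cs (HB 3)
    w ∈ (IB 3).boundary W ↔ w ∈ G.c1.source ∧ ((G.c1 w).2 = 0 ∨ (G.c1 w).2 = 1) := by
  rw [G.mem_boundary, bd_cyl]
  by_cases a : w ∈ G.c1.source
  · simp [G.c_of a, a]
  · rw [G.c_of' a]
    obtain ⟨a1, a2, -⟩ := G.core a
    exact ⟨fun h => (end_O1 h ⟨a1.1, a2⟩).elim, fun h => (a h.1).elim⟩

lemma bd_e1 {m : MM} (h : m ∈ T.O1) : letI := G.cs (HB 3)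
    G.c1.symm m ∈ (IB 3).boundary W ↔ m.2 = 0 ∨ m.2 = 1 := by
  rw [G.bd, G.r1 h]
  simp [G.m1 h]

lemma bd_eq : letI := G.cs (HB 3)
    (IB 3).boundary W = range (G.jj 0) ∪ range (G.jj 1) := by
  ext w
  constructor
  · intro h
    obtain ⟨a, b | b⟩ := (G.bd w).1 h
    · exact .inl ⟨(G.c1 w).1, by rw [jj, ← b]; exact G.c1.left_inv a⟩
    · exact .inr ⟨(G.c1 w).1, by rw [jj, ← b]; exact G.c1.left_inv a⟩
  · rintro (⟨x, rfl⟩ | ⟨x, rfl⟩)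
    · exact (G.bd_e1 (end_O1 (.inl rfl))).2 (.inl rfl)
    · exact (G.bd_e1 (end_O1 (.inr rfl))).2 (.inr rfl)

lemma dif_e1 {m : MM} (h : m ∈ T.O1) : letI := G.cs (HB 3)
    dif (IB 3) (IB 3) G.c1.symm m = ContinuousLinearMap.id ℝ _ := by
  letI := G.cs (HB 3)
  have h1 := dif_left_inv (G.s_e1 h) ((G.smooth_c G.mfd (.inl rfl)).1.contMDiffAt
    (G.c1.open_source.mem_nhds (G.m1 h))) (G.c1.eventually_right_inverse (G.t1.ge h))
  rwa [show dif (IB 3) (IB 3) G.c1 (G.c1.symm m) = ContinuousLinearMap.id ℝ _ from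
    (G.hasMFDerivAt_c1 (G.m1 h)).mfderiv, ContinuousLinearMap.id_comp] at h1

section
variable {V H N : Type} [NormedAddCommGroup V] [NormedSpace ℝ V] [TopologicalSpace H]
  {J : ModelWithCorners ℝ V H} [TopologicalSpace N] [ChartedSpace H N] {f : N → MM}

lemma dif_c (hf : ContMDiff J (IB 3) ∞ f) (h : ∀ x, f x ∈ T.O1) (x : N) : letI := G.cs (HB 3)
    dif J (IB 3) (G.c1.symm ∘ f) x = dif J (IB 3) f x := by
  letI := G.cs (HB 3)
  rw [dif_comp (hf x) (G.s_e1 (h x)), G.dif_e1 (h x), ContinuousLinearMap.id_comp]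

lemma emb_c [CompactSpace N] (hf : ContMDiff J (IB 3) ∞ f) (h : ∀ x, f x ∈ T.O1)
    (hi : Injective f) (hd : ∀ x, Injective (dif J (IB 3) f x)) : letI := G.cs (HB 3)
    SmEmb J (IB 3) (G.c1.symm ∘ f) := by
  letI := G.cs (HB 3)
  haveI := G.t2
  have h1 : ContMDiff J (IB 3) ∞ (G.c1.symm ∘ f) := fun x => (G.s_e1 (h x)).comp x (hf x)
  refine ⟨h1, (h1.continuous.isClosedEmbedding fun x y e => hi (G.inj1 (h x) (h y) e)).isEmbedding,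
    fun x => ?_⟩
  have := hd x
  rw [← G.dif_c hf h] at this
  exact this

end

lemma dif_jj {i : II} (hi : i = 0 ∨ i = 1) (x : S3) : letI := G.cs (HB 3)
    dif (𝓡 3) (IB 3) (G.jj i) x = ContinuousLinearMap.inl ℝ _ _ :=
  (G.dif_c (f := fun x => (x, i)) (contMDiff_id.prodMk contMDiff_const)
    (fun _ => end_O1 hi) x).trans mfderiv_prod_left

lemma emb_jj {i : II} (hi : i = 0 ∨ i = 1) : letI := G.cs (HB 3)
    SmEmb (𝓡 3) (IB 3) (G.jj i) :=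
  G.emb_c (f := fun x => (x, i)) (contMDiff_id.prodMk contMDiff_const) (fun _ => end_O1 hi)
    (Prod.mk_left_injective i) fun x => by
      rw [show dif (𝓡 3) (IB 3) (fun x : S3 => (x, i)) x = ContinuousLinearMap.inl ℝ _ _ from
        mfderiv_prod_left]
      exact Prod.mk_left_injective 0

lemma disj : Disjoint (range (G.jj 0)) (range (G.jj 1)) :=
  disjoint_left.2 fun _ ⟨_, e⟩ ⟨_, e'⟩ => zero_ne_one (congrArg Prod.snd
    (G.inj1 (end_O1 (.inl rfl)) (end_O1 (.inr rfl)) (e.trans e'.symm)))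

lemma exists_o : letI := G.cs (HB 3)
    haveI := G.mfd
    ∃ o : W → ℝ, IsOr (IB 3) o ∧
      ∀ x, o (G.jj 0 x) * (ContinuousLinearMap.fst ℝ _ _ ∘L dif (𝓡 3) (IB 3) (G.jj 0) x).det *
        (o (G.jj 1 x) * (ContinuousLinearMap.fst ℝ _ _ ∘L dif (𝓡 3) (IB 3) (G.jj 1) x).det) < 0 := by
  obtain ⟨oM, h1, h2⟩ := exists_or_cyl (F := E (3 + 1)) (n := 3) (hF := ⟨by simp⟩)
  obtain ⟨o, h3, h4⟩ := G.exists_or G.mfd gg_s gg_t gg_pre h1
  refine ⟨o, h3, fun x => ?_⟩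
  rw [G.dif_jj (.inl rfl), G.dif_jj (.inr rfl), ContinuousLinearMap.fst_comp_inl, det_id', jj, jj,
    h4 _ (end_O1 (.inl rfl)), h4 _ (end_O1 (.inr rfl)), mul_one, mul_one]
  exact h2 x

lemma emb_AA : letI := G.cs (HB 3)
    SmEmb (IB 1) (IB 3) G.AA :=
  G.emb_c (f := Prod.map K.k id) (K.emb.1.prodMap contMDiff_id) (fun p => knot_O1 ⟨p.1, rfl⟩)
    (K.emb.2.1.injective.prodMap injective_id) fun p => by
      rw [Pool.Agent.Lib.MP_7ac2ff_gt.LT.dif_k]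
      exact (K.emb.2.2 p.1).prodMap injective_id

lemma neat (p : Circle × II) : letI := G.cs (HB 3)
    ∃ u, (dif (IB 1) (IB 3) G.AA p u).2 ≠ 0 := by
  obtain ⟨τ, h⟩ := exists_ne (0 : E 1)
  refine ⟨(0, τ), ?_⟩
  have := G.dif_c (f := Prod.map K.k id) (K.emb.1.prodMap contMDiff_id)
    (fun p => knot_O1 ⟨p.1, rfl⟩) p
  rw [Pool.Agent.Lib.MP_7ac2ff_gt.LT.dif_k] at this
  rw [show G.AA = G.c1.symm ∘ Prod.map K.k id from rfl, this]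
  exact h

lemma bd_AA : letI := G.cs (HB 3)
    G.AA ⁻¹' (IB 3).boundary W = (IB 1).boundary (Circle × II) := by
  ext p
  exact (G.bd_e1 (knot_O1 ⟨p.1, rfl⟩)).trans (bd_cyl p).symm

lemma mem_AA {w : W} : w ∈ range G.AA ↔ w ∈ G.c1.source ∧ (G.c1 w).1 ∈ range K.k := by
  constructor
  · rintro ⟨p, rfl⟩
    have h : (K.k p.1, p.2) ∈ T.O1 := knot_O1 ⟨p.1, rfl⟩
    exact ⟨G.m1 h, p.1, by rw [AA, G.r1 h]⟩
  · rintro ⟨a, z, e⟩
    exact ⟨(z, (G.c1 w).2), by rw [AA, e]; exact G.c1.left_inv a⟩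

lemma AA_e1 {m : MM} (h : m ∈ T.O1) : G.c1.symm m ∈ range G.AA ↔ m.1 ∈ range K.k := by
  rw [G.mem_AA, G.r1 h]
  simp only [G.m1 h, true_and]

lemma rr_AA : G.rr '' range G.AA = range G.AA := by
  have : ∀ w ∈ range G.AA, G.rr w ∈ range G.AA := fun w h => by
    obtain ⟨a, b⟩ := G.mem_AA.1 h
    rw [← G.c1.left_inv a, G.rr_e1 (G.s1 a), G.AA_e1 (ρ1_mem (G.s1 a))]
    exact ρ1_knot b
  exact subset_antisymm (image_subset_iff.2 this) fun w h => ⟨_, this w h, G.rr_rr w⟩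

end LT

end Pool.Agent.Lib.MP_7ac2ff_gt.Sh
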