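import Pool.Agent.Lib.MP_7ac2ff_gt.ShC
import Pool.Agent.Lib.MP_7ac2ff_gt.Homol

/-! The transformed manifold is a rational homology cobordism. -/

namespace Pool.Agent.Lib.MP_7ac2ff_gt.Sh

open Set Function Filter Complex CategoryTheory
open scoped Manifold ContDiff Topology ComplexConjugate

set_option linter.style.haveILetI false

def Db : Set ℂ := {η | |(η ^ 2).im| ≤ 1 / 2 ∧ |(η ^ 2).re| ≤ 1}
def Do : Set ℂ := {η | |(η ^ 2).im| < 1 / 2 ∧ |(η ^ 2).re| ≤ 1}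

lemma Do_sub : Do ⊆ Db := fun _ h => ⟨h.1.le, h.2⟩

lemma compact_Db : IsCompact Db := by
  refine (isCompact_closedBall (0 : ℂ) 2).of_isClosed_subset
    ((isClosed_le (f := fun η : ℂ => |(η ^ 2).im|) (by fun_prop) continuous_const).inter
      (isClosed_le (f := fun η : ℂ => |(η ^ 2).re|) (by fun_prop) continuous_const)) fun η h => ?_
  have := norm_le_abs_re_add_abs_im (η ^ 2)
  rw [norm_pow] at this
  rw [mem_closedBall_zero_iff]
  nlinarith [h.1, h.2, norm_nonneg η]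

lemma Do_smul {c : ℝ} (hc : |c| ≤ 1) {η : ℂ} (h : η ∈ Do) : (c : ℂ) * η ∈ Do := by
  have h1 : c ^ 2 ≤ 1 := by rwa [sq_le_one_iff_abs_le_one]
  have h2 := sq_nonneg c
  simp only [Do, mem_ofPred_eq, mul_pow, ← ofReal_pow, re_ofReal_mul, im_ofReal_mul, abs_mul,
    abs_of_nonneg h2]
  exact ⟨by nlinarith [h.1, abs_nonneg (η ^ 2).im], by nlinarith [h.2, abs_nonneg (η ^ 2).re]⟩

instance contrDo : ContractibleSpace Do :=
  StarConvex.contractibleSpace (x := 0) (fun η h a b ha hb e => by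
    simpa using Do_smul (c := b) (abs_le.2 ⟨by linarith, by linarith⟩) h) ⟨0, by simp [Do]⟩

/-- deck transformation -/
noncomputable def deck : C(TT × Do, TT × Do) :=
  ⟨fun y => ((-y.1.1, y.1.2), ⟨-y.2, by simpa [Do] using y.2.2⟩), by fun_prop⟩

lemma deck_hom : deck.Homotopic (ContinuousMap.id _) :=
  ⟨⟨⟨fun z => ((Circle.exp (Real.pi * (1 - z.1)) * z.2.1.1, z.2.1.2),
    ⟨((2 * z.1 - 1 : ℝ) : ℂ) * z.2.2, Do_smul (abs_le.2 ⟨by linarith [z.1.2.1],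
      by linarith [z.1.2.2]⟩) z.2.2.2⟩), by fun_prop⟩,
    fun y => Prod.ext (Prod.ext (Subtype.ext (by simp [deck])) rfl) (Subtype.ext (by simp [deck])),
    fun y => Prod.ext (Prod.ext (by simp) rfl) (Subtype.ext (by norm_num))⟩⟩

noncomputable def cv (y : TT × ℂ) : C3 :=
  (y.1.1 * conj (nrm y.2), y.1.2, y.2 ^ 2)

lemma gd_cv {y : TT × ℂ} (h : y.2 ∈ Db) (h0 : y.2 ≠ 0) : Gd (cv y) :=
  ⟨by simp [cv, norm_nrm h0], y.1.2.norm_coe, h.1.trans_lt (by norm_num), h.2⟩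

namespace Shell

variable {K : DSI} (T : Shell K)

def Nb (c : ℝ) : Set MM := {m | m.1 ∈ T.U ∧ |(T.ww m).im| < c}
def Nc (c : ℝ) : Set MM := {m | m.1 ∈ T.U ∧ |(T.ww m).im| ≤ c}

lemma isOpen_Nb (c : ℝ) : IsOpen (T.Nb c) :=
  T.isOpen_ww (Ω := {ζ | |ζ.im| < c}) (_root_.isOpen_lt (by fun_prop) continuous_const)

lemma isClosed_Nc : IsClosed (T.Nc (1 / 4)) :=
  (T.isCompact_ww (C := {ζ | |ζ.im| ≤ 1 / 4}) (isClosed_le (by fun_prop) continuous_const)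
    (c := 1 / 4) (by norm_num) fun _ h => h).isClosed

variable {T}

lemma re_t (x : S3) (t t' : II) : (T.ww (x, t)).im = (T.ww (x, t')).im := by
  rw [ww_im, ww_im]

lemma gd0 {q p : ℂ} (hq : ‖q‖ = 1) (hp : ‖p‖ = 1) : Gd (q, p, 0) := .of_lt hq hp (by simp)

lemma D0 {q p : ℂ} (hq : ‖q‖ = 1) (hp : ‖p‖ = 1) :
    T.Dm (q, p, 0) ∈ T.O3 ∧ T.ww (T.Dm (q, p, 0)) = 0 :=
  ⟨⟨D_mem (gd0 hq hp), by simp [D_ww (gd0 hq hp)]⟩, D_ww (gd0 hq hp)⟩

lemma D_inj {y y' : C3} (h : Gd y) (h' : Gd y') (e : T.Dm y = T.Dm y') : y = y' := by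
  rw [← D_C (T := T) h, e, D_C h']

lemma cv_O1 {y : TT × ℂ} (h : y.2 ∈ Db) (h0 : y.2 ≠ 0) : T.Dm (cv y) ∈ T.O1 := fun e =>
  pow_ne_zero 2 h0 ((D_ww (gd_cv h h0)).symm.trans e.2)

end Shell

namespace LT

open Shell

variable {K : DSI} {T : Shell K} {W : Type} [TopologicalSpace W] (G : LT T W)

lemma cov_e {a p η : ℂ} (ha : ‖a‖ = 1) (hp : ‖p‖ = 1) (h0 : η ≠ 0) (h : ‖η‖ < 1 / 2) :
    G.c3.symm (T.Dm (a ^ 2, p, conj a * η)) =
      G.c1.symm (T.Dm (a * conj (nrm η), p, η ^ 2)) := by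
  have h1 : ((a ^ 2, p, conj a * η) : C3) ∈ An (1 / 2) :=
    ⟨by simp [ha], hp, norm_pos_iff.1 (by simpa [ha] using h0), by simpa [ha] using h⟩
  rw [G.gl _ (An_D (by norm_num) h1), gg_D (An_gd h1 (by norm_num)), g0_cov ha]

noncomputable def jC : C(S3, W) :=
  ⟨G.jj 0, G.c_e1.comp_continuous (by fun_prop) fun _ => end_O1 (.inl rfl)⟩

lemma qi_cyl {B : Set MM} (hB : B ⊆ T.O1) (ht : ∀ x t t', (x, t) ∈ B → (x, t') ∈ B) {Ω : Set W}
    (hΩ : ∀ w, w ∈ Ω ↔ w ∈ G.c1.source ∧ G.c1 w ∈ B) : QI (G.jC.restrictPreimage Ω) := by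
  have k : ∀ {m}, m ∈ B → G.c1.symm m ∈ Ω := fun h =>
    (hΩ _).2 ⟨G.m1 (hB h), (G.r1 (hB h)).symm ▸ h⟩
  have k' : ∀ (x : G.jC ⁻¹' Ω) t, (x.1, t) ∈ B := fun x t =>
    ht _ 0 _ (G.r1 (end_O1 (m := (x.1, 0)) (.inl rfl)) ▸ ((hΩ _).1 x.2).2)
  have c : Continuous fun w : Ω => G.c1 w :=
    G.c1.continuousOn.comp_continuous continuous_subtype_val fun w => ((hΩ _).1 w.2).1
  refine ((QI.inl (0 : II)).comp (QI.of_inv (X := (G.jC ⁻¹' Ω) × II) (Y := Ω)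
    ⟨fun p => ⟨G.c1.symm (p.1.1, p.2), k (k' _ _)⟩,
      (G.c_e1.comp_continuous (by fun_prop) fun p => hB (k' _ _)).subtype_mk _⟩
    ⟨fun w => (⟨(G.c1 w).1, k (ht _ _ 0 ((hΩ _).1 w.2).2)⟩, (G.c1 w).2),
      (c.fst.subtype_mk _).prodMk c.snd⟩ (fun p => ?_)
    fun w => Subtype.ext (G.c1.left_inv ((hΩ _).1 w.2).1))).congr fun x => rfl
  have := G.r1 (hB (k' p.1 p.2))
  exact Prod.ext (Subtype.ext (congrArg Prod.fst this)) (congrArg Prod.snd this :)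

def VV : Set W := (G.c1.symm '' (T.Nb (1 / 2))ᶜ)ᶜ

lemma Nb_O1 {c : ℝ} (hc : 0 < c) : (T.Nb c)ᶜ ⊆ T.O1 := fun _ h e => h ⟨e.1, by simpa [e.2] using hc⟩

lemma isOpen_VV : IsOpen G.VV :=
  haveI := G.t2
  ((T.isOpen_Nb _).isClosed_compl.isCompact.image_of_continuousOn
    (G.c_e1.mono (Nb_O1 (by norm_num)))).isClosed.isOpen_compl

lemma VV_e1 {m : MM} (h : m ∈ T.O1) : G.c1.symm m ∈ G.VV ↔ m ∈ T.Nb (1 / 2) :=
  ⟨fun a => by_contra fun b => a ⟨m, b, rfl⟩,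
    fun a ⟨_, b, e⟩ => b (G.inj1 (Nb_O1 (by norm_num) b) h e ▸ a)⟩

lemma VV_core {w : W} (h : w ∉ G.c1.source) : w ∈ G.VV :=
  fun ⟨_, b, e⟩ => h (e ▸ G.m1 (Nb_O1 (by norm_num) b))

open Classical in
/-- double cover of the neighbourhood of the double fibre -/
noncomputable def pp (y : TT × ℂ) : W :=
  if y.2 = 0 then G.c3.symm (T.Dm (y.1.1 ^ 2, y.1.2, 0)) else G.c1.symm (T.Dm (cv y))

lemma D0' (y : TT) : T.Dm (y.1 ^ 2, y.2, 0) ∈ T.O3 ∧ T.ww (T.Dm (y.1 ^ 2, y.2, 0)) = 0 :=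
  D0 (by simp) y.2.norm_coe

lemma c_pp {y : TT × ℂ} (h : y.2 ∈ Db) : ContinuousAt G.pp y := by
  by_cases h0 : y.2 = 0
  · have e : (((y.1.1 : ℂ) ^ 2, y.1.2, conj (y.1.1 : ℂ) * y.2) : C3) =
        ((y.1.1 : ℂ) ^ 2, (y.1.2 : ℂ), 0) := by rw [h0, mul_zero]
    have h3 := (G.c_e3.continuousAt ((T.isOpen_lt _).mem_nhds (D0' y.1).1)).comp_of_eq
      ((c_Dm (T := T) (gd0 (by simp) y.1.2.norm_coe)).comp_of_eq (f := fun y : TT × ℂ =>
        (((y.1.1 : ℂ) ^ 2, y.1.2, conj (y.1.1 : ℂ) * y.2) : C3)) (by fun_prop) e) (congrArg T.Dm e)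
    refine h3.congr ?_
    filter_upwards [continuous_snd.norm.continuousAt.eventually_lt (g := fun _ => (1 / 2 : ℝ))
      continuousAt_const (by simp [h0])] with z hz
    simp only [pp, comp_apply]
    split_ifs with a
    · rw [a, mul_zero]
    · exact G.cov_e z.1.1.norm_coe z.1.2.norm_coe a hz
  · have h1 : ContinuousAt cv y :=
      (ContinuousAt.mul (by fun_prop) (continuous_conj.continuousAt.comp
        ((cd_nrm contDiffAt_id h0).continuousAt.comp continuousAt_snd))).prodMk (by fun_prop)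
    refine (((G.c_e1.continuousAt (T.isOpen_O1.mem_nhds (cv_O1 h h0))).comp
      (c_Dm (gd_cv h h0))).comp h1).congr ?_
    filter_upwards [continuous_snd.continuousAt.eventually_ne h0] with z hz
    exact (if_neg hz).symm

lemma pp_src {y : TT × ℂ} (h : y.2 ∈ Db) : G.pp y ∈ G.c1.source ↔ y.2 ≠ 0 := by
  unfold pp
  split_ifs with a
  · simp only [G.core' (D0' y.1).1 (D0' y.1).2, a, ne_eq, not_true]
  · simp only [G.m1 (cv_O1 h a), a, ne_eq, not_false_iff]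

lemma pp_V {y : TT × ℂ} (h : y.2 ∈ Db) : G.pp y ∈ G.VV ↔ y.2 ∈ Do := by
  by_cases a : y.2 = 0
  · exact ⟨fun _ => by simp [a, Do], fun _ => G.VV_core fun e => (G.pp_src h).1 e a⟩
  · rw [pp, if_neg a, G.VV_e1 (cv_O1 h a), Nb, mem_ofPred_eq, D_ww (gd_cv h a)]
    exact ⟨fun e => ⟨e.2, h.2⟩, fun e => ⟨D_mem (gd_cv h a), e.1⟩⟩

lemma pp_surj {w : W} (h : w ∈ G.VV) : ∃ y : TT × ℂ, y.2 ∈ Do ∧ G.pp y = w := by
  by_cases a : w ∈ G.c1.source
  · have h1 := G.s1 a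
    rw [← G.c1.left_inv a, G.VV_e1 h1] at h
    obtain ⟨η, e⟩ := IsAlgClosed.exists_pow_nat_eq (T.ww (G.c1 w)) two_pos
    have h0 : η ≠ 0 := fun b => h1 ⟨h.1, by simp [← e, b]⟩
    have n1 := unit_mul_conj (norm_nrm h0)
    refine ⟨((⟨T.av (G.c1 w) * nrm η, mem_sphere_zero_iff_norm.2
      (by simp [norm_av h.1, norm_nrm h0])⟩, ⟨T.pv (G.c1 w),
        mem_sphere_zero_iff_norm.2 (norm_pv h.1)⟩), η),
      by rw [Do, mem_ofPred_eq, e]; exact ⟨h.2, abs_ww_re _⟩, ?_⟩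
    rw [pp, if_neg h0]
    refine (congrArg _ ((congrArg T.Dm (?_ : _ = T.Cm (G.c1 w))).trans
      (C_D h.1))).trans (G.c1.left_inv a)
    refine Prod.ext ?_ (Prod.ext rfl e)
    simp only [cv, Cm]
    linear_combination T.av (G.c1 w) * n1
  · obtain ⟨a1, a2, a3⟩ := G.core a
    obtain ⟨b, hb⟩ := IsAlgClosed.exists_pow_nat_eq (T.av (G.c3 w)) two_pos
    have nb : ‖b‖ = 1 := (pow_eq_one_iff_of_nonneg (norm_nonneg _) two_ne_zero).1
      (by rw [← norm_pow, hb, norm_av a1.1])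
    refine ⟨((⟨b, mem_sphere_zero_iff_norm.2 nb⟩, ⟨_, mem_sphere_zero_iff_norm.2 (norm_pv a1.1)⟩),
      0), by simp [Do], ?_⟩
    rw [pp, if_pos rfl]
    refine (congrArg _ ((congrArg T.Dm (?_ : _ = T.Cm (G.c3 w))).trans (O3_C a1).2)).trans a3
    exact Prod.ext hb (Prod.ext rfl a2.symm)

lemma pp_fib {y y' : TT × ℂ} (h : y.2 ∈ Db) (h' : y'.2 ∈ Db) :
    G.pp y = G.pp y' ↔ y' = y ∨ y' = ((-y.1.1, y.1.2), -y.2) := by
  constructor
  · intro e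
    have h01 : y.2 ≠ 0 ↔ y'.2 ≠ 0 := by rw [← G.pp_src h, ← G.pp_src h', e]
    by_cases a : y.2 = 0
    · have b : y'.2 = 0 := not_not.1 (mt h01.2 (not_not.2 a))
      rw [pp, pp, if_pos a, if_pos b] at e
      replace e := D_inj (gd0 (by simp) y.1.2.norm_coe) (gd0 (by simp) y'.1.2.norm_coe)
        (G.inj3 (D0' _).1 (D0' _).1 e)
      simp only [Prod.mk.injEq, and_true] at e
      refine (sq_eq_sq_iff_eq_or_eq_neg.1 e.1.symm).imp (fun c => ?_) fun c => ?_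
      · exact Prod.ext (Prod.ext (Subtype.ext c) (Subtype.ext e.2.symm)) (b.trans a.symm)
      · exact Prod.ext (Prod.ext (Subtype.ext c) (Subtype.ext e.2.symm)) (by simp [a, b])
    · have b := h01.1 a
      rw [pp, pp, if_neg a, if_neg b] at e
      replace e := D_inj (gd_cv h a) (gd_cv h' b) (G.inj1 (cv_O1 h a) (cv_O1 h' b) e)
      simp only [cv, Prod.mk.injEq] at e
      obtain ⟨e1, e2, e3⟩ := e
      have n0 : conj (nrm y.2) ≠ 0 := norm_pos_iff.1 (by simp [norm_nrm a])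
      refine (sq_eq_sq_iff_eq_or_eq_neg.1 e3.symm).imp (fun c => ?_) fun c => ?_
      · rw [c] at e1
        exact Prod.ext (Prod.ext (Subtype.ext (mul_right_cancel₀ n0 (by linear_combination -e1)))
          (Subtype.ext e2.symm)) c
      · rw [c, show nrm (-y.2) = -nrm y.2 by simp [nrm], map_neg] at e1
        exact Prod.ext (Prod.ext (Subtype.ext (mul_right_cancel₀ n0 (by
          rw [Circle.coe_neg]; linear_combination e1))) (Subtype.ext e2.symm)) c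
  · rintro (rfl | rfl)
    · rfl
    · simp [pp, cv, nrm]

noncomputable def pC : C(TT × Do, G.VV) :=
  ⟨fun y => ⟨G.pp (y.1, y.2), (G.pp_V (Do_sub y.2.2)).2 y.2.2⟩,
    (continuous_iff_continuousAt.2 fun y => ContinuousAt.comp (g := G.pp)
      (G.c_pp (Do_sub y.2.2)) (by fun_prop)).subtype_mk _⟩

lemma pC_fib (x y : TT × Do) : G.pC x = G.pC y ↔ y = x ∨ y = deck x := by
  refine Subtype.ext_iff.trans ((G.pp_fib (y := (x.1, x.2)) (y' := (y.1, y.2)) (Do_sub x.2.2)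
    (Do_sub y.2.2)).trans ?_)
  simp only [Prod.ext_iff (x := y), Subtype.ext_iff (a1 := y.2), Prod.mk.injEq]
  rfl

lemma deck_deck : Involutive deck := fun x =>
  Prod.ext (Prod.ext (neg_neg x.1.1) rfl) (Subtype.ext (neg_neg (x.2 : ℂ)))

lemma qi_pC : QI G.pC := by
  haveI := G.t2
  have hs : Surjective G.pC := fun w => by
    obtain ⟨y, a, e⟩ := G.pp_surj w.2
    exact ⟨(y.1, ⟨y.2, a⟩), Subtype.ext e⟩
  have hc : IsClosedMap G.pC := fun C hC => by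
    obtain ⟨C', h1, rfl⟩ := (Topology.IsInducing.id.prodMap
      Topology.IsInducing.subtypeVal).isClosed_iff.1 hC
    have := (((isCompact_univ.prod compact_Db).inter_right h1).image_of_continuousOn
      fun y hy => (G.c_pp hy.1.2).continuousWithinAt).isClosed.preimage
        (continuous_subtype_val (p := (· ∈ G.VV)))
    convert this using 1
    ext w
    constructor
    · rintro ⟨y, a, rfl⟩
      exact ⟨(y.1, y.2), ⟨⟨trivial, Do_sub y.2.2⟩, a⟩, rfl⟩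
    · rintro ⟨y, ⟨a, b⟩, e⟩
      exact ⟨(y.1, ⟨y.2, (G.pp_V a.2).1 (e ▸ w.2)⟩), b, Subtype.ext e⟩
  refine QI.transfer ⟨hs, G.pC.continuous, fun O hO => ?_⟩ deck_deck
    (fun x e => Circle.neg_ne_self x.1.1 (congrArg (·.1.1) e)) G.pC_fib deck_hom
  rw [← (hc.isQuotientMap G.pC.continuous hs).isOpen_preimage]
  convert hO.union (hO.preimage deck.continuous) using 1
  ext x
  constructor
  · rintro ⟨y, a, e⟩
    rcases (G.pC_fib x y).1 e.symm with rfl | rfl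
    exacts [.inl a, .inr a]
  · rintro (a | a)
    exacts [⟨x, a, rfl⟩, ⟨_, a, ((G.pC_fib x _).2 (.inr rfl)).symm⟩]

lemma qi_VV : QI (G.jC.restrictPreimage G.VV) := by
  have k : ∀ x : G.jC ⁻¹' G.VV, ((x.1, 0) : MM) ∈ T.Nb (1 / 2) := fun x =>
    (G.VV_e1 (end_O1 (.inl rfl))).1 x.2
  have c : Continuous fun x : G.jC ⁻¹' G.VV => T.Cm (x.1, 0) :=
    continuous_iff_continuousAt.2 fun x => ContinuousAt.comp (g := T.Cm)
      (s_Cm (k x).1).continuousAt (by fun_prop)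
  have i : ∀ x : S3, (T.ww (x, 0)).re = 1 := fun x => by simp [ww_re]
  have i0 : ∀ {ζ : ℂ}, ζ.re = 1 → sq0 ζ ≠ 0 := fun h e => by
    have := sq0_sq h
    rw [e, zero_pow two_ne_zero] at this
    simp [← this] at h
  have cn : ∀ {ζ : ℂ}, ζ.re = 1 → ContinuousAt (fun ζ => nrm (sq0 ζ)) ζ := fun h =>
    ContinuousAt.comp (g := nrm) (cd_nrm contDiffAt_id (i0 h)).continuousAt (c_sq0 h)
  have c' : Continuous fun x : G.jC ⁻¹' G.VV => sq0 (T.ww (x.1, 0)) :=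
    continuous_iff_continuousAt.2 fun x => ContinuousAt.comp (g := sq0)
      (c_sq0 (i _)) c.snd.snd.continuousAt
  have c'' : Continuous fun x : G.jC ⁻¹' G.VV => nrm (sq0 (T.ww (x.1, 0))) :=
    continuous_iff_continuousAt.2 fun x => ContinuousAt.comp (g := fun ζ => nrm (sq0 ζ))
      (cn (i _)) c.snd.snd.continuousAt
  have na : ∀ x : G.jC ⁻¹' G.VV, T.av (x.1, 0) * nrm (sq0 (T.ww (x.1, 0))) ∈
      Metric.sphere (0 : ℂ) 1 := fun x =>
    mem_sphere_zero_iff_norm.2 (by rw [norm_mul, norm_av (k x).1, norm_nrm (i0 (i _)), one_mul])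
  let π : C(G.jC ⁻¹' G.VV, TT) := ⟨fun x =>
    (⟨_, na x⟩, ⟨T.pv (x.1, 0), mem_sphere_zero_iff_norm.2 (norm_pv (k x).1)⟩),
    ((c.fst.mul c'').subtype_mk na).prodMk (c.snd.fst.subtype_mk _)⟩
  have s' : ∀ x : G.jC ⁻¹' G.VV, sq0 (T.ww (x.1, 0)) ∈ Do := fun x => by
    rw [Do, mem_ofPred_eq, sq0_sq (i _)]; exact ⟨(k x).2, abs_ww_re _⟩
  let ℓ : C(G.jC ⁻¹' G.VV, TT × Do) :=
    ⟨fun x => (π x, ⟨_, s' x⟩), π.continuous.prodMk (c'.subtype_mk s')⟩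
  haveI : ContractibleSpace (Ioo (-(1 / 2) : ℝ) (1 / 2)) :=
    (convex_Ioo _ _).contractibleSpace ⟨0, by norm_num⟩
  have r1 : ∀ r : ℝ, (1 + r * I : ℂ).re = 1 := fun r => by simp
  let F : TT × Ioo (-(1 / 2) : ℝ) (1 / 2) → C3 := fun p =>
    (p.1.1 * conj (nrm (sq0 (1 + (p.2 : ℝ) * I))), p.1.2, 1 + (p.2 : ℝ) * I)
  have cF0 : Continuous F := by
    have : Continuous fun p : TT × Ioo (-(1 / 2) : ℝ) (1 / 2) => nrm (sq0 (1 + (p.2 : ℝ) * I)) :=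
      continuous_iff_continuousAt.2 fun p => ContinuousAt.comp (g := fun ζ => nrm (sq0 ζ))
        (cn (r1 _)) (by fun_prop)
    fun_prop
  have gF : ∀ p, Gd (F p) := fun p => ⟨by simp [F, norm_nrm (i0 (r1 _))], p.1.2.norm_coe,
    by simpa [F] using (abs_lt.2 p.2.2).trans (by norm_num : (1 / 2 : ℝ) < 3), by simp [F]⟩
  have eF : ∀ p, ((T.Dm (F p)).1, 0) = T.Dm (F p) := fun p =>
    Prod.ext rfl (Subtype.ext (by simp [Dm, F]))
  have cF : ∀ p, T.Cm ((T.Dm (F p)).1, 0) = F p := fun p => by rw [eF, D_C (gF p)]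
  let h : C(TT × Ioo (-(1 / 2) : ℝ) (1 / 2), G.jC ⁻¹' G.VV) :=
    ⟨fun p => ⟨(T.Dm (F p)).1, (G.VV_e1 (end_O1 (.inl rfl))).2 ⟨D_mem (gF p), by
        rw [eF, D_ww (gF p)]; simpa [F] using abs_lt.2 p.2.2⟩⟩,
      (continuous_iff_continuousAt.2 fun p => ContinuousAt.comp (g := T.Dm) (f := F)
        (c_Dm (gF p)) cF0.continuousAt).fst.subtype_mk _⟩
  have l : ∀ p, π (h p) = p.1 := fun p => Prod.ext (Subtype.ext (by
      change (T.Cm ((T.Dm (F p)).1, 0)).1 * nrm (sq0 (T.Cm ((T.Dm (F p)).1, 0)).2.2) = _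
      rw [cF, mul_assoc, mul_comm (conj _), unit_mul_conj (norm_nrm (i0 (r1 _))), mul_one]))
    (Subtype.ext (congrArg (·.2.1) (cF p)))
  have e1 : ∀ x : G.jC ⁻¹' G.VV, cv (π x, sq0 (T.ww (x.1, 0))) = T.Cm (x.1, 0) := fun x =>
    Prod.ext ((mul_assoc _ _ _).trans ((congrArg _ (unit_mul_conj (norm_nrm (i0 (i _))))).trans
      (mul_one _))) (Prod.ext rfl (sq0_sq (i _)))
  have q0 := QI.of_inv h ⟨fun x => (π x, ⟨(T.ww (x.1, 0)).im, abs_lt.1 (k x).2⟩),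
    π.continuous.prodMk ((continuous_im.comp c.snd.snd).subtype_mk _)⟩
    (fun p => Prod.ext (l p) (Subtype.ext ((congrArg (·.2.2.im) (cF p)).trans (by simp [F]))))
    fun x => Subtype.ext (by
      have e : (1 + (T.ww (x.1, 0)).im * I : ℂ) = T.ww (x.1, 0) :=
        Complex.ext (by simp [i]) (by simp)
      have : F (π x, ⟨(T.ww (x.1, 0)).im, abs_lt.1 (k x).2⟩) = T.Cm (x.1, 0) := by
        rw [← e1, cv, sq0_sq (i _)]
        simp only [F, e]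
      exact (congrArg (fun y => (T.Dm y).1) this).trans (congrArg Prod.fst (C_D (k x).1)))
  have q1 : QI π := QI.of_comp_left q0 (QI.fst.congr fun p => (l p).symm)
  have q2 : QI ℓ := QI.of_comp_right QI.fst (q1.congr fun _ => rfl)
  refine (q2.comp G.qi_pC).congr fun x => Subtype.ext ?_
  change G.pp (π x, sq0 (T.ww (x.1, 0))) = G.c1.symm (x.1, 0)
  rw [pp, if_neg (i0 (i _)), e1, C_D (k x).1]

theorem qi_j : QI G.jC := by
  letI := G.cs (HB 3)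
  have hB : (T.Nc (1 / 4))ᶜ ⊆ T.O1 := fun _ h e => h ⟨e.1, by simp [e.2]⟩
  have ht : ∀ x t t', (x, t) ∈ (T.Nc (1 / 4))ᶜ → (x, t') ∈ (T.Nc (1 / 4))ᶜ :=
    fun x t t' h e => h ⟨e.1, re_t x t t' ▸ e.2⟩
  refine QI.mv (G.emb_jj (.inl rfl)).2.1 (G.c1.isOpen_inter_preimage T.isClosed_Nc.isOpen_compl)
    G.isOpen_VV (eq_univ_of_forall fun w => ?_) (G.qi_cyl hB ht fun _ => Iff.rfl) G.qi_VV
    (G.qi_cyl (B := (T.Nc (1 / 4))ᶜ ∩ T.Nb (1 / 2)) (inter_subset_left.trans hB)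
      (fun x t t' h => ⟨ht x t t' h.1, h.2.1, re_t x t t' ▸ h.2.2⟩) fun w => ?_)
  · by_cases a : w ∈ G.c1.source
    · by_cases b : G.c1 w ∈ T.Nc (1 / 4)
      · refine .inr ?_
        rw [← G.c1.left_inv a, G.VV_e1 (G.s1 a)]
        exact ⟨b.1, by linarith [b.2]⟩
      · exact .inl ⟨a, b⟩
    · exact .inr (G.VV_core a)
  · refine and_assoc.trans (and_congr_right fun a => and_congr_right fun _ => ?_)
    rw [← G.VV_e1 (G.s1 a), G.c1.left_inv a]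

include G in
theorem homol (n : ℕ) : Nonempty (Hq n W ≅ Hq n (S3 × II)) :=
  haveI := G.qi_j n
  haveI := QI.fst (X := S3) (Y := II) n
  ⟨(asIso ((HF n).map (TopCat.ofHom G.jC))).symm ≪≫
    (asIso ((HF n).map (TopCat.ofHom (ContinuousMap.fst : C(S3 × II, S3))))).symm⟩

end LT

end Pool.Agent.Lib.MP_7ac2ff_gt.Sh
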