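import Pool.Agent.Lib.MP_7ac2ff_gt.ShD
import Pool.Agent.Lib.MP_7ac2ff_gt.Surf

/-! Folding maps for the transform along a shell. -/

namespace Pool.Agent.Lib.MP_7ac2ff_gt.Sh

open Set Function Filter Complex
open scoped Manifold ContDiff Topology ComplexConjugate

set_option linter.style.haveILetI false

abbrev HH (u : Bool) : Set MM := Hf (if u then 1 else -1)

noncomputable def tau (b : Bool) (ζ : ℂ) : ℂ := (if b then 1 else -1) * conj (cc true ζ)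

lemma norm_tau (b : Bool) (ζ : ℂ) : ‖tau b ζ‖ = 1 := by cases b <;> simp [tau, norm_cc]

lemma tau_cc (b : Bool) (ζ : ℂ) : tau b ζ * cc true ζ = if b then 1 else -1 := by
  rw [tau, mul_assoc, mul_comm (conj _), unit_mul_conj (norm_cc _ _), mul_one]

/-- the side of the torus -/
def Sd (b : Bool) (x : ℝ) : Prop := if b then 0 ≤ x else x ≤ 0

lemma tau_big {b : Bool} {ζ : ℂ} (h : 2 ≤ |ζ.im|) (hs : Sd b ζ.im) : tau b ζ = 1 := by
  cases b
  · simp [tau, cc_lo (show ζ.im ≤ -2 by rw [abs_of_nonpos hs] at h; linarith)]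
  · simp [tau, cc_hi (show 2 ≤ ζ.im by rwa [abs_of_nonneg hs] at h)]

lemma tau_nu {b : Bool} {ζ : ℂ} (h0 : ζ ≠ 0) (h : ζ.re = 0) (hs : Sd b ζ.im) :
    tau b ζ * nu true ζ = nu false ζ := by
  have hi : ζ.im ≠ 0 := fun e => h0 (Complex.ext h e)
  rw [nu, ← mul_assoc, tau_cc, nu]
  cases b
  · simp [cc, ← sg_neg h (lt_of_le_of_ne hs hi)]
  · simp [cc, ← sg_pos h (lt_of_le_of_ne hs hi.symm)]

namespace Shell

variable {K : DSI} {T : Shell K} {u : Bool} {m : MM}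

lemma hp (hm : m ∈ HH u) : Hp u (T.ww m) := by
  have : 0 ≤ (if u then 1 else -1 : ℝ) * (2 * (m.2 : ℝ) - 1) := hm
  cases u <;> simp only [Hp, ww_re, Bool.false_eq_true, if_false, if_true] at this ⊢ <;> linarith

lemma sgv_O1 (hm : m ∈ HH u) (h : m ∈ T.O1) (h' : m.1 ∈ T.U) : sgv u (T.ww m) ≠ 0 :=
  sgv_ne (fun e => h ⟨h', e⟩) (hp hm)

lemma nu_O1 (hm : m ∈ HH u) (h : m ∈ T.O1) (h' : m.1 ∈ T.U) : ‖nu u (T.ww m)‖ = 1 :=
  norm_nu (sgv_O1 hm h h')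

lemma core_t (h : T.ww m = 0) : (m.2 : ℝ) = 1 / 2 := by
  have h1 := T.ww_re m
  rw [h, zero_re] at h1
  linarith

lemma n_ac (h : m.1 ∈ T.U) : ‖T.av m * cc u (T.ww m)‖ = 1 := by simp [norm_av h, norm_cc]

lemma sq_av (h : m.1 ∈ T.U) : ‖(T.av m * cc u (T.ww m)) ^ 2‖ = 1 := by rw [norm_pow, n_ac h, one_pow]

variable (T) in
/-- the involutions of the two halves -/
noncomputable def RR (u : Bool) (m : MM) : MM := T.tw (rl u) (R0 K m)

lemma tw_O1' {v : ℂ → ℂ} (hv : ∀ ζ, ‖v ζ‖ = 1) : T.tw v m ∈ T.O1 ↔ m ∈ T.O1 := by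
  by_cases h : m.1 ∈ T.U
  · obtain ⟨a, -, -, b⟩ := tw_in h (hv _)
    simp only [O1, mem_ofPred_eq, a, b, h]
  · rw [tw_out h]

lemma RR_in (h : m.1 ∈ T.U) : (T.RR u m).1 ∈ T.U ∧
    T.av (T.RR u m) = conj (T.av m) * rl u (T.ww m) ∧ T.pv (T.RR u m) = conj (T.pv m) ∧
      T.ww (T.RR u m) = T.ww m := by
  obtain ⟨a1, a2, a3, a4⟩ := R0_in h
  obtain ⟨b1, b2, b3, b4⟩ := tw_in a1 (norm_rl u _)
  exact ⟨b1, by rw [RR, b2, a2, a4], b3.trans a3, b4.trans a4⟩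

lemma RR_HH (hm : m ∈ HH u) : T.RR u m ∈ HH u := by
  simpa only [HH, Hf, RR, mem_ofPred_eq, tw_snd, R0] using hm

end Shell

namespace LT

open Shell

variable {K : DSI} {T : Shell K} {W : Type} [TopologicalSpace W] (G : LT T W) {u u' : Bool}
  {m m' : MM}

open Classical in
/-- folding map -/
noncomputable def JJ (u : Bool) (m : MM) : W :=
  if m ∈ T.O1 then G.c1.symm (T.tw (nu u) m)
  else G.c3.symm (T.Dm ((T.av m * cc u (T.ww m)) ^ 2, T.pv m, 0))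

lemma JJ_in (h : m ∈ T.O1) : G.JJ u m = G.c1.symm (T.tw (nu u) m) := if_pos h

lemma JJ_core (h : m.1 ∈ T.U) (h0 : T.ww m = 0) :
    G.JJ u m = G.c3.symm (T.Dm ((T.av m * cc u (T.ww m)) ^ 2, T.pv m, 0)) :=
  if_neg (not_not.2 ⟨h, h0⟩)

lemma JJ_near (hm : m ∈ HH u) (h : m.1 ∈ T.U) (h1 : ‖T.ww m‖ < 1 / 4) :
    G.JJ u m = G.c3.symm (T.Dm ((T.av m * cc u (T.ww m)) ^ 2, T.pv m,
      conj (T.av m * cc u (T.ww m)) * eta u (T.ww m))) := by
  by_cases h0 : T.ww m = 0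
  · rw [G.JJ_core h h0, h0, eta_zero, mul_zero]
  have h3 := eta_sq (hp (T := T) hm) (by linarith)
  have h6 := congrArg norm h3
  rw [norm_pow] at h6
  rw [G.cov_e (n_ac h) (norm_pv h) (fun e => h0 (by rw [← h3, e]; simp))
    (by nlinarith [norm_nonneg (eta u (T.ww m))]), h3, nrm_eta h0 (hp hm),
    G.JJ_in fun e => h0 e.2, mul_assoc, tw_eq h]
  rfl

lemma c_JJ : ContinuousOn (G.JJ u) (HH u) := by
  intro m hm
  by_cases h : m ∈ T.O1
  · have h1 := (G.c_e1.continuousAt (T.isOpen_O1.mem_nhds (tw_O1 h (nu_O1 hm h)))).comp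
      (s_tw (fun _ => nu_big u) fun h' => ⟨cd_nu (sgv_O1 hm h h'), nu_O1 hm h h'⟩).continuousAt
    refine (h1.congr ?_).continuousWithinAt
    filter_upwards [T.isOpen_O1.mem_nhds h] with y hy
    exact (G.JJ_in hy).symm
  · obtain ⟨h1, h0⟩ := not_not.1 h
    have a : ContinuousAt (fun m => T.av m * cc u (T.ww m)) m :=
      (s_Cm h1).continuousAt.fst.mul ((cd_cc u _).continuousAt.comp (c_ww h1))
    have h2 : ContinuousAt (fun m => (((T.av m * cc u (T.ww m)) ^ 2, T.pv m,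
        conj (T.av m * cc u (T.ww m)) * eta u (T.ww m)) : C3)) m :=
      (a.pow 2).prodMk ((s_Cm h1).continuousAt.snd.fst.prodMk
        ((continuous_conj.continuousAt.comp a).mul
          ((continuousAt_eta_zero u).comp_of_eq (c_ww h1) h0)))
    have e : (((T.av m * cc u (T.ww m)) ^ 2, T.pv m,
        conj (T.av m * cc u (T.ww m)) * eta u (T.ww m)) : C3) =
        ((T.av m * cc u (T.ww m)) ^ 2, T.pv m, 0) := by rw [h0, eta_zero, mul_zero]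
    have h3 := (G.c_e3.continuousAt ((T.isOpen_lt _).mem_nhds
      (D0 (sq_av h1) (norm_pv h1)).1)).comp_of_eq
      ((c_Dm (T := T) (gd0 (sq_av h1) (norm_pv h1))).comp_of_eq h2 e) (congrArg T.Dm e)
    refine h3.continuousWithinAt.congr_of_eventuallyEq ?_ (G.JJ_near hm h1 (by simp [h0]))
    filter_upwards [self_mem_nhdsWithin, nhdsWithin_le_nhds ((T.isOpen_lt (1 / 4)).mem_nhds
      (show m ∈ _ from ⟨h1, by simp [h0]⟩))] with y a b
    exact G.JJ_near a b.1 b.2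

lemma rr_core {q p : ℂ} (hq : ‖q‖ = 1) (hp : ‖p‖ = 1) :
    G.rr (G.c3.symm (T.Dm (q, p, 0))) = G.c3.symm (T.Dm (conj q, conj p, 0)) := by
  rw [G.rr_e3 (D0 hq hp).1, ρ3, D_C (gd0 hq hp), r0, mul_zero]

lemma rr_JJ (hm : m ∈ HH u) : G.rr (G.JJ u m) = G.JJ u (T.RR u m) := by
  by_cases h : m ∈ T.O1
  · have h' := R0_O1.2 h
    have hm' : R0 K m ∈ HH u := hm
    rw [G.JJ_in h, G.rr_e1 (tw_O1 h (nu_O1 hm h)), RR, G.JJ_in ((tw_O1' (norm_rl u)).2 h'), ρ1,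
      R0_tw (nu_O1 hm h), tw_tw (by simpa using nu_O1 hm' h'), tw_tw fun _ => norm_rl u _]
    exact congrArg _ (tw_congr fun e => nu_mu (sgv_O1 hm' h' e))
  · obtain ⟨h1, h0⟩ := not_not.1 h
    obtain ⟨a1, a2, a3, a4⟩ := RR_in (u := u) h1
    rw [G.JJ_core h1 h0, G.JJ_core a1 (a4.trans h0), G.rr_core (sq_av h1) (norm_pv h1), a2, a3, a4,
      map_pow, map_mul, rl, sq (conj _), mul_assoc, mul_assoc, mul_comm (conj _) (cc _ _),
      unit_mul_conj (norm_cc _ _), mul_one]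

lemma JJ_src (hm : m ∈ HH u) : G.JJ u m ∈ G.c1.source ↔ m ∈ T.O1 := by
  by_cases h : m ∈ T.O1
  · simp only [h, G.JJ_in h, G.m1 (tw_O1 h (nu_O1 hm h))]
  · obtain ⟨h1, h0⟩ := not_not.1 h
    have := D0 (T := T) (sq_av (u := u) h1) (norm_pv h1)
    simp only [h, G.JJ_core h1 h0, G.core' this.1 this.2]

lemma JJ_end (u : Bool) (x : S3) :
    G.JJ u (x, if u then 1 else 0) = G.jj (if u then 1 else 0) x := by
  rw [G.JJ_in (end_O1 (by cases u <;> simp)),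
    tw_one fun _ => nu_end (by cases u <;> norm_num [ww_re]), jj]

lemma JJ_AA (hm : m ∈ HH u) : G.JJ u m ∈ range G.AA ↔ m.1 ∈ range K.k := by
  by_cases h : m ∈ T.O1
  · rw [G.JJ_in h, G.AA_e1 (tw_O1 h (nu_O1 hm h)), tw_knot (nu_O1 hm h)]
  · exact ⟨fun e => (h ((G.JJ_src hm).1 (G.mem_AA.1 e).1)).elim, fun e => (h (knot_O1 e)).elim⟩

lemma JJ_bd (hm : m ∈ HH u) : letI := G.cs (HB 3)
    G.JJ u m ∈ (IB 3).boundary W ↔ m.2 = 0 ∨ m.2 = 1 := by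
  by_cases h : m ∈ T.O1
  · rw [G.JJ_in h, G.bd_e1 (tw_O1 h (nu_O1 hm h)), tw_snd]
  · exact ⟨fun e => (h ((G.JJ_src hm).1 ((G.bd _).1 e).1)).elim, fun e => (h (end_O1 e)).elim⟩

lemma JJ_slit (b : Bool) (ht : (m.2 : ℝ) = 1 / 2) (h : m.1 ∈ T.U → Sd b (T.ww m).im) :
    G.JJ true (T.tw (tau b) m) = G.JJ false m := by
  by_cases h0 : m ∈ T.O1
  · rw [G.JJ_in ((tw_O1' (norm_tau b)).2 h0), G.JJ_in h0, tw_tw fun _ => norm_tau b _,
      tw_congr fun h1 => tau_nu (fun e => h0 ⟨h1, e⟩) (by rw [ww_re, ht]; norm_num) (h h1)]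
  · obtain ⟨h1, h2⟩ := not_not.1 h0
    obtain ⟨a1, a2, a3, a4⟩ := tw_in h1 (norm_tau b _)
    rw [G.JJ_core a1 (a4.trans h2), G.JJ_core h1 h2, a2, a3, a4, mul_assoc, tau_cc]
    cases b <;> simp [cc]

lemma JJ_lev (hm : m ∈ HH u) (hm' : m' ∈ HH u') (e : G.JJ u m = G.JJ u' m') : m'.2 = m.2 := by
  have h01 : m' ∈ T.O1 ↔ m ∈ T.O1 := by rw [← G.JJ_src hm, ← G.JJ_src hm', e]
  by_cases h : m ∈ T.O1
  · have h' := h01.2 h
    rw [G.JJ_in h, G.JJ_in h'] at e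
    rw [← tw_snd (T := T) (u := nu u'),
      ← G.inj1 (tw_O1 h (nu_O1 hm h)) (tw_O1 h' (nu_O1 hm' h')) e, tw_snd]
  · exact Subtype.ext ((core_t (not_not.1 (mt h01.1 h)).2).trans (core_t (not_not.1 h).2).symm)

lemma JJ_inj (hm : m ∈ HH u) (hm' : m' ∈ HH u) (e : G.JJ u m = G.JJ u m') : m' = m ∨
    (m.1 ∈ T.U ∧ m'.1 ∈ T.U ∧ T.ww m = 0 ∧ T.ww m' = 0 ∧ T.pv m' = T.pv m ∧
      T.av m' = -T.av m) := by
  have h01 : m' ∈ T.O1 ↔ m ∈ T.O1 := by rw [← G.JJ_src hm, ← G.JJ_src hm', e]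
  by_cases h : m ∈ T.O1
  · have h' := h01.2 h
    have n := nu_O1 hm h
    have n' := nu_O1 hm' h'
    rw [G.JJ_in h, G.JJ_in h'] at e
    replace e := congrArg (T.tw fun ζ => conj (nu u ζ)) (G.inj1 (tw_O1 h n) (tw_O1 h' n') e)
    rw [tw_tw n, tw_tw n', tw_one fun a => unit_mul_conj (n a),
      tw_one fun a => unit_mul_conj (n' a)] at e
    exact .inl e.symm
  · obtain ⟨h1, h0⟩ := not_not.1 h
    obtain ⟨h1', h0'⟩ := not_not.1 (mt h01.1 h)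
    rw [G.JJ_core h1 h0, G.JJ_core h1' h0'] at e
    replace e := D_inj (gd0 (sq_av h1) (norm_pv h1)) (gd0 (sq_av h1') (norm_pv h1'))
      (G.inj3 (D0 (sq_av h1) (norm_pv h1)).1 (D0 (sq_av h1') (norm_pv h1')).1 e)
    simp only [Prod.mk.injEq, and_true, h0, h0', mul_pow] at e
    have n : cc u 0 ^ 2 ≠ 0 := pow_ne_zero 2 (norm_pos_iff.1 (by simp [norm_cc]))
    rcases sq_eq_sq_iff_eq_or_eq_neg.1 (mul_right_cancel₀ n e.1.symm) with a | a
    · exact .inl (extU h1' h1 a e.2.symm (h0'.trans h0.symm))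
    · exact .inr ⟨h1, h1', h0, h0', e.2.symm, a⟩

lemma JJ_surj (w : W) : ∃ u : Bool, ∃ m ∈ HH u, G.JJ u m = w := by
  by_cases a : w ∈ G.c1.source
  · have key : ∀ u, G.c1 w ∈ HH u → ∃ m ∈ HH u, G.JJ u m = w := fun u hm => by
      have n := nu_O1 hm (G.s1 a)
      refine ⟨T.tw (fun ζ => conj (nu u ζ)) (G.c1 w),
        by simpa only [HH, Hf, mem_ofPred_eq, tw_snd] using hm, ?_⟩
      rw [G.JJ_in (tw_O1 (G.s1 a) (by simpa using n)), tw_tw (by simpa using n),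
        tw_one fun h => by rw [mul_comm, unit_mul_conj (n h)], G.c1.left_inv a]
    rcases le_total 0 (2 * ((G.c1 w).2 : ℝ) - 1) with h | h
    · exact ⟨true, key _ (by simpa [HH, Hf] using h)⟩
    · exact ⟨false, key _ (by simpa [HH, Hf] using h)⟩
  · obtain ⟨a1, a2, a3⟩ := G.core a
    obtain ⟨b, hb⟩ := IsAlgClosed.exists_pow_nat_eq (T.av (G.c3 w)) two_pos
    have nb : ‖b‖ = 1 := (pow_eq_one_iff_of_nonneg (norm_nonneg _) two_ne_zero).1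
      (by rw [← norm_pow, hb, norm_av a1.1])
    obtain ⟨c1, c2⟩ := T.D_spec (gd0 nb (norm_pv a1.1))
    have c3 := (D0 (T := T) nb (norm_pv a1.1)).2
    refine ⟨false, T.Dm (b, T.pv (G.c3 w), 0), by simp [HH, Hf, core_t c3], ?_⟩
    rw [G.JJ_core c1 c3, show T.av _ = b from congrArg (·.1) c2,
      show T.pv (T.Dm _) = T.pv (G.c3 w) from congrArg (·.2.1) c2, cc, if_neg (by simp), mul_one, hb,
      ← a2]
    exact (congrArg G.c3.symm (O3_C a1).2).trans a3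

lemma fixed {w : W} (h : G.rr w = w) : (∃ u : Bool, ∃ m ∈ HH u, T.RR u m = m ∧ G.JJ u m = w) ∨
    w ∈ (fun p : ℂ => G.c3.symm (T.Dm (-1, p, 0))) '' {1, -1} := by
  obtain ⟨u, m, hm, rfl⟩ := G.JJ_surj w
  rw [G.rr_JJ hm] at h
  rcases G.JJ_inj hm (RR_HH hm) h.symm with e | ⟨h1, -, h0, -, a3, a2⟩
  · exact .inl ⟨u, m, hm, e, rfl⟩
  · obtain ⟨-, b2, b3, -⟩ := RR_in (u := u) h1
    have c1 := unit_mul_conj (norm_cc u (T.ww m))
    have c2 := unit_mul_conj (norm_av h1)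
    have c3 := unit_mul_conj (norm_pv h1)
    rw [← b3, a3] at c3
    rw [b2, rl] at a2
    refine .inr ⟨T.pv m, mul_self_eq_one_iff.1 c3, ?_⟩
    rw [G.JJ_core h1 h0, show (T.av m * cc u (T.ww m)) ^ 2 = -1 by
      linear_combination (T.av m * cc u (T.ww m) ^ 2) * a2 -
        (cc u (T.ww m) * conj (cc u (T.ww m))) ^ 2 * c2 -
        (cc u (T.ww m) * conj (cc u (T.ww m)) + 1) * c1]

lemma fixed' {w : W} (h : w ∈ (fun p : ℂ => G.c3.symm (T.Dm (-1, p, 0))) '' {1, -1}) :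
    G.rr w = w := by
  obtain ⟨p, rfl | rfl, rfl⟩ := h <;> rw [G.rr_core (by simp) (by simp)] <;> simp

end LT

end Pool.Agent.Lib.MP_7ac2ff_gt.Sh
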