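import Pool.Agent.Lib.MP_7ac2ff_gt.ShT

/-! The twisted knot. -/

namespace Pool.Agent.Lib.MP_7ac2ff_gt.Sh

open Set Function Filter Complex Shell
open scoped Manifold ContDiff Topology ComplexConjugate

set_option linter.style.haveILetI false

lemma SArc.knot {K X : DSI} {T : Shell K} {e : ℂ} {γ : ℝ → S3} (h : SArc T e X γ) {x : ℝ}
    (hx : x ∈ Icc (-2 : ℝ) 2) : γ x ∈ range X.k ↔ |x| = 2 := by
  constructor
  · intro a
    obtain ⟨z, -, b⟩ := h.img.le ⟨x, hx, rfl⟩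
    rcases (X.two z).1 (b ▸ a) with rfl | rfl
    · rw [h.inj hx ⟨le_rfl, by norm_num⟩ (b.symm.trans h.tail.symm)]; norm_num
    · rw [h.inj hx ⟨by norm_num, le_rfl⟩ (b.symm.trans h.head.symm)]; norm_num
  · intro a
    rcases (abs_eq zero_le_two).1 a with rfl | rfl
    · rw [h.head, X.two]; exact .inr rfl
    · rw [h.tail, X.two]; exact .inl rfl

lemma Shell.c_ts {K : DSI} {T : Shell K} {γ : ℝ → S3} (hγ : Continuous γ) {b : Bool} {A : Set ℝ}
    (hA : ∀ x ∈ A, γ x ∈ T.U → Sd b (T.P (γ x)).2.2) :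
    ContinuousOn (fun x => T.ts (tau b) (γ x)) A := by
  intro x hx
  have c : ContinuousAt (fun x => ((γ x, 0) : MM)) x := by fun_prop
  by_cases a : γ x ∈ T.U
  · exact (ContinuousAt.comp (g := T.tw (tau b)) (s_tw_in a (contDiffAt_const.mul
      (cd_conj (cd_cc true _))) (norm_tau b _)).continuousAt c).fst.continuousWithinAt
  · refine hγ.continuousWithinAt.congr_of_eventuallyEq ?_ (ts_out a)
    filter_upwards [self_mem_nhdsWithin, nhdsWithin_le_nhds (c.eventually (far a))] with y p q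
    exact congrArg Prod.fst (tw_one (m := (γ y, 0)) fun r =>
      tau_big (q r) (by rw [ww_im]; exact hA y p r))

/-- both half-axes -/
structure Arcs {K : DSI} (T : Shell K) (Γ : Bool → ℝ → S3) : Prop where
  a : SArc T 1 K (Γ true)
  a' : SArc T (-1) K.anti (Γ false)

noncomputable def ee (b : Bool) : ℂ := if b then 1 else -1

open Classical in
/-- the half-axes of the twisted involution -/
noncomputable def G2 {K : DSI} (T : Shell K) (Γ : Bool → ℝ → S3) (b : Bool) (x : ℝ) : S3 :=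
  if |x| ≤ 1 then T.ts (tau true) (Γ b x) else T.ts (tau false) (Γ (!b) x)

namespace Arcs

variable {K : DSI} {T : Shell K} {Γ : Bool → ℝ → S3} (h : Arcs T Γ) {b b' : Bool} {x x' : ℝ}

include h

lemma all (b : Bool) : SArc T (ee b) (if b then K else K.anti) (Γ b) := by
  cases b
  exacts [h.a', h.a]

lemma knot (hx : x ∈ Icc (-2 : ℝ) 2) : Γ b x ∈ range K.k ↔ |x| = 2 := by
  cases b
  exacts [h.a'.knot hx, h.a.knot hx]

lemma fix {y : S3} : K.ρ y = y ↔ ∃ b, ∃ x ∈ Icc (-2 : ℝ) 2, Γ b x = y := by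
  constructor
  · intro a
    rcases (half_union K).ge a with k | k
    exacts [⟨true, h.a.img.ge k⟩, ⟨false, h.a'.img.ge k⟩]
  · rintro ⟨b, k⟩
    refine (half_union K).le ?_
    cases b
    exacts [.inr (h.a'.img.le k), .inl (h.a.img.le k)]

lemma one (hx : |x| = 1) : Γ b x ∈ T.U ∧
    T.P (Γ b x) = (if x < 0 then ee b else -ee b, if x < 0 then 1 else -1, 0) := by
  have n : ‖ee b‖ = 1 := by cases b <;> simp [ee]
  rcases (abs_eq zero_le_one).1 hx with rfl | rfl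
  · rw [(h.all b).rgt, if_neg (by norm_num), if_neg (by norm_num)]
    exact T.right _ _ _ (by simpa using n) (by simp) (by simp)
  · rw [(h.all b).lft, if_pos (by norm_num), if_pos (by norm_num)]
    exact T.right _ _ _ n (by simp) (by simp)

lemma G2_out (hx : 1 ≤ |x|) : G2 T Γ b x = T.ts (tau false) (Γ (!b) x) := by
  unfold G2
  split_ifs with a
  · obtain ⟨a1, a2⟩ := h.one (b := b) (a.antisymm hx)
    obtain ⟨b1, b2⟩ := h.one (b := !b) (a.antisymm hx)
    rw [ts_eq a1 (un_tau _), ts_eq b1 (un_tau _), a2, b2]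
    cases b <;> split_ifs <;> simp [ee, tau]
  · rfl

lemma sd_mid (hx : |x| ≤ 1) (a : Γ b x ∈ T.U) : Sd true (T.P (Γ b x)).2.2 := by
  rcases hx.eq_or_lt with c | c
  · simp [Sd, (h.one c).2]
  · have := ((h.all b).ins x (abs_le.1 (by linarith))).not.2 c.not_ge
    rw [T.ins _ a] at this
    exact (not_le.1 this).le

lemma sd_out (hx : x ∈ Icc (-2 : ℝ) 2) (h1 : 1 ≤ |x|) (a : Γ b x ∈ T.U) :
    Sd false (T.P (Γ b x)).2.2 := (T.ins _ a).1 (((h.all b).ins x hx).2 h1)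

lemma inj (hx : x ∈ Icc (-2 : ℝ) 2) (hx' : x' ∈ Icc (-2 : ℝ) 2) (e : Γ b x = Γ b' x') :
    (b = b' ∧ x = x') ∨ (b ≠ b' ∧ |x| = 2 ∧ |x'| = 2) := by
  by_cases hb : b = b'
  · subst hb
    exact .inl ⟨rfl, (h.all b).inj hx hx' e⟩
  · have k1 := (h.all b).img.le ⟨_, hx, rfl⟩
    have k2 := (h.all b').img.le ⟨_, hx', e.symm⟩
    have : Γ b x ∈ range K.k := by
      cases b <;> cases b'
      exacts [(hb rfl).elim, half_inter K k2 k1, half_inter K k1 k2, (hb rfl).elim]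
    exact .inr ⟨hb, (h.knot hx).1 this, (h.knot hx').1 (e ▸ this)⟩

lemma G2_in (hx : x ∈ Icc (-2 : ℝ) 2) : G2 T Γ b x ∈ T.In ↔ 1 ≤ |x| := by
  unfold G2
  split_ifs <;> rw [ts_in (un_tau _), (h.all _).ins x hx]

lemma G2_knot (hx : x ∈ Icc (-2 : ℝ) 2) : G2 T Γ b x ∈ range K.k ↔ |x| = 2 := by
  unfold G2
  split_ifs <;> rw [ts_knot (un_tau _), h.knot hx]

lemma G2_inj (hx : x ∈ Icc (-2 : ℝ) 2) (hx' : x' ∈ Icc (-2 : ℝ) 2)
    (e : G2 T Γ b x = G2 T Γ b' x') : (b = b' ∧ x = x') ∨ (b ≠ b' ∧ |x| = 2 ∧ |x'| = 2) := by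
  have i : 1 ≤ |x| ↔ 1 ≤ |x'| := by rw [← h.G2_in (b := b) hx, e, h.G2_in hx']
  by_cases a : 1 ≤ |x|
  · rw [h.G2_out a, h.G2_out (i.1 a)] at e
    simpa only [Bool.not_inj_iff, ne_eq] using h.inj hx hx' (ts_inj (un_tau _) e)
  · rw [G2, G2, if_pos (not_le.1 a).le, if_pos (not_le.1 (mt i.2 a)).le] at e
    exact h.inj hx hx' (ts_inj (un_tau _) e)

lemma G2_cont (b : Bool) : ContinuousOn (G2 T Γ b) (Icc (-2) 2) := by
  have c1 := (c_ts (h.all b).cont (A := {x | |x| ≤ 1}) fun x a => h.sd_mid a).congr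
    (g := G2 T Γ b) fun x a => if_pos a
  have c2 := (c_ts (h.all (!b)).cont (A := Icc (-2) 2 ∩ {x | 1 ≤ |x|})
    fun x a => h.sd_out a.1 a.2).congr (g := G2 T Γ b) fun x a => h.G2_out a.2
  exact (c1.union_of_isClosed c2 (isClosed_le continuous_abs continuous_const)
    (isClosed_Icc.inter (isClosed_le continuous_const continuous_abs))).mono
      fun x a => (le_total |x| 1).imp_right fun c => ⟨a, c⟩

lemma G2_fix {y : S3} : T.ρ2 y = y ↔ ∃ b, ∃ x ∈ Icc (-2 : ℝ) 2, G2 T Γ b x = y := by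
  constructor
  · intro a
    have key : ∀ c, ∃ b, ∃ x ∈ Icc (-2 : ℝ) 2, T.ts (tau c) (Γ b x) = y := fun c => by
      rw [← ts_cancel' (T := T) (y := y) (un_tau c), ρ2_tau] at a
      obtain ⟨b, x, hx, e⟩ := h.fix.1 (ts_inj (un_tau c) a)
      exact ⟨b, x, hx, by rw [e, ts_cancel' (un_tau c)]⟩
    by_cases i : y ∈ T.In
    · obtain ⟨b, x, hx, rfl⟩ := key false
      rw [ts_in (un_tau _), (h.all b).ins x hx] at i
      exact ⟨!b, x, hx, by rw [h.G2_out i, Bool.not_not]⟩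
    · obtain ⟨b, x, hx, rfl⟩ := key true
      rw [ts_in (un_tau _), (h.all b).ins x hx] at i
      exact ⟨b, x, hx, if_pos (not_le.1 i).le⟩
  · rintro ⟨b, x, hx, rfl⟩
    unfold G2
    split_ifs <;> rw [ρ2_tau, h.fix.2 ⟨_, x, hx, rfl⟩]

lemma G2_end (hx : |x| = 2) : G2 T Γ b x = Γ (!b) x := by
  rw [h.G2_out (by linarith), ts_out fun a => T.knot _ a ((h.knot (abs_le.1 hx.le)).2 hx)]

lemma e1 : G2 T Γ false (-2) = K.ax 1 := (h.G2_end (by norm_num)).trans h.a.tail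
lemma e2 : G2 T Γ false 2 = K.ax (-1) := (h.G2_end (by norm_num)).trans h.a.head
lemma e3 : G2 T Γ true (-2) = K.ax (-1) := (h.G2_end (by norm_num)).trans h.a'.tail
lemma e4 : G2 T Γ true 2 = K.ax 1 :=
  (h.G2_end (by norm_num)).trans (h.a'.head.trans (congrArg K.ax (neg_neg 1)))

end Arcs

lemma re_mem (z : Circle) (c : ℝ) (hc : |c| = 2) : c * (z : ℂ).re ∈ Icc (-2 : ℝ) 2 := by
  have := abs_re_le_norm (z : ℂ)
  rw [z.norm_coe] at this
  exact abs_le.1 (by rw [abs_mul, hc]; linarith)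

lemma re_two {z : Circle} {c : ℝ} (hc : |c| = 2) : |c * (z : ℂ).re| = 2 ↔ (z : ℂ).im = 0 := by
  have := z.normSq_coe
  rw [normSq_apply] at this
  rw [abs_mul, hc, ← sq_eq_zero_iff (a := (z : ℂ).im)]
  constructor <;> intro a
  · nlinarith [sq_abs (z : ℂ).re]
  · have := (sq_eq_sq₀ (abs_nonneg (z : ℂ).re) zero_le_one).1 (by nlinarith [sq_abs (z : ℂ).re])
    linarith

lemma im_zero {z : Circle} : (z : ℂ).im = 0 ↔ z = 1 ∨ z = -1 := by
  refine ⟨fun h1 => ?_, by rintro (rfl | rfl) <;> simp⟩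
  have h2 := z.normSq_coe
  rw [normSq_apply, h1, mul_zero, add_zero, mul_self_eq_one_iff] at h2
  exact h2.imp (fun a => Subtype.ext (Complex.ext (by simp [a]) (by simp [h1])))
    fun a => Subtype.ext (Complex.ext (by simp [a]) (by simp [h1]))

lemma circ_ext {z w : Circle} (h : (z : ℂ).re = (w : ℂ).re) (h' : 0 ≤ (z : ℂ).im ↔ 0 ≤ (w : ℂ).im) :
    z = w := by
  have a := z.normSq_coe
  have b := w.normSq_coe
  rw [normSq_apply] at a b
  refine Subtype.ext (Complex.ext h ?_)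
  rcases sq_eq_sq_iff_eq_or_eq_neg.1 (show (z : ℂ).im ^ 2 = (w : ℂ).im ^ 2 by
    rw [h] at a; linarith) with c | c
  · exact c
  · rcases le_total 0 (w : ℂ).im with d | d
    · linarith [h'.2 d]
    · linarith [h'.1 (by linarith)]

lemma circ_ex {x : ℝ} (hx : x ∈ Icc (-2 : ℝ) 2) : ∃ z : Circle, 0 ≤ (z : ℂ).im ∧
    -2 * (z : ℂ).re = x := by
  have h : 0 ≤ 1 - (x / 2) ^ 2 := by nlinarith [hx.1, hx.2]
  refine ⟨⟨⟨-(x / 2), √(1 - (x / 2) ^ 2)⟩, mem_sphere_zero_iff_norm.2 ?_⟩, Real.sqrt_nonneg _,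
    by simp only; ring⟩
  rw [norm_eq_sqrt_sq_add_sq, Real.sq_sqrt h]
  simp

open Classical in
noncomputable def ax2 (δ : Bool → ℝ → S3) (z : Circle) : S3 :=
  if 0 ≤ (z : ℂ).im then δ false (-2 * (z : ℂ).re) else δ true (2 * (z : ℂ).re)

theorem Arcs.exists_tw {K : DSI} {T : Shell K} {Γ : Bool → ℝ → S3} (h : Arcs T Γ) :
    ∃ X, Tw T X ∧ X.half = G2 T Γ false '' Icc (-2) 2 := by
  have m2 : |(-2 : ℝ)| = 2 := by norm_num
  have p2 : |(2 : ℝ)| = 2 := by norm_num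
  have ag : ∀ z : Circle, (z : ℂ).im = 0 →
      G2 T Γ false (-2 * (z : ℂ).re) = G2 T Γ true (2 * (z : ℂ).re) := fun z a => by
    rcases im_zero.1 a with rfl | rfl <;> simp [h.e1, h.e2, h.e3, h.e4]
  have s1 := s_ts (T := T) (fun _ => rl_big true) (cd_rl true) un_rl
  have s2 := s_ts (T := T) (v := fun ζ => conj (rl true ζ)) (fun _ a => by simp [rl_big true a])
    (fun ζ => cd_conj (cd_rl true ζ)) un_rl.conj
  have kk : ∀ y, T.ρ2 y ∈ range K.k ↔ y ∈ range K.k := fun y => by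
    rw [ρ2, ts_knot un_rl]
    exact ⟨fun a => K.invol y ▸ K.inv.le ⟨_, a, rfl⟩, fun a => K.inv.le ⟨_, a, rfl⟩⟩
  have iv : Involutive T.ρ2 := fun y => by
    rw [ρ2, ρ2, ρ_ts un_rl, K.invol, ts_cancel' un_rl]
  have hh : ax2 (G2 T Γ) '' {z | 0 ≤ (z : ℂ).im} = G2 T Γ false '' Icc (-2) 2 := by
    ext y
    constructor
    · rintro ⟨z, a, rfl⟩
      exact ⟨_, re_mem z _ m2, (if_pos a).symm⟩
    · rintro ⟨x, a, rfl⟩
      obtain ⟨z, b, rfl⟩ := circ_ex a
      exact ⟨z, b, if_pos b⟩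
  refine ⟨⟨K.k, T.ρ2, ax2 (G2 T Γ), K.emb, s1.comp K.smooth, iv, ?_, ?_, ?_, ?_, ?_, ?_⟩,
    ⟨rfl, rfl, ?_, ?_, ?_, ?_⟩, hh⟩
  · obtain ⟨o, o1, o2⟩ := K.ori
    refine ⟨o, o1, fun x => ?_⟩
    have := Kt.pos3 (o2 x) (ori_pos o1 s1 (fun y a => ?_) (p := K.k 1) ?_ (K.ρ x))
    · rwa [← det_comp', ← dif_comp (K.smooth x) (s1 _)] at this
    · have := congrArg ContinuousLinearMap.det (dif_left_inv (s1 y) (s2 _)
        (Eventually.of_forall fun _ => ts_cancel un_rl))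
      simp [det_comp', a, det_id'] at this
    · filter_upwards [(by fun_prop : ContinuousAt (fun y : S3 => ((y, 0) : MM)) (K.k 1)).eventually
        (far (T := T) fun a => T.knot _ a ⟨1, rfl⟩)] with y a
      exact congrArg Prod.fst (tw_one (m := (y, 0)) fun b => rl_big true (a b))
  · exact subset_antisymm (image_subset_iff.2 fun y a => (kk y).2 a)
      fun y a => ⟨_, (kk y).2 a, iv y⟩
  · exact Continuous.if_le ((h.G2_cont _).comp_continuous (by fun_prop) fun z => re_mem z _ m2)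
      ((h.G2_cont _).comp_continuous (by fun_prop) fun z => re_mem z _ p2) continuous_const
      (by fun_prop) fun z a => ag z a.symm
  · intro z w e
    unfold ax2 at e
    split_ifs at e with a b b
    · rcases h.G2_inj (re_mem z _ m2) (re_mem w _ m2) e with c | c
      exacts [circ_ext (by linarith [c.2]) (by simp [a, b]), (c.1 rfl).elim]
    · rcases h.G2_inj (re_mem z _ m2) (re_mem w _ p2) e with c | c
      exacts [by simpa using c.1, (b ((re_two p2).1 c.2.2).ge).elim]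
    · rcases h.G2_inj (re_mem z _ p2) (re_mem w _ m2) e with c | c
      exacts [by simpa using c.1, (a ((re_two p2).1 c.2.1).ge).elim]
    · rcases h.G2_inj (re_mem z _ p2) (re_mem w _ p2) e with c | c
      exacts [circ_ext (by linarith [c.2]) (by simp [a, b]), (c.1 rfl).elim]
  · ext y
    refine Iff.trans ?_ h.G2_fix.symm
    constructor
    · rintro ⟨z, rfl⟩
      unfold ax2
      split_ifs
      exacts [⟨_, _, re_mem z _ m2, rfl⟩, ⟨_, _, re_mem z _ p2, rfl⟩]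
    · rintro ⟨b, x, a, rfl⟩
      obtain ⟨z, c, rfl⟩ := circ_ex a
      cases b
      · exact ⟨z, if_pos c⟩
      · refine ⟨-z, ?_⟩
        rw [show -2 * (z : ℂ).re = 2 * ((-z : Circle) : ℂ).re by simp, ax2]
        split_ifs with d
        exacts [ag _ (le_antisymm (by simpa using c) d), rfl]
  · intro z
    rw [← im_zero, ax2]
    split_ifs
    · rw [h.G2_knot (re_mem z _ m2), re_two m2]
    · rw [h.G2_knot (re_mem z _ p2), re_two p2]
  · simp [ax2, h.e1]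
  · simp [ax2, h.e2]
  · intro y hy
    refine (Set.ext_iff.1 hh _).trans ?_
    rw [← h.a'.img]
    refine ⟨fun ⟨x, a, e⟩ => ⟨x, a, ?_⟩, fun ⟨x, a, e⟩ => ⟨x, a, ?_⟩⟩
    · have := (h.G2_in (b := false) a).not.1 (by rwa [e, ts_in (un_tau _)])
      rw [G2, if_pos (not_le.1 this).le] at e
      exact ts_inj (un_tau _) e
    · rw [G2, if_pos (not_le.1 ((h.a'.ins x a).not.1 (e ▸ hy))).le, e]
  · intro y hy
    refine (Set.ext_iff.1 hh _).trans ?_
    rw [← h.a.img]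
    refine ⟨fun ⟨x, a, e⟩ => ⟨x, a, ?_⟩, fun ⟨x, a, e⟩ => ⟨x, a, ?_⟩⟩
    · rw [h.G2_out ((h.G2_in (b := false) a).1 (by rwa [e, ts_in (un_tau _)]))] at e
      exact ts_inj (un_tau _) e
    · rw [h.G2_out ((h.a.ins x a).1 (e ▸ hy)), ← e]; rfl

end Pool.Agent.Lib.MP_7ac2ff_gt.Sh
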