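import Pool.Agent.Lib.MP_7ac2ff_gt.ShF

/-! A knot is concordant to its twist along a shell. -/

namespace Pool.Agent.Lib.MP_7ac2ff_gt.Sh

open Set Function Filter Complex Shell
open scoped Manifold ContDiff Topology ComplexConjugate

set_option linter.style.haveILetI false

namespace LT

variable {K : DSI} {T : Shell K} {W : Type} [TopologicalSpace W] (G : LT T W) {Γ : Bool → ℝ → S3}

lemma RR_false (m : MM) : T.RR false m = R0 K m := tw_one fun _ => by simp [rl, cc]

lemma RR_true (m : MM) : T.RR true m = (T.ρ2 m.1, m.2) := tw_ts un_rl _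

lemma rr_j0 (x : S3) : G.rr (G.jj 0 x) = G.jj 0 (K.ρ x) := by
  have := G.rr_JJ (u := false) (m := (x, 0)) (by simp [HH, Hf])
  rw [RR_false] at this
  exact (congrArg G.rr (G.JJ_end false x)).symm.trans (this.trans (G.JJ_end false _))

lemma rr_j1 (x : S3) : G.rr (G.jj 1 x) = G.jj 1 (T.ρ2 x) := by
  have := G.rr_JJ (u := true) (m := (x, 1)) (by norm_num [HH, Hf])
  rw [RR_true] at this
  exact (congrArg G.rr (G.JJ_end true x)).symm.trans (this.trans (G.JJ_end true _))

theorem surf (h : Arcs T Γ) : letI := G.cs (HB 3)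
    ∃ (φ : Circle × II → W) (P : Set W) (a b c d : ℝ), Continuous φ ∧ P.Finite ∧
      fixedPoints G.rr = range φ ∪ P ∧ InjOn φ (φ ⁻¹' (range G.AA)ᶜ) ∧
      φ ⁻¹' (range G.AA ∪ (IB 3).boundary W) = (IB 1).boundary (Circle × II) ∧ a ≤ b ∧ c ≤ d ∧
      (fun θ => φ (Circle.exp θ, 1)) '' Icc a b = G.jj 1 '' (G2 T Γ false '' Icc (-2) 2) ∧
      φ (Circle.exp a, 1) = G.jj 1 (K.ax 1) ∧ φ (Circle.exp b, 1) = G.jj 1 (K.ax (-1)) ∧
      (fun θ => φ (Circle.exp θ, 1)) '' Icc c d = G.jj 0 '' K.half ∧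
      φ (Circle.exp c, 1) = G.jj 0 (K.ax (-1)) ∧ φ (Circle.exp d, 1) = G.jj 0 (K.ax 1) := by
  letI := G.cs (HB 3)
  let Λ' : Bool → Bool → ℝ → S3 := fun u => if u then G2 T Γ else Γ
  let q : Bool → Bool → ℝ × ℝ → W := fun b u y => G.JJ u (Λ' u b y.1, tt y.2)
  have t0 : (tt 0 : ℝ) = 1 / 2 := by rw [tt_val (by simp)]; norm_num
  have hmid : ∀ b x, |x| ≤ 1 → q b true (x, 0) = q b false (x, 0) := fun b x hx => by
    have := G.JJ_slit (m := (Γ b x, tt 0)) true t0 fun a => by rw [ww_im]; exact h.sd_mid hx a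
    rw [tw_ts (un_tau _)] at this
    exact (congrArg (fun y => G.JJ true (y, tt 0)) (if_pos hx)).trans this
  have hout : ∀ b x, 1 ≤ |x| → |x| ≤ 2 → q b true (x, 0) = q (!b) false (x, 0) := fun b x a c => by
    have := G.JJ_slit (m := (Γ (!b) x, tt 0)) false t0 fun d => by
      rw [ww_im]; exact h.sd_out (abs_le.1 c) a d
    rw [tw_ts (un_tau _)] at this
    exact (congrArg (fun y => G.JJ true (y, tt 0)) (h.G2_out a)).trans this
  have red : ∀ b u x, |x| < 2 →
      q b u (x, 0) = G.JJ false (Γ (if u = true ∧ 1 < |x| then !b else b) x, tt 0) := by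
    intro b u x hx
    cases u
    · simp [q, Λ']
    · split_ifs with a
      exacts [hout b x a.2.le hx.le, hmid b x (not_lt.1 fun c => a ⟨rfl, c⟩)]
  obtain ⟨φ, Λ, a, b, c, d, p1, p2, p3, p4, p5, p6, p7, p8, p9, p10, p11, p12, p13⟩ :=
    exists_annulus q (fun b u => G.c_JJ.comp (ContinuousOn.prodMk (by
        cases u
        exacts [((h.all b).cont.comp continuous_fst).continuousOn,
          (h.G2_cont b).comp continuousOn_fst fun y hy => hy.1]) (continuous_projIcc.comp
        (by fun_prop)).continuousOn) fun y hy => (RH_spec hy _).2) hmid hout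
      (fun b u b' u' y y' hy hy' l l' e => by
        obtain ⟨s, m⟩ := RH_spec hy (Λ' u b y.1)
        obtain ⟨s', m'⟩ := RH_spec hy' (Λ' u' b' y'.1)
        have e4 : y.2 = y'.2 := by
          have := congrArg Subtype.val (G.JJ_lev m m' e)
          simp only [tt_val s, tt_val s'] at this
          linarith
        obtain ⟨x, s0⟩ := y
        obtain ⟨x', s1⟩ := y'
        obtain rfl : s0 = s1 := e4
        by_cases hz : s0 = 0
        · subst hz
          have m0 : ∀ y : S3, ((y, tt 0) : MM) ∈ HH false := fun y => by simp [HH, Hf, t0]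
          rw [red _ _ _ l, red _ _ _ l'] at e
          rcases G.JJ_inj (m0 _) (m0 _) e with e5 | ⟨a1, b1, a2, b2, e5, e6⟩
          · rcases h.inj hy.1 hy'.1 (congrArg Prod.fst e5).symm with ⟨e6, e7⟩ | e6
            · obtain rfl : x = x' := e7
              refine ⟨rfl, ?_⟩
              by_cases c : 1 < |x|
              · cases u <;> cases u' <;> cases b <;> cases b' <;> simp_all [c.le]
              · exact .inl ⟨by simpa [c] using e6, .inr ⟨rfl, not_lt.1 c⟩⟩
            · exact (l.ne e6.2.1).elim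
          · have o := (h.all _).core x hy.1 a1 ((T.ww_im _).symm.trans (congrArg im a2))
            have o' := (h.all _).core x' hy'.1 b1 ((T.ww_im _).symm.trans (congrArg im b2))
            simp only [o, o', lt_self_iff_false, and_false, if_false, av, pv, (h.one o).2,
              (h.one o').2] at e5 e6
            obtain rfl : x = x' := by
              rcases (abs_eq zero_le_one).1 o with rfl | rfl <;>
                rcases (abs_eq zero_le_one).1 o' with rfl | rfl
              exacts [rfl, by norm_num at e5, by norm_num at e5, rfl]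
            refine ⟨rfl, .inr ⟨?_, rfl, .inr o⟩⟩
            rintro rfl
            rw [self_eq_neg] at e6
            cases b <;> split_ifs at e6 <;> simp [ee] at e6
        · obtain rfl : u = u' := by
            have a1 := hy.2
            have a2 := hy'.2
            cases u <;> cases u'
            exacts [rfl, (hz (a1.2.antisymm a2.1)).elim, (hz (a2.2.antisymm a1.1)).elim, rfl]
          rcases G.JJ_inj m m' e with e5 | ⟨-, -, a2, -⟩
          · have e6 := (congrArg Prod.fst e5).symm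
            have : (b = b' ∧ x = x') ∨ (b ≠ b' ∧ |x| = 2 ∧ |x'| = 2) := by
              cases u
              exacts [h.inj hy.1 hy'.1 e6, h.G2_inj hy.1 hy'.1 e6]
            rcases this with ⟨rfl, rfl⟩ | e7
            exacts [⟨rfl, .inl ⟨rfl, .inl rfl⟩⟩, (l.ne e7.2.1).elim]
          · have := core_t a2
            simp only [tt_val s] at this
            exact (hz (by linarith)).elim)
  have k1 : ∀ x, q false true (x, 1) = G.jj 1 (G2 T Γ false x) := fun x =>
    (congrArg (fun t => G.JJ true (G2 T Γ false x, t))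
      (Subtype.ext (by rw [tt_val] <;> norm_num))).trans (G.JJ_end true _)
  have k0 : ∀ x, q true false (x, -1) = G.jj 0 (Γ true x) := fun x =>
    (congrArg (fun t => G.JJ false (Γ true x, t))
      (Subtype.ext (by rw [tt_val] <;> norm_num))).trans (G.JJ_end false _)
  have kA : ∀ z, φ z ∈ range G.AA ↔ |(Λ z).1| = 2 := fun z => by
    obtain ⟨b, u, m, e⟩ := p3 z
    rw [e, G.JJ_AA (RH_spec m _).2]
    cases u
    exacts [h.knot m.1, h.G2_knot m.1]
  have kF : ∀ u (m : MM), T.RR u m = m ↔ ∃ b, ∃ x ∈ Icc (-2 : ℝ) 2, Λ' u b x = m.1 := by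
    rintro (_ | _) m
    · rw [RR_false, R0, Prod.ext_iff, and_iff_left rfl]; exact h.fix
    · rw [RR_true, Prod.ext_iff, and_iff_left rfl]; exact h.G2_fix
  refine ⟨φ, (fun p : ℂ => G.c3.symm (T.Dm (-1, p, 0))) '' {1, -1}, a, b, c, d, p1,
    (toFinite _).image _, ?_, p5.mono fun z hz => ?_, ?_, p6, p7, ?_, ?_, ?_, ?_, ?_, ?_⟩
  · rw [p2]
    ext w
    simp only [mem_union, mem_iUnion]
    constructor
    · intro hw
      refine (G.fixed hw).imp_left ?_
      rintro ⟨u, m, hm, e, rfl⟩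
      obtain ⟨b, x, hx, e'⟩ := (kF u m).1 e
      have := m.2.2
      have t : tt (2 * m.2 - 1) = m.2 := Subtype.ext (by
        rw [tt_val (abs_le.2 ⟨by linarith [this.1], by linarith [this.2]⟩)]; ring)
      refine ⟨b, u, (x, 2 * m.2 - 1), ⟨hx, ?_⟩, by simp only [q, e', t]⟩
      cases u <;>
        simp only [HH, Hf, mem_ofPred_eq, Bool.false_eq_true, if_false, if_true] at hm ⊢ <;>
        exact ⟨by linarith [this.1], by linarith [this.2]⟩
    · rintro (⟨b, u, y, hy, rfl⟩ | k)
      · exact (G.rr_JJ (RH_spec hy _).2).trans (congrArg _ ((kF u _).2 ⟨b, _, hy.1, rfl⟩))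
      · exact G.fixed' k
  · obtain ⟨b, u, m, -⟩ := p3 z
    exact lt_of_le_of_ne (abs_le.2 m.1) (mt (kA z).2 hz)
  · ext z
    rw [bd_cyl, p4, mem_preimage, mem_union, kA]
    obtain ⟨b, u, m, e⟩ := p3 z
    obtain ⟨s, m'⟩ := RH_spec m (Λ' u b (Λ z).1)
    rw [e, G.JJ_bd m', Subtype.ext_iff, Subtype.ext_iff, tt_val s, abs_eq zero_le_one]
    refine or_congr_right ⟨?_, ?_⟩ <;> rintro (k | k)
    · exact .inr (by simp at k; linarith)
    · exact .inl (by simp at k; linarith)
    · exact .inr (by simp [k])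
    · exact .inl (by simp [k])
  · rw [p8, image_image]
    exact image_congr fun x _ => k1 x
  · rw [p9, k1, h.e1]
  · rw [p10, k1, h.e2]
  · rw [p11, ← h.a.img, image_image]
    exact image_congr fun x _ => k0 x
  · rw [p12, k0, h.a.head]
  · rw [p13, k0, h.a.tail]

end LT

theorem exists_twist {K : DSI} {T : Shell K} {γ γ' : ℝ → S3} (h : SArc T 1 K γ)
    (h' : SArc T (-1) K.anti γ') : ∃ X, Tw T X ∧ QConc K X := by
  have hA : Arcs T fun b => if b then γ else γ' := ⟨h, h'⟩
  obtain ⟨X, hX, hh⟩ := hA.exists_tw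
  obtain ⟨W, _, ⟨G⟩⟩ := exists_glued T.isOpen_O1 (T.isOpen_lt (1 / 2)) T.gg gg_s gg_t
    (end_O1 (m := (K.ax 1, 0)) (.inl rfl))
  replace G : LT T W := G
  letI := G.cs (HB 3)
  obtain ⟨o, o1, o2⟩ := G.exists_o
  obtain ⟨φ, P, a, b, c, d, p1, p2, p3, p4, p5, p⟩ := G.surf hA
  obtain ⟨o', o3, -⟩ := exists_or_cyl (F := ℂ) (n := 1) (hF := ⟨by simp⟩)
  have same : ∀ {i : II}, i = 0 ∨ i = 1 → Same (fun z => G.AA (z, i)) (G.jj i ∘ K.k) :=
    fun hi => ⟨rfl, fun z w e => ⟨1, one_pos, by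
      obtain rfl := K.emb.2.1.injective ((G.emb_jj hi).2.1.injective e)
      exact (one_smul _ _).symm⟩⟩
  refine ⟨X, hX, W, _, G.cs (HB 3), G.jj 0, G.jj 1, G.AA, G.rr,
    ⟨o, ⟨G.t2, G.compact, G.mfd, o1⟩, G.emb_jj (.inl rfl), G.emb_jj (.inr rfl), G.disj, G.bd_eq,
      o2, G.homol⟩, ⟨G.emb_AA, G.bd_AA, fun p _ => G.neat p⟩, same (.inl rfl),
    hX.k ▸ same (.inr rfl), ⟨G.s_rr, G.rr_rr⟩, fun x => ⟨G.rr_j0 x, hX.ρ ▸ G.rr_j1 x⟩, G.rr_AA,
    Circle × II, _, _, o', φ, P, fun z => (z, 1), a, b, c, d,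
    ⟨inferInstance, inferInstance, inferInstance, o3⟩, p1, p2, p3, p4, p5, by fun_prop,
    Prod.mk_left_injective 1, range_subset_iff.2 fun z => (bd_cyl _).2 (.inr rfl), ?_⟩
  rw [hh, hX.tail, hX.head]
  exact p

end Pool.Agent.Lib.MP_7ac2ff_gt.Sh
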