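import Pool.Agent.Lib.MP_7ac2ff_gt.ShE
import Pool.Agent.Lib.MP_7ac2ff_gt.Kit

/-! Twists of the sphere along a shell. -/

namespace Pool.Agent.Lib.MP_7ac2ff_gt.Sh

open Set Function Filter Complex
open scoped Manifold ContDiff Topology ComplexConjugate

/-- unit valued and depending only on the imaginary part -/
structure Un (v : ℂ → ℂ) : Prop where
  n : ∀ ζ, ‖v ζ‖ = 1
  im : ∀ ζ ζ' : ℂ, ζ.im = ζ'.im → v ζ = v ζ'

lemma un_rl : Un (rl true) := ⟨norm_rl _, fun _ _ h => by rw [rl, rl, cc_im _ h]⟩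
lemma un_tau (b : Bool) : Un (tau b) := ⟨norm_tau _, fun _ _ h => by rw [tau, tau, cc_im _ h]⟩
lemma Un.conj {v : ℂ → ℂ} (h : Un v) : Un fun ζ => conj (v ζ) :=
  ⟨fun ζ => by simpa using h.n ζ, fun _ _ e => by rw [h.im _ _ e]⟩

namespace Shell

variable {K : DSI} (T : Shell K)

/-- twist of the sphere -/
noncomputable def ts (v : ℂ → ℂ) (y : S3) : S3 := (T.tw v (y, 0)).1

/-- the twisted involution -/
noncomputable def ρ2 (y : S3) : S3 := T.ts (rl true) (K.ρ y)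

variable {T} {v v' : ℂ → ℂ} {y : S3}

lemma tw_ts (h : Un v) (m : MM) : T.tw v m = (T.ts v m.1, m.2) := by
  refine Prod.ext ?_ tw_snd
  by_cases a : m.1 ∈ T.U
  · have e : (T.ww m).im = (T.ww (m.1, 0)).im := by rw [ww_im, ww_im]
    rw [ts, tw, tw, if_pos a, if_pos a, h.im _ _ e, e]
    rfl
  · rw [ts, tw_out a, tw_out (m := (m.1, 0)) a]

lemma ts_out (h : y ∉ T.U) : T.ts v y = y := congrArg Prod.fst (tw_out (m := (y, 0)) h)

lemma ts_mem (h : Un v) : T.ts v y ∈ T.U ↔ y ∈ T.U := tw_mem (m := (y, 0)) fun _ => h.n _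

lemma ts_eq (h : y ∈ T.U) (hv : Un v) : T.ts v y =
    T.Θ ((T.P y).1 * v ((T.P y).2.2 * I), (T.P y).2.1, (T.P y).2.2) := by
  rw [ts, tw, if_pos h, ww_im, hv.im _ ((T.P y).2.2 * I) (by simp [ww_im])]
  rfl

lemma ts_P (h : y ∈ T.U) (hv : Un v) :
    T.P (T.ts v y) = ((T.P y).1 * v ((T.P y).2.2 * I), (T.P y).2.1, (T.P y).2.2) := by
  obtain ⟨a, b, c, -⟩ := T.left y h
  rw [ts_eq h hv]
  exact (T.right _ _ _ (by rw [norm_mul, a, hv.n, one_mul]) b c).2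

lemma ts_in (h : Un v) : T.ts v y ∈ T.In ↔ y ∈ T.In := by
  by_cases a : y ∈ T.U
  · rw [T.ins _ a, T.ins _ ((ts_mem h).2 a), ts_P a h]
  · rw [ts_out a]

lemma ts_ts (h : Un v) : T.ts v' (T.ts v y) = T.ts (fun ζ => v ζ * v' ζ) y := by
  have := tw_tw (T := T) (u' := v') (m := (y, 0)) fun _ => h.n _
  rw [tw_ts h (y, 0)] at this
  exact congrArg Prod.fst this

lemma ts_congr (h : ∀ ζ, v ζ = v' ζ) : T.ts v y = T.ts v' y := by rw [funext h]

lemma ts_one : T.ts (fun _ => 1) y = y := congrArg Prod.fst (tw_one (m := (y, 0)) fun _ => rfl)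

lemma ts_cancel (h : Un v) : T.ts (fun ζ => conj (v ζ)) (T.ts v y) = y := by
  rw [ts_ts h, ts_congr fun ζ => unit_mul_conj (h.n ζ), ts_one]

lemma ts_cancel' (h : Un v) : T.ts v (T.ts (fun ζ => conj (v ζ)) y) = y := by
  rw [ts_ts h.conj, ts_congr fun ζ => (mul_comm _ _).trans (unit_mul_conj (h.n ζ)), ts_one]

lemma ts_inj (h : Un v) : Injective (T.ts v) := LeftInverse.injective fun _ => ts_cancel h

lemma ρ_ts (h : Un v) : K.ρ (T.ts v y) = T.ts (fun ζ => conj (v ζ)) (K.ρ y) :=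
  congrArg Prod.fst (R0_tw (m := (y, 0)) fun _ => h.n _)

lemma ts_knot (h : Un v) : T.ts v y ∈ range K.k ↔ y ∈ range K.k :=
  tw_knot (m := (y, 0)) fun _ => h.n _

lemma ρ2_tau (b : Bool) : T.ρ2 (T.ts (tau b) y) = T.ts (tau b) (K.ρ y) := by
  rw [ρ2, ρ_ts (un_tau b), ts_ts (un_tau b).conj]
  refine ts_congr fun ζ => ?_
  have := unit_mul_conj (norm_cc true ζ)
  cases b <;> simp only [tau, rl, map_mul, conj_conj, Bool.false_eq_true, if_false, if_true,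
    map_neg, map_one]
  · linear_combination (-conj (cc true ζ)) * this
  · linear_combination conj (cc true ζ) * this

lemma s_ts (hb : ∀ ζ : ℂ, 2 ≤ |ζ.im| → v ζ = 1) (hv : ∀ ζ, ContDiffAt ℝ ∞ v ζ) (h : Un v) :
    ContMDiff (𝓡 3) (𝓡 3) ∞ (T.ts v) := fun y =>
  contMDiffAt_fst.comp y (ContMDiffAt.comp (g := T.tw v) y (s_tw hb fun _ => ⟨hv _, h.n _⟩)
    (contMDiffAt_id.prodMk contMDiffAt_const))

end Shell

/-- γ parametrises the half-axis of X, crossing the middle torus of the shell twice -/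
structure SArc {K : DSI} (T : Shell K) (e : ℂ) (X : DSI) (γ : ℝ → S3) : Prop where
  cont : Continuous γ
  inj : InjOn γ (Icc (-2) 2)
  img : γ '' Icc (-2) 2 = X.half
  tail : γ (-2) = X.ax 1
  head : γ 2 = X.ax (-1)
  lft : γ (-1) = T.Θ (e, 1, 0)
  rgt : γ 1 = T.Θ (-e, -1, 0)
  ins : ∀ x ∈ Icc (-2 : ℝ) 2, γ x ∈ T.In ↔ 1 ≤ |x|
  core : ∀ x ∈ Icc (-2 : ℝ) 2, γ x ∈ T.U → (T.P (γ x)).2.2 = 0 → |x| = 1

/-- X is K twisted along the shell -/
structure Tw {K : DSI} (T : Shell K) (X : DSI) : Prop where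
  k : X.k = K.k
  ρ : X.ρ = T.ρ2
  tail : X.ax 1 = K.ax 1
  head : X.ax (-1) = K.ax (-1)
  out : ∀ y ∉ T.In, T.ts (tau true) y ∈ X.half ↔ y ∈ K.anti.half
  ins : ∀ y ∈ T.In, T.ts (tau false) y ∈ X.half ↔ y ∈ K.half

/-- a shell around the knot itself, with a small neighbourhood N of the head -/
structure Nice {K : DSI} (T : Shell K) (γ γ' : ℝ → S3) (N : Set S3) : Prop where
  arc : SArc T 1 K γ
  arc' : SArc T (-1) K.anti γ'
  closed : IsClosed T.In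
  opn : IsOpen (T.In \ {y | y ∈ T.U ∧ (T.P y).2.2 = 0})
  knot : range K.k ⊆ T.In
  nhd : N ∈ 𝓝 (K.ax (-1))
  sub : N ⊆ T.In
  disj : Disjoint N T.U
  av : ∀ x ∈ Icc (-2 : ℝ) 1, γ x ∉ N
  av' : ∀ x ∈ Icc (-1 : ℝ) 2, γ' x ∉ N

end Pool.Agent.Lib.MP_7ac2ff_gt.Sh
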