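import Pool.Agent.Lib.MP_7ac2ff_gt.TubeDefs

/-! Tools for the equivariant tube: inverse functions near a compact set, lifts, determinants. -/

noncomputable section

namespace Pool.Agent.Lib.MP_7ac2ff_gt.Tb

open Set Function Filter Complex
open scoped ContDiff Topology ComplexConjugate Real

section ift

variable {V W : Type} [NormedAddCommGroup V] [NormedSpace ℝ V] [NormedAddCommGroup W]
  [NormedSpace ℝ W] [FiniteDimensional ℝ V] [FiniteDimensional ℝ W]

theorem equiv_of (h : Module.finrank ℝ V = Module.finrank ℝ W) {L : V →L[ℝ] W}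
    (hL : Injective L) : ∃ e : V ≃L[ℝ] W, (e : V →L[ℝ] W) = L :=
  ⟨(LinearMap.linearEquivOfInjective L.toLinearMap hL h).toContinuousLinearEquiv, rfl⟩

theorem ift (h : Module.finrank ℝ V = Module.finrank ℝ W) {f : V → W} {O C : Set V}
    (hO : IsOpen O) (hC : IsCompact C) (hCO : C ⊆ O) (hf : ContDiffOn ℝ ∞ f O) (inj : InjOn f C)
    (hd : ∀ x ∈ C, Injective (fderiv ℝ f x)) : ∃ (O' : Set V) (g : W → V), IsOpen O' ∧ C ⊆ O' ∧
      O' ⊆ O ∧ ∀ x ∈ O', g (f x) = x ∧ map f (𝓝 x) = 𝓝 (f x) ∧ ContDiffAt ℝ ∞ g (f x) := by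
  have := FiniteDimensional.complete ℝ V
  have ca := fun x (hx : x ∈ O) => hf.contDiffAt (hO.mem_nhds hx)
  have da := fun x (hx : x ∈ O) => ((ca x hx).differentiableAt (by simp)).hasFDerivAt
  obtain ⟨u, uo, cu, ui⟩ := inj.exists_isOpen_superset hC
    (fun x hx => (ca x (hCO hx)).continuousAt) fun x hx => by
      obtain ⟨e, he⟩ := equiv_of h (hd x hx)
      let φ := (ca x (hCO hx)).toOpenPartialHomeomorph f (he ▸ da x (hCO hx)) (by simp)
      exact ⟨φ.source, φ.open_source.mem_nhds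
        ((ca x (hCO hx)).mem_toOpenPartialHomeomorph_source _ _), φ.injOn⟩
  have o1 : IsOpen (u ∩ (O ∩ fderiv ℝ f ⁻¹' range ((↑) : (V ≃L[ℝ] W) → V →L[ℝ] W))) :=
    uo.inter ((hf.continuousOn_fderiv_of_isOpen hO (by simp)).isOpen_inter_preimage hO
      ContinuousLinearEquiv.isOpen)
  refine ⟨_, invFunOn f (u ∩ (O ∩ fderiv ℝ f ⁻¹' range ((↑) : (V ≃L[ℝ] W) → V →L[ℝ] W))), o1,
    fun x hx => ⟨cu hx, hCO hx, equiv_of h (hd x hx)⟩, fun x hx => hx.2.1, fun x hx => ?_⟩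
  have li := (ui.mono (inter_subset_left (t := O ∩ fderiv ℝ f ⁻¹' range
    ((↑) : (V ≃L[ℝ] W) → V →L[ℝ] W)))).leftInvOn_invFunOn
  obtain ⟨e, he⟩ := hx.2.2
  have d : HasFDerivAt f (e : V →L[ℝ] W) x := he ▸ da x hx.2.1
  have s := (ca x hx.2.1).hasStrictFDerivAt' d (by simp)
  have c := (ca x hx.2.1).to_localInverse d (by simp)
  refine ⟨li hx, s.map_nhds_eq_of_equiv, c.congr_of_eventuallyEq ?_⟩
  filter_upwards [s.eventually_right_inverse, c.continuousAt.eventually_mem (o1.mem_nhds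
    (((ca x hx.2.1).localInverse_apply_image d (by simp)).symm ▸ hx))] with y h1 h2
  exact (congrArg _ h1).symm.trans (li h2)

theorem open_image {V W : Type} [TopologicalSpace V] [TopologicalSpace W] {f : V → W} {O : Set V} (hO : IsOpen O)
    (h : ∀ x ∈ O, map f (𝓝 x) = 𝓝 (f x)) : IsOpen (f '' O) := by
  refine isOpen_iff_mem_nhds.2 ?_
  rintro _ ⟨x, hx, rfl⟩
  exact h x hx ▸ image_mem_map (hO.mem_nhds hx)

end ift

section det

variable {V W : Type} [AddCommGroup V] [Module ℝ V] [AddCommGroup W] [Module ℝ W]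

theorem det_semi (e : V ≃ₗ[ℝ] W) {f : V →ₗ[ℝ] V} {g : W →ₗ[ℝ] W} (h : ∀ v, e (f v) = g (e v)) :
    f.det = g.det := by
  rw [← LinearMap.det_conj f e]
  congr 1
  ext w
  simp [h]

theorem det_tri [FiniteDimensional ℝ V] [FiniteDimensional ℝ W] (f : V × W →ₗ[ℝ] V × W)
    (h : ∀ v, (f (v, 0)).2 = 0) :
    f.det = (LinearMap.fst ℝ V W ∘ₗ f ∘ₗ LinearMap.inl ℝ V W).det *
      (LinearMap.snd ℝ V W ∘ₗ f ∘ₗ LinearMap.inr ℝ V W).det := by
  classical
  let b := Module.finBasis ℝ V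
  let c := Module.finBasis ℝ W
  rw [← LinearMap.det_toMatrix (b.prod c), ← LinearMap.det_toMatrix b, ← LinearMap.det_toMatrix c,
    ← Matrix.det_fromBlocks_zero₂₁ _ (LinearMap.toMatrix c b
      (LinearMap.fst ℝ V W ∘ₗ f ∘ₗ LinearMap.inr ℝ V W))]
  congr 1
  ext (i | i) (j | j) <;> simp [LinearMap.toMatrix_apply, h]

theorem det_c (A : ℂ →ₗ[ℝ] ℂ) (a : ℂ) : A.det * normSq a = (conj (A a) * A (I * a)).im := by
  have e : ∀ z : ℂ, A z = z.re • A 1 + z.im • A I := fun z => by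
    rw [← map_smul, ← map_smul, ← map_add]; congr 1; apply Complex.ext <;> simp
  rw [← LinearMap.det_toMatrix basisOneI, Matrix.det_fin_two, e a, e (I * a)]
  simp [LinearMap.toMatrix_apply, normSq_apply]
  ring

end det

/-- the exponential map of the circle -/
def ee (t : ℝ) : ℂ := Circle.exp t

theorem norm_ee (t : ℝ) : ‖ee t‖ = 1 := Circle.norm_coe _

theorem ee_ne (t : ℝ) : ee t ≠ 0 := Circle.coe_ne_zero _

theorem ee_eq (t : ℝ) : ee t = cexp (t * I) := Circle.coe_exp t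

theorem ee_add (s t : ℝ) : ee (s + t) = ee s * ee t := by simp [ee_eq, add_mul, exp_add]

theorem ee_neg (t : ℝ) : ee (-t) = conj (ee t) := by simp [ee_eq, ← exp_conj]

theorem ee_cd : ContDiff ℝ ∞ ee := by
  rw [funext ee_eq]
  exact (contDiff_exp (𝕜 := ℝ)).comp (ofRealCLM.contDiff.mul contDiff_const)

theorem ee_d (t : ℝ) : HasDerivAt ee (I * ee t) t := by
  rw [funext ee_eq]
  simpa [mul_comm] using ((hasDerivAt_id (t : ℂ)).mul_const I).cexp.comp_ofReal

theorem ee_iff {s t : ℝ} : ee s = ee t ↔ ∃ m : ℤ, s = t + m * (2 * π) :=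
  Subtype.val_inj.trans Circle.exp_eq_exp

theorem ee_per : Periodic ee (2 * π) := fun _ => ee_iff.2 ⟨1, by simp⟩

theorem ee_arg {a : ℂ} (h : ‖a‖ = 1) : ee (arg a) = a := by
  simpa [ee_eq, h] using norm_mul_exp_arg_mul_I a

theorem per_ee {α : Type} {g : ℝ → α} (hg : Periodic g (2 * π)) {s t : ℝ} (h : ee s = ee t) :
    g s = g t := by
  obtain ⟨m, rfl⟩ := ee_iff.1 h
  exact hg.int_mul m t

theorem per_arg {α : Type} {g : ℝ → α} (hg : Periodic g (2 * π)) {c : ℝ} (hc : 0 < c) (t : ℝ) :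
    g (arg (c • ee t)) = g t := by
  rw [real_smul, arg_real_mul _ hc]
  exact per_ee hg (ee_arg (norm_ee t))

theorem arg_cd : ContDiffAt ℝ ∞ arg 1 := by
  rw [show arg = fun z => (log z).im from funext fun z => (log_im z).symm]
  exact imCLM.contDiff.contDiffAt.comp 1 ((contDiffAt_log one_mem_slitPlane).restrict_scalars ℝ)

theorem per_cd {W : Type} [NormedAddCommGroup W] [NormedSpace ℝ W] {g : ℝ → W}
    (hg : Periodic g (2 * π)) (h : ContDiff ℝ ∞ g) {a : ℂ} (ha : a ≠ 0) :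
    ContDiffAt ℝ ∞ (fun z => g (arg z)) a := by
  have c : ContDiffAt ℝ ∞ (fun z => arg (z / a)) a :=
    ContDiffAt.comp (g := arg) a (by rw [div_self ha]; exact arg_cd) (contDiffAt_id.div_const a)
  refine (h.contDiffAt.comp a (c.add contDiffAt_const (g := fun _ => arg a))).congr_of_eventuallyEq ?_
  filter_upwards [isOpen_ne.mem_nhds ha] with z hz
  obtain ⟨k, hk⟩ := Real.Angle.angle_eq_iff_two_pi_dvd_sub.1
    (show ((arg z : ℝ) : Real.Angle) = (arg (z / a) + arg a : ℝ) by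
      rw [Real.Angle.coe_add, arg_div_coe_angle hz ha, sub_add_cancel])
  rw [eq_add_of_sub_eq' hk, mul_comm]
  exact hg.int_mul k _

theorem lift_eq {f g : ℝ → ℝ} (hf : Continuous f) (hg : Continuous g)
    (h : ∀ t, ee (f t) = ee (g t)) (t : ℝ) (ht : f t = g t) : f = g :=
  Circle.isCoveringMap_exp.eq_of_comp_eq hf hg (funext fun t => Subtype.ext (h t)) t ht

theorem lift_ex {g : ℝ → ℂ} (hg : ContDiff ℝ ∞ g) (h1 : ∀ t, ‖g t‖ = 1) {t0 x : ℝ}
    (hx : ee x = g t0) : ∃ f : ℝ → ℝ, ContDiff ℝ ∞ f ∧ f t0 = x ∧ ∀ t, ee (f t) = g t := by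
  obtain ⟨f, ⟨f0, f1⟩, -⟩ := Circle.isCoveringMap_exp.existsUnique_continuousMap_lifts
    (⟨fun t => ⟨g t, mem_sphere_zero_iff_norm.2 (h1 t)⟩, hg.continuous.subtype_mk _⟩ :
      C(ℝ, Circle)) t0 x (Subtype.ext hx)
  have e : ∀ t, ee (f t) = g t := fun t => congrArg Subtype.val (congrFun f1 t)
  refine ⟨f, contDiff_iff_contDiffAt.2 fun s => ?_, f0, e⟩
  have n : g s ≠ 0 := e s ▸ ee_ne _
  have c : ContDiffAt ℝ ∞ (fun t => arg (g t / g s)) s :=
    ContDiffAt.comp (g := arg) s (by rw [div_self n]; exact arg_cd) (hg.contDiffAt.div_const _)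
  refine (c.add contDiffAt_const (g := fun _ => f s)).congr_of_eventuallyEq ?_
  filter_upwards [(f.continuous.sub continuous_const).continuousAt.eventually_mem
    (show Ioo (-π) π ∈ 𝓝 (f s - f s) from sub_self (f s) ▸
      Ioo_mem_nhds (by linarith [Real.pi_pos]) Real.pi_pos)] with t ht
  rw [← e, ← e, ← sub_eq_iff_eq_add, ← Circle.arg_exp (x := f t - f s) ht.1 ht.2.le,
    Circle.exp_sub, Circle.coe_div]
  rfl

theorem lift_deg {f : ℝ → ℝ} (hf : Continuous f) (h : ∀ t, ee (f (t + 2 * π)) = ee (f t)) :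
    ∃ d : ℤ, ∀ (m : ℤ) t, f (t + m * (2 * π)) = f t + d * m * (2 * π) := by
  obtain ⟨d, hd⟩ := ee_iff.1 (h 0)
  have e := lift_eq (f := fun t => f (t + 2 * π)) (g := fun t => f t + d * (2 * π)) (by fun_prop)
    (by fun_prop) (fun t => (h t).trans (ee_iff.2 ⟨d, rfl⟩).symm) 0 hd
  have p : Periodic (fun t => f t - d * t) (2 * π) := fun t => by
    simp only [congrFun e t]; ring
  exact ⟨d, fun m t => by linear_combination p.int_mul m t⟩

/-- a smooth involution of the circle which is not the identity and has a fixed point -/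
theorem circ_inv {σ : ℝ → ℂ} (hσ : ContDiff ℝ ∞ σ) (h1 : ∀ t, ‖σ t‖ = 1) (hp : Periodic σ (2 * π))
    (hi : ∀ s t, ee s = σ t → σ s = ee t) {t0 t1 : ℝ} (h0 : σ t0 = ee t0) (hn : σ t1 ≠ ee t1) :
    ∃ s : ℝ → ℝ, ContDiff ℝ ∞ s ∧ s t0 = t0 ∧ (∀ t, ee (s t) = σ t) ∧ (∀ t, s (s t) = t) ∧
      (∀ t, deriv s t < 0) ∧ ∀ t, s (t + 2 * π) = s t - 2 * π := by
  obtain ⟨s, c, s0, e⟩ := lift_ex hσ h1 h0.symm
  have i : ∀ t, s (s t) = t := congrFun (lift_eq (c.continuous.comp c.continuous) continuous_id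
    (fun t => (e _).trans (hi _ _ (e t))) t0 (by simp [s0]))
  have dd := c.differentiable (by simp)
  have n : ∀ t, deriv s t ≠ 0 := fun t h => by
    have := ((dd (s t)).hasDerivAt.comp t (dd t).hasDerivAt).unique
      (by rw [show s ∘ s = id from funext i]; exact hasDerivAt_id t)
    simp [h] at this
  have neg : ∀ t, deriv s t < 0 := fun t => by
    refine (n t).lt_or_gt.resolve_right fun h => hn ?_
    have m : StrictMono s := strictMono_of_deriv_pos fun x => (n x).lt_or_gt.resolve_left fun hx =>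
      let ⟨y, hy⟩ := intermediate_value_univ x t (c.continuous_deriv (by simp)) ⟨hx.le, h.le⟩
      n y hy
    rw [← e]
    congr 1
    rcases lt_trichotomy (s t1) t1 with k | k | k
    exacts [absurd (m k) (by rw [i]; exact k.not_gt), k, absurd (m k) (by rw [i]; exact k.not_gt)]
  refine ⟨s, c, s0, e, i, neg, fun t => ?_⟩
  obtain ⟨d, hd⟩ := lift_deg c.continuous fun t => by rw [e, e, hp]
  have k1 := hd 1 t
  have k2 := hd d (s t)
  have k3 := strictAnti_of_deriv_neg neg (show t < t + 2 * π by linarith [Real.pi_pos])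
  simp only [Int.cast_one, one_mul, mul_one] at k1
  rw [← k1, i, i, add_right_inj] at k2
  have k4 : (d + 1) * ((d - 1) * (2 * π)) = 0 := by linarith
  rcases mul_eq_zero.1 k4 with k | k
  · rw [k1, eq_neg_of_add_eq_zero_left k]; ring
  · linarith [Real.pi_pos]

end Pool.Agent.Lib.MP_7ac2ff_gt.Tb
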