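import Pool.Agent.Lib.MP_7ac2ff_gt.TubeA

/-! A local involution near the standard circle is conjugate to complex conjugation. -/

noncomputable section

namespace Pool.Agent.Lib.MP_7ac2ff_gt.Tb

open Set Function Filter Complex
open scoped ContDiff Topology ComplexConjugate Real

theorem polar {f : ℂ × ℂ → ℂ × ℂ} {φ : ℝ → ℝ} {t : ℝ} (hf : DifferentiableAt ℝ f (ee t, 0))
    (hφ : DifferentiableAt ℝ φ t)
    (h : ∀ᶠ c in 𝓝 (1 : ℝ), ∀ x, f (c • ee x, 0) = (c • ee (φ x), 0)) (w : ℂ) :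
    fderiv ℝ f (ee t, 0) (w * ee t, 0) = ((w.re + w.im * deriv φ t * I) * ee (φ t), 0) := by
  have a1 : ∀ z : ℂ, HasDerivAt (fun c : ℝ => ((c • z, 0) : ℂ × ℂ)) (z, 0) 1 := fun z => by
    simpa using ((hasDerivAt_id (1 : ℝ)).smul_const z).prodMk (hasDerivAt_const (1 : ℝ) (0 : ℂ))
  have d1 := (HasFDerivAt.comp_hasDerivAt_of_eq (1 : ℝ) hf.hasFDerivAt (a1 (ee t))
    (by rw [one_smul])).unique ((a1 (ee (φ t))).congr_of_eventuallyEq (h.mono fun c hc => hc t))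
  have d2 := (hf.hasFDerivAt.comp_hasDerivAt t ((ee_d t).prodMk (hasDerivAt_const t (0 : ℂ)))).unique
    ((((ee_d (φ t)).scomp t hφ.hasDerivAt).prodMk (hasDerivAt_const t (0 : ℂ))).congr_of_eventuallyEq
      (.of_forall fun x => by simpa using h.self_of_nhds x))
  have e : ((w * ee t, 0) : ℂ × ℂ) = w.re • (ee t, 0) + w.im • (I * ee t, 0) := by
    refine Prod.ext ?_ (by simp)
    simp only [Prod.fst_add, Prod.smul_fst, real_smul]
    linear_combination (-ee t) * re_add_im w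
  rw [e, map_add, map_smul, map_smul, d1, d2]
  refine Prod.ext ?_ (by simp)
  simp only [Prod.fst_add, Prod.smul_fst, real_smul]
  ring

theorem snd_eq {L : ℂ × ℂ →L[ℝ] ℂ × ℂ} (h : ∀ w, (L (w, 0)).2 = 0) (y : ℂ × ℂ) :
    (L y).2 = (L (0, y.2)).2 := by
  rw [← zero_add (L (0, y.2)).2, ← congrArg (· + _) (h y.1), ← Prod.snd_add, ← map_add]
  simp

theorem normal {α β : ℝ → ℂ} {s : ℝ → ℝ} {t0 : ℝ} (hα : Continuous α) (hβ : ContDiff ℝ ∞ β)
    (hp : Periodic β (2 * π)) (hs : Continuous s) (s0 : s t0 = t0)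
    (s1 : ∀ t, s (t + 2 * π) = s t - 2 * π)
    (h : ∀ t v, α (s t) * (α t * v + β t * conj v) + β (s t) * conj (α t * v + β t * conj v) = v)
    (h0 : normSq (α t0) < normSq (β t0)) : ∃ la : ℝ → ℂ, ContDiff ℝ ∞ la ∧ Periodic la (2 * π) ∧
      ∀ t v, la t * v + conj (la (s t) * (α t * v + β t * conj v)) = 0 → v = 0 := by
  have k : ∀ t, α (s t) * α t + β (s t) * conj (β t) = 1 ∧
      α (s t) * β t + β (s t) * conj (α t) = 0 := fun t => by
    have k1 := h t 1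
    have k2 := h t I
    simp only [map_add, map_mul, map_one, conj_I, map_neg, neg_neg] at k1 k2
    exact ⟨by linear_combination k1 / 2 - I * k2 / 2 + (α (s t) * (α t - β t) + β (s t) *
        (conj (β t) - conj (α t)) - 1) / 2 * I_mul_I,
      by linear_combination k1 / 2 + I * k2 / 2 - (α (s t) * (α t - β t) + β (s t) *
        (conj (β t) - conj (α t)) - 1) / 2 * I_mul_I⟩
  have k1 : ∀ t, β (s t) * (normSq (β t) - normSq (α t) : ℝ) = β t := fun t => by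
    rw [ofReal_sub, ← mul_conj, ← mul_conj]
    linear_combination β t * (k t).1 - α t * (k t).2
  have k2 : ∀ t, normSq (β t) - normSq (α t) ≠ 0 := fun t e => by
    have b0 : β t = 0 := by simpa [e] using (k1 t).symm
    have a0 : α t = 0 := by simpa [b0] using e
    simpa [a0, b0] using (k t).1
  have k3 : ∀ t, 0 < normSq (β t) - normSq (α t) := fun t => (k2 t).lt_or_gt.resolve_left fun hx =>
    let ⟨y, hy⟩ := intermediate_value_univ t t0 ((continuous_normSq.comp hβ.continuous).sub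
      (continuous_normSq.comp hα)) ⟨hx.le, (sub_pos.2 h0).le⟩
    k2 y hy
  have k4 : ∀ t, ‖α t‖ < ‖β t‖ := fun t => by
    have := k3 t
    rw [normSq_eq_norm_sq, normSq_eq_norm_sq, sub_pos] at this
    exact lt_of_pow_lt_pow_left₀ 2 (norm_nonneg _) this
  have b0 : ∀ t, 0 < ‖β t‖ := fun t => (norm_nonneg _).trans_lt (k4 t)
  have n1 : ∀ t, ‖‖β t‖⁻¹ • β t‖ = 1 := fun t => norm_smul_inv_norm (norm_pos_iff.1 (b0 t))
  obtain ⟨f, c, -, e⟩ := lift_ex (g := fun t => ‖β t‖⁻¹ • β t)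
    (((hβ.norm ℝ fun t => norm_pos_iff.1 (b0 t)).inv fun t => (b0 t).ne').smul hβ) n1
    (ee_arg (n1 t0))
  have f1 : ∀ t, f (s t) = f t := congrFun (lift_eq (c.continuous.comp hs) c.continuous (fun t => by
    have := k3 t
    have := b0 (s t)
    rw [e, e, ← k1 t, mul_comm, ← real_smul, norm_smul, Real.norm_of_nonneg (k3 t).le, smul_smul]
    congr 1
    field_simp) t0 (congrArg f s0))
  obtain ⟨d, hd⟩ := lift_deg c.continuous fun t => by rw [e, e, hp]
  have f2 : Periodic f (2 * π) := fun t => by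
    have a1 := hd 1 t
    have a2 := hd (-1) (s t)
    have a3 := f1 (t + 2 * π)
    push_cast at a1 a2
    rw [s1] at a3
    rw [one_mul] at a1
    rw [neg_one_mul, ← sub_eq_add_neg, f1] at a2
    linarith
  refine ⟨fun t => ee (-(f t / 2)), ee_cd.comp (c.div_const 2).neg, fun t => by simp only [f2 t],
    fun t v hv => ?_⟩
  have e1 : β t = ‖β t‖ * (ee (f t / 2) * ee (f t / 2)) := by
    rw [← ee_add, add_halves, e, ← real_smul, smul_inv_smul₀ (b0 t).ne']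
  have e2 : conj (ee (f t / 2)) * ee (f t / 2) = 1 := by
    rw [← ee_neg, ← ee_add, neg_add_cancel]; simp [ee_eq]
  have n2 := norm_ee (f t / 2)
  simp only [f1, ee_neg] at hv
  have k5 := k4 t
  have k6 := b0 t
  generalize ee (f t / 2) = u, ‖β t‖ = b at *
  have e3 : conj u * ((1 + b : ℝ) * v) = -(u * conj (α t * v)) := by
    simp only [e1, map_add, map_mul, conj_conj, conj_ofReal] at hv ⊢
    push_cast
    linear_combination hv - b * v * conj u * e2
  have e4 := congrArg norm e3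
  simp only [norm_mul, norm_neg, norm_conj, n2, norm_real, Real.norm_of_nonneg
    (show 0 ≤ 1 + b by linarith)] at e4
  exact norm_le_zero_iff.1 (by nlinarith [norm_nonneg v])

/-- a local involution near the standard circle -/
structure Loc (W : Set (ℂ × ℂ)) (r : ℂ × ℂ → ℂ × ℂ) : Prop where
  opn : IsOpen W
  ne : ∀ y ∈ W, y.1 ≠ 0
  cd : ContDiffOn ℝ ∞ r W
  mem : ∀ t, (ee t, 0) ∈ W
  maps : MapsTo r W W
  inv : ∀ y ∈ W, r (r y) = y
  nrm : ∀ t, ‖(r (ee t, 0)).1‖ = 1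
  hom : ∀ᶠ c in 𝓝 (1 : ℝ), ∀ t, r (c • ee t, 0) = (c • (r (ee t, 0)).1, 0)
  fix : ∃ t, r (ee t, 0) = (ee t, 0) ∧ 0 < (fderiv ℝ r (ee t, 0)).det
  nfix : ∃ t, r (ee t, 0) ≠ (ee t, 0)

variable {W : Set (ℂ × ℂ)} {r : ℂ × ℂ → ℂ × ℂ}

theorem Loc.cda (h : Loc W r) {y : ℂ × ℂ} (hy : y ∈ W) : ContDiffAt ℝ ∞ r y :=
  h.cd.contDiffAt (h.opn.mem_nhds hy)

theorem Loc.data (h : Loc W r) : ∃ (s : ℝ → ℝ) (la : ℝ → ℂ), ContDiff ℝ ∞ s ∧ (∀ t, s (s t) = t) ∧
    (∀ t, deriv s t < 0) ∧ (∀ t, s (t + 2 * π) = s t - 2 * π) ∧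
    (∀ᶠ c in 𝓝 (1 : ℝ), ∀ t, r (c • ee t, 0) = (c • ee (s t), 0)) ∧ ContDiff ℝ ∞ la ∧
    Periodic la (2 * π) ∧
      ∀ t v, la t * v + conj (la (s t) * (fderiv ℝ r (ee t, 0) (0, v)).2) = 0 → v = 0 := by
  obtain ⟨t0, f0, f1⟩ := h.fix
  obtain ⟨t1, f2⟩ := h.nfix
  have e0 : ∀ t, r (ee t, 0) = ((r (ee t, 0)).1, 0) := fun t => by
    simpa only [one_smul] using h.hom.self_of_nhds t
  have c0 : ContDiff ℝ ∞ fun t => ((ee t, 0) : ℂ × ℂ) := ee_cd.prodMk contDiff_const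
  obtain ⟨s, c, s0, e, i, neg, s1⟩ := circ_inv (σ := fun t => (r (ee t, 0)).1)
    (h.cd.comp_contDiff c0 h.mem).fst h.nrm (fun t => by simp only [ee_per t])
    (fun s t k => by rw [k, ← e0, h.inv _ (h.mem t)]) (t0 := t0) (t1 := t1) (congrArg _ f0)
    fun k => f2 (by rw [e0, k])
  have hm : ∀ᶠ c in 𝓝 (1 : ℝ), ∀ t, r (c • ee t, 0) = (c • ee (s t), 0) :=
    h.hom.mono fun c hc t => by rw [hc, e]
  have da := fun t => (h.cda (h.mem t)).differentiableAt (by simp)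
  have po := fun t => polar (da t) (c.differentiable (by simp) t) hm
  have z : ∀ t w, (fderiv ℝ r (ee t, 0) (w, 0)).2 = 0 := fun t w => by
    rw [← div_mul_cancel₀ w (ee_ne t), po]
  have cR : ∀ v, ContDiff ℝ ∞ fun t => (fderiv ℝ r (ee t, 0) (0, v)).2 := fun v =>
    (((h.cd.fderiv_of_isOpen h.opn (m := ∞) (by simp)).comp_contDiff c0 h.mem).clm_apply
      contDiff_const).snd
  let α := fun t => ((fderiv ℝ r (ee t, 0) (0, 1)).2 - I * (fderiv ℝ r (ee t, 0) (0, I)).2) / 2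
  let β := fun t => ((fderiv ℝ r (ee t, 0) (0, 1)).2 + I * (fderiv ℝ r (ee t, 0) (0, I)).2) / 2
  have eR : ∀ t v, (fderiv ℝ r (ee t, 0) (0, v)).2 = α t * v + β t * conj v := fun t v => by
    have e : ((0, v) : ℂ × ℂ) = v.re • (0, 1) + v.im • (0, I) := by
      refine Prod.ext (by simp) ?_
      simp
    rw [e, map_add, map_smul, map_smul]
    simp only [Prod.snd_add, Prod.smul_snd, real_smul, α, β, re_eq_add_conj, im_eq_sub_conj]
    field_simp
    ring_nf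
    rw [I_sq]
    ring
  obtain ⟨la, l1, l2, l3⟩ := normal (α := α) (β := β) (t0 := t0)
    (((cR 1).sub (contDiff_const.mul (cR I))).div_const 2).continuous
    (((cR 1).add (contDiff_const.mul (cR I))).div_const 2) (fun t => by simp only [β, ee_per t])
    c.continuous s0 s1 (fun t v => by
      have k := (HasFDerivAt.comp (g := r) (g' := fderiv ℝ r (ee (s t), 0)) _
        (by rw [e0, ← e]; exact (da (s t)).hasFDerivAt) (da t).hasFDerivAt).unique
          ((hasFDerivAt_id _).congr_of_eventuallyEq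
          (mem_of_superset (h.opn.mem_nhds (h.mem t)) h.inv))
      have k1 := congrArg (fun L : ℂ × ℂ →L[ℝ] ℂ × ℂ => (L (0, v)).2) k
      rw [← eR, ← eR, ← snd_eq (z (s t))]
      exact k1) (by
      have k1 := det_c (LinearMap.fst ℝ ℂ ℂ ∘ₗ (fderiv ℝ r (ee t0, 0) : ℂ × ℂ →ₗ[ℝ] ℂ × ℂ) ∘ₗ
        LinearMap.inl ℝ ℂ ℂ) (ee t0)
      have k2 := det_c (LinearMap.snd ℝ ℂ ℂ ∘ₗ (fderiv ℝ r (ee t0, 0) : ℂ × ℂ →ₗ[ℝ] ℂ × ℂ) ∘ₗ
        LinearMap.inr ℝ ℂ ℂ) 1
      have p1 := po t0 1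
      have n : normSq (ee t0) = 1 := by rw [normSq_eq_norm_sq, norm_ee, one_pow]
      rw [one_mul] at p1
      rw [ContinuousLinearMap.det, det_tri _ (z t0)] at f1
      simp only [LinearMap.comp_apply, LinearMap.inl_apply, LinearMap.inr_apply,
        ContinuousLinearMap.coe_coe, LinearMap.fst_apply, LinearMap.snd_apply, p1, po, eR, s0, n,
        map_one, mul_one] at k1 k2
      rw [k1, k2] at f1
      have := neg t0
      rw [normSq_apply] at n
      simp [normSq_apply] at f1 ⊢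
      rw [mul_left_comm (ee t0).re, mul_left_comm (ee t0).im, ← mul_add, n, mul_one] at f1
      nlinarith)
  exact ⟨s, la, c, i, neg, s1, hm, l1, l2, fun t v k => l3 t v (eR t v ▸ k)⟩

theorem Loc.core (h : Loc W r) {N : ℂ × ℂ → ℝ} (hN : ContDiffOn ℝ ∞ N W)
    (N1 : ∀ y ∈ W, N (r y) = N y) (N0 : ∀ y, 0 ≤ N y) (N2 : ∀ c > 0, ∀ t, N (c • ee t, 0) = c) :
    ∃ (W' : Set (ℂ × ℂ)) (G : ℂ × ℂ → ℂ × ℂ) (θ : ℝ → ℝ), IsOpen W' ∧ W' ⊆ W ∧
      (∀ t, (ee t, 0) ∈ W') ∧ ContDiffOn ℝ ∞ G W' ∧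
      (∀ y ∈ W', G (r y) = (conj (G y).1, conj (G y).2) ∧ ‖(G y).1‖ = N y) ∧
      (∀ t, Injective (fderiv ℝ G (ee t, 0))) ∧ (∀ t, G (ee t, 0) = (ee (θ t), 0)) ∧
      (∀ s t, ee (θ s) = ee (θ t) → ee s = ee t) ∧ ∀ x, ∃ t, ee (θ t) = ee x := by
  obtain ⟨s, la, c, i, neg, s1, hm, l1, l2, l3⟩ := h.data
  let θ := fun t => (t - s t) / 2
  have cθ : ContDiff ℝ ∞ θ := (contDiff_id.sub c).div_const 2
  have dθ : ∀ t, 0 < deriv θ t := fun t => by
    rw [show deriv θ t = _ from (((hasDerivAt_id t).sub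
      (c.differentiable (by simp) t).hasDerivAt).div_const 2).deriv]
    linarith [neg t]
  have p0 : Periodic (fun t => θ t - t) (2 * π) := fun t => by simp only [θ, s1]; ring
  have p1 : Periodic (fun t => ee (θ t)) (2 * π) := fun t =>
    ee_iff.2 ⟨1, by linear_combination p0 t⟩
  let Q := fun y : ℂ × ℂ => ee (θ (arg y.1))
  let A := fun y => Q y + conj (Q (r y))
  let L := fun y : ℂ × ℂ => la (arg y.1) * y.2
  have cj : ContDiff ℝ ∞ fun z : ℂ => conj z := conjCLE.contDiff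
  have cQ : ∀ y ∈ W, ContDiffAt ℝ ∞ Q y := fun y hy =>
    (per_cd p1 (ee_cd.comp cθ) (h.ne y hy)).comp y contDiffAt_fst
  have cl : ∀ y ∈ W, ContDiffAt ℝ ∞ (fun y : ℂ × ℂ => la (arg y.1)) y := fun y hy =>
    (per_cd l2 l1 (h.ne y hy)).comp y contDiffAt_fst
  have cA : ∀ y ∈ W, ContDiffAt ℝ ∞ A y := fun y hy =>
    (cQ y hy).add (cj.contDiffAt.comp y ((cQ _ (h.maps hy)).comp y (h.cda hy)))
  have eA : ∀ᶠ c in 𝓝 (1 : ℝ), ∀ t, A (c • ee t, 0) = (2 : ℝ) • ee (θ t) := by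
    filter_upwards [hm, lt_mem_nhds zero_lt_one] with c hc c0 t
    simp only [A, Q, hc, per_arg p1 c0]
    rw [show θ (s t) = -θ t by simp only [θ, i]; ring, ee_neg, conj_conj, two_smul]
  have o : IsOpen (W ∩ A ⁻¹' {0}ᶜ) := ContinuousOn.isOpen_inter_preimage
    (fun y hy => (cA y hy).continuousAt.continuousWithinAt) h.opn isOpen_compl_singleton
  have mem : ∀ t, (ee t, 0) ∈ W ∩ A ⁻¹' {0}ᶜ := fun t => ⟨h.mem t, fun e => by
    have := eA.self_of_nhds t
    rw [one_smul, show A _ = 0 from e] at this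
    exact smul_ne_zero two_ne_zero (ee_ne _) this.symm⟩
  let G := fun y => ((N y * ‖A y‖⁻¹) • A y, L y + conj (L (r y)))
  have cG : ∀ y ∈ W ∩ A ⁻¹' {0}ᶜ, ContDiffAt ℝ ∞ G y := fun y hy =>
    (((hN.contDiffAt (h.opn.mem_nhds hy.1)).mul (((cA y hy.1).norm ℝ hy.2).inv
      (norm_ne_zero_iff.2 hy.2))).smul (cA y hy.1)).prodMk (((cl y hy.1).mul contDiffAt_snd).add
        (cj.contDiffAt.comp y (((cl _ (h.maps hy.1)).mul contDiffAt_snd).comp y (h.cda hy.1))))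
  have eG : ∀ᶠ c in 𝓝 (1 : ℝ), ∀ t, G (c • ee t, 0) = (c • ee (θ t), 0) := by
    filter_upwards [hm, eA, lt_mem_nhds zero_lt_one] with c hc ha c0 t
    simp only [G, L, ha, hc, N2 c c0, norm_smul, norm_ee, smul_smul]
    simp
  refine ⟨_, G, θ, o, inter_subset_left, mem, fun y hy => (cG y hy).contDiffWithinAt,
    fun y hy => ⟨?_, ?_⟩, fun t => (injective_iff_map_eq_zero _).2 fun w hw => ?_,
    fun t => by simpa only [one_smul] using eG.self_of_nhds t, fun x t e => ?_, fun x => ?_⟩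
  · have e : A (r y) = conj (A y) := by simp only [A, h.inv y hy.1, map_add, conj_conj, add_comm]
    simp only [G, e, N1 y hy.1, h.inv y hy.1, norm_conj, real_smul, map_mul, map_add, conj_ofReal,
      conj_conj, add_comm]
  · simp only [G]
    rw [mul_smul, norm_smul, show ‖‖A y‖⁻¹ • A y‖ = 1 from
      norm_smul_inv_norm (𝕜 := ℝ) hy.2, mul_one, Real.norm_of_nonneg (N0 y)]
  · have dG := (cG _ (mem t)).differentiableAt (by simp)
    have po := polar dG (cθ.differentiable (by simp) t) eG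
    have z : ∀ w, (fderiv ℝ G (ee t, 0) (w, 0)).2 = 0 := fun w => by
      rw [← div_mul_cancel₀ w (ee_ne t), po]
    have dL : ∀ t, HasFDerivAt L (la t • ContinuousLinearMap.snd ℝ ℂ ℂ) (ee t, 0) := fun t => by
      have := ((cl _ (h.mem t)).differentiableAt (by simp)).hasFDerivAt.mul hasFDerivAt_snd
      refine this.congr_fderiv (ContinuousLinearMap.ext fun w => ?_)
      simp [per_ee l2 (ee_arg (norm_ee t))]
    have k := dG.hasFDerivAt.snd.unique ((dL t).add (conjCLE.hasFDerivAt.comp _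
      (HasFDerivAt.comp (g := L) (g' := la (s t) • ContinuousLinearMap.snd ℝ ℂ ℂ) _
        (by rw [← one_smul ℝ (ee t), hm.self_of_nhds, one_smul]; exact dL _)
        ((h.cda (h.mem t)).differentiableAt (by simp)).hasFDerivAt)))
    have k1 : (fderiv ℝ G (ee t, 0) (0, w.2)).2 = _ :=
      congrArg (fun L : ℂ × ℂ →L[ℝ] ℂ => L (0, w.2)) k
    rw [← snd_eq z, hw] at k1
    have k2 := l3 t w.2 k1.symm
    have k3 := po (w.1 / ee t)
    rw [div_mul_cancel₀ _ (ee_ne t), show (w.1, 0) = w from Prod.ext rfl k2.symm, hw] at k3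
    have k4 := (mul_eq_zero.1 (congrArg Prod.fst k3).symm).resolve_right (ee_ne _)
    have k5 : w.1 / ee t = 0 := by
      generalize w.1 / ee t = u at k4
      simpa [Complex.ext_iff, (dθ t).ne'] using k4
    exact Prod.ext ((div_eq_zero_iff.1 k5).resolve_right (ee_ne t)) k2
  · obtain ⟨m, hm⟩ := ee_iff.1 e
    exact ee_iff.2 ⟨m, (strictMono_of_deriv_pos dθ).injective
      (by linear_combination hm - p0.int_mul m t)⟩
  · obtain ⟨y, hy, e⟩ := ee_per.exists_mem_Ioc Real.two_pi_pos x (θ 0)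
    obtain ⟨t, ht⟩ := intermediate_value_univ 0 (0 + 2 * π) cθ.continuous
      (show y ∈ _ from ⟨hy.1.le, by linarith [hy.2, p0 0]⟩)
    exact ⟨t, by rw [ht, e]⟩

end Pool.Agent.Lib.MP_7ac2ff_gt.Tb
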