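import Pool.Agent.Lib.MP_7ac2ff_gt.TubeB

/-! The cone over the involution, a normal frame, and the passage to the tube. -/

noncomputable section

namespace Pool.Agent.Lib.MP_7ac2ff_gt.Tb

open Set Function Filter Complex
open scoped Manifold ContDiff Topology ComplexConjugate Real RealInnerProductSpace

theorem fact4 : Fact (Module.finrank ℝ (E 4) = 3 + 1) := ⟨finrank_euclideanSpace_fin⟩

attribute [local instance] fact4 finrank_real_complex_fact'

open Classical in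
/-- radial projection -/
def nz (x : E 4) : S3 := if h : x = 0 then ⟨EuclideanSpace.single 0 1, by simp⟩ else
  ⟨‖x‖⁻¹ • x, mem_sphere_zero_iff_norm.2 (norm_smul_inv_norm (𝕜 := ℝ) h)⟩

theorem nz_coe {x : E 4} (h : x ≠ 0) : (nz x : E 4) = ‖x‖⁻¹ • x := by rw [nz, dif_neg h]

theorem nz_smul {c : ℝ} (hc : 0 < c) (p : S3) : nz (c • (p : E 4)) = p := by
  refine Subtype.ext ?_
  rw [nz_coe (smul_ne_zero hc.ne' (ne_zero_of_mem_unit_sphere p)), norm_smul, norm_eq_of_mem_sphere,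
    Real.norm_of_nonneg hc.le, mul_one, inv_smul_smul₀ hc.ne']

theorem nz_val (p : S3) : nz p = p := by simpa using nz_smul one_pos p

theorem nz_cm {x : E 4} (h : x ≠ 0) : ContMDiffAt 𝓘(ℝ, E 4) (𝓡 3) ∞ nz x := by
  let U : TopologicalSpace.Opens (E 4) := ⟨{0}ᶜ, isOpen_compl_singleton⟩
  have c : ContMDiff 𝓘(ℝ, E 4) 𝓘(ℝ, E 4) ∞ fun y : U => ‖(y : E 4)‖⁻¹ • (y : E 4) := fun y =>
    contMDiffAt_subtype_iff.2 (((contDiffAt_norm ℝ y.2).inv (norm_ne_zero_iff.2 y.2)).smul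
      contDiffAt_id).contMDiffAt
  refine (contMDiffAt_subtype_iff (U := U) (x := ⟨x, h⟩)).1 ?_
  exact (c.codRestrict_sphere (n := 3) (fun y : U => mem_sphere_zero_iff_norm.2
    (norm_smul_inv_norm (𝕜 := ℝ) y.2))).congr (fun y => Subtype.ext (nz_coe y.2)) ⟨x, h⟩

variable (K : DSI)

/-- the cone over the involution -/
def rh (x : E 4) : E 4 := ‖x‖ • (K.ρ (nz x) : E 4)

theorem rh_smul {c : ℝ} (hc : 0 < c) (p : S3) : rh K (c • (p : E 4)) = c • (K.ρ p : E 4) := by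
  rw [rh, nz_smul hc, norm_smul, norm_eq_of_mem_sphere, Real.norm_of_nonneg hc.le, mul_one]

theorem rh_val (p : S3) : rh K p = K.ρ p := by simpa using rh_smul K one_pos p

theorem norm_rh (x : E 4) : ‖rh K x‖ = ‖x‖ := by
  rw [rh, norm_smul, norm_eq_of_mem_sphere, norm_norm, mul_one]

theorem rh_rh {x : E 4} (h : x ≠ 0) : rh K (rh K x) = x := by
  rw [rh.eq_1 K x, rh_smul K (norm_pos_iff.2 h), K.invol, nz_coe h,
    smul_inv_smul₀ (norm_ne_zero_iff.2 h)]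

theorem rh_cd {x : E 4} (h : x ≠ 0) : ContDiffAt ℝ ∞ (rh K) x :=
  (contDiffAt_norm ℝ h).smul
    ((((contMDiff_coe_sphere (n := 3)).comp K.smooth) _).comp x (nz_cm h)).contDiffAt

theorem rh_det {p : S3} (hp : K.ρ p = p) : 0 < (fderiv ℝ (rh K) p).det := by
  obtain ⟨o, -, ho⟩ := K.ori
  have h0 : 0 < (dif (𝓡 3) (𝓡 3) K.ρ p).det := by
    have := ho p
    rw [hp] at this
    exact pos_of_mul_pos_right this (mul_self_nonneg _)
  have p0 := ne_zero_of_mem_unit_sphere p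
  have dr := (rh_cd K p0).differentiableAt (by simp)
  let ι : E 3 →L[ℝ] E 4 := dif (𝓡 3) 𝓘(ℝ, E 4) ((↑) : S3 → E 4) p
  have dι := fun q : S3 => ((contMDiff_coe_sphere (E := E 4) (n := 3) (m := 1) q).mdifferentiableAt
    one_ne_zero).hasMFDerivAt
  have e1 : ∀ w, fderiv ℝ (rh K) p (ι w) = ι (dif (𝓡 3) (𝓡 3) K.ρ p w) := fun w => by
    have k1 := dr.hasFDerivAt.hasMFDerivAt.comp p (dι p)
    have k2 := (dι (K.ρ p)).comp p (K.smooth.mdifferentiableAt (by simp)).hasMFDerivAt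
    rw [show rh K ∘ Subtype.val = Subtype.val ∘ K.ρ from funext (rh_val K)] at k1
    have k3 : fderiv ℝ (rh K) p (ι w) = dif (𝓡 3) 𝓘(ℝ, E 4) ((↑) : S3 → E 4) (K.ρ p)
        (dif (𝓡 3) (𝓡 3) K.ρ p w) := congrArg (· w) (k1.mfderiv.symm.trans k2.mfderiv)
    rwa [hp] at k3
  have e2 : fderiv ℝ (rh K) p p = p := by
    have a1 : HasDerivAt (fun c : ℝ => c • (p : E 4)) p 1 := by
      simpa using (hasDerivAt_id (1 : ℝ)).smul_const (p : E 4)
    exact (HasFDerivAt.comp_hasDerivAt_of_eq (1 : ℝ) dr.hasFDerivAt a1 (by rw [one_smul])).unique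
      (a1.congr_of_eventuallyEq ((lt_mem_nhds zero_lt_one).mono fun c hc => by
        rw [comp, rh_smul K hc, hp]))
  obtain ⟨e, he⟩ := equiv_of (V := E 3 × ℝ) (W := E 4) (by simp)
    (L := ι.coprod (ContinuousLinearMap.toSpanSingleton ℝ (p : E 4)))
    ((injective_iff_map_eq_zero _).2 fun w hw => by
      have k1 : ⟪(p : E 4), ι w.1⟫ = 0 := Submodule.mem_orthogonal_singleton_iff_inner_right.1
        (range_mfderiv_coe_sphere (n := 3) p ▸ ⟨w.1, rfl⟩)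
      have k2 : ι w.1 + w.2 • (p : E 4) = 0 := hw
      have k3 := congrArg (fun x => ⟪(p : E 4), x⟫) k2
      simp only [inner_add_right, k1, inner_smul_right, inner_zero_right, zero_add,
        mul_eq_zero, inner_self_eq_zero, p0, or_false] at k3
      rw [k3, zero_smul, add_zero] at k2
      exact Prod.ext ((injective_iff_map_eq_zero ι).1 (mfderiv_coe_sphere_injective (n := 3) p) _ k2)
        k3)
  have e3 : ∀ w, e w = ι w.1 + w.2 • (p : E 4) := fun w => congrArg (· w) he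
  rw [ContinuousLinearMap.det, ← det_semi e.toLinearEquiv
    (f := (dif (𝓡 3) (𝓡 3) K.ρ p : E 3 →ₗ[ℝ] E 3).prodMap LinearMap.id) fun w => by simp [e3, e1, e2],
    LinearMap.det_prodMap, LinearMap.det_id, mul_one]
  exact h0

/-- a minor -/
def mi (a b c : E 4) (i j k : Fin 4) : ℝ :=
  a i * (b j * c k - b k * c j) - a j * (b i * c k - b k * c i) + a k * (b i * c j - b j * c i)

/-- the cross product of three vectors -/
def cr (a b c : E 4) : E 4 := !₂[-mi a b c 1 2 3, mi a b c 0 2 3, -mi a b c 0 1 3, mi a b c 0 1 2]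

theorem cr_ind {a b c : E 4} (ha : ‖a‖ = 1) (hab : ⟪a, b⟫ = 0) (hb : b ≠ 0)
    (hc : ∀ x y : ℝ, x • a + y • b ≠ c) {x y z w : ℝ} (h : x • a + y • b + z • c + w • cr a b c = 0) :
    x = 0 ∧ y = 0 ∧ z = 0 ∧ w = 0 := by
  have aa : ⟪a, a⟫ = 1 := by rw [real_inner_self_eq_norm_sq, ha, one_pow]
  have bb : ⟪b, b⟫ ≠ 0 := inner_self_ne_zero.2 hb
  have o : ⟪cr a b c, a⟫ = 0 ∧ ⟪cr a b c, b⟫ = 0 ∧ ⟪cr a b c, c⟫ = 0 ∧ ⟪cr a b c, cr a b c⟫ =
      ⟪a, a⟫ * (⟪b, b⟫ * ⟪c, c⟫ - ⟪b, c⟫ ^ 2) - ⟪a, b⟫ * (⟪a, b⟫ * ⟪c, c⟫ - ⟪b, c⟫ * ⟪a, c⟫) +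
        ⟪a, c⟫ * (⟪a, b⟫ * ⟪b, c⟫ - ⟪b, b⟫ * ⟪a, c⟫) := by
    simp only [PiLp.inner_apply, Fin.sum_univ_four, cr, mi]
    simp
    refine ⟨?_, ?_, ?_, ?_⟩ <;> ring
  have n : ⟪cr a b c, cr a b c⟫ ≠ 0 := fun e => hc ⟪a, c⟫ (⟪b, c⟫ / ⟪b, b⟫) (by
    rw [← sub_eq_zero, ← inner_self_eq_zero (𝕜 := ℝ)]
    have k := o.2.2.2
    rw [e, aa, hab] at k
    simp only [inner_sub_left, inner_sub_right, inner_add_left, inner_add_right, inner_smul_right,
      real_inner_smul_left, aa, hab, real_inner_comm a b, real_inner_comm a c, real_inner_comm b c]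
    field_simp
    linarith)
  have k1 := congrArg (fun v => ⟪cr a b c, v⟫) h
  simp only [inner_add_right, inner_smul_right, o.1, o.2.1, o.2.2.1, mul_zero, zero_add,
    inner_zero_right, mul_eq_zero, n, or_false] at k1
  rw [k1, zero_smul, add_zero] at h
  have k2 : z = 0 := by
    by_contra k
    refine hc (-(z⁻¹ * x)) (-(z⁻¹ * y)) (smul_right_injective _ k ?_)
    simp only [smul_add, smul_smul, mul_neg, mul_inv_cancel_left₀ k]
    rw [neg_smul, neg_smul, ← neg_add, neg_eq_iff_add_eq_zero, h]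
  rw [k2, zero_smul, add_zero] at h
  have k3 := congrArg (fun v => ⟪a, v⟫) h
  simp only [inner_add_right, inner_smul_right, aa, hab, mul_zero, add_zero, mul_one,
    inner_zero_right] at k3
  rw [k3, zero_smul, zero_add] at h
  exact ⟨k3, (smul_eq_zero.1 h).resolve_right hb, k2, k1⟩

/-- the knot as a periodic curve -/
def kk (t : ℝ) : E 4 := K.k (Circle.exp t)

theorem kk_cd : ContDiff ℝ ∞ (kk K) :=
  ((contMDiff_coe_sphere (n := 3)).comp (K.emb.1.comp contMDiff_circleExp)).contDiff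

theorem kk_per : Periodic (kk K) (2 * π) := fun t => by rw [kk, kk, Circle.periodic_exp]

theorem kk_d (t : ℝ) : deriv (kk K) t ≠ 0 := fun h => by
  have d0 := ((contMDiff_circleExp (m := 1) t).mdifferentiableAt one_ne_zero).hasMFDerivAt
  have d1 := (K.emb.1.mdifferentiableAt (x := Circle.exp t) (by simp)).hasMFDerivAt
  have d2 := ((contMDiff_coe_sphere (E := E 4) (n := 3) (m := 1)
    (K.k (Circle.exp t))).mdifferentiableAt one_ne_zero).hasMFDerivAt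
  have d3 := ((contMDiff_coe_sphere (E := ℂ) (n := 1) (m := 1)
    (Circle.exp t)).mdifferentiableAt one_ne_zero).hasMFDerivAt
  have k1 := congrArg (· (1 : ℝ)) ((d2.comp t (d1.comp t d0)).mfderiv.symm.trans
    ((kk_cd K).differentiable (by simp) t).hasDerivAt.hasFDerivAt.hasMFDerivAt.mfderiv)
  have k2 := congrArg (· (1 : ℝ)) ((d3.comp t d0).mfderiv.symm.trans
    (ee_d t).hasFDerivAt.hasMFDerivAt.mfderiv)
  have k3 := (injective_iff_map_eq_zero _).1 (K.emb.2.2 _) _ ((injective_iff_map_eq_zero _).1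
    (mfderiv_coe_sphere_injective (n := 3) _) _ (k1.trans ((one_smul ℝ _).trans h)))
  exact mul_ne_zero I_ne_zero (ee_ne t) ((k2.trans (one_smul ℝ _)).symm.trans
    ((congrArg _ k3).trans (ContinuousLinearMap.map_zero _)))

theorem frame : ∃ (e : E 4) (n : ℝ → E 4), ContDiff ℝ ∞ n ∧ Periodic n (2 * π) ∧
    ∀ t (x y z w : ℝ), x • kk K t + y • deriv (kk K) t + z • e + w • n t = 0 →
      x = 0 ∧ y = 0 ∧ z = 0 ∧ w = 0 := by
  have c := kk_cd K
  have c' := (contDiff_infty_iff_deriv.1 c).2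
  have n1 : ∀ t, ‖kk K t‖ = 1 := fun t => norm_eq_of_mem_sphere _
  obtain ⟨e, he⟩ := (ContDiff.dense_compl_range_of_finrank_lt_finrank
    (f := fun p : ℝ × ℝ × ℝ => p.2.1 • kk K p.1 + p.2.2 • deriv (kk K) p.1)
    ((show ContDiff ℝ ∞ _ by fun_prop).of_le (by simp)) (by simp)).nonempty
  refine ⟨e, fun t => cr (kk K t) (deriv (kk K) t) e, contDiff_euclidean.2 fun i => ?_, fun t => ?_,
    fun t x y z w => cr_ind (n1 t) ?_ (kk_d K t) fun x y h => he ⟨(t, x, y), h⟩⟩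
  · have c1 := contDiff_euclidean.1 c
    have c2 := contDiff_euclidean.1 c'
    fin_cases i <;> simp [cr, mi] <;> fun_prop
  · simp only [kk_per K t, ← deriv_comp_add_const, funext (kk_per K)]
  · have d := (c.differentiable (by simp) t).hasDerivAt
    have := (d.inner ℝ d).unique ((hasDerivAt_const t (1 : ℝ)).congr_of_eventuallyEq
      (.of_forall fun t => by simp [n1]))
    rw [real_inner_comm (kk K t)] at this
    linarith

theorem ev_circ {X Y : Type} [TopologicalSpace X] [TopologicalSpace Y] {f : X × ℂ → Y} {O : Set Y}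
    {x : X} (hf : Continuous f) (hO : IsOpen O) (h : ∀ t, f (x, ee t) ∈ O) :
    ∀ᶠ y in 𝓝 x, ∀ a, ‖a‖ = 1 → f (y, a) ∈ O :=
  ((isCompact_sphere (0 : ℂ) 1).eventually_forall_of_forall_eventually
    (P := fun y a => f (y, a) ∈ O) fun _ ha => hf.continuousAt.eventually_mem (hO.mem_nhds
      (ee_arg (mem_sphere_zero_iff_norm.1 ha) ▸ h _))).mono fun _ h a ha =>
        h a (mem_sphere_zero_iff_norm.2 ha)

theorem kk_rh (t : ℝ) : ∃ s, ∀ c : ℝ, 0 < c → rh K (c • kk K t) = c • kk K s := by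
  obtain ⟨z, hz⟩ := K.inv.subset (mem_image_of_mem _ ⟨Circle.exp t, rfl⟩)
  exact ⟨arg z, fun c hc => by rw [kk, kk, rh_smul K hc, Circle.exp_arg, hz]⟩

theorem kk_inj {s t : ℝ} (h : kk K s = kk K t) : ee s = ee t :=
  congrArg Subtype.val (K.emb.2.1.injective (Subtype.ext h))

theorem tube_of {V : Set (E 4)} {F : E 4 → ℂ × ℂ} {θ : ℝ → ℝ} (hV : IsOpen V) (h0 : ∀ x ∈ V, x ≠ 0)
    (mem : ∀ t, kk K t ∈ V) (hF : ContDiffOn ℝ ∞ F V)
    (eqv : ∀ x ∈ V, F (rh K x) = (conj (F x).1, conj (F x).2) ∧ ‖(F x).1‖ = ‖x‖)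
    (hd : ∀ t, Injective (fderiv ℝ F (kk K t))) (h1 : ∀ t, F (kk K t) = (ee (θ t), 0))
    (h2 : ∀ s t, ee (θ s) = ee (θ t) → ee s = ee t) (h3 : ∀ x, ∃ t, ee (θ t) = ee x) :
    Nonempty (Tube K) := by
  obtain ⟨O, g, o1, o2, o3, o4⟩ := ift (by simp) hV
    ((kk_per K).compact_of_continuous Real.two_pi_pos.ne' (kk_cd K).continuous)
    (range_subset_iff.2 mem) hF (by
      rintro _ ⟨s, rfl⟩ _ ⟨t, rfl⟩ e
      rw [h1, h1] at e
      exact per_ee (kk_per K) (h2 _ _ (congrArg Prod.fst e))) (forall_mem_range.2 hd)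
  have o5 : IsOpen (O ∩ rh K ⁻¹' O) := ContinuousOn.isOpen_inter_preimage
    (fun x hx => (rh_cd K (h0 x (o3 hx))).continuousAt.continuousWithinAt) o1 o1
  have m1 : ∀ t, kk K t ∈ O ∩ rh K ⁻¹' O := fun t => ⟨o2 ⟨t, rfl⟩, by
    obtain ⟨s, hs⟩ := kk_rh K t
    exact o2 ⟨s, by simpa using (hs 1 one_pos).symm⟩⟩
  obtain ⟨ε, ε0, hε⟩ := Metric.eventually_nhds_iff.1 (ev_circ (f := Prod.swap) (x := (0 : ℂ))
    continuous_swap (open_image o5 fun x hx => (o4 x hx.1).2.1) fun t =>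
      let ⟨s, hs⟩ := h3 t
      ⟨_, m1 s, hs ▸ h1 s⟩)
  have n2 : ∀ v : ℂ, ‖(2 / ε) • v‖ < 2 ↔ ‖v‖ < ε := fun v => by
    rw [norm_smul, Real.norm_of_nonneg (by positivity), div_mul_eq_mul_div, div_lt_iff₀ ε0,
      mul_lt_mul_iff_right₀ two_pos]
  have n3 : ∀ v : ℂ, (2 / ε) • (ε / 2) • v = v := fun v => by
    rw [smul_smul, div_mul_div_cancel₀ ε0.ne', div_self two_ne_zero, one_smul]
  have n4 : ∀ v : ℂ, (ε / 2) • (2 / ε) • v = v := fun v => by
    rw [smul_smul, mul_comm, ← smul_smul, n3]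
  have key : ∀ a v : ℂ, ‖a‖ = 1 → ‖v‖ < 2 → ∃ x : S3, (x : E 4) ∈ O ∩ rh K ⁻¹' O ∧
      F x = (a, (ε / 2) • v) ∧ g (a, (ε / 2) • v) = x := fun a v ha hv => by
    obtain ⟨x, hx, e⟩ := hε (y := (ε / 2) • v) (by rwa [dist_zero_right, ← n2, n3]) a ha
    replace e : F x = (a, (ε / 2) • v) := e
    exact ⟨⟨x, mem_sphere_zero_iff_norm.2 (by rw [← (eqv x (o3 hx.1)).2, e, ha])⟩, hx, e,
      e ▸ (o4 x hx.1).1⟩
  have cF : ∀ x : S3, (x : E 4) ∈ O → ContMDiffAt (𝓡 3) 𝓘(ℝ, ℂ × ℂ) ∞ (fun x : S3 => F x) x :=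
    fun x hx => (hF.contDiffAt (hV.mem_nhds (o3 hx))).contMDiffAt.comp x
      (contMDiff_coe_sphere (n := 3) x)
  have n1 : ∀ x : S3, (x : E 4) ∈ O → ‖(F x).1‖ = 1 := fun x hx =>
    (eqv x (o3 hx)).2.trans (norm_eq_of_mem_sphere x)
  refine ⟨⟨{x | (x : E 4) ∈ O ∩ rh K ⁻¹' O ∧ ‖(F x).2‖ < ε}, fun x => ((F x).1, (2 / ε) • (F x).2),
    fun y => nz (g (‖y.1‖⁻¹ • y.1, (ε / 2) • y.2)), ?_, fun x hx => ?_, fun y hy => ?_,
    fun x hx => ⟨n1 x hx.1.1, (n2 _).2 hx.2, ?_⟩, fun a v ha hv => ?_,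
    fun x => ⟨?_, fun ⟨hx, e⟩ => ?_⟩, fun a v ha hv => ?_⟩⟩
  · exact ContinuousOn.isOpen_inter_preimage (s := ((↑) : S3 → E 4) ⁻¹' (O ∩ rh K ⁻¹' O))
      (f := fun x : S3 => ‖(F x).2‖) (t := Iio ε)
      (fun x hx => (cF x hx.1).continuousAt.snd.norm.continuousWithinAt)
      (o5.preimage continuous_subtype_val) isOpen_Iio
  · exact ((show ContDiff ℝ ∞ fun y : ℂ × ℂ => (y.1, (2 / ε) • y.2) by
      fun_prop).contMDiff.contMDiffAt.comp x (cF x hx.1.1)).contMDiffWithinAt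
  · obtain ⟨x, hx, e1, e2⟩ := key _ _ (norm_smul_inv_norm (𝕜 := ℝ) hy.1) hy.2
    have c : ContDiffAt ℝ ∞ (fun y : ℂ × ℂ => (‖y.1‖⁻¹ • y.1, (ε / 2) • y.2)) y :=
      (((contDiffAt_fst.norm ℝ hy.1).inv (norm_ne_zero_iff.2 hy.1)).smul contDiffAt_fst).prodMk
        (contDiffAt_snd.const_smul _)
    exact ((nz_cm (x := g (‖y.1‖⁻¹ • y.1, (ε / 2) • y.2))
      (fun e => ne_zero_of_mem_unit_sphere x (e2.symm.trans e))).comp y
        (ContDiffAt.comp (g := g) y (e1 ▸ (o4 x hx.1).2.2) c).contMDiffAt).contMDiffWithinAt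
  · simp only [n1 x hx.1.1, inv_one, one_smul, n4, (o4 x hx.1.1).1, nz_val]
  · obtain ⟨x, hx, e1, e2⟩ := key a v ha hv
    simp only [ha, inv_one, one_smul, e2, nz_val, mem_setOf_eq, e1, n3, ← n2, hv, hx, and_self]
  · rintro ⟨z, rfl⟩
    have e : (K.k z : E 4) = kk K (arg z) := by rw [kk, Circle.exp_arg]
    simp only [mem_setOf_eq, e, m1, h1, norm_zero, ε0, smul_zero, and_self]
  · obtain ⟨t, ht⟩ := h3 (arg (F x).1)
    have e1 : F (kk K t) = F x := by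
      rw [h1, ht, ee_arg (n1 x hx.1.1)]
      exact Prod.ext rfl ((smul_eq_zero.1 e).resolve_left (by positivity)).symm
    exact ⟨_, Subtype.ext ((o4 _ (m1 t).1).1.symm.trans (e1 ▸ (o4 _ hx.1.1).1))⟩
  · obtain ⟨x, hx, e1, e2⟩ := key a v ha hv
    have e3 := (eqv x (o3 hx.1)).1
    have e4 := (o4 _ hx.2).1
    rw [e3, e1, rh_val] at e4
    simp only [real_smul, map_mul, conj_ofReal] at e4
    simp only [ha, norm_conj, inv_one, one_smul, e2, nz_val]
    rw [real_smul, e4, nz_val]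

theorem chart : ∃ Φ : ℂ × ℂ → E 4, ContDiffOn ℝ ∞ Φ {y | y.1 ≠ 0} ∧
    (∀ c : ℝ, 0 < c → ∀ t, Φ (c • ee t, 0) = c • kk K t) ∧
      ∀ t, Injective (fderiv ℝ Φ (ee t, 0)) := by
  obtain ⟨e, n, c, p, h⟩ := frame K
  let Φ := fun y : ℂ × ℂ => ‖y.1‖ • kk K (arg y.1) + y.2.re • e + y.2.im • n (arg y.1)
  have cΦ : ∀ y : ℂ × ℂ, y.1 ≠ 0 → ContDiffAt ℝ ∞ Φ y := fun y hy =>
    (((contDiffAt_fst.norm ℝ hy).smul ((per_cd (kk_per K) (kk_cd K) hy).comp y contDiffAt_fst)).add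
      ((reCLM.contDiff.contDiffAt.comp y contDiffAt_snd).smul contDiffAt_const)).add
      ((imCLM.contDiff.contDiffAt.comp y contDiffAt_snd).smul
        ((per_cd p c hy).comp y contDiffAt_fst))
  have e1 : ∀ c : ℝ, 0 < c → ∀ t v, Φ (c • ee t, v) = c • kk K t + v.re • e + v.im • n t :=
    fun c hc t v => by
      simp only [Φ, per_arg (kk_per K) hc, per_arg p hc, norm_smul, norm_ee, mul_one,
        Real.norm_of_nonneg hc.le]
  refine ⟨Φ, fun y hy => (cΦ y hy).contDiffWithinAt, fun c hc t => by rw [e1 c hc]; simp,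
    fun t => (injective_iff_map_eq_zero _).2 fun w hw => ?_⟩
  have d := ((cΦ (ee t, 0) (ee_ne t)).differentiableAt (by simp)).hasFDerivAt
  obtain ⟨u, v⟩ := w
  obtain ⟨u, rfl⟩ := mul_right_surjective₀ (ee_ne t) u
  have a1 : HasDerivAt (fun x : ℝ => (((1 + x * u.re) • ee (t + x * u.im), x • v) : ℂ × ℂ))
      (u * ee t, v) 0 := by
    have b1 := ((hasDerivAt_id (0 : ℝ)).mul_const u.re).const_add 1
    have b2 := (ee_d _).scomp 0 (((hasDerivAt_id (0 : ℝ)).mul_const u.im).const_add t)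
    refine ((b1.smul b2).prodMk ((hasDerivAt_id (0 : ℝ)).smul_const v)).congr_deriv
      (Prod.ext ?_ (one_smul _ _))
    simp only [id, comp, zero_mul, add_zero, one_mul, one_smul, real_smul]
    linear_combination ee t * re_add_im u
  have a2 : HasDerivAt (fun x : ℝ => (1 + x * u.re) • kk K (t + x * u.im) + (x * v.re) • e +
      (x * v.im) • n (t + x * u.im))
      (u.re • kk K t + u.im • deriv (kk K) t + v.re • e + v.im • n t) 0 := by
    have b0 := fun a : ℝ => (hasDerivAt_id (0 : ℝ)).mul_const a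
    have b2 := (b0 u.im).const_add t
    refine (((((b0 u.re).const_add 1).smul (((kk_cd K).differentiable (by simp) _).hasDerivAt.scomp
      0 b2)).add ((b0 v.re).smul_const e)).add ((b0 v.im).smul
        ((c.differentiable (by simp) _).hasDerivAt.scomp 0 b2))).congr_deriv ?_
    simp [add_comm]
  have k := (HasFDerivAt.comp_hasDerivAt_of_eq (0 : ℝ) d a1 (by simp)).unique
    (a2.congr_of_eventuallyEq (((show ContinuousAt (fun x : ℝ => 1 + x * u.re) 0 by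
      fun_prop).eventually (lt_mem_nhds (show (0 : ℝ) < 1 + 0 * u.re by simp))).mono fun x hx => by
        simp only [comp, e1 _ hx, smul_re, smul_im, smul_eq_mul]))
  obtain ⟨k1, k2, k3, k4⟩ := h t _ _ _ _ (k.symm.trans hw)
  rw [Complex.ext (z := u) (w := 0) k1 k2, Complex.ext (z := v) (w := 0) k3 k4]
  simp

end Pool.Agent.Lib.MP_7ac2ff_gt.Tb
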