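import Pool.Agent.Lib.MP_7ac2ff_gt.Defs

namespace Pool.Agent.Lib.MP_7ac2ff_gt

open Set Function
open scoped Manifold ContDiff Topology ComplexConjugate

/-- equivariant tubular neighbourhood in coordinates (point of the unit circle, normal disc) -/
structure Tube (K : DSI) where
  U : Set S3
  P : S3 → ℂ × ℂ
  Θ : ℂ × ℂ → S3
  opn : IsOpen U
  sP : ContMDiffOn (𝓡 3) 𝓘(ℝ, ℂ × ℂ) ∞ P U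
  sΘ : ContMDiffOn 𝓘(ℝ, ℂ × ℂ) (𝓡 3) ∞ Θ {y | y.1 ≠ 0 ∧ ‖y.2‖ < 2}
  left : ∀ x ∈ U, ‖(P x).1‖ = 1 ∧ ‖(P x).2‖ < 2 ∧ Θ (P x) = x
  right : ∀ a v, ‖a‖ = 1 → ‖v‖ < 2 → Θ (a, v) ∈ U ∧ P (Θ (a, v)) = (a, v)
  knot : ∀ x, x ∈ range K.k ↔ x ∈ U ∧ (P x).2 = 0
  eqv : ∀ a v, ‖a‖ = 1 → ‖v‖ < 2 → K.ρ (Θ (a, v)) = Θ (conj a, conj v)

/-- γ parametrises the closed half-axis H from Θ (e, 0) to Θ (-e, 0), radially near the ends -/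
structure Arc {K : DSI} (T : Tube K) (e : ℂ) (H : Set S3) (γ : ℝ → S3) : Prop where
  cont : Continuous γ
  inj : InjOn γ (Icc (-2) 2)
  img : γ '' Icc (-2) 2 = H
  lft : ∀ x ∈ Icc (-2 : ℝ) (-1), γ x = T.Θ (e, ((x + 2 : ℝ) : ℂ))
  rgt : ∀ x ∈ Icc (1 : ℝ) 2, γ x = T.Θ (-e, ((x - 2 : ℝ) : ℂ))
  mid : ∀ x ∈ Ioo (-1 : ℝ) 1, ¬(γ x ∈ T.U ∧ ‖(T.P (γ x)).2‖ ≤ 1)

end Pool.Agent.Lib.MP_7ac2ff_gt
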